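import Pool.Agent.P.MP_411dac_pr.Df

/-!
Algebra of the convolution.
-/

set_option autoImplicit false
set_option linter.unusedVariables false

noncomputable section

namespace Pool.Agent.P.SM

open MeasureTheory ProbabilityTheory Set
open scoped ENNReal

variable {f f' g g' : ℝ → ℝ≥0∞}

theorem lc_mono (h : f ≤ f') (h' : g ≤ g') : f ⋆ₗ g ≤ f' ⋆ₗ g' := by
  intro x
  simp only [lconvolution_def]
  exact lintegral_mono fun y => mul_le_mul' (h y) (h' _)

theorem lc_comm (f g : ℝ → ℝ≥0∞) : f ⋆ₗ g = g ⋆ₗ f := by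
  exact lconvolution_comm

theorem lc_add (hf : Measurable f) (hg : Measurable g) (g' : ℝ → ℝ≥0∞) :
    f ⋆ₗ (g + g') = f ⋆ₗ g + f ⋆ₗ g' := by
  funext x
  simp only [lconvolution_def, Pi.add_apply, mul_add]
  exact lintegral_add_left (hf.mul (hg.comp (measurable_neg.add_const x))) _

theorem add_lc (hf : Measurable f) (hg : Measurable g) (f' : ℝ → ℝ≥0∞) :
    (f + f') ⋆ₗ g = f ⋆ₗ g + f' ⋆ₗ g := by
  rw [lc_comm, lc_add hg hf, lc_comm g f, lc_comm g f']

theorem smul_lc (c : ℝ≥0∞) (hf : Measurable f) (hg : Measurable g) :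
    (fun x => c * f x) ⋆ₗ g = fun x => c * (f ⋆ₗ g) x := by
  funext x
  simp only [lconvolution_def, mul_assoc]
  exact lintegral_const_mul c (hf.mul (hg.comp (measurable_neg.add_const x)))

theorem lint_lc {φ : ℝ → ℝ≥0∞} (hφ : Measurable φ) (hf : Measurable f) (hg : Measurable g) :
    ∫⁻ x, φ x * (f ⋆ₗ g) x = ∫⁻ u, ∫⁻ v, φ (u + v) * (f u * g v) := by
  have h1 : ∀ x, φ x * (f ⋆ₗ g) x = ∫⁻ u, φ x * (f u * g (-u + x)) := by
    intro x
    rw [lconvolution_def]
    exact (lintegral_const_mul (φ x) (hf.mul (hg.comp (measurable_neg.add_const x)))).symm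
  simp only [h1]
  rw [lintegral_lintegral_swap]
  · refine lintegral_congr fun u => ?_
    rw [← lintegral_add_left_eq_self (fun x => φ x * (f u * g (-u + x))) u]
    simp only [neg_add_cancel_left]
  · refine Measurable.aemeasurable ?_
    exact (hφ.comp measurable_fst).mul
      ((hf.comp measurable_snd).mul (hg.comp (measurable_snd.neg.add measurable_fst)))

theorem measurableSet_cl (j : ℕ) : MeasurableSet (cl j) := by
  exact measurableSet_Ico

theorem measurable_cellD (j : ℕ) (α β : ℝ) : Measurable (cellD j α β) := by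
  unfold cellD
  refine Measurable.indicator ?_ (measurableSet_cl j)
  fun_prop

theorem cellD_const (j : ℕ) (α : ℝ) :
    cellD j α α = (cl j).indicator fun _ => ENNReal.ofReal α := by
  unfold cellD
  congr 1
  funext x
  congr 1
  ring

theorem cellD_mono (j : ℕ) {α β α' β' : ℝ} (h : α ≤ α') (h' : β ≤ β') :
    cellD j α β ≤ cellD j α' β' := by
  intro x
  unfold cellD
  by_cases hx : x ∈ cl j
  · rw [indicator_of_mem hx, indicator_of_mem hx]
    have h0 : 0 ≤ x - j := sub_nonneg.2 hx.1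
    have h1 : 0 ≤ 1 - (x - j) := by linarith [hx.2]
    exact ENNReal.ofReal_le_ofReal
      (add_le_add (mul_le_mul_of_nonneg_right h h1) (mul_le_mul_of_nonneg_right h' h0))
  · rw [indicator_of_notMem hx, indicator_of_notMem hx]

theorem measurable_oc (c : Bool) (hf : Measurable f) : Measurable (oc c f) := by
  cases c
  · exact measurable_const
  · exact hf

theorem measurable_it (hf : Measurable f) (hg : Measurable g) (m : ℕ) : Measurable (it f g m) := by
  induction m with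
  | zero => exact hg
  | succ m ih => exact measurable_lconvolution volume hf ih

theorem it_mono (h : f ≤ f') (h' : g ≤ g') (m : ℕ) : it f g m ≤ it f' g' m := by
  induction m with
  | zero => exact h'
  | succ m ih => exact lc_mono h ih

theorem it_succ (f g : ℝ → ℝ≥0∞) (m : ℕ) : it f g (m + 1) = it f (f ⋆ₗ g) m := by
  induction m with
  | zero => rfl
  | succ m ih =>
    have e1 : it f g (m + 1 + 1) = f ⋆ₗ it f g (m + 1) := rfl
    have e2 : it f (f ⋆ₗ g) (m + 1) = f ⋆ₗ it f (f ⋆ₗ g) m := rfl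
    rw [e1, e2, ih]

theorem measurable_pl (μ : ℝ) (a b : ℕ → ℝ) : Measurable (pl μ a b) := by
  have hfl : Measurable fun x : ℝ => ⌊x⌋₊ := Nat.measurable_floor
  have ha : Measurable fun x : ℝ => a ⌊x⌋₊ := (measurable_from_nat (f := a)).comp hfl
  have hb : Measurable fun x : ℝ => b ⌊x⌋₊ := (measurable_from_nat (f := b)).comp hfl
  have hc : Measurable fun x : ℝ => ((⌊x⌋₊ : ℕ) : ℝ) :=
    (measurable_from_nat (f := fun n : ℕ => (n : ℝ))).comp hfl
  have hp : Measurable fun x : ℝ => μ ^ ⌊x⌋₊ :=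
    (measurable_from_nat (f := fun n : ℕ => μ ^ n)).comp hfl
  unfold pl
  refine Measurable.ite measurableSet_Ici ?_ measurable_const
  exact (((ha.mul (measurable_const.sub (measurable_id.sub hc))).add
    (hb.mul (measurable_id.sub hc))).div hp).ennreal_ofReal

theorem measurable_wt (μ : ℝ) : Measurable (wt μ) := by
  have hfl : Measurable fun x : ℝ => ⌊x⌋₊ := Nat.measurable_floor
  exact ((measurable_from_nat (f := fun n : ℕ => μ ^ n)).comp hfl).ennreal_ofReal

theorem floor_cell_A0 (l : ℕ) {y : ℝ} (h0 : 0 ≤ y) (h1 : y < 1) : ⌊(l : ℝ) + y⌋₊ = l :=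
  (Nat.floor_eq_iff (add_nonneg (Nat.cast_nonneg l) h0)).2 ⟨by linarith, by linarith⟩

theorem pl_cell (μ : ℝ) (a b : ℕ → ℝ) (l : ℕ) {y : ℝ} (h0 : 0 ≤ y) (h1 : y < 1) :
    pl μ a b (l + y) = ENNReal.ofReal ((a l * (1 - y) + b l * y) / μ ^ l) := by
  have hx : (0 : ℝ) ≤ l + y := add_nonneg (Nat.cast_nonneg l) h0
  unfold pl
  rw [if_pos hx, floor_cell_A0 l h0 h1, add_sub_cancel_left]

theorem wt_cell (μ : ℝ) (l : ℕ) {y : ℝ} (h0 : 0 ≤ y) (h1 : y < 1) :
    wt μ (l + y) = ENNReal.ofReal (μ ^ l) := by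
  unfold wt
  rw [floor_cell_A0 l h0 h1]

theorem exists_cell {x : ℝ} (hx : 0 ≤ x) : ∃ (l : ℕ) (y : ℝ), 0 ≤ y ∧ y < 1 ∧ x = l + y := by
  refine ⟨⌊x⌋₊, x - ⌊x⌋₊, sub_nonneg.2 (Nat.floor_le hx), ?_, by ring⟩
  linarith [Nat.lt_floor_add_one x]

theorem lint_cells (hf : Measurable f) (h0 : ∀ x < 0, f x = 0) :
    ∫⁻ x, f x = ∑' l : ℕ, ∫⁻ y in Ico (0 : ℝ) 1, f (l + y) := by
  have hU : (⋃ l : ℕ, cl l) = Ici (0 : ℝ) := by
    ext x
    simp only [mem_iUnion, mem_Ici]
    constructor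
    · rintro ⟨l, hl⟩
      exact (Nat.cast_nonneg l).trans hl.1
    · intro hx
      exact ⟨⌊x⌋₊, Nat.floor_le hx, Nat.lt_floor_add_one x⟩
  have hd : Pairwise (Function.onFun Disjoint fun l : ℕ => cl l) := by
    intro i j hij
    refine Set.disjoint_left.2 fun x hi hj => hij ?_
    have e1 : ⌊x⌋₊ = i := (Nat.floor_eq_iff ((Nat.cast_nonneg i).trans hi.1)).2 ⟨hi.1, hi.2⟩
    have e2 : ⌊x⌋₊ = j := (Nat.floor_eq_iff ((Nat.cast_nonneg j).trans hj.1)).2 ⟨hj.1, hj.2⟩
    exact e1.symm.trans e2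
  have h1 : ∫⁻ x, f x = ∫⁻ x in Ici (0 : ℝ), f x := by
    rw [← lintegral_indicator measurableSet_Ici]
    refine lintegral_congr fun x => ?_
    by_cases hx : x ∈ Ici (0 : ℝ)
    · rw [indicator_of_mem hx]
    · rw [indicator_of_notMem hx]
      exact h0 x (not_le.1 hx)
  rw [h1, ← hU, lintegral_iUnion measurableSet_cl hd]
  refine tsum_congr fun l => ?_
  rw [← lintegral_indicator (measurableSet_cl l), ← lintegral_indicator measurableSet_Ico,
    ← lintegral_add_left_eq_self _ (l : ℝ)]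
  refine lintegral_congr fun y => ?_
  by_cases hy : y ∈ Ico (0 : ℝ) 1
  · have hy' : (l : ℝ) + y ∈ cl l := ⟨by linarith [hy.1], by linarith [hy.2]⟩
    rw [indicator_of_mem hy, indicator_of_mem hy']
  · have hy' : (l : ℝ) + y ∉ cl l := fun h => hy ⟨by linarith [h.1], by linarith [h.2]⟩
    rw [indicator_of_notMem hy, indicator_of_notMem hy']

end Pool.Agent.P.SM
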