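import Pool.Agent.P.MP_411dac_pr.Prog

/-! The parameters of the computation and the decoding of the intermediate data. -/

set_option autoImplicit false

namespace Pool.Agent.P.SM

def join (s : Nat) : List Nat → Nat
  | [] => 0
  | a :: l => a + (join s l <<< s)

/-- from width `i` to width `w`; there are `c * 2 ^ k` digits -/
def spr (i w : Nat) : Nat → Nat → Nat → Nat
  | 0, _, N => N
  | k + 1, c, N =>
    frc (ones (w * 2 ^ (k + 1)) c * ((1 <<< (i * 2 ^ k)) - 1)) fun m =>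
      frc ((N &&& m) + (((N >>> (i * 2 ^ k)) &&& m) <<< (w * 2 ^ k))) fun N' =>
        frc (2 * c) fun c' => spr i w k c' N'

def mkV (p : Pm) (i : Nat) (a b : List Nat) (t s k : Nat) : V :=
  ⟨spr i p.w p.k 1 (join 8192 a), spr i p.w p.k 1 (join 8192 b), t, s, k, true⟩

/-- evaluate first -/
def frcS {α : Type} (z : V × V) (f : V × V → α) : α :=
  frcV z.1 fun e => frcV z.2 fun o => f (e, o)

def nil : V := ⟨0, 0, 0, 0, 0, true⟩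

def P1 : Ph := ⟨⟨128, 40, 12, 4104, 3072, 12⟩, ⟨128, 40, 12, 4106, 3072, 12⟩, 2, false, 524289⟩
def P2 : Ph := ⟨⟨128, 40, 12, 4104, 3072, 12⟩, ⟨128, 40, 12, 4104, 3072, 12⟩, 2, false, 524289⟩
def P3 : Ph := ⟨⟨128, 40, 12, 4104, 3072, 12⟩, ⟨128, 40, 12, 4102, 4096, 12⟩, 2, false, 524289⟩
def P4 : Ph := ⟨⟨128, 40, 12, 4104, 3072, 12⟩, ⟨128, 40, 12, 4102, 4608, 13⟩, 2, false, 524289⟩
def P5 : Ph := ⟨⟨144, 44, 12, 4112, 1536, 11⟩, ⟨144, 44, 12, 4104, 3072, 12⟩, 3, false, 524289⟩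
def P6 : Ph := ⟨⟨144, 44, 12, 4112, 1536, 11⟩, ⟨144, 44, 12, 4103, 4096, 12⟩, 3, false, 524289⟩
def P7 : Ph := ⟨⟨160, 48, 12, 4112, 1536, 11⟩, ⟨160, 48, 12, 4096, 4096, 12⟩, 3, true, 524289⟩
def P8 : Ph := ⟨⟨160, 48, 12, 4112, 1536, 11⟩, ⟨160, 48, 12, 4096, 2048, 11⟩, 4, true, 524289⟩
def P9 : Ph := ⟨⟨160, 52, 12, 4112, 1536, 11⟩, ⟨160, 52, 12, 4096, 1024, 10⟩, 4, true, 524289⟩
def P10 : Ph := ⟨⟨176, 56, 12, 4112, 1536, 11⟩, ⟨176, 56, 12, 4096, 512, 9⟩, 4, true, 524289⟩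
def P11 : Ph := ⟨⟨192, 60, 12, 4122, 1024, 10⟩, ⟨192, 60, 12, 4096, 256, 8⟩, 4, true, 524289⟩
def P12 : Ph := ⟨⟨192, 64, 12, 4141, 1024, 10⟩, ⟨192, 64, 12, 4096, 128, 7⟩, 4, true, 524289⟩
def P13 : Ph := ⟨⟨192, 64, 12, 4166, 768, 10⟩, ⟨192, 64, 12, 4096, 64, 6⟩, 4, true, 524289⟩
def p14 : Pm := ⟨192, 64, 12, 4186, 768, 10⟩
def p15 : Pm := ⟨192, 64, 12, 4224, 768, 10⟩

def z0 : V × V := (init P1.e 4261543596 4294967296 8589934592, nil)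

end Pool.Agent.P.SM
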