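import Pool.Agent.P.MP_411dac_pr.C20

/-! Part 21 of the computation. -/

set_option autoImplicit false

namespace Pool.Agent.P.SM

theorem chunk21 : (frcV e20 fun y => frcV (reg1 p14 p15 y) fun y' =>
    frcV (runE p15 4 4722366482869645213696 32 32 y') fun y'' => fin p15 256 64 y'') = true := by
  decide +kernel

end Pool.Agent.P.SM
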