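import Pool.Agent.P.MP_411dac_pr.D1

/-!
An infinite component.
Hints. For t ≥ max T 0 let H be the G-edges of length ≤ t. A point between two gaps longer than t has
a free stub, so there are a last such point u ≤ 0 and a first such point v > 0 (`Int.exists_greatest_of_bdd`).
`seg` with g = 0 gives w reachable from u with all gaps between w and 0 shorter than T, so w lies in
the finite set (i₀, 0] where i₀ ≤ 0 has T < x i₀. The point u has an edge of length ≥ t. If all
components are finite, the edges at the points reachable from (i₀, 0] have bounded length.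
-/

set_option autoImplicit false
set_option linter.unusedVariables false

noncomputable section

namespace Pool.Agent.P.SM

open MeasureTheory ProbabilityTheory Set
open scoped ENNReal

theorem far_D2 {x : ℤ → ℝ} (hx : ∀ i, 0 < x i) {t : ℝ} {i z : ℤ} (h1 : t < x (i - 1))
    (h2 : t < x i) (hz : i ≠ z) : t < |pos x i - pos x z| := by
  have hm := (pos_strictMono hx).monotone
  rcases lt_or_gt_of_ne hz with h | h
  · have h3 : pos x (i + 1) ≤ pos x z := hm (by omega)
    rw [pos_succ] at h3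
    rw [abs_sub_comm]
    exact lt_of_lt_of_le (by linarith) (le_abs_self _)
  · have h3 : pos x z ≤ pos x (i - 1) := hm (by omega)
    have h4 := pos_succ x (i - 1)
    rw [sub_add_cancel] at h4
    exact lt_of_lt_of_le (by linarith) (le_abs_self _)

/-- the edges of length at most `t` -/
def cutG_D2 (p : ℤ → ℝ) (G : SimpleGraph ℤ) (t : ℝ) : SimpleGraph ℤ where
  Adj u v := G.Adj u v ∧ |p u - p v| ≤ t
  symm := ⟨fun u v h => ⟨h.1.symm, by rw [abs_sub_comm]; exact h.2⟩⟩
  loopless := ⟨fun u h => G.loopless.1 u h.1⟩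

theorem cut_D2 (p : ℤ → ℝ) (G : SimpleGraph ℤ) (t : ℝ) : Cut p G (cutG_D2 p G t) t where
  le := fun u v h => h.1
  short := fun u v h => h.2
  long := fun u v h h' => by
    by_contra hc
    exact h' ⟨h, (not_le.1 hc).le⟩

theorem uns_D2 {x : ℤ → ℝ} {G : SimpleGraph ℤ} (hx : ∀ i, 0 < x i) (hG : Stable (pos x) G)
    {t : ℝ} {i : ℤ} (h1 : t < x (i - 1)) (h2 : t < x i) : Uns G (cutG_D2 (pos x) G t) i := by
  have hne : (G.neighborSet i).Nonempty := by
    apply Set.nonempty_of_ncard_ne_zero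
    rw [hG.deg]
    norm_num
  obtain ⟨z, hz⟩ := hne
  have hz' : G.Adj i z := hz
  exact ⟨z, hz', fun h => absurd h.2 (not_le.2 (far_D2 hx h1 h2 hz'.ne))⟩

theorem exists_inf {x : ℤ → ℝ} {G : SimpleGraph ℤ} {T : ℝ} (hx : Good x)
    (hG : Stable (pos x) G) (hb : ¬BadAt T x 0) : ∃ v, {z | G.Reachable v z}.Infinite := by
  classical
  by_contra hcon
  have hfin : ∀ v, {z | G.Reachable v z}.Finite := fun v => by
    by_contra h
    exact hcon ⟨v, h⟩
  obtain ⟨i₀, hi₀, -, hT⟩ := hx.left T 0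
  have hB : (⋃ w ∈ Set.Ioc i₀ 0, {z | G.Reachable w z}).Finite :=
    (Set.finite_Ioc i₀ 0).biUnion fun w _ => hfin w
  set B := ⋃ w ∈ Set.Ioc i₀ 0, {z | G.Reachable w z} with hBdef
  obtain ⟨M, hM⟩ := ((hB.prod hB).image fun q : ℤ × ℤ => |pos x q.1 - pos x q.2|).bddAbove
  set t := max (max T 0) (M + 1) with ht
  have ht0 : 0 ≤ t := le_trans (le_max_right T 0) (le_max_left _ _)
  have htT : T ≤ t := le_trans (le_max_left T 0) (le_max_left _ _)
  have htM : M + 1 ≤ t := le_max_right _ _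
  set H := cutG_D2 (pos x) G t with hH
  have hc : Cut (pos x) G H t := cut_D2 _ _ _
  obtain ⟨u, ⟨hu0, hu⟩, humax⟩ := Int.exists_greatest_of_bdd (P := fun z => z ≤ 0 ∧ Uns G H z)
    ⟨0, fun z hz => hz.1⟩ (by
      obtain ⟨i, hi, h1, h2⟩ := hx.left t 0
      exact ⟨i, hi, uns_D2 hx.gap hG h1 h2⟩)
  obtain ⟨v, ⟨hv0, hv⟩, hvmin⟩ := Int.exists_least_of_bdd (P := fun z => 1 ≤ z ∧ Uns G H z)
    ⟨1, fun z hz => hz.1⟩ (by
      obtain ⟨i, hi, h1, h2⟩ := hx.right t 1
      exact ⟨i, hi, uns_D2 hx.gap hG h1 h2⟩)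
  have hk : u + ((v - u).toNat : ℤ) = v := by omega
  have hk0 : 0 < (v - u).toNat := by omega
  have hm : ∀ z, u < z → z < u + ((v - u).toNat : ℤ) → ¬Uns G H z := by
    intro z h1 h2 hz
    rcases le_or_gt z 0 with h | h
    · have := humax z ⟨h, hz⟩
      omega
    · have := hvmin z ⟨h, hz⟩
      omega
  rcases seg hx.gap hG T ht0 hc hk0 hu (by rw [hk]; exact hv) hm with ⟨b, hw, hS⟩ | h
  · exact hb ⟨u, _, b, hu0, by omega, hw, htT.trans hS⟩
  · rcases h 0 hu0 (by omega) with h | ⟨w, hw, hw0, hwT⟩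
    · exact hb h
    · have hwi : i₀ < w := by
        by_contra h'
        exact absurd (hwT i₀ (not_lt.1 h') hi₀) (not_lt.2 hT.le)
      obtain ⟨z, hz, hz'⟩ := hu
      have huB : u ∈ B := Set.mem_biUnion (show w ∈ Set.Ioc i₀ 0 from ⟨hwi, hw0⟩) hw.symm
      have hzB : z ∈ B := Set.mem_biUnion (show w ∈ Set.Ioc i₀ 0 from ⟨hwi, hw0⟩)
        (hw.symm.trans hz.reachable)
      have h1 : |pos x u - pos x z| ≤ M := hM ⟨(u, z), ⟨huB, hzB⟩, rfl⟩
      have h2 := hc.long u z hz hz'
      linarith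

end Pool.Agent.P.SM
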