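import Pool.Agent.P.MP_411dac_pr.D3

/-!
The greedy graph is the stable multi-matching.
Hints. Two different points z, z' ≠ u have different distances from u (`Good.tie`, `pos_strictMono`).
`GS_eq`: a stable graph satisfies the equation of `adj_unique`. `GS_three`: the farthest of three
neighbours contradicts `GS_fix`. `few`: two points without two neighbours are adjacent by `GS_fix`.
`GS_shift`: induction on n for adjN with `pos_shift`.
-/

set_option autoImplicit false
set_option linter.unusedVariables false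

noncomputable section

namespace Pool.Agent.P.SM

open MeasureTheory ProbabilityTheory Set
open scoped ENNReal

variable {x : ℤ → ℝ}

theorem dist_inj_D4 (hx : Good x) {u z z' : ℤ}
    (h : |pos x u - pos x z| = |pos x u - pos x z'|) : z = z' := by
  have hm := pos_strictMono hx.gap
  rcases abs_eq_abs.1 h with e | e
  · exact hm.injective (by linarith)
  · rcases lt_trichotomy z u with k | k | k
    · have h1 := hm k
      exact (hx.tie z u z' k (hm.lt_iff_lt.1 (by linarith)) (by linarith)).elim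
    · subst k
      exact hm.injective (by linarith)
    · have h1 := hm k
      exact (hx.tie z' u z (hm.lt_iff_lt.1 (by linarith)) k (by linarith)).elim

theorem not_full_D4 {p : ℤ → ℝ} {G : SimpleGraph ℤ} (hG : Stable p G) {u v : ℤ} (h : G.Adj u v) :
    ¬Full p G.Adj u |p u - p v| := by
  rintro ⟨z, z', h0, h1, h2, h3, h4⟩
  have k1 : z ≠ v := fun e => by simp [e] at h3
  have k2 : z' ≠ v := fun e => by simp [e] at h4
  obtain ⟨a, b, -, e⟩ := Set.ncard_eq_two.1 (hG.deg u)
  have m : ∀ w, G.Adj u w → w = a ∨ w = b := fun w hw => by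
    have : w ∈ G.neighborSet u := hw
    rw [e] at this
    simpa using this
  rcases m z h1 with e1 | e1 <;> rcases m z' h2 with e2 | e2 <;> rcases m v h with e3 | e3 <;>
    omega

theorem full_D4 (hx : Good x) {G : SimpleGraph ℤ} (hG : Stable (pos x) G) {u v : ℤ}
    (h : ¬G.Adj u v) (k : ∀ z, G.Adj u z → |pos x u - pos x z| ≤ |pos x u - pos x v|) :
    Full (pos x) G.Adj u |pos x u - pos x v| := by
  obtain ⟨a, b, hab, e⟩ := Set.ncard_eq_two.1 (hG.deg u)
  have ha : G.Adj u a := by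
    have : a ∈ G.neighborSet u := by rw [e]; simp
    exact this
  have hb : G.Adj u b := by
    have : b ∈ G.neighborSet u := by rw [e]; simp
    exact this
  exact ⟨a, b, hab, ha, hb, lt_of_le_of_ne (k a ha) fun e => h (dist_inj_D4 hx e ▸ ha),
    lt_of_le_of_ne (k b hb) fun e => h (dist_inj_D4 hx e ▸ hb)⟩

theorem GS_eq (hx : Good x) {G : SimpleGraph ℤ} (hG : Stable (pos x) G) : G = GS (pos x) := by
  ext u v
  refine adj_unique hx (R := G.Adj) (R' := (GS (pos x)).Adj) (fun u v => ⟨fun h =>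
    ⟨h.ne, not_full_D4 hG h, ?_⟩, fun ⟨h0, h1, h2⟩ => by_contra fun h => ?_⟩) (GS_fix hx) u v
  · rw [abs_sub_comm]
    exact not_full_D4 hG h.symm
  · rcases hG.stab u v h0 with k | k | k
    · exact h k
    · exact h1 (full_D4 hx hG h k)
    · rw [abs_sub_comm] at h2 k
      exact h2 (full_D4 hx hG (fun k' => h k'.symm) k)

theorem far_D4 (hx : Good x) {u a b c : ℤ} (ha : (GS (pos x)).Adj u a)
    (hb : (GS (pos x)).Adj u b) (hc : (GS (pos x)).Adj u c) (hab : a ≠ b)
    (h1 : |pos x u - pos x a| < |pos x u - pos x c|)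
    (h2 : |pos x u - pos x b| < |pos x u - pos x c|) : False :=
  ((GS_fix hx u c).1 hc).2.1 ⟨a, b, hab, ha, hb, h1, h2⟩

theorem GS_three (hx : Good x) {u a b c : ℤ} (ha : (GS (pos x)).Adj u a)
    (hb : (GS (pos x)).Adj u b) (hc : (GS (pos x)).Adj u c) : a = b ∨ a = c ∨ b = c := by
  by_contra h
  push Not at h
  obtain ⟨hab, hac, hbc⟩ := h
  rcases lt_or_gt_of_ne fun e => hab (dist_inj_D4 (u := u) hx e) with k1 | k1
  · rcases lt_or_gt_of_ne fun e => hbc (dist_inj_D4 (u := u) hx e) with k2 | k2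
    · exact far_D4 hx ha hb hc hab (k1.trans k2) k2
    · exact far_D4 hx ha hc hb hac k1 k2
  · rcases lt_or_gt_of_ne fun e => hac (dist_inj_D4 (u := u) hx e) with k2 | k2
    · exact far_D4 hx ha hb hc hab k2 (k1.trans k2)
    · exact far_D4 hx hb hc ha hbc k1 k2

theorem le_of_full_D4 (hx : Good x) {u : ℤ} {d : ℝ} (h : Full (pos x) (GS (pos x)).Adj u d)
    (w : ℤ) (hw : (GS (pos x)).Adj u w) : |pos x u - pos x w| ≤ d := by
  obtain ⟨z, z', h0, h1, h2, h3, h4⟩ := h
  rcases GS_three hx h1 h2 hw with e | e | e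
  · exact (h0 e).elim
  · exact e ▸ h3.le
  · exact e ▸ h4.le

theorem GS_stable (hx : Good x) (h2 : ∀ v, Two (pos x) v) : Stable (pos x) (GS (pos x)) := by
  refine ⟨fun v => ?_, fun u v huv => ?_⟩
  · obtain ⟨z, z', h0, h1, h3⟩ := h2 v
    refine Set.ncard_eq_two.2 ⟨z, z', h0, Set.ext fun w => ⟨fun hw => ?_, ?_⟩⟩
    · rcases GS_three hx h1 h3 hw with e | e | e
      · exact (h0 e).elim
      · exact Or.inl e.symm
      · exact Or.inr e.symm
    · rintro (rfl | rfl)
      exacts [h1, h3]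
  · by_cases k1 : Full (pos x) (GS (pos x)).Adj u |pos x u - pos x v|
    · exact Or.inr (Or.inl (le_of_full_D4 hx k1))
    by_cases k2 : Full (pos x) (GS (pos x)).Adj v |pos x u - pos x v|
    · exact Or.inr (Or.inr (le_of_full_D4 hx k2))
    exact Or.inl ((GS_fix hx u v).2 ⟨huv, k1, k2⟩)

theorem two_of_full_D4 {p : ℤ → ℝ} {u : ℤ} {d : ℝ} (h : Full p (GS p).Adj u d) : Two p u := by
  obtain ⟨z, z', h0, h1, h2, -⟩ := h
  exact ⟨z, z', h0, h1, h2⟩

theorem few (hx : Good x) {a b c : ℤ} (hab : a ≠ b) (hac : a ≠ c) (hbc : b ≠ c) :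
    Two (pos x) a ∨ Two (pos x) b ∨ Two (pos x) c := by
  by_contra h
  rw [not_or, not_or] at h
  obtain ⟨ha, hb, hc⟩ := h
  exact ha ⟨b, c, hbc,
    (GS_fix hx a b).2 ⟨hab, fun k => ha (two_of_full_D4 k), fun k => hb (two_of_full_D4 k)⟩,
    (GS_fix hx a c).2 ⟨hac, fun k => ha (two_of_full_D4 k), fun k => hc (two_of_full_D4 k)⟩⟩

theorem full_shift_D4 {p p' : ℤ → ℝ} {R R' : ℤ → ℤ → Prop} {i : ℤ}
    (hp : ∀ a b, p' a - p' b = p (a + i) - p (b + i)) (hR : ∀ a b, R' a b ↔ R (a + i) (b + i))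
    (u : ℤ) (d : ℝ) : Full p' R' u d ↔ Full p R (u + i) d := by
  constructor
  · rintro ⟨z, z', h0, h1, h2, h3, h4⟩
    exact ⟨z + i, z' + i, by omega, (hR _ _).1 h1, (hR _ _).1 h2, hp u z ▸ h3, hp u z' ▸ h4⟩
  · rintro ⟨z, z', h0, h1, h2, h3, h4⟩
    refine ⟨z - i, z' - i, by omega, (hR _ _).2 ?_, (hR _ _).2 ?_, ?_, ?_⟩
    · rwa [sub_add_cancel]
    · rwa [sub_add_cancel]
    · rwa [hp, sub_add_cancel]
    · rwa [hp, sub_add_cancel]

theorem adjN_shift_D4 {p p' : ℤ → ℝ} {i : ℤ}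
    (hp : ∀ a b, p' a - p' b = p (a + i) - p (b + i)) (n : ℕ) :
    ∀ a b, adjN p' n a b ↔ adjN p n (a + i) (b + i) := by
  induction n with
  | zero => exact fun _ _ => Iff.rfl
  | succ n ih =>
    intro a b
    simp only [adjN]
    rw [full_shift_D4 hp ih, full_shift_D4 hp ih, hp]
    exact and_congr_left' (by omega)

theorem GS_shift (x : ℤ → ℝ) (i a b : ℤ) :
    (GS (pos fun k => x (k + i))).Adj a b ↔ (GS (pos x)).Adj (a + i) (b + i) := by
  have hp : ∀ a b, pos (fun k => x (k + i)) a - pos (fun k => x (k + i)) b =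
      pos x (a + i) - pos x (b + i) := fun a b => by
    rw [pos_shift, pos_shift]
    ring
  simp only [GS, SimpleGraph.fromRel_adj, adjN_shift_D4 hp]
  exact and_congr_left' (by omega)

end Pool.Agent.P.SM
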