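import Pool.Agent.P.MP_411dac_pr.F1
import Pool.Agent.P.MP_411dac_pr.D4

/-!
Measurability of the greedy graph; all degrees are two.
Hints. Induction on n for adjN (countable unions over z, z'). Reachability is the reflexive transitive
closure (`SimpleGraph.reachable_iff_reflTransGen`), or the existence of a walk of some length n
(induction on n); a set of integers is infinite iff it is contained in no finset. `ae_two`: the
measurable sets U i = {x | ¬Two (pos x) i} have the same measure q (`GS_shift`, `mp_shift`) and by `few`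
a good x lies in at most two of them, so M * q ≤ 2 for all M.
-/

set_option autoImplicit false
set_option linter.unusedVariables false

noncomputable section

namespace Pool.Agent.P.SM

open MeasureTheory ProbabilityTheory Set
open scoped ENNReal

theorem measurable_pos (i : ℤ) : Measurable fun x : ℤ → ℝ => pos x i := by
  unfold pos
  exact (Finset.measurable_sum _ fun k _ => measurable_pi_apply k).sub
    (Finset.measurable_sum _ fun k _ => measurable_pi_apply k)

theorem meas_dist_F3 (a b : ℤ) : Measurable fun x : ℤ → ℝ => |pos x a - pos x b| :=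
  ((measurable_pos a).sub (measurable_pos b)).abs

theorem meas_full_F3 {R : (ℤ → ℝ) → ℤ → ℤ → Prop} (hR : ∀ u v, Measurable fun x => R x u v)
    (u a b : ℤ) : Measurable fun x : ℤ → ℝ => Full (pos x) (R x) u |pos x a - pos x b| := by
  unfold Full
  refine Measurable.exists fun z => Measurable.exists fun z' => ?_
  refine measurable_const.and ((hR u z).and ((hR u z').and (Measurable.and ?_ ?_)))
  · exact measurableSet_setOfPred.1 (measurableSet_lt (meas_dist_F3 u z) (meas_dist_F3 a b))
  · exact measurableSet_setOfPred.1 (measurableSet_lt (meas_dist_F3 u z') (meas_dist_F3 a b))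

theorem meas_adjN_F3 (n : ℕ) : ∀ u v : ℤ, Measurable fun x : ℤ → ℝ => adjN (pos x) n u v := by
  induction n with
  | zero => intro u v; exact measurable_const
  | succ n ih =>
    intro u v
    exact measurable_const.and
      (((meas_full_F3 (R := fun x => adjN (pos x) n) ih u u v).not).and
        ((meas_full_F3 (R := fun x => adjN (pos x) n) ih v u v).not))

theorem meas_adj_F3 (a b : ℤ) : Measurable fun x : ℤ → ℝ => (GS (pos x)).Adj a b := by
  have h : ∀ u v : ℤ, Measurable fun x : ℤ → ℝ => ∃ m, ∀ n, m ≤ n → adjN (pos x) n u v :=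
    fun u v => Measurable.exists fun m => Measurable.forall fun n =>
      measurable_const.imp (meas_adjN_F3 n u v)
  simp only [GS, SimpleGraph.fromRel_adj]
  exact measurable_const.and ((h a b).or (h b a))

theorem meas_adj (a b : ℤ) : MeasurableSet {x : ℤ → ℝ | (GS (pos x)).Adj a b} := by
  exact measurableSet_setOfPred.2 (meas_adj_F3 a b)

theorem meas_walk_F3 (n : ℕ) : ∀ a b : ℤ,
    Measurable fun x : ℤ → ℝ => ∃ w : (GS (pos x)).Walk a b, w.length = n := by
  induction n with
  | zero =>
    intro a b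
    have : (fun x : ℤ → ℝ => ∃ w : (GS (pos x)).Walk a b, w.length = 0) = fun _ => a = b := by
      funext x
      apply propext
      constructor
      · rintro ⟨w, hw⟩
        exact SimpleGraph.Walk.eq_of_length_eq_zero hw
      · rintro rfl
        exact ⟨SimpleGraph.Walk.nil, rfl⟩
    rw [this]
    exact measurable_const
  | succ n ih =>
    intro a b
    have : (fun x : ℤ → ℝ => ∃ w : (GS (pos x)).Walk a b, w.length = n + 1) =
        fun x => ∃ c, (GS (pos x)).Adj a c ∧ ∃ w : (GS (pos x)).Walk c b, w.length = n := by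
      funext x
      apply propext
      constructor
      · rintro ⟨w, hw⟩
        cases w with
        | nil => simp at hw
        | cons h w => exact ⟨_, h, w, by simpa using hw⟩
      · rintro ⟨c, h, w, hw⟩
        exact ⟨SimpleGraph.Walk.cons h w, by simp [hw]⟩
    rw [this]
    exact Measurable.exists fun c => (meas_adj_F3 a c).and (ih c b)

theorem meas_reach_F3 (a b : ℤ) : Measurable fun x : ℤ → ℝ => (GS (pos x)).Reachable a b := by
  have : (fun x : ℤ → ℝ => (GS (pos x)).Reachable a b) =
      fun x => ∃ n : ℕ, ∃ w : (GS (pos x)).Walk a b, w.length = n := by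
    funext x
    apply propext
    constructor
    · rintro ⟨w⟩
      exact ⟨_, w, rfl⟩
    · rintro ⟨_, w, _⟩
      exact ⟨w⟩
  rw [this]
  exact Measurable.exists fun n => meas_walk_F3 n a b

theorem meas_inf (a : ℤ) :
    MeasurableSet {x : ℤ → ℝ | {v | (GS (pos x)).Reachable a v}.Infinite} := by
  refine measurableSet_setOfPred.2 ?_
  have : (fun x : ℤ → ℝ => {v | (GS (pos x)).Reachable a v}.Infinite) =
      fun x => ∀ s : Finset ℤ, ∃ v, (GS (pos x)).Reachable a v ∧ v ∉ s := by
    funext x
    apply propext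
    constructor
    · intro h s
      obtain ⟨v, hv, hs⟩ := h.exists_notMem_finset s
      exact ⟨v, hv, hs⟩
    · intro h hf
      obtain ⟨v, hv, hs⟩ := h hf.toFinset
      exact hs (hf.mem_toFinset.2 hv)
  rw [this]
  exact Measurable.forall fun s => Measurable.exists fun v =>
    (meas_reach_F3 a v).and measurable_const

/-- the shift as an isomorphism of graphs -/
def isoShift_F3 (x : ℤ → ℝ) (i : ℤ) : GS (pos fun k => x (k + i)) ≃g GS (pos x) where
  toEquiv := Equiv.addRight i
  map_rel_iff' := by
    intro a b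
    exact (GS_shift x i a b).symm

theorem reach_shift_F3 (x : ℤ → ℝ) (i a b : ℤ) :
    (GS (pos fun k => x (k + i))).Reachable a b ↔ (GS (pos x)).Reachable (a + i) (b + i) :=
  ((isoShift_F3 x i).reachable_iff (u := a) (v := b)).symm

theorem inf_shift (x : ℤ → ℝ) (i : ℤ) : {v | (GS (pos fun k => x (k + i))).Reachable 0 v}.Infinite ↔
    {v | (GS (pos x)).Reachable i v}.Infinite := by
  have h : {v | (GS (pos x)).Reachable i v} =
      (fun v => v + i) '' {v | (GS (pos fun k => x (k + i))).Reachable 0 v} := by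
    ext v
    constructor
    · intro hv
      refine ⟨v - i, ?_, by simp⟩
      have := (reach_shift_F3 x i 0 (v - i)).2 (by simpa using hv)
      exact this
    · rintro ⟨w, hw, rfl⟩
      have := (reach_shift_F3 x i 0 w).1 hw
      simpa using this
  rw [h, Set.infinite_image_iff (add_left_injective i).injOn]

theorem two_shift_F3 (x : ℤ → ℝ) (i : ℤ) : Two (pos fun k => x (k + i)) 0 ↔ Two (pos x) i := by
  constructor
  · rintro ⟨z, z', hz, h1, h2⟩
    refine ⟨z + i, z' + i, fun h => hz (add_right_cancel h), ?_, ?_⟩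
    · simpa using (GS_shift x i 0 z).1 h1
    · simpa using (GS_shift x i 0 z').1 h2
  · rintro ⟨z, z', hz, h1, h2⟩
    refine ⟨z - i, z' - i, fun h => hz (sub_left_injective h), ?_, ?_⟩
    · exact (GS_shift x i 0 (z - i)).2 (by simpa using h1)
    · exact (GS_shift x i 0 (z' - i)).2 (by simpa using h2)

theorem meas_two_F3 (i : ℤ) : MeasurableSet {x : ℤ → ℝ | ¬Two (pos x) i} := by
  refine measurableSet_setOfPred.2 (Measurable.not ?_)
  unfold Two
  exact Measurable.exists fun z => Measurable.exists fun z' =>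
    measurable_const.and ((meas_adj_F3 i z).and (meas_adj_F3 i z'))

theorem prob_two_F3 (i : ℤ) :
    Qz {x : ℤ → ℝ | ¬Two (pos x) i} = Qz {x : ℤ → ℝ | ¬Two (pos x) 0} := by
  rw [← (mp_shift i).measure_preimage (meas_two_F3 0).nullMeasurableSet]
  congr 1
  ext x
  simp only [mem_ofPred_eq, mem_preimage, two_shift_F3]

theorem mul_le_F3 (M : ℕ) : (M : ℝ≥0∞) * Qz {x : ℤ → ℝ | ¬Two (pos x) 0} ≤ 2 := by
  classical
  have h1 : (M : ℝ≥0∞) * Qz {x : ℤ → ℝ | ¬Two (pos x) 0} =
      ∑ i ∈ Finset.range M, Qz {x : ℤ → ℝ | ¬Two (pos x) (i : ℤ)} := by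
    simp only [prob_two_F3 (_ : ℤ), Finset.sum_const, Finset.card_range, nsmul_eq_mul]
  have h2 : ∑ i ∈ Finset.range M, Qz {x : ℤ → ℝ | ¬Two (pos x) (i : ℤ)} =
      ∫⁻ x, ∑ i ∈ Finset.range M,
        ({x : ℤ → ℝ | ¬Two (pos x) (i : ℤ)}.indicator (fun _ => (1 : ℝ≥0∞)) x) ∂Qz := by
    rw [lintegral_finsetSum _ fun i _ => measurable_const.indicator (meas_two_F3 _)]
    refine Finset.sum_congr rfl fun i _ => ?_
    rw [lintegral_indicator_const (meas_two_F3 _), one_mul]
  rw [h1, h2]
  have h3 : ∫⁻ _x, (2 : ℝ≥0∞) ∂Qz = 2 := by simp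
  rw [← h3]
  refine lintegral_mono_ae ?_
  filter_upwards [ae_good] with x hx
  have h4 : ∑ i ∈ Finset.range M,
      ({x : ℤ → ℝ | ¬Two (pos x) (i : ℤ)}.indicator (fun _ => (1 : ℝ≥0∞)) x) =
      (((Finset.range M).filter fun i : ℕ => ¬Two (pos x) (i : ℤ)).card : ℝ≥0∞) := by
    rw [Finset.card_filter]
    push_cast
    refine Finset.sum_congr rfl fun i _ => ?_
    by_cases h : Two (pos x) (i : ℤ) <;> simp [Set.indicator, h]
  rw [h4]
  have h5 : ((Finset.range M).filter fun i : ℕ => ¬Two (pos x) (i : ℤ)).card ≤ 2 := by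
    by_contra h
    obtain ⟨a, b, c, ha, hb, hc, hab, hac, hbc⟩ := Finset.two_lt_card_iff.1 (not_le.1 h)
    have ha' := (Finset.mem_filter.1 ha).2
    have hb' := (Finset.mem_filter.1 hb).2
    have hc' := (Finset.mem_filter.1 hc).2
    rcases few hx (a := a) (b := b) (c := c) (by exact_mod_cast hab) (by exact_mod_cast hac)
      (by exact_mod_cast hbc) with h | h | h
    exacts [ha' h, hb' h, hc' h]
  exact_mod_cast h5

theorem ae_two : ∀ᵐ x ∂Qz, ∀ v, Two (pos x) v := by
  rw [ae_all_iff]
  intro v
  rw [ae_iff, prob_two_F3]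
  by_contra h
  obtain ⟨n, hn⟩ := ENNReal.exists_nat_mul_gt h (show (2 : ℝ≥0∞) ≠ ⊤ by simp)
  exact absurd (mul_le_F3 n) (not_le.2 hn)

end Pool.Agent.P.SM
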