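import Pool.Agent.P.MP_411dac_pr.F2
import Pool.Agent.P.MP_411dac_pr.F3
import Pool.Agent.P.MP_411dac_pr.D2

/-!
Assembly.
-/

set_option autoImplicit false
set_option linter.unusedVariables false

noncomputable section

namespace Pool.Agent.P.SM

open MeasureTheory ProbabilityTheory Set
open scoped ENNReal

theorem inf_pos_F4 {T : ℝ} (hT : Qz {x | BadAt T x 0} < 1) :
    0 < Qz {x : ℤ → ℝ | {v | (GS (pos x)).Reachable 0 v}.Infinite} := by
  rw [pos_iff_ne_zero]
  intro h0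
  have h1 : ∀ i : ℤ, Qz {x : ℤ → ℝ | {v | (GS (pos x)).Reachable i v}.Infinite} = 0 := by
    intro i
    have h2 := (mp_shift i).measure_preimage (meas_inf 0).nullMeasurableSet
    rw [h0] at h2
    rw [← h2]
    congr 1
    ext x
    exact (inf_shift x i).symm
  have h3 : ∀ᵐ x ∂Qz, ∀ i : ℤ, ¬{v | (GS (pos x)).Reachable i v}.Infinite := by
    rw [ae_all_iff]
    intro i
    rw [ae_iff]
    simpa only [not_not] using h1 i
  have h4 : ∀ᵐ x ∂Qz, BadAt T x 0 := by
    filter_upwards [h3, ae_good, ae_two] with x hx hg ht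
    by_contra hb
    obtain ⟨v, hv⟩ := exists_inf hg (GS_stable hg ht) hb
    exact hx v hv
  have h5 : Qz univ ≤ Qz {x | BadAt T x 0} :=
    measure_mono_ae (h4.mono fun x hx _ => hx)
  rw [measure_univ] at h5
  exact absurd hT (not_lt.2 h5)

theorem main_of_bound {C t : ℝ} (hC : ∀ T, t ≤ T →
    Q0 {ω | ∃ k b, Wd 0 k ω b ∧ T ≤ S k ω} ≤ ENNReal.ofReal (C / T ^ 2))
    {Ω : Type*} [MeasurableSpace Ω] (P : Measure Ω) [IsProbabilityMeasure P] (X : ℤ → Ω → ℝ)
    (hm : ∀ i, Measurable (X i)) (hi : iIndepFun X P) (hl : ∀ i, P.map (X i) = expMeasure 1) :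
    ∃ A, MeasurableSet A ∧ 0 < P A ∧ ∀ ω ∈ A, ∃ G, Stable (pos fun i => X i ω) G ∧
      (∀ G', Stable (pos fun i => X i ω) G' → G' = G) ∧ {v | G.Reachable 0 v}.Infinite := by
  obtain ⟨T, hT⟩ := bad_small hC
  have h0 := inf_pos_F4 hT
  have hΦ : Measurable fun ω i => X i ω := measurable_pi_iff.2 hm
  have hmap : P.map (fun ω i => X i ω) = Qz := by
    rw [(iIndepFun_iff_map_fun_eq_infinitePi_map hm).1 hi]
    unfold Qz
    congr 1
    funext i
    exact hl i
  have hW : Qz {x : ℤ → ℝ | ¬(Good x ∧ ∀ v, Two (pos x) v)} = 0 :=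
    ae_iff.1 (ae_good.and ae_two)
  obtain ⟨N, hN1, hN2, hN3⟩ := exists_measurable_superset_of_null hW
  have hB : MeasurableSet ({x : ℤ → ℝ | {v | (GS (pos x)).Reachable 0 v}.Infinite} \ N) :=
    (meas_inf 0).diff hN2
  refine ⟨(fun ω i => X i ω) ⁻¹' ({x | {v | (GS (pos x)).Reachable 0 v}.Infinite} \ N),
    hΦ hB, ?_, ?_⟩
  · rw [← Measure.map_apply hΦ hB, hmap, measure_sdiff_null hN3]
    exact h0
  · intro ω hω
    have hg : Good (fun i => X i ω) ∧ ∀ v, Two (pos fun i => X i ω) v := by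
      by_contra hc
      exact hω.2 (hN1 hc)
    exact ⟨GS _, GS_stable hg.1 hg.2, fun G' hG' => GS_eq hg.1 hG', hω.1⟩

end Pool.Agent.P.SM
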