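import Pool.Agent.P.MP_411dac_pr.G0

/-!
Inclusions between the languages of one step. Pure bookkeeping with G0.
Hints. S k ω / h ∈ cl j iff j * h ≤ S k ω < (j + 1) * h. A single edge has length equal to its birth
time (`Wd.dim_inv`), every word has b ≤ S (`Wd.b_le`). `Ed_le`: an empty word born at b ≥ j * h has
length ≥ 3 * b (`Wd.e_inv`), which is impossible for j ≥ 1; for j = 0 the three pieces have lengths in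
[0, h). `An_succ`: a word born at b ≥ J * h; take J + m = ⌊b / h⌋₊.
-/

set_option autoImplicit false
set_option linter.unusedVariables false

noncomputable section

namespace Pool.Agent.P.SM

open MeasureTheory ProbabilityTheory Set
open scoped ENNReal

variable {h X t : ℝ}

theorem mem_sup_G1 {L M : Lang} {k : ℕ} {ω : Sq} : ω ∈ (L ⊔ M) k ↔ ω ∈ L k ∨ ω ∈ M k := Iff.rfl

theorem mem_res_G1 {A : Set ℝ} {L : Lang} {k : ℕ} {ω : Sq} :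
    ω ∈ res h A L k ↔ ω ∈ L k ∧ S k ω / h ∈ A := Iff.rfl

theorem mem_cl_G1 (hh : 0 < h) {j : ℕ} {s : ℝ} :
    s / h ∈ cl j ↔ j * h ≤ s ∧ s < ((j + 1 : ℕ) : ℝ) * h := by
  unfold cl
  rw [mem_Ico, le_div_iff₀ hh, div_lt_iff₀ hh]
  push_cast
  exact Iff.rfl

theorem mem_ici_G1 (hh : 0 < h) {a s : ℝ} : s / h ∈ Ici a ↔ a * h ≤ s := by
  rw [mem_Ici, le_div_iff₀ hh]

theorem le_succ_G1 (hh : 0 < h) (j : ℕ) : (j : ℝ) * h ≤ ((j + 1 : ℕ) : ℝ) * h := by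
  push_cast
  nlinarith

theorem mem_iSup_G1 {L : ℕ → Lang} {k : ℕ} {ω : Sq} (m : ℕ) (hm : ω ∈ L m k) :
    ω ∈ (⨆ m, L m) k :=
  (le_iSup L m) k hm

theorem Est_succ (hh : 0 < h) (j : ℕ) : Est (((j + 1 : ℕ) : ℝ) * h) ≤
    res h (cl j)ᶜ (Est (j * h) ⊔ res h (Ici (j : ℝ)) (Eb (j * h) (((j + 1 : ℕ) : ℝ) * h))) := by
  rintro k ω ⟨b, hw, hb, hs⟩
  have h1 := le_succ_G1 hh j
  refine mem_res_G1.2 ⟨?_, fun hc => absurd ((mem_cl_G1 hh).1 hc).2 (not_lt.2 hs)⟩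
  rcases lt_or_ge b (j * h) with hlt | hge
  · exact mem_sup_G1.2 (Or.inl ⟨b, hw, hlt, h1.trans hs⟩)
  · exact mem_sup_G1.2 (Or.inr (mem_res_G1.2
      ⟨⟨b, hw, hge, hb⟩, (mem_ici_G1 hh).2 (h1.trans hs)⟩))

theorem Ost_succ (hh : 0 < h) (j : ℕ) : Ost X (((j + 1 : ℕ) : ℝ) * h) ≤
    res h (cl j)ᶜ (Ost X (j * h) ⊔ res h (Ici (j : ℝ)) (Ob X (j * h) (((j + 1 : ℕ) : ℝ) * h))) ⊔
      Ed (j * h) (((j + 1 : ℕ) : ℝ) * h) := by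
  rintro k ω ⟨c, b, hw, hc, hb, hX⟩
  have h1 := le_succ_G1 hh j
  rcases hc with rfl | ⟨rfl, hs⟩
  · obtain ⟨hbS, b', hw'⟩ := hw.dim_inv
    rcases lt_or_ge b (j * h) with hlt | hge
    · refine mem_sup_G1.2 (Or.inl (mem_res_G1.2 ⟨mem_sup_G1.2 (Or.inl
        ⟨2, b, hw, Or.inl rfl, hlt, hX⟩), fun hc => ?_⟩))
      have := ((mem_cl_G1 hh).1 hc).1
      linarith
    · exact mem_sup_G1.2 (Or.inr ⟨b', hw', hbS ▸ hge, hbS ▸ hb⟩)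
  · refine mem_sup_G1.2 (Or.inl (mem_res_G1.2
      ⟨?_, fun hc => absurd ((mem_cl_G1 hh).1 hc).2 (not_lt.2 hs)⟩))
    rcases lt_or_ge b (j * h) with hlt | hge
    · exact mem_sup_G1.2 (Or.inl ⟨3, b, hw, Or.inr ⟨rfl, h1.trans hs⟩, hlt, hX⟩)
    · exact mem_sup_G1.2 (Or.inr (mem_res_G1.2
        ⟨⟨b, hw, hge, hb, hX⟩, (mem_ici_G1 hh).2 (h1.trans hs)⟩))

theorem Ed_le (hh : 0 < h) (j : ℕ) : Ed (j * h) (((j + 1 : ℕ) : ℝ) * h) ≤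
    res h (cl j) (Est (j * h) ⊔ opt (Nat.beq j 0)
      (cat (res h (cl 0) allL) (cat (res h (cl 0) allL) (res h (cl 0) allL)))) := by
  rintro k ω ⟨b, hw, hs, hs'⟩
  refine mem_res_G1.2 ⟨?_, (mem_cl_G1 hh).2 ⟨hs, hs'⟩⟩
  rcases lt_or_ge b (j * h) with hlt | hge
  · exact mem_sup_G1.2 (Or.inl ⟨b, hw, hlt, hs⟩)
  have hj0 : (0 : ℝ) ≤ j * h := by positivity
  rcases hw.e_inv with ⟨-, hb⟩ | ⟨k₁, k₂, k₃, b₁, b₂, b₃, rfl, h₁, h₂, h₃, hb, hb0, -, -, l₁, l₃⟩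
  · linarith
  rw [S_add, S_add] at hs hs'
  have hj : j = 0 := by
    by_contra hj
    have : (1 : ℝ) ≤ j := by exact_mod_cast Nat.one_le_iff_ne_zero.2 hj
    push_cast at hs'
    nlinarith
  subst hj
  refine mem_sup_G1.2 (Or.inr ?_)
  have e0 : ((0 : ℕ) : ℝ) * h = 0 := by simp
  refine mem_cat.2 ⟨k₁, k₂ + k₃, rfl, mem_res_G1.2 ⟨h₁.ne_zero (by decide), ?_⟩,
    mem_cat.2 ⟨k₂, k₃, rfl, mem_res_G1.2 ⟨h₂.ne_zero (by decide), ?_⟩,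
      mem_res_G1.2 ⟨h₃.ne_zero (by decide), ?_⟩⟩⟩ <;>
    refine (mem_cl_G1 hh).2 ⟨?_, ?_⟩ <;> linarith

theorem Od_le (hh : 0 < h) (j : ℕ) (hX : ((j + 1 : ℕ) : ℝ) * h ≤ X) :
    Od (j * h) (((j + 1 : ℕ) : ℝ) * h) ≤ res h (cl j)
      (Ost X (j * h) ⊔ res h (Ici (j : ℝ)) (Ob X (j * h) (((j + 1 : ℕ) : ℝ) * h))) := by
  rintro k ω ⟨b, hw, hs, hs'⟩
  refine mem_res_G1.2 ⟨?_, (mem_cl_G1 hh).2 ⟨hs, hs'⟩⟩
  rcases lt_or_ge b (j * h) with hlt | hge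
  · exact mem_sup_G1.2 (Or.inl ⟨3, b, hw, Or.inr ⟨rfl, hs⟩, hlt, hs'.trans_le hX⟩)
  · exact mem_sup_G1.2 (Or.inr (mem_res_G1.2
      ⟨⟨b, hw, hge, hw.b_le.trans_lt hs', hs'.trans_le hX⟩, (mem_ici_G1 hh).2 hs⟩))

theorem Od_le_all (hh : 0 < h) (j : ℕ) :
    Od (j * h) (((j + 1 : ℕ) : ℝ) * h) ≤ res h (cl j) allL := by
  rintro k ω ⟨b, hw, hs, hs'⟩
  exact mem_res_G1.2 ⟨hw.ne_zero (by decide), (mem_cl_G1 hh).2 ⟨hs, hs'⟩⟩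

theorem Est_zero : Est 0 ≤ gapL := by
  rintro k ω ⟨b, hw, hb, -⟩
  rcases hw.e_inv with ⟨hk, -⟩ | ⟨k₁, k₂, k₃, b₁, b₂, b₃, -, -, -, -, -, hb0, -⟩
  · exact hk
  · linarith

theorem Ost_zero : Ost X 0 ≤ ⊥ := by
  rintro k ω ⟨c, b, hw, hc, hb, -⟩
  have := hw.b_pos (hc.imp id And.left)
  linarith

theorem Ost_cut (hh : 0 < h) {n : ℕ} (hX : X ≤ n * h) :
    Ost X t ≤ res h (Iio (n : ℝ)) (Ost X t) := by
  intro k ω hω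
  refine mem_res_G1.2 ⟨hω, ?_⟩
  obtain ⟨c, b, -, -, -, hs⟩ := hω
  rw [mem_Iio, div_lt_iff₀ hh]
  exact hs.trans_le hX

theorem An_zero : An t 0 ≤ ⊥ := by
  rintro k ω ⟨hk, b, hw, -⟩
  exact absurd (Nat.le_zero.1 hk) (hw.ne_zero (by decide))

theorem An_succ (hh : 0 < h) (J n : ℕ) : An (J * h) (n + 1) ≤ Est (J * h) ⊔ ⨆ m : ℕ,
    cat (res h (Ici ((J + m : ℕ) : ℝ)) (An (J * h) n))
      (cat (res h (cl (J + m)) allL) (res h (Ici ((J + m : ℕ) : ℝ)) (An (J * h) n))) := by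
  rintro k ω ⟨hk, b, hw, hs⟩
  rcases lt_or_ge b (J * h) with hlt | hge
  · exact mem_sup_G1.2 (Or.inl ⟨b, hw, hlt, hs⟩)
  have hj0 : (0 : ℝ) ≤ J * h := by positivity
  rcases hw.e_inv with ⟨-, hb⟩ | ⟨k₁, k₂, k₃, b₁, b₂, b₃, rfl, h₁, h₂, h₃, hb, hb0, -, -, l₁, l₃⟩
  · linarith
  have hbh : 0 ≤ b / h := (div_pos hb0 hh).le
  have hJ : J ≤ ⌊b / h⌋₊ := Nat.le_floor ((le_div_iff₀ hh).2 hge)
  obtain ⟨m, hm⟩ := Nat.exists_eq_add_of_le hJ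
  have hk2 := h₂.ne_zero (by decide)
  have f1 : ((J + m : ℕ) : ℝ) * h ≤ b := by
    rw [← hm, ← le_div_iff₀ hh]
    exact Nat.floor_le hbh
  have f2 : b < ((J + m + 1 : ℕ) : ℝ) * h := by
    rw [← hm, ← div_lt_iff₀ hh]
    push_cast
    exact Nat.lt_floor_add_one _
  refine mem_sup_G1.2 (Or.inr (mem_iSup_G1 m ?_))
  refine mem_cat.2 ⟨k₁, k₂ + k₃, rfl,
    mem_res_G1.2 ⟨⟨by omega, b₁, h₁, hge.trans l₁⟩, (mem_ici_G1 hh).2 (f1.trans l₁)⟩,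
    mem_cat.2 ⟨k₂, k₃, rfl, mem_res_G1.2 ⟨hk2, (mem_cl_G1 hh).2 ⟨hb ▸ f1, hb ▸ f2⟩⟩,
      mem_res_G1.2 ⟨⟨by omega, b₃, h₃, hge.trans l₃⟩, (mem_ici_G1 hh).2 (f1.trans l₃)⟩⟩⟩

end Pool.Agent.P.SM
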