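import Pool.Agent.P.MP_411dac_pr.M4
import Pool.Agent.P.MP_411dac_pr.G1

/-!
After the computation: the second moment of the empty words stays bounded.
Hints. `runaway`: induction on n with `An_succ`. For m ≥ J, u, w ≥ m and m ≤ v < m + 1 one has
u + (v + w) ≤ (3 + 1 / 7) * u * w / m, so (`lint_lc` twice) the m-th term has second moment at most
10 * h * (2 * N) ^ 2 / m ^ 2, and ∑ 1 / (J + m) ^ 2 ≤ 1 / (J - 1) (telescoping).
`prob_long`: the event is the increasing union over n of the events for An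
(`measure_iUnion_eq_iSup` for monotone families); `Cv.res` with Ici (T / h), `Cv.prob`, Markov.
-/

set_option autoImplicit false
set_option linter.unusedVariables false

noncomputable section

namespace Pool.Agent.P.SM

open MeasureTheory ProbabilityTheory Set
open scoped ENNReal

variable {h N : ℝ} {J : ℕ} {f : ℝ → ℝ≥0∞}

theorem tele_R1 {a : ℝ} (ha : 1 < a) (n : ℕ) :
    ∑ m ∈ Finset.range n, 1 / (a + m) ^ 2 ≤ 1 / (a - 1) - 1 / (a - 1 + n) := by
  induction n with
  | zero => simp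
  | succ n ih =>
    rw [Finset.sum_range_succ]
    have h0 : (0 : ℝ) ≤ n := Nat.cast_nonneg n
    have h1 : 0 < a - 1 + n := by linarith
    have h2 : 0 < a + n := by linarith
    have : 1 / (a + n) ^ 2 ≤ 1 / (a - 1 + n) - 1 / (a - 1 + (n + 1 : ℕ)) := by
      push_cast
      rw [show a - 1 + (n + 1) = a + n by ring, div_sub_div _ _ h1.ne' h2.ne',
        show 1 * (a + n) - (a - 1 + n) * 1 = (1 : ℝ) by ring]
      exact one_div_le_one_div_of_le (mul_pos h1 h2) (by nlinarith)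
    linarith

theorem pt_R1 {M u v w : ℝ} (hM : 7 ≤ M) (hu : M ≤ u) (hw : M ≤ w) (hv0 : M ≤ v)
    (hv : v < M + 1) : (u + (v + w)) ^ 2 ≤ 10 / M ^ 2 * u ^ 2 * w ^ 2 := by
  have hM0 : 0 < M := by linarith
  have a1 : u * M ≤ u * w := mul_le_mul_of_nonneg_left hw (by linarith)
  have a2 : M * w ≤ u * w := mul_le_mul_of_nonneg_right hu (by linarith)
  have a3 : M * M ≤ u * w := (mul_le_mul_of_nonneg_left hw hM0.le).trans a2
  have a4 : 7 * M ≤ u * w := (mul_le_mul_of_nonneg_right hM hM0.le).trans a3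
  have a5 : v * M ≤ (M + 1) * M := mul_le_mul_of_nonneg_right hv.le hM0.le
  have a6 : (u + (v + w)) * M ≤ 22 / 7 * (u * w) := by nlinarith
  have a7 : 0 ≤ (u + (v + w)) * M := mul_nonneg (by linarith) hM0.le
  have a8 := pow_le_pow_left₀ a7 a6 2
  rw [show 10 / M ^ 2 * u ^ 2 * w ^ 2 = 10 * (u * w) ^ 2 / M ^ 2 by ring,
    le_div_iff₀ (by positivity)]
  nlinarith [sq_nonneg (u * w)]

theorem term_R1 {g : ℝ → ℝ≥0∞} (hg : Measurable g) {j : ℕ} (hj : 7 ≤ j) {K : ℝ≥0∞}
    (hK : ∫⁻ t, ENNReal.ofReal (t ^ 2) * g t ≤ K) (h : ℝ) :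
    ∫⁻ t, ENNReal.ofReal (t ^ 2) * ((Ici (j : ℝ)).indicator g ⋆ₗ
      ((cl j).indicator ((Ici (0 : ℝ)).indicator fun _ => ENNReal.ofReal h) ⋆ₗ
        (Ici (j : ℝ)).indicator g)) t ≤
      ENNReal.ofReal (10 / (j : ℝ) ^ 2) * K * (ENNReal.ofReal h * K) := by
  have hφ : Measurable fun t : ℝ => ENNReal.ofReal (t ^ 2) := by fun_prop
  have hg1 : Measurable ((Ici (j : ℝ)).indicator g) := hg.indicator measurableSet_Ici
  have hc : Measurable ((cl j).indicator ((Ici (0 : ℝ)).indicator fun _ => ENNReal.ofReal h)) :=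
    (measurable_const.indicator measurableSet_Ici).indicator (measurableSet_cl j)
  have hcg := measurable_lconvolution volume hc hg1
  have hA : Measurable fun t : ℝ => ENNReal.ofReal (t ^ 2) * g t := hφ.mul hg
  have hc' : Measurable ((cl j).indicator fun _ : ℝ => ENNReal.ofReal h) :=
    measurable_const.indicator (measurableSet_cl j)
  have hj' : (7 : ℝ) ≤ j := by exact_mod_cast hj
  rw [lint_lc hφ hg1 hcg]
  have inner : ∀ u, ∫⁻ y, ENNReal.ofReal ((u + y) ^ 2) * ((Ici (j : ℝ)).indicator g u *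
      ((cl j).indicator ((Ici (0 : ℝ)).indicator fun _ => ENNReal.ofReal h) ⋆ₗ
        (Ici (j : ℝ)).indicator g) y) ≤
      ENNReal.ofReal (10 / (j : ℝ) ^ 2) * (ENNReal.ofReal (u ^ 2) * g u) *
        (ENNReal.ofReal h * K) := by
    intro u
    by_cases hu : u ∈ Ici (j : ℝ)
    swap
    · simp [indicator_of_notMem hu]
    rw [indicator_of_mem hu]
    have hψ : Measurable fun y : ℝ => ENNReal.ofReal ((u + y) ^ 2) * g u := by fun_prop
    simp only [← mul_assoc (ENNReal.ofReal _) (g u)]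
    rw [lint_lc hψ hc hg1]
    calc _ ≤ ∫⁻ v, ∫⁻ w, ENNReal.ofReal (10 / (j : ℝ) ^ 2) * (ENNReal.ofReal (u ^ 2) * g u) *
          ((cl j).indicator (fun _ => ENNReal.ofReal h) v * (ENNReal.ofReal (w ^ 2) * g w)) := by
          refine lintegral_mono fun v => lintegral_mono fun w => ?_
          by_cases hv : v ∈ cl j
          swap
          · simp [indicator_of_notMem hv]
          by_cases hw : w ∈ Ici (j : ℝ)
          swap
          · simp [indicator_of_notMem hw]
          have hv0 : v ∈ Ici (0 : ℝ) := le_trans (Nat.cast_nonneg j) hv.1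
          simp only [indicator_of_mem hv, indicator_of_mem hw, indicator_of_mem hv0]
          have b := ENNReal.ofReal_le_ofReal (pt_R1 hj' hu hw hv.1 hv.2)
          rw [ENNReal.ofReal_mul (by positivity), ENNReal.ofReal_mul (by positivity)] at b
          calc _ ≤ ENNReal.ofReal (10 / (j : ℝ) ^ 2) * ENNReal.ofReal (u ^ 2) *
                ENNReal.ofReal (w ^ 2) * g u * (ENNReal.ofReal h * g w) := by gcongr
            _ = _ := by ring
      _ = ENNReal.ofReal (10 / (j : ℝ) ^ 2) * (ENNReal.ofReal (u ^ 2) * g u) *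
          (ENNReal.ofReal h * ∫⁻ w, ENNReal.ofReal (w ^ 2) * g w) := by
          have e : ∀ v, ∫⁻ w, ENNReal.ofReal (10 / (j : ℝ) ^ 2) * (ENNReal.ofReal (u ^ 2) * g u) *
              ((cl j).indicator (fun _ => ENNReal.ofReal h) v * (ENNReal.ofReal (w ^ 2) * g w)) =
              ENNReal.ofReal (10 / (j : ℝ) ^ 2) * (ENNReal.ofReal (u ^ 2) * g u) *
              ((cl j).indicator (fun _ => ENNReal.ofReal h) v *
                ∫⁻ w, ENNReal.ofReal (w ^ 2) * g w) := fun v => by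
            rw [lintegral_const_mul _ (hA.const_mul _), lintegral_const_mul _ hA]
          simp only [e]
          rw [lintegral_const_mul _ (hc'.mul_const _), lintegral_mul_const _ hc',
            lintegral_indicator_const (measurableSet_cl j), cl, Real.volume_Ico]
          simp
      _ ≤ _ := by gcongr
  refine (lintegral_mono inner).trans ?_
  rw [lintegral_mul_const _ (hA.const_mul _), lintegral_const_mul _ hA]
  gcongr

theorem runaway (hh : 0 < h) (hJ : 7 ≤ J) (hc : Cv h (Est (J * h)) f) (h0 : 0 ≤ N)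
    (hN : 40 * h * N ≤ J - 1) (hf : ∫⁻ t, ENNReal.ofReal (t ^ 2) * f t ≤ ENNReal.ofReal N)
    (n : ℕ) : ∃ g, Cv h (An (J * h) n) g ∧
      ∫⁻ t, ENNReal.ofReal (t ^ 2) * g t ≤ ENNReal.ofReal (2 * N) := by
  induction n with
  | zero => exact ⟨0, Cv.bot.le An_zero, by simp⟩
  | succ n ih =>
    obtain ⟨g, h1, h2⟩ := ih
    have hm := fun m : ℕ => (h1.res (A := Ici ((J + m : ℕ) : ℝ)) measurableSet_Ici).cat
      (((Cv.all hh).res (measurableSet_cl (J + m))).cat
        (h1.res (A := Ici ((J + m : ℕ) : ℝ)) measurableSet_Ici))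
    refine ⟨_, (hc.sup (Cv.iSup hm)).le (An_succ hh J n), ?_⟩
    have hφ : Measurable fun t : ℝ => ENNReal.ofReal (t ^ 2) := by fun_prop
    have hJ' : (7 : ℝ) ≤ J := by exact_mod_cast hJ
    simp only [Pi.add_apply, mul_add, ← ENNReal.tsum_mul_left]
    have hF : ∀ {q : ℝ → ℝ≥0∞}, Measurable q →
        Measurable fun t : ℝ => ENNReal.ofReal (t ^ 2) * q t := fun hq => hφ.mul hq
    rw [lintegral_add_left (hF hc.1), lintegral_tsum fun m => (hF (hm m).1).aemeasurable,
      two_mul, ENNReal.ofReal_add h0 h0]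
    refine add_le_add hf ((ENNReal.tsum_le_tsum fun m =>
      term_R1 h1.1 (j := J + m) (by omega) h2 h).trans ?_)
    have e : ∀ m : ℕ, ENNReal.ofReal (10 / ((J + m : ℕ) : ℝ) ^ 2) * ENNReal.ofReal (2 * N) *
        (ENNReal.ofReal h * ENNReal.ofReal (2 * N)) =
        ENNReal.ofReal (40 * h * N ^ 2 * (1 / ((J : ℝ) + m) ^ 2)) := fun m => by
      rw [← ENNReal.ofReal_mul (by positivity), ← ENNReal.ofReal_mul hh.le,
        ← ENNReal.ofReal_mul (by positivity)]
      congr 1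
      push_cast; ring
    simp only [e]
    rw [ENNReal.tsum_eq_iSup_nat]
    refine iSup_le fun k => ?_
    rw [← ENNReal.ofReal_sum_of_nonneg fun m _ => by positivity, ← Finset.mul_sum]
    refine ENNReal.ofReal_le_ofReal ?_
    have a1 := tele_R1 (a := (J : ℝ)) (by linarith) k
    have a0 : (0 : ℝ) < J - 1 := by linarith
    have a2 : 0 ≤ 1 / ((J : ℝ) - 1 + k) := by positivity
    have a3 : ∑ m ∈ Finset.range k, 1 / ((J : ℝ) + m) ^ 2 ≤ 1 / ((J : ℝ) - 1) := by linarith
    refine (mul_le_mul_of_nonneg_left a3 (by positivity)).trans ?_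
    rw [mul_one_div, div_le_iff₀ a0]
    nlinarith [mul_le_mul_of_nonneg_left hN h0]

theorem prob_long (hh : 0 < h) (hJ : 7 ≤ J) (hc : Cv h (Est (J * h)) f) (h0 : 0 ≤ N)
    (hN : 40 * h * N ≤ J - 1) (hf : ∫⁻ t, ENNReal.ofReal (t ^ 2) * f t ≤ ENNReal.ofReal N)
    {T : ℝ} (hT : J * h ≤ T) :
    Q0 {ω | ∃ k b, Wd 0 k ω b ∧ T ≤ S k ω} ≤ ENNReal.ofReal (2 * N * h ^ 2 / T ^ 2) := by
  have hJ' : (7 : ℝ) ≤ J := by exact_mod_cast hJ
  have hT0 : 0 < T := lt_of_lt_of_le (by positivity) hT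
  have e : {ω | ∃ k b, Wd 0 k ω b ∧ T ≤ S k ω} =
      ⋃ n : ℕ, {ω | ∃ k, ω ∈ res h (Ici (T / h)) (An (J * h) n) k} := by
    ext ω
    simp only [mem_iUnion, mem_setOf_eq, res, An, mem_Ici, div_le_div_iff_of_pos_right hh]
    constructor
    · rintro ⟨k, b, a1, a2⟩
      exact ⟨k, k, ⟨le_rfl, b, a1, hT.trans a2⟩, a2⟩
    · rintro ⟨n, k, ⟨-, b, a1, -⟩, a2⟩
      exact ⟨k, b, a1, a2⟩
  have mono : Monotone fun n : ℕ => {ω | ∃ k, ω ∈ res h (Ici (T / h)) (An (J * h) n) k} := by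
    rintro n n' hn ω ⟨k, ⟨a1, a2⟩, a3⟩
    exact ⟨k, ⟨a1.trans hn, a2⟩, a3⟩
  rw [e, mono.measure_iUnion]
  refine iSup_le fun n => ?_
  obtain ⟨g, h1, h2⟩ := runaway hh hJ hc h0 hN hf n
  refine (h1.res measurableSet_Ici).prob.trans ?_
  have hA : Measurable fun t : ℝ => ENNReal.ofReal (t ^ 2) * g t :=
    (by fun_prop : Measurable fun t : ℝ => ENNReal.ofReal (t ^ 2)).mul h1.1
  calc _ ≤ ∫⁻ t, ENNReal.ofReal (h ^ 2 / T ^ 2) * (ENNReal.ofReal (t ^ 2) * g t) := by
        refine lintegral_mono fun t => ?_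
        by_cases ht : t ∈ Ici (T / h)
        swap
        · simp [indicator_of_notMem ht]
        rw [indicator_of_mem ht, ← mul_assoc, ← ENNReal.ofReal_mul (by positivity)]
        refine le_mul_of_one_le_left' (ENNReal.one_le_ofReal.2 ?_)
        have a : T ≤ t * h := (div_le_iff₀ hh).1 ht
        have a' := pow_le_pow_left₀ hT0.le a 2
        rw [div_mul_eq_mul_div, le_div_iff₀ (by positivity)]
        linarith
    _ ≤ ENNReal.ofReal (h ^ 2 / T ^ 2) * ENNReal.ofReal (2 * N) := by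
        rw [lintegral_const_mul _ hA]; gcongr
    _ = _ := by
        rw [← ENNReal.ofReal_mul (by positivity)]
        congr 1; ring

end Pool.Agent.P.SM
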