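import Pool.Agent.P.MP_411dac_pr.K7
import Pool.Agent.P.MP_411dac_pr.R1
import Pool.Agent.P.MP_411dac_pr.F4
import Pool.Agent.P.MP_411dac_pr.C21

/-! The chain of invariants along the computation. -/

set_option autoImplicit false
set_option linter.unusedVariables false

noncomputable section

namespace Pool.Agent.P.SM

open MeasureTheory ProbabilityTheory Set
open scoped ENNReal

theorem frcS_eq {α : Type} (z : V × V) (f : V × V → α) : frcS z f = f z := by
  simp only [frcS, frcV_eq]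

theorem exp_le : Real.exp (-(1 / 128)) ≤ ((4261543596 : ℕ) : ℝ) / ((4294967296 : ℕ) : ℝ) := by
  have h := Real.sum_le_exp_of_nonneg (x := 1 / 128) (by norm_num) 6
  rw [Real.exp_neg, inv_le_comm₀ (Real.exp_pos _) (by norm_num)]
  refine le_trans ?_ h
  norm_num [Finset.sum_range_succ, Nat.factorial]

theorem ch_run {P : Ph} {h X : ℝ} {j m j' : ℕ} {z z' : V × V}
    (hc : eqS (frcS z fun y => run P m j y) z' = true) (hj : j + m = j') (hP : P.Ok) (hh : 0 < h)
    (hX : (j' : ℝ) * h ≤ X) (hcut : P.c = true → X ≤ P.o.n * h)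
    (hex : j = 0 → h ^ 3 * 2 ^ P.e.F ≤ P.ex) (hz : InvB P h X j z) : InvB P h X j' z' := by
  have e := eq_of_eqS hc
  rw [frcS_eq] at e
  subst hj
  exact e ▸ run_inv hP hh m hX hcut hex hz

theorem ch_reg {P P' : Ph} {h h' X : ℝ} {j m j' j₀ : ℕ} {z z' : V × V}
    (hc : eqS (frcS z fun y => run P' m j (reg P P' y)) z' = true) (hj : j + m = j')
    (hj₀ : 2 * j = j₀) (h0 : j ≠ 0) (hP : P.Ok) (hP' : P'.Ok) (hh : 0 < h) (hh' : 2 * h = h')
    (hX : (j' : ℝ) * h' ≤ X) (hcut : P'.c = true → X ≤ P'.o.n * h')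
    (hz : InvB P h X j₀ z) : InvB P' h' X j' z' := by
  have e := eq_of_eqS hc
  rw [frcS_eq] at e
  subst hj hj₀ hh'
  exact e ▸ run_inv hP' (by positivity) m hX hcut (fun h => absurd h h0) (reg_inv hP hP' hh hcut hz)

theorem ch_reg2 {P P' : Ph} {h h' X : ℝ} {j m j' j₀ : ℕ} {z z' : V × V}
    (hc : eqS (frcS z fun y => run P' m j (reg P' P' (reg P P' y))) z' = true) (hj : j + m = j')
    (hj₀ : 2 * (2 * j) = j₀) (h0 : j ≠ 0) (hP : P.Ok) (hP' : P'.Ok) (hh : 0 < h)
    (hh' : 2 * (2 * h) = h') (hX : (j' : ℝ) * h' ≤ X) (hcut : P'.c = false)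
    (hz : InvB P h X j₀ z) : InvB P' h' X j' z' := by
  have e := eq_of_eqS hc
  rw [frcS_eq] at e
  subst hj hj₀ hh'
  have hc' : ∀ {Q : Prop}, P'.c = true → Q := fun h => by simp [hcut] at h
  exact e ▸ run_inv hP' (by positivity) m hX hc' (fun h => absurd h h0)
    (reg_inv hP' hP' (by positivity) hc' (reg_inv hP hP' hh hc' hz))

theorem ch_E {p p' : Pm} {h h' : ℝ} {j m j' j₀ nz hb : ℕ} {x : V} (hj : j + m = j')
    (hj₀ : 2 * j = j₀) (hp : p.Ok) (hp' : p'.Ok) (hh : 0 < h) (hh' : 2 * h = h')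
    (hhb : h' * 2 ^ p'.F ≤ hb) (hx : Cov p h (Est (j₀ * h)) x) :
    Cov p' h' (Est (j' * h')) (runE p' nz hb m j (reg1 p p' x)) := by
  subst hj hj₀ hh'
  refine runE_inv hp' (by positivity) nz hhb m ?_
  have e : (j : ℝ) * (2 * h) = ((2 * j : ℕ) : ℝ) * h := by push_cast; ring
  rw [e]
  exact reg1_cov hp hp' hx

theorem ok1 : P1.Ok := by decide +kernel

theorem ok2 : P2.Ok := by decide +kernel

theorem ok3 : P3.Ok := by decide +kernel

theorem ok4 : P4.Ok := by decide +kernel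

theorem ok5 : P5.Ok := by decide +kernel

theorem ok6 : P6.Ok := by decide +kernel

theorem ok7 : P7.Ok := by decide +kernel

theorem ok8 : P8.Ok := by decide +kernel

theorem ok9 : P9.Ok := by decide +kernel

theorem ok10 : P10.Ok := by decide +kernel

theorem ok11 : P11.Ok := by decide +kernel

theorem ok12 : P12.Ok := by decide +kernel

theorem ok13 : P13.Ok := by decide +kernel

theorem ok14 : p14.Ok := by decide +kernel

theorem ok15 : p15.Ok := by decide +kernel

theorem inv0 : InvB P1 (1 / 128) 4096 0 z0 :=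
  init_inv ok1 (by norm_num) (by norm_num) exp_le (by norm_num [P1]) (by decide +kernel)

theorem inv1 : InvB P1 (1 / 128) 4096 32 z1 :=
  ch_run chunk1 rfl ok1 (by norm_num) (by norm_num) (by norm_num [P1])
    (by norm_num [P1]) inv0

theorem inv2 : InvB P1 (1 / 128) 4096 64 z2 :=
  ch_run chunk2 rfl ok1 (by norm_num) (by norm_num) (by norm_num [P1])
    (by norm_num [P1]) inv1

theorem inv3 : InvB P1 (1 / 128) 4096 96 z3 :=
  ch_run chunk3 rfl ok1 (by norm_num) (by norm_num) (by norm_num [P1])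
    (by norm_num [P1]) inv2

theorem inv4 : InvB P1 (1 / 128) 4096 128 z4 :=
  ch_run chunk4 rfl ok1 (by norm_num) (by norm_num) (by norm_num [P1])
    (by norm_num [P1]) inv3

theorem inv5 : InvB P2 (1 / 64) 4096 96 z5 :=
  ch_reg chunk5 rfl rfl (by norm_num) ok1 ok2 (by norm_num) (by norm_num) (by norm_num)
    (by norm_num [P2]) inv4

theorem inv6 : InvB P2 (1 / 64) 4096 128 z6 :=
  ch_run chunk6 rfl ok2 (by norm_num) (by norm_num) (by norm_num [P2])
    (by norm_num [P2]) inv5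

theorem inv7 : InvB P3 (1 / 32) 4096 96 z7 :=
  ch_reg chunk7 rfl rfl (by norm_num) ok2 ok3 (by norm_num) (by norm_num) (by norm_num)
    (by norm_num [P3]) inv6

theorem inv8 : InvB P3 (1 / 32) 4096 128 z8 :=
  ch_run chunk8 rfl ok3 (by norm_num) (by norm_num) (by norm_num [P3])
    (by norm_num [P3]) inv7

theorem inv9 : InvB P4 (1 / 16) 4096 96 z9 :=
  ch_reg chunk9 rfl rfl (by norm_num) ok3 ok4 (by norm_num) (by norm_num) (by norm_num)
    (by norm_num [P4]) inv8

theorem inv10 : InvB P4 (1 / 16) 4096 128 z10 :=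
  ch_run chunk10 rfl ok4 (by norm_num) (by norm_num) (by norm_num [P4])
    (by norm_num [P4]) inv9

theorem inv11 : InvB P5 (1 / 4) 4096 64 z11 :=
  ch_reg2 chunk11 rfl rfl (by norm_num) ok4 ok5 (by norm_num) (by norm_num) (by norm_num)
    rfl inv10

theorem inv12 : InvB P6 (1 / 2) 4096 64 z12 :=
  ch_reg chunk12 rfl rfl (by norm_num) ok5 ok6 (by norm_num) (by norm_num) (by norm_num)
    (by norm_num [P6]) inv11

theorem inv13 : InvB P7 1 4096 64 z13 :=
  ch_reg chunk13 rfl rfl (by norm_num) ok6 ok7 (by norm_num) (by norm_num) (by norm_num)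
    (by norm_num [P7]) inv12

theorem inv14 : InvB P8 2 4096 64 z14 :=
  ch_reg chunk14 rfl rfl (by norm_num) ok7 ok8 (by norm_num) (by norm_num) (by norm_num)
    (by norm_num [P8]) inv13

theorem inv15 : InvB P9 4 4096 64 z15 :=
  ch_reg chunk15 rfl rfl (by norm_num) ok8 ok9 (by norm_num) (by norm_num) (by norm_num)
    (by norm_num [P9]) inv14

theorem inv16 : InvB P10 8 4096 64 z16 :=
  ch_reg chunk16 rfl rfl (by norm_num) ok9 ok10 (by norm_num) (by norm_num) (by norm_num)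
    (by norm_num [P10]) inv15

theorem inv17 : InvB P11 16 4096 64 z17 :=
  ch_reg chunk17 rfl rfl (by norm_num) ok10 ok11 (by norm_num) (by norm_num) (by norm_num)
    (by norm_num [P11]) inv16

theorem inv18 : InvB P12 32 4096 64 z18 :=
  ch_reg chunk18 rfl rfl (by norm_num) ok11 ok12 (by norm_num) (by norm_num) (by norm_num)
    (by norm_num [P12]) inv17

theorem inv19 : InvB P13 64 4096 64 z19 :=
  ch_reg chunk19 rfl rfl (by norm_num) ok12 ok13 (by norm_num) (by norm_num) (by norm_num)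
    (by norm_num [P13]) inv18

theorem inv20 : Cov p14 128 (Est (((64 : ℕ) : ℝ) * 128)) e20 := by
  have e := eq_of_eqV chunk20
  rw [frcV_eq, frcV_eq] at e
  exact e ▸ ch_E (j₀ := 64) rfl rfl ok13.1 ok14 (by norm_num) (by norm_num) (by norm_num [p14])
    inv19.1

theorem bound : ∃ C t : ℝ, ∀ T, t ≤ T →
    Q0 {ω | ∃ k b, Wd 0 k ω b ∧ T ≤ S k ω} ≤ ENNReal.ofReal (C / T ^ 2) := by
  have e := chunk21
  rw [frcV_eq, frcV_eq, frcV_eq] at e
  have h : Cov p15 ((256 : ℕ) : ℝ) (Est (((64 : ℕ) : ℝ) * ((256 : ℕ) : ℝ))) _ :=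
    ch_E (nz := 4) (hb := 4722366482869645213696) (j := 32) (m := 32) (j₀ := 64) rfl rfl ok14 ok15
      (by norm_num) (by norm_num) (by norm_num [p15]) inv20
  obtain ⟨h7, f, N, hf, hN, hN', hm⟩ := fin_spec ok15 h e
  exact ⟨_, _, fun T hT => prob_long (by norm_num) h7 hf hN hN' hm hT⟩

theorem main {Ω : Type*} [MeasurableSpace Ω] (P : Measure Ω) [IsProbabilityMeasure P]
    (X : ℤ → Ω → ℝ) (hm : ∀ i, Measurable (X i)) (hi : iIndepFun X P)
    (hl : ∀ i, P.map (X i) = expMeasure 1) :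
    ∃ A, MeasurableSet A ∧ 0 < P A ∧ ∀ ω ∈ A, ∃ G, Stable (pos fun i => X i ω) G ∧
      (∀ G', Stable (pos fun i => X i ω) G' → G' = G) ∧ {v | G.Reachable 0 v}.Infinite := by
  obtain ⟨C, t, h⟩ := bound
  exact main_of_bound h P X hm hi hl

end Pool.Agent.P.SM
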