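import Pool.Agent.P.MP_411dac_pr.G0

/-!
The stretch between two consecutive points with a free stub is a word.
Hints. `no_cross`: if H.Adj a b, a < z < b and z has an edge outside H (length ≥ t ≥ |p a - p b|), then
stability forces G.Adj a z and G.Adj z b, both shorter than that edge: three neighbours.
`seg`: let v = u + k, R u := ∃ z > u, H.Adj u z, Lf v := ∃ z < v, H.Adj v z. Prove by strong induction
on the number of H-edges inside [u, v] (generalising H, t, u, k) :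
(¬R u ∧ ¬Lf v ∧ ∃ b, Wd 0 k _ b ∧ b ≤ t ∧ t ≤ S) ∨ (R u ∧ Lf v ∧ G.Reachable u v ∧ (the second
alternative of `seg`) ∧ ∃ c b, Wd c k _ b ∧ b ≤ t ∧ (c = 2 ∧ H.Adj u v ∨ c = 3 ∧ ¬H.Adj u v ∧ t ≤ S)).
Two points with free stubs which are not H-adjacent have distance ≥ t (stability). No edge inside:
k = 1 (an inner point has both edges in H, and they stay in [u, v] by `no_cross`). Otherwise let xy,
x < y, be a longest H-edge inside, s its length, H' = the H-edges of length ≤ s except xy: a cut at time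
s which agrees with H minus xy inside [u, v]. The points with free stubs in [u, v] are now u, x, y, v,
(`no_cross` for H: no point with a free stub lies strictly between x and y); apply the induction
hypothesis to (u, x), (x, y), (y, v) when they are not degenerate. An inner point x has exactly one
H'-edge; a point with a free stub has at most one H-edge. If (x, y) is a path it has kind 3 and
the outer stretches are empty words (`cyc`); else it is an empty word (`dim` or `act`). For the second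
alternative: if s < T take w = u (`Wd.gap_le`), else a gap in (x, y) is bad and the other gaps are
handled by the induction hypothesis.
-/

set_option autoImplicit false
set_option linter.unusedVariables false

noncomputable section

namespace Pool.Agent.P.SM

open MeasureTheory ProbabilityTheory Set
open scoped ENNReal

variable {x : ℤ → ℝ} {G H : SimpleGraph ℤ} {t : ℝ}

theorem three_D1 {p : ℤ → ℝ} (hG : Stable p G) {z a b c : ℤ} (ha : G.Adj z a) (hb : G.Adj z b)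
    (hc : G.Adj z c) (h1 : a ≠ b) (h2 : a ≠ c) (h3 : b ≠ c) : False := by
  obtain ⟨y, y', -, h⟩ := ncard_eq_two.1 (hG.deg z)
  have k : ∀ w, G.Adj z w → w = y ∨ w = y' := fun w hw => by
    have : w ∈ G.neighborSet z := hw
    rwa [h] at this
  rcases k a ha with rfl | rfl <;> rcases k b hb with rfl | rfl <;> rcases k c hc with rfl | rfl <;>
    simp_all

theorem other_D1 {p : ℤ → ℝ} (hG : Stable p G) (z a : ℤ) : ∃ b, b ≠ a ∧ G.Adj z b := by
  obtain ⟨y, y', h0, h⟩ := ncard_eq_two.1 (hG.deg z)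
  have k1 : y ∈ G.neighborSet z := by simp [h]
  have k2 : y' ∈ G.neighborSet z := by simp [h]
  by_cases e : y = a
  · exact ⟨y', fun e' => h0 (e.trans e'.symm), k2⟩
  · exact ⟨y, e, k1⟩

theorem abs_D1 (hx : ∀ i, 0 < x i) {a b : ℤ} (h : a ≤ b) :
    |pos x a - pos x b| = pos x b - pos x a ∧ |pos x b - pos x a| = pos x b - pos x a := by
  have := (pos_strictMono hx).monotone h
  exact ⟨by rw [abs_sub_comm, abs_of_nonneg (by linarith)], abs_of_nonneg (by linarith)⟩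

theorem no_cross (hx : ∀ i, 0 < x i) (hG : Stable (pos x) G) (hc : Cut (pos x) G H t)
    {a b z : ℤ} (hab : H.Adj a b) (h1 : a < z) (h2 : z < b) : ¬Uns G H z := by
  rintro ⟨y, k1, k2⟩
  have e1 := hc.short a b hab
  have e2 := hc.long z y k1 k2
  have e3 := abs_D1 hx h1.le
  have e4 := abs_D1 hx h2.le
  have e5 := abs_D1 hx (h1.trans h2).le
  have e6 := pos_strictMono hx h1
  have e7 := pos_strictMono hx h2
  have k3 : G.Adj a z := by
    rcases hG.stab a z h1.ne with k | k | k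
    · exact k
    · have := k b (hc.le hab)
      linarith [e3.1, e5.1]
    · have := k y k1
      linarith [e3.1, e5.1]
  have k4 : G.Adj z b := by
    rcases hG.stab z b h2.ne with k | k | k
    · exact k
    · have := k y k1
      linarith [e4.1, e5.1]
    · have := k a (hc.le hab).symm
      linarith [e4.1, e5.2]
  refine three_D1 hG k3.symm k4 k1 (h1.trans h2).ne ?_ ?_
  · rintro rfl
    linarith [e3.2, e5.1]
  · rintro rfl
    linarith [e4.1, e5.1]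

theorem far_D1 (hx : ∀ i, 0 < x i) (hG : Stable (pos x) G) (hc : Cut (pos x) G H t) {a b : ℤ}
    (h : a < b) (ha : Uns G H a) (hb : Uns G H b) (hab : ¬H.Adj a b) : t ≤ pos x b - pos x a := by
  rw [← (abs_D1 hx h.le).1]
  obtain ⟨y, k1, k2⟩ := ha
  obtain ⟨y', k3, k4⟩ := hb
  rcases hG.stab a b h.ne with k | k | k
  exacts [hc.long a b k hab, (hc.long _ _ k1 k2).trans (k y k1), (hc.long _ _ k3 k4).trans (k y' k3)]

/-- the stretch from `u` to `v` is a word -/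
def W_D1 (x : ℤ → ℝ) (c : ℕ) (u v : ℤ) (b : ℝ) : Prop :=
  ∃ k : ℕ, v = u + k ∧ Wd c k (tail x u) b

theorem dim_D1 {u v : ℤ} {b : ℝ} (h : W_D1 x 0 u v b) : W_D1 x 2 u v (pos x v - pos x u) := by
  obtain ⟨k, rfl, h⟩ := h
  exact ⟨k, rfl, pos_sub x u k ▸ h.dim⟩

theorem act_D1 {u a b v : ℤ} {c₁ c₃ : ℕ} {b₁ b₂ b₃ s : ℝ} (h1 : W_D1 x c₁ u a b₁)
    (h2 : W_D1 x 0 a b b₂) (h3 : W_D1 x c₃ b v b₃) (hs : s = pos x b - pos x a) (e1 : c₁ ≠ 0)
    (e3 : c₃ ≠ 0) (hne : ¬(u = a ∧ b = v)) (k1 : b₁ ≤ s) (k3 : b₃ ≤ s)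
    (l1 : c₁ = 3 → s ≤ pos x a - pos x u) (l3 : c₃ = 3 → s ≤ pos x v - pos x b) :
    W_D1 x 3 u v s := by
  obtain ⟨i, rfl, h1⟩ := h1
  obtain ⟨j, rfl, h2⟩ := h2
  obtain ⟨k, rfl, h3⟩ := h3
  rw [pos_sub] at hs l1 l3
  simp only [tail_add] at hs l3 h2 h3
  exact ⟨i + (j + k), by push_cast; ring, h1.act h2 h3 hs e1 e3 (by omega) k1 k3 l1 l3⟩

theorem cyc_D1 {u a b v : ℤ} {b₁ b₂ b₃ s : ℝ} (h1 : W_D1 x 0 u a b₁)
    (h2 : W_D1 x 3 a b b₂) (h3 : W_D1 x 0 b v b₃) (hs : s = pos x b - pos x a) (k1 : b₁ ≤ s)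
    (k3 : b₃ ≤ s) (l1 : s ≤ pos x a - pos x u) (l3 : s ≤ pos x v - pos x b) :
    W_D1 x 0 u v s := by
  obtain ⟨i, rfl, h1⟩ := h1
  obtain ⟨j, rfl, h2⟩ := h2
  obtain ⟨k, rfl, h3⟩ := h3
  rw [pos_sub] at hs l1 l3
  simp only [tail_add] at hs l3 h2 h3
  exact ⟨i + (j + k), by push_cast; ring, h1.cyc h2 h3 hs k1 k3 l1 l3⟩

theorem gap_le_D1 {u v i : ℤ} {c : ℕ} {b : ℝ} (h : W_D1 x c u v b) (hc : c ≠ 0) (h1 : u ≤ i)
    (h2 : i < v) : x i ≤ b := by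
  obtain ⟨k, rfl, h⟩ := h
  obtain ⟨j, rfl⟩ := Int.le.dest h1
  exact h.gap_le hc j (by omega)

theorem bad_D1 {u v g : ℤ} {b T : ℝ} (h : W_D1 x 0 u v b) (hT : T ≤ pos x v - pos x u)
    (h1 : u ≤ g) (h2 : g < v) : BadAt T x g := by
  obtain ⟨k, rfl, h⟩ := h
  exact ⟨u, k, b, h1, h2, h, pos_sub x u k ▸ hT⟩

/-- `a` has an edge with its other end between `u` and `v` -/
def In_D1 (H : SimpleGraph ℤ) (u v a : ℤ) : Prop := ∃ z, u ≤ z ∧ z ≤ v ∧ H.Adj a z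

def Sec_D1 (T : ℝ) (x : ℤ → ℝ) (G : SimpleGraph ℤ) (u v : ℤ) : Prop :=
  ∀ g, u ≤ g → g < v → BadAt T x g ∨
    ∃ w, G.Reachable u w ∧ w ≤ g ∧ ∀ i, w ≤ i → i ≤ g → x i < T

def A_D1 (x : ℤ → ℝ) (H : SimpleGraph ℤ) (t : ℝ) (u v : ℤ) : Prop :=
  ¬In_D1 H u v u ∧ ¬In_D1 H u v v ∧ ∃ b, W_D1 x 0 u v b ∧ b ≤ t ∧ t ≤ pos x v - pos x u

def B_D1 (T : ℝ) (x : ℤ → ℝ) (G H : SimpleGraph ℤ) (t : ℝ) (u v : ℤ) : Prop :=
  In_D1 H u v u ∧ In_D1 H u v v ∧ G.Reachable u v ∧ Sec_D1 T x G u v ∧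
    ∃ c b, W_D1 x c u v b ∧ b ≤ t ∧ (c = 2 ∧ H.Adj u v ∨ c = 3 ∧ t ≤ pos x v - pos x u)

theorem side_D1 {T : ℝ} {u v : ℤ} (ht : 0 ≤ t) (h : u = v ∨ B_D1 T x G H t u v) :
    G.Reachable u v ∧ Sec_D1 T x G u v ∧
      ∃ c b, W_D1 x c u v b ∧ c ≠ 0 ∧ b ≤ t ∧ (c = 3 → t ≤ pos x v - pos x u) := by
  rcases h with rfl | ⟨-, -, h1, h2, c, b, h3, h4, h5⟩
  · exact ⟨.refl _, fun g k1 k2 => (k1.not_gt k2).elim, 1, -1, ⟨0, by simp, .pt _⟩, by simp,
      by linarith, by simp⟩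
  · refine ⟨h1, h2, c, b, h3, by omega, h4, fun e => ?_⟩
    rcases h5 with h5 | h5
    exacts [by omega, h5.2]

open Classical in
/-- the edges between `u` and `v` -/
def E_D1 (H : SimpleGraph ℤ) (u v : ℤ) : Finset (ℤ × ℤ) :=
  (Finset.Icc u v ×ˢ Finset.Icc u v).filter fun q => q.1 < q.2 ∧ H.Adj q.1 q.2

theorem mem_E_D1 {u v : ℤ} {q : ℤ × ℤ} :
    q ∈ E_D1 H u v ↔ u ≤ q.1 ∧ q.1 < q.2 ∧ q.2 ≤ v ∧ H.Adj q.1 q.2 := by
  simp only [E_D1, Finset.mem_filter, Finset.mem_product, Finset.mem_Icc]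
  exact ⟨fun h => ⟨h.1.1.1, h.2.1, h.1.2.2, h.2.2⟩,
    fun h => ⟨⟨⟨h.1, by omega⟩, by omega, h.2.2.1⟩, h.2.1, h.2.2.2⟩⟩

/-- the edges of length at most `s` other than the edge from `a` to `b` -/
def rem_D1 (p : ℤ → ℝ) (H : SimpleGraph ℤ) (s : ℝ) (a b : ℤ) : SimpleGraph ℤ where
  Adj y z := H.Adj y z ∧ |p y - p z| ≤ s ∧ ¬(y = a ∧ z = b) ∧ ¬(y = b ∧ z = a)
  symm := ⟨fun y z h => ⟨h.1.symm, abs_sub_comm (p y) (p z) ▸ h.2.1,
    fun e => h.2.2.2 e.symm, fun e => h.2.2.1 e.symm⟩⟩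
  loopless := ⟨fun y h => h.1.ne rfl⟩

theorem stay_D1 (hx : ∀ i, 0 < x i) (hG : Stable (pos x) G) (hc : Cut (pos x) G H t)
    {u v y z : ℤ} (hu : Uns G H u) (hv : Uns G H v) (h1 : u < y) (h2 : y < v) (h : H.Adj y z) :
    u ≤ z ∧ z ≤ v :=
  ⟨not_lt.1 fun k => no_cross hx hG hc h.symm k h1 hu, not_lt.1 fun k => no_cross hx hG hc h h2 k hv⟩

theorem main_D1 (hx : ∀ i, 0 < x i) (hG : Stable (pos x) G) (T : ℝ) (n : ℕ) :
    ∀ (H : SimpleGraph ℤ) (t : ℝ) (u v : ℤ), (E_D1 H u v).card < n → 0 ≤ t →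
      Cut (pos x) G H t → u < v → Uns G H u → Uns G H v →
      (∀ z, u < z → z < v → ¬Uns G H z) → A_D1 x H t u v ∨ B_D1 T x G H t u v := by
  induction n with
  | zero => exact fun _ _ _ _ h => (Nat.not_lt_zero _ h).elim
  | succ n ih =>
  intro H t u v hn ht hc huv hu hv hm
  have inn : ∀ y z, u < y → y < v → G.Adj y z → H.Adj y z ∧ u ≤ z ∧ z ≤ v := fun y z h1 h2 h => by
    have k : H.Adj y z := by_contra fun k => hm y h1 h2 ⟨z, h, k⟩
    exact ⟨k, stay_D1 hx hG hc hu hv h1 h2 k⟩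
  rcases (E_D1 H u v).eq_empty_or_nonempty with h0 | h0
  · have k : ∀ y z, u ≤ y → y ≤ v → u ≤ z → z ≤ v → ¬H.Adj y z := fun y z h1 h2 h3 h4 h => by
      rcases lt_or_gt_of_ne h.ne with e | e
      · exact Finset.notMem_empty (y, z) (h0 ▸ mem_E_D1.2 ⟨h1, e, h4, h⟩)
      · exact Finset.notMem_empty (z, y) (h0 ▸ mem_E_D1.2 ⟨h3, e, h2, h.symm⟩)
    obtain rfl : v = u + 1 := by
      by_contra e
      obtain ⟨z, -, hz⟩ := other_D1 hG (u + 1) 0
      obtain ⟨k1, k2, k3⟩ := inn _ z (by omega) (by omega) hz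
      exact k _ _ (by omega) (by omega) k2 k3 k1
    exact Or.inl ⟨fun ⟨z, h1, h2, h⟩ => k _ _ le_rfl huv.le h1 h2 h,
      fun ⟨z, h1, h2, h⟩ => k _ _ huv.le le_rfl h1 h2 h, -1,
      ⟨1, by simp, .gap _ (hx _)⟩, by linarith,
      far_D1 hx hG hc huv hu hv (k _ _ le_rfl huv.le huv.le le_rfl)⟩
  obtain ⟨⟨a, b⟩, hab, hmax⟩ := (E_D1 H u v).exists_max_image (fun q => pos x q.2 - pos x q.1) h0
  obtain ⟨ha, hlt, hb, hadj⟩ : u ≤ a ∧ a < b ∧ b ≤ v ∧ H.Adj a b := mem_E_D1.1 hab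
  obtain ⟨s, hs⟩ : ∃ s, s = pos x b - pos x a := ⟨_, rfl⟩
  have s0 : 0 ≤ s := by linarith [pos_strictMono hx hlt]
  have st : s ≤ t := by linarith [hc.short a b hadj, (abs_D1 hx hlt.le).1]
  obtain ⟨H', hH'⟩ : ∃ H' : SimpleGraph ℤ, ∀ y z, H'.Adj y z ↔
      H.Adj y z ∧ |pos x y - pos x z| ≤ s ∧ ¬(y = a ∧ z = b) ∧ ¬(y = b ∧ z = a) :=
    ⟨rem_D1 (pos x) H s a b, fun _ _ => Iff.rfl⟩
  have hle : ∀ {y z}, H'.Adj y z → H.Adj y z := fun h => ((hH' _ _).1 h).1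
  have nab : ¬H'.Adj a b := fun h => ((hH' _ _).1 h).2.2.1 ⟨rfl, rfl⟩
  have hc' : Cut (pos x) G H' s := by
    refine ⟨fun y z h => hc.le (hle h), fun y z h => ((hH' _ _).1 h).2.1, fun y z h1 h2 => ?_⟩
    by_contra k
    have k' := not_le.1 k
    refine h2 ((hH' _ _).2 ⟨by_contra fun e => ?_, k'.le, ?_, ?_⟩)
    · linarith [hc.long y z h1 e]
    · rintro ⟨rfl, rfl⟩
      linarith [(abs_D1 hx hlt.le).1]
    · rintro ⟨rfl, rfl⟩
      linarith [(abs_D1 hx hlt.le).2]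
  have keep : ∀ y z, u ≤ y → y ≤ v → u ≤ z → z ≤ v → H.Adj y z → ¬(y = a ∧ z = b) →
      ¬(y = b ∧ z = a) → H'.Adj y z := fun y z h1 h2 h3 h4 h e1 e2 => by
    refine (hH' _ _).2 ⟨h, ?_, e1, e2⟩
    rcases lt_or_gt_of_ne h.ne with e | e
    · rw [(abs_D1 hx e.le).1, hs]
      exact hmax (y, z) (mem_E_D1.2 ⟨h1, e, h4, h⟩)
    · rw [(abs_D1 hx e.le).2, hs]
      exact hmax (z, y) (mem_E_D1.2 ⟨h3, e, h2, h.symm⟩)
  have gab := hc.le hadj
  have hu' : Uns G H' u := hu.imp fun _ h => ⟨h.1, fun k => h.2 (hle k)⟩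
  have hv' : Uns G H' v := hv.imp fun _ h => ⟨h.1, fun k => h.2 (hle k)⟩
  have ha' : Uns G H' a := ⟨b, gab, nab⟩
  have hb' : Uns G H' b := ⟨a, gab.symm, fun h => nab h.symm⟩
  have step : ∀ u' v', u ≤ u' → u' < v' → v' ≤ v → Uns G H' u' → Uns G H' v' →
      (v' ≤ a ∨ (a ≤ u' ∧ v' ≤ b) ∨ b ≤ u') → A_D1 x H' s u' v' ∨ B_D1 T x G H' s u' v' := by
    intro u' v' h1 h2 h3 h4 h5 h6
    refine ih H' s u' v' (lt_of_lt_of_le (Finset.card_lt_card ⟨fun q hq => ?_, fun h => ?_⟩)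
      (Nat.lt_succ_iff.1 hn)) s0 hc' h2 h4 h5 ?_
    · rw [mem_E_D1] at hq ⊢
      exact ⟨h1.trans hq.1, hq.2.1, hq.2.2.1.trans h3, hle hq.2.2.2⟩
    · exact nab (mem_E_D1.1 (h hab)).2.2.2
    · rintro y k1 k2 ⟨z, k3, k4⟩
      obtain ⟨k5, k6, k7⟩ := inn y z (by omega) (by omega) k3
      exact k4 (keep y z (by omega) (by omega) k6 k7 k5 (by omega) (by omega))
  have oneA : ∀ {y z}, H'.Adj a y → H'.Adj a z → y = z := fun {y z} h1 h2 => by_contra fun e =>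
    three_D1 hG gab (hc'.le h1) (hc'.le h2) (fun k => nab (k ▸ h1)) (fun k => nab (k ▸ h2)) e
  have oneB : ∀ {y z}, H'.Adj b y → H'.Adj b z → y = z := fun {y z} h1 h2 => by_contra fun e =>
    three_D1 hG gab.symm (hc'.le h1) (hc'.le h2) (fun k => nab (k ▸ h1).symm)
      (fun k => nab (k ▸ h2).symm) e
  rcases step a b ha hlt hb ha' hb' (by omega) with
    ⟨m1, m2, b₂, m3, -, -⟩ | ⟨⟨y, y1, y2, m1⟩, ⟨z, z1, z2, m2⟩, -, -, c, b₂, m3, -, m4⟩
  · have L : u = a ∨ B_D1 T x G H' s u a := ha.eq_or_lt.imp_right fun e =>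
      (step u a le_rfl e (by omega) hu' ha' (by omega)).resolve_left fun k => by
        obtain ⟨z, k1, k2⟩ := other_D1 hG a b
        obtain ⟨k3, k4, k5⟩ := inn a z e (by omega) k2
        have k6 := keep a z ha (by omega) k4 k5 k3 (by omega) (by omega)
        rcases le_total z a with k7 | k7
        · exact k.2.1 ⟨z, k4, k7, k6⟩
        · exact m1 ⟨z, k7, (stay_D1 hx hG hc' hu' hb' e hlt k6).2, k6⟩
    have R : b = v ∨ B_D1 T x G H' s b v := hb.eq_or_lt.imp_right fun e =>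
      (step b v (by omega) e le_rfl hb' hv' (by omega)).resolve_left fun k => by
        obtain ⟨z, k1, k2⟩ := other_D1 hG b a
        obtain ⟨k3, k4, k5⟩ := inn b z (by omega) e k2
        have k6 := keep b z (by omega) hb k4 k5 k3 (by omega) (by omega)
        rcases le_total z b with k7 | k7
        · exact m2 ⟨z, (stay_D1 hx hG hc' ha' hv' hlt e k6).1, k7, k6⟩
        · exact k.1 ⟨z, k7, k5, k6⟩
    obtain ⟨l1, l2, c₁, b₁, l3, l4, l5, l6⟩ := side_D1 s0 L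
    obtain ⟨r1, r2, c₃, b₃, r3, r4, r5, r6⟩ := side_D1 s0 R
    have w : ∃ c, W_D1 x c u v s ∧ (c = 2 ∧ H.Adj u v ∨ c = 3 ∧ t ≤ pos x v - pos x u) := by
      by_cases e : u = a ∧ b = v
      · obtain ⟨rfl, rfl⟩ := e
        exact ⟨2, hs ▸ dim_D1 m3, Or.inl ⟨rfl, hadj⟩⟩
      · refine ⟨3, act_D1 l3 m3 r3 hs l4 r4 e l5 r5 l6 r6, Or.inr ⟨rfl,
          far_D1 hx hG hc huv hu hv fun k => e ?_⟩⟩
        have k1 : pos x v - pos x u ≤ pos x b - pos x a :=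
          hmax (u, v) (mem_E_D1.2 ⟨le_rfl, huv, le_rfl, k⟩)
        have k2 := (pos_strictMono hx).monotone ha
        have k3 := (pos_strictMono hx).monotone hb
        exact ⟨(pos_strictMono hx).injective (by linarith),
          (pos_strictMono hx).injective (by linarith)⟩
    obtain ⟨c, w1, w2⟩ := w
    refine Or.inr ⟨?_, ?_, l1.trans (gab.reachable.trans r1), fun g g1 g2 => ?_, c, s, w1, st, w2⟩
    · rcases L with rfl | ⟨⟨z, k1, k2, k3⟩, -⟩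
      exacts [⟨b, hlt.le, hb, hadj⟩, ⟨z, k1, by omega, hle k3⟩]
    · rcases R with rfl | ⟨-, ⟨z, k1, k2, k3⟩, -⟩
      exacts [⟨a, ha, hlt.le, hadj.symm⟩, ⟨z, by omega, k2, hle k3⟩]
    · rcases lt_or_ge s T with e | e
      · exact Or.inr ⟨u, .refl _, g1, fun i i1 i2 =>
          (gap_le_D1 w1 (by omega) i1 (by omega)).trans_lt e⟩
      rcases lt_or_ge g a with e1 | e1
      · exact l2 g g1 e1
      rcases lt_or_ge g b with e2 | e2
      · exact Or.inl (bad_D1 m3 (hs ▸ e) e1 e2)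
      · exact (r2 g e2 g2).imp_right (Exists.imp fun _ k =>
          ⟨l1.trans (gab.reachable.trans k.1), k.2⟩)
  · obtain rfl : c = 3 := (m4.resolve_left fun k => nab k.2).1
    have ya := m1.ne
    have zb := m2.ne
    have e1 : u < a := ha.lt_of_ne fun e => by
      obtain ⟨w, k1, k2⟩ := e ▸ hu
      exact three_D1 hG gab (hc'.le m1) k1 (fun k => nab (k ▸ m1)) (fun k => k2 (k ▸ hadj))
        fun k => k2 (k ▸ hle m1)
    have e2 : b < v := hb.lt_of_ne fun e => by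
      obtain ⟨w, k1, k2⟩ := e.symm ▸ hv
      exact three_D1 hG gab.symm (hc'.le m2) k1 (fun k => nab (k ▸ m2).symm)
        (fun k => k2 (k ▸ hadj.symm)) fun k => k2 (k ▸ hle m2)
    obtain ⟨l1, -, b₁, l3, l4, l5⟩ := (step u a le_rfl e1 (by omega) hu' ha' (by omega)).resolve_right
      fun ⟨_, ⟨w, _, k2, k3⟩, _⟩ => by have := oneA m1 k3; omega
    obtain ⟨-, r2, b₃, r3, r4, r5⟩ := (step b v (by omega) e2 le_rfl hb' hv' (by omega)).resolve_right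
      fun ⟨⟨w, k1, _, k3⟩, _⟩ => by have := oneB m2 k3; omega
    have k : ¬In_D1 H u v u := fun ⟨w, k1, k2, k3⟩ => by
      have k4 := keep u w le_rfl huv.le k1 k2 k3 (by omega) (by omega)
      exact l1 ⟨w, k1, not_lt.1 fun k5 => no_cross hx hG hc' k4 e1 k5 ha', k4⟩
    refine Or.inl ⟨k, fun ⟨w, k1, k2, k3⟩ => ?_, s, cyc_D1 l3 m3 r3 hs l4 r4 l5 r5, st,
      far_D1 hx hG hc huv hu hv fun k' => k ⟨v, huv.le, le_rfl, k'⟩⟩
    have k4 := keep v w huv.le le_rfl k1 k2 k3 (by omega) (by omega)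
    exact r2 ⟨w, not_lt.1 fun k5 => no_cross hx hG hc' k4.symm k5 e2 hb', k2, k4⟩

theorem seg (hx : ∀ i, 0 < x i) (hG : Stable (pos x) G) (T : ℝ) (ht : 0 ≤ t)
    (hc : Cut (pos x) G H t) {u : ℤ} {k : ℕ} (hk : 0 < k) (hu : Uns G H u) (hv : Uns G H (u + k))
    (hm : ∀ z, u < z → z < u + k → ¬Uns G H z) :
    (∃ b, Wd 0 k (tail x u) b ∧ t ≤ S k (tail x u)) ∨
      ∀ g, u ≤ g → g < u + k → BadAt T x g ∨
        ∃ w, G.Reachable u w ∧ w ≤ g ∧ ∀ i, w ≤ i → i ≤ g → x i < T := by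
  rcases main_D1 hx hG T _ H t u (u + k) (Nat.lt_succ_self _) ht hc (by omega) hu hv hm with
    ⟨-, -, b, ⟨j, e, h1⟩, -, h2⟩ | h
  · obtain rfl : k = j := by omega
    exact Or.inl ⟨b, h1, pos_sub x u k ▸ h2⟩
  · exact Or.inr h.2.2.2.1

end Pool.Agent.P.SM
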