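import Pool.Agent.P.MP_411dac_pr.G0

/-!
The greedy graph.
Hints. `adjN` is symmetric. `adj_unique`: fix u, v, t = |p u - p v| and a window [L, R] containing u, v
with x (L - 1) > t and x R > t. Prove for all a, b in the window with |p a - p b| ≤ t, by induction on the
number of pairs of the window with smaller distance, that R a b ↔ R' a b. (A point z closer than t to
a point of the window lies in the window.) The same induction shows that adjN n a b does not depend on
n for large n (`adjN_stab`), which gives `GS_fix` (only finitely many z are closer than t to u). A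
stable graph satisfies the same equation since two neighbours of u never have the same distance from
u (`Good.tie` and strict monotonicity). Degree at most two: the farthest of three neighbours.
-/

set_option autoImplicit false
set_option linter.unusedVariables false

noncomputable section

namespace Pool.Agent.P.SM

open MeasureTheory ProbabilityTheory Set
open scoped ENNReal

variable {x : ℤ → ℝ}

theorem full_congr_D3 {p : ℤ → ℝ} {R R' : ℤ → ℤ → Prop} {a : ℤ} {d : ℝ}
    (h : ∀ z, |p a - p z| < d → (R a z ↔ R' a z)) : Full p R a d ↔ Full p R' a d := by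
  constructor
  · rintro ⟨z, z', hne, h1, h2, h3, h4⟩
    exact ⟨z, z', hne, (h z h3).1 h1, (h z' h4).1 h2, h3, h4⟩
  · rintro ⟨z, z', hne, h1, h2, h3, h4⟩
    exact ⟨z, z', hne, (h z h3).2 h1, (h z' h4).2 h2, h3, h4⟩

theorem window_D3 (hx : Good x) (u : ℤ) (t : ℝ) :
    ∃ W : Finset ℤ, u ∈ W ∧ ∀ a ∈ W, ∀ z, |pos x a - pos x z| < t → z ∈ W := by
  obtain ⟨i, hi, hi1, -⟩ := hx.left t u
  obtain ⟨j, hj, -, hj1⟩ := hx.right t u
  have hm := (pos_strictMono hx.gap).monotone
  refine ⟨Finset.Icc i j, Finset.mem_Icc.2 ⟨hi, hj⟩, ?_⟩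
  intro a ha z hz
  rw [Finset.mem_Icc] at ha ⊢
  rw [abs_lt] at hz
  constructor
  · by_contra hlt
    have h1 : pos x z ≤ pos x (i - 1) := hm (by omega)
    have h2 : pos x i ≤ pos x a := hm ha.1
    have h3 := pos_succ x (i - 1)
    rw [sub_add_cancel] at h3
    linarith [hz.2]
  · by_contra hlt
    have h1 : pos x (j + 1) ≤ pos x z := hm (by omega)
    have h2 : pos x a ≤ pos x j := hm ha.2
    have h3 := pos_succ x j
    linarith [hz.1]

theorem key_D3 {p : ℤ → ℝ} {W : Finset ℤ} {t : ℝ}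
    (hW : ∀ a ∈ W, ∀ z, |p a - p z| < t → z ∈ W) (A B : ℕ → ℤ → ℤ → Prop)
    (hA : ∀ n u v, A (n + 1) u v ↔ u ≠ v ∧ ¬Full p (A n) u |p u - p v| ∧
      ¬Full p (A n) v |p u - p v|)
    (hB : ∀ n u v, B (n + 1) u v ↔ u ≠ v ∧ ¬Full p (B n) u |p u - p v| ∧
      ¬Full p (B n) v |p u - p v|) (n : ℕ) :
    ∀ d, d ≤ t → ((W ×ˢ W).filter fun q => |p q.1 - p q.2| < d).card ≤ n →
      ∀ a ∈ W, ∀ z, |p a - p z| < d → (A n a z ↔ B n a z) := by
  induction n with
  | zero =>
    intro d hd hc a ha z hz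
    exfalso
    have hz' := hW a ha z (hz.trans_le hd)
    have hmem : (a, z) ∈ (W ×ˢ W).filter fun q => |p q.1 - p q.2| < d :=
      Finset.mem_filter.2 ⟨Finset.mem_product.2 ⟨ha, hz'⟩, hz⟩
    have := Finset.card_pos.2 ⟨_, hmem⟩
    omega
  | succ n ih =>
    intro d hd hc a ha z hz
    have hz' := hW a ha z (hz.trans_le hd)
    have hmem : (a, z) ∈ (W ×ˢ W).filter fun q => |p q.1 - p q.2| < d :=
      Finset.mem_filter.2 ⟨Finset.mem_product.2 ⟨ha, hz'⟩, hz⟩
    have hlt : ((W ×ˢ W).filter fun q => |p q.1 - p q.2| < |p a - p z|).card <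
        ((W ×ˢ W).filter fun q => |p q.1 - p q.2| < d).card := by
      apply Finset.card_lt_card
      rw [Finset.ssubset_iff_of_subset]
      · refine ⟨(a, z), hmem, ?_⟩
        intro h
        exact lt_irrefl _ (Finset.mem_filter.1 h).2
      · intro q hq
        rw [Finset.mem_filter] at hq ⊢
        exact ⟨hq.1, hq.2.trans hz⟩
    have h := ih |p a - p z| (hz.le.trans hd) (by omega)
    rw [hA, hB, full_congr_D3 (h a ha), full_congr_D3 (h z hz')]

theorem adjN_symm_D3 (p : ℤ → ℝ) (n : ℕ) (u v : ℤ) (h : adjN p n u v) : adjN p n v u := by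
  cases n with
  | zero => exact h
  | succ n =>
    obtain ⟨h1, h2, h3⟩ := h
    refine ⟨h1.symm, ?_, ?_⟩
    · rw [abs_sub_comm]; exact h3
    · rw [abs_sub_comm]; exact h2

theorem stab_D3 {p : ℤ → ℝ} {W : Finset ℤ} {t : ℝ}
    (hW : ∀ a ∈ W, ∀ z, |p a - p z| < t → z ∈ W) :
    ∃ m, ∀ n, m ≤ n → ∀ a ∈ W, ∀ z, |p a - p z| < t → (adjN p n a z ↔ adjN p m a z) := by
  refine ⟨((W ×ˢ W).filter fun q => |p q.1 - p q.2| < t).card, ?_⟩
  intro n hn a ha z hz
  obtain ⟨r, rfl⟩ := Nat.exists_eq_add_of_le' hn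
  have h := key_D3 hW (fun k => adjN p (r + k)) (fun k => adjN p k)
    (fun _ _ _ => Iff.rfl) (fun _ _ _ => Iff.rfl) _ t le_rfl le_rfl a ha z hz
  exact h

theorem adj_unique (hx : Good x) {R R' : ℤ → ℤ → Prop}
    (hR : ∀ u v, R u v ↔ u ≠ v ∧ ¬Full (pos x) R u |pos x u - pos x v| ∧
      ¬Full (pos x) R v |pos x u - pos x v|)
    (hR' : ∀ u v, R' u v ↔ u ≠ v ∧ ¬Full (pos x) R' u |pos x u - pos x v| ∧
      ¬Full (pos x) R' v |pos x u - pos x v|) (u v : ℤ) : R u v ↔ R' u v := by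
  obtain ⟨W, hu, hW⟩ := window_D3 hx u (|pos x u - pos x v| + 1)
  exact key_D3 hW (fun _ => R) (fun _ => R') (fun _ => hR) (fun _ => hR') _ _ le_rfl le_rfl
    u hu v (by linarith)

theorem adjN_stab (hx : Good x) (u v : ℤ) :
    ∃ m, ∀ n, m ≤ n → (adjN (pos x) n u v ↔ adjN (pos x) m u v) := by
  obtain ⟨W, hu, hW⟩ := window_D3 hx u (|pos x u - pos x v| + 1)
  obtain ⟨m, hm⟩ := stab_D3 hW
  exact ⟨m, fun n hn => hm n hn u hu v (by linarith)⟩

theorem GS_fix (hx : Good x) (u v : ℤ) : (GS (pos x)).Adj u v ↔ u ≠ v ∧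
    ¬Full (pos x) (GS (pos x)).Adj u |pos x u - pos x v| ∧
      ¬Full (pos x) (GS (pos x)).Adj v |pos x u - pos x v| := by
  obtain ⟨W, hu, hW⟩ := window_D3 hx u (|pos x u - pos x v| + 1)
  obtain ⟨m, hm⟩ := stab_D3 hW
  have hv : v ∈ W := hW u hu v (by linarith)
  have hG : ∀ a ∈ W, ∀ z, |pos x a - pos x z| < |pos x u - pos x v| + 1 →
      ((GS (pos x)).Adj a z ↔ adjN (pos x) m a z) := by
    intro a ha z hz
    unfold GS
    rw [SimpleGraph.fromRel_adj]
    constructor
    · rintro ⟨-, ⟨k, hk⟩ | ⟨k, hk⟩⟩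
      · exact (hm (max m k) (le_max_left _ _) a ha z hz).1 (hk _ (le_max_right _ _))
      · exact (hm (max m k) (le_max_left _ _) a ha z hz).1
          (adjN_symm_D3 _ _ _ _ (hk _ (le_max_right _ _)))
    · intro h
      refine ⟨((hm (m + 1) (Nat.le_succ _) a ha z hz).2 h).1, Or.inl ⟨m, fun n hn => ?_⟩⟩
      exact (hm n hn a ha z hz).2 h
  rw [hG u hu v (by linarith), ← hm (m + 1) (Nat.le_succ _) u hu v (by linarith),
    full_congr_D3 (fun z hz => hG u hu z (by linarith)),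
    full_congr_D3 (fun z hz => hG v hv z (by linarith))]
  exact Iff.rfl

end Pool.Agent.P.SM
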