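import Mathlib

/-! The stable multi-matching with two stubs at every point of the line. -/

set_option autoImplicit false

namespace Pool.Agent.P.SM

/-- The position of the point number `i`, where `x k` is the gap between the points `k` and
`k + 1` and the point `0` is the origin. -/
noncomputable def pos (x : ℤ → ℝ) (i : ℤ) : ℝ :=
  ∑ k ∈ Finset.Ico 0 i, x k - ∑ k ∈ Finset.Ico i 0, x k

/-- `G` is a stable multi-matching with all degrees two of the points `p i`. -/
structure Stable (p : ℤ → ℝ) (G : SimpleGraph ℤ) : Prop where
  deg : ∀ v, (G.neighborSet v).ncard = 2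
  stab : ∀ u v, u ≠ v → G.Adj u v ∨ (∀ z, G.Adj u z → |p u - p z| ≤ |p u - p v|) ∨
    ∀ z, G.Adj v z → |p v - p z| ≤ |p u - p v|

end Pool.Agent.P.SM
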