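/-!
The program: packed fixed point arithmetic on vectors of cells.
A natural number `N` stands for the vector of its digits in base `2 ^ w`.
-/

set_option autoImplicit false

namespace Pool.Agent.P.SM

/-- digit width, fraction bits, tilt `u / 2 ^ g`, number of cells, depth of the folds -/
structure Pm where
  w : Nat
  F : Nat
  g : Nat
  u : Nat
  n : Nat
  k : Nat

/-- left values, right values, mass and supremum of the tail, bound for the digits, flag -/
structure V where
  a : Nat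
  b : Nat
  t : Nat
  s : Nat
  k : Nat
  ok : Bool

def ones (w n : Nat) : Nat := ((1 <<< (w * n)) - 1) / ((1 <<< w) - 1)

def low (w n N : Nat) : Nat := N &&& ((1 <<< (w * n)) - 1)

def dig (w N l : Nat) : Nat := (N >>> (w * l)) % (1 <<< w)

def monus (w n N M : Nat) : Nat :=
  let G := ones w n <<< (w - 1)
  let D := N + G - M
  let T := D &&& G
  D &&& (T - (T >>> (w - 1)))

def rnd (w n r N : Nat) : Nat :=
  ((N >>> r) &&& (ones w n * ((1 <<< (w - r)) - 1))) + ones w n

def orf (w : Nat) : Nat → Nat → Nat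
  | 0, N => N
  | k + 1, N => orf w k (low w (2 ^ k) N ||| (N >>> (w * 2 ^ k)))

def dsum (w N : Nat) : Nat := N % ((1 <<< w) - 1)

def fit (p : Pm) (k : Nat) : Bool := Nat.blt (4 * (p.n + 1) * (k + 1)) (1 <<< p.w)

/-- twice the total mass -/
def nr (p : Pm) (x : V) : Nat := dsum p.w (x.a + x.b) + 2 * x.t

def lcv (p : Pm) (x y : V) : V :=
  let P := x.a * y.a
  let S := x.b * y.b
  let Q := x.a * y.b + x.b * y.a
  let H := (P + Q + S) >>> (p.w * (p.n - 1))
  let P1 := low p.w p.n P <<< p.g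
  let Q1 := low p.w p.n Q <<< p.g
  let S1 := low p.w p.n S <<< p.g
  let P2 := (p.u * low p.w (p.n - 1) P) <<< p.w
  let Q2 := (p.u * low p.w (p.n - 1) Q) <<< p.w
  let S2 := (p.u * low p.w (p.n - 1) S) <<< p.w
  let X0 := 4 * (P2 + 2 * Q2 + S2)
    + monus p.w p.n (5 * P1 + 4 * S2) (2 * Q1 + S1 + 2 * P2 + Q2)
  let X1 := 4 * (P1 + 2 * Q1 + S1)
    + monus p.w p.n (4 * P1 + 5 * S2) (Q1 + 2 * S1 + P2 + 2 * Q2)
  let a := rnd p.w p.n (p.F + p.g + 27) (5592406 * X0)
  let b := rnd p.w p.n (p.F + p.g + 27) (5592406 * X1)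
  let k := orf p.w p.k (a ||| b)
  { a := a
    b := b
    t := ((p.u * (x.t * nr p y + nr p x * y.t + 2 * dsum p.w H)) >>> (p.F + p.g + 1)) + 1
    s := ((p.u * (x.s * nr p y + nr p x * y.s + 2 * orf p.w (p.k + 1) H))
      >>> (p.F + p.g + 1)) + 1
    k := k
    ok := x.ok && y.ok && fit p k
      && Nat.blt ((nr p x * y.k + 1) <<< (p.g + 30)) (1 <<< p.w)
      && Nat.blt (nr p x * nr p y + 1) (1 <<< p.w) }

def add (p : Pm) (x y : V) : V :=
  { a := x.a + y.a, b := x.b + y.b, t := x.t + y.t, s := x.s + y.s, k := x.k + y.k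
    ok := x.ok && y.ok && fit p (x.k + y.k) }

/-- `x + y` if `c` holds, else `x` -/
def addc (p : Pm) (c : Bool) (x y : V) : V := cond c (add p x y) x

def clr (p : Pm) (j : Nat) (x : V) : V :=
  { a := x.a - (dig p.w x.a j <<< (p.w * j)), b := x.b - (dig p.w x.b j <<< (p.w * j))
    t := x.t, s := x.s, k := x.k, ok := x.ok }

def drp (p : Pm) (j : Nat) (x : V) : V :=
  { a := (x.a >>> (p.w * j)) <<< (p.w * j), b := (x.b >>> (p.w * j)) <<< (p.w * j)
    t := x.t, s := x.s, k := x.k, ok := x.ok }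

def andok (c : Bool) (x : V) : V := { x with ok := x.ok && c }

def cell (p : Pm) (j a b : Nat) : V :=
  { a := a <<< (p.w * j), b := b <<< (p.w * j), t := 0, s := 0, k := a + b
    ok := Nat.blt j p.n && fit p (a + b) }

def env (p : Pm) (q z : V) : V :=
  let d := (1 <<< (p.F + p.g + 1)) - p.u * nr p q
  let s := p.u * nr p q * (z.k + z.s) / d + 1
  { a := s * ones p.w p.n, b := s * ones p.w p.n, t := p.u * nr p q * nr p z / (2 * d) + 1
    s := s, k := s, ok := q.ok && z.ok && Nat.blt 0 d && fit p s }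

def tl (p : Pm) (q : V) : Nat → V → V
  | 0, z => env p q z
  | m + 1, z => add p (lcv p q z) (tl p q m (lcv p q z))

def birth (p : Pm) (nz : Nat) (c : Bool) (j : Nat) (x : V) (ya yb : Nat) : V :=
  let y := cell p j ya yb
  let xp := clr p j x
  let B1 := lcv p y (addc p c (lcv p xp xp) (add p xp xp))
  let Tc := lcv p (cell p j (max ya yb) (max ya yb))
    (cell p j (max (dig p.w x.a j) (dig p.w x.b j)) (max (dig p.w x.a j) (dig p.w x.b j)))
  let T := addc p c (lcv p Tc x) Tc
  let BT := add p B1 T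
  add p BT (tl p (addc p c (lcv p y x) y) nz (addc p c (add p BT T) y))

def cut (c : Bool) (x : V) : V := cond c { x with t := 0, s := 0 } x

def frc {α : Type} (n : Nat) (f : Nat → α) : α :=
  match n with
  | 0 => f 0
  | m + 1 => f (Nat.succ m)

def frcV {α : Type} (x : V) (f : V → α) : α :=
  frc x.a fun a => frc x.b fun b => frc x.t fun t => frc x.s fun s => frc x.k fun k =>
    cond x.ok (f ⟨a, b, t, s, k, true⟩) (f ⟨a, b, t, s, k, false⟩)

/-- a phase: parameters of the two sides, number of explicit terms, cut flag, extra term -/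
structure Ph where
  e : Pm
  o : Pm
  nz : Nat
  c : Bool
  ex : Nat

def tr (j u u' d : Nat) : Nat := d * u' ^ j / u ^ j + 1

def tight (p : Pm) (x : V) : V :=
  { x with k := orf p.w p.k (x.a ||| x.b), ok := x.ok && fit p (orf p.w p.k (x.a ||| x.b)) }

/-- old words and new words -/
def grow (p : Pm) (nz : Nat) (c : Bool) (j : Nat) (x : V) (ya yb : Nat) : V :=
  add p x (drp p j (birth p nz c j x ya yb))

def step (P : Ph) (j : Nat) (z : V × V) : V × V :=
  let x := cond (Nat.beq j 0) P.ex 0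
  let ea := tr j P.e.u P.o.u (dig P.e.w z.1.a j + x)
  let eb := tr j P.e.u P.o.u (dig P.e.w z.1.b j + x)
  let o1 := andok (z.1.ok && Nat.blt j P.e.n) (grow P.o P.nz true j z.2 ea eb)
  let e1 := grow P.e P.nz false j z.1
    (tr j P.o.u P.e.u (dig P.o.w o1.a j)) (tr j P.o.u P.e.u (dig P.o.w o1.b j))
  (tight P.e (clr P.e j (andok o1.ok e1)),
    tight P.o (cut P.c (add P.o (clr P.o j o1) (cell P.o j ea eb))))

def run (P : Ph) : Nat → Nat → V × V → V × V
  | 0, _, z => z
  | m + 1, j, z => frcV (step P j z).1 fun e => frcV (step P j z).2 fun o =>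
      frc (j + 1) fun i => run P m i (e, o)

/-- a step with the trivial bound for the dying paths; `hb` bounds `h * 2 ^ F` -/
def stepE (p : Pm) (nz hb j : Nat) (x : V) : V :=
  tight p (clr p j (grow p nz false j x (tr j (1 <<< p.g) p.u hb) (tr j (1 <<< p.g) p.u hb)))

def runE (p : Pm) (nz hb : Nat) : Nat → Nat → V → V
  | 0, _, x => x
  | m + 1, j, x => frcV (stepE p nz hb j x) fun e => frc (j + 1) fun i => runE p nz hb m i e

/-- the final test; `h` is the length of the cells -/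
def fin (p : Pm) (h j : Nat) (x : V) : Bool :=
  x.ok && Nat.ble 7 j && Nat.blt (1 <<< p.g) p.u
    && Nat.ble (11 * h * p.u ^ 3 * nr p x) (((j - 1) * (p.u - (1 <<< p.g)) ^ 2) <<< (p.g + p.F))

/-- more explicit cells -/
def ext (p : Pm) (n : Nat) (x : V) : V :=
  { a := x.a + ((x.s * ones p.w (n - p.n)) <<< (p.w * p.n))
    b := x.b + ((x.s * ones p.w (n - p.n)) <<< (p.w * p.n))
    t := x.t, s := x.s, k := x.k + x.s
    ok := x.ok && Nat.ble p.n n && fit { p with n := n } (x.k + x.s) }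

/-- an upper bound for `c * (r / d) ^ m` -/
def gp (r d m c : Nat) : Nat := ((c * (((r ^ m) <<< 64) / d ^ m + 1)) >>> 64) + 1

/-- a table of `2 ^ k` values, with a geometric factor of ratio `r / d` -/
def dc (lf : Nat → Nat → Nat → Nat) (i w r d : Nat) : Nat → Nat → Nat → Nat → Nat
  | 0, c, A, B => min (lf c A B) (1 <<< (w - 1))
  | k + 1, c, A, B => frc (gp r d (2 ^ k) c) fun c' =>
      dc lf i w r d k c (low i (2 ^ k) A) (low i (2 ^ k) B)
        + (dc lf i w r d k c' (A >>> (i * 2 ^ k)) (B >>> (i * 2 ^ k)) <<< (w * 2 ^ k))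

/-- twice `u` times the lift of the chord over two cells -/
def lift (p : Pm) (A B : Nat) : Nat :=
  2 * max (p.u * dig p.w B 0) (dig p.w A 1 <<< p.g) - (p.u * dig p.w A 0 + (dig p.w B 1 <<< p.g))

def lfa (p p' : Pm) (c A B : Nat) : Nat :=
  ((c * (2 * p.u * dig p.w A 0 + lift p A B)) <<< p'.F) / (p.u <<< (p.F + 64)) + 1

def lfb (p p' : Pm) (c A B : Nat) : Nat :=
  ((c * (2 * (dig p.w B 1 <<< p.g) + lift p A B)) <<< p'.F) / (p.u <<< (p.F + 64)) + 1

/-- passage to cells of double length; `x` has `2 * p'.n` cells -/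
def halve (p p' : Pm) (x : V) : V :=
  let r := p'.u <<< (2 * p.g)
  let d := (p.u * p.u) <<< p'.g
  let a := low p'.w p'.n (dc (lfa p p') (2 * p.w) p'.w r d p'.k (1 <<< 64) x.a x.b)
  let b := low p'.w p'.n (dc (lfb p p') (2 * p.w) p'.w r d p'.k (1 <<< 64) x.a x.b)
  let k := orf p'.w p'.k (a ||| b)
  { a := a, b := b
    t := (gp r d p'.n (x.t <<< p'.F) >>> p.F) + 1
    s := (gp r d p'.n ((2 * x.s) <<< p'.F) >>> p.F) + 1
    k := k
    ok := x.ok && fit p' k && Nat.ble r d && Nat.ble p'.n (2 ^ p'.k) }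

def reg1 (p p' : Pm) (x : V) : V := halve { p with n := 2 * p'.n } p' (ext p (2 * p'.n) x)

def reg (P P' : Ph) (z : V × V) : V × V :=
  frcV (reg1 P.e P'.e z.1) fun e => frcV (cut P'.c (reg1 P.o P'.o z.2)) fun o => (e, o)

/-- the start: `r / d` bounds `exp (-h)`, `c` bounds `h * 2 ^ F` -/
def init (p : Pm) (r d c : Nat) : V :=
  let r' := r * p.u
  let d' := d <<< p.g
  let a := low p.w p.n (dc (fun c _ _ => (c >>> 32) + 1) 1 p.w r' d' p.k (c <<< 32) 0 0)
  let b := low p.w p.n
    (dc (fun c _ _ => (c >>> 32) + 1) 1 p.w r' d' p.k (gp r d 1 (c <<< 32)) 0 0)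
  let k := orf p.w p.k (a ||| b)
  { a := a, b := b, t := gp r' d' p.n c * d' / (d' - r') + 1, s := gp r' d' p.n c, k := k
    ok := fit p k && Nat.blt r' d' && Nat.ble p.n (2 ^ p.k) }

def eqV (x y : V) : Bool :=
  Nat.beq x.a y.a && Nat.beq x.b y.b && Nat.beq x.t y.t && Nat.beq x.s y.s && Nat.beq x.k y.k
    && (x.ok == y.ok)

def eqS (z z' : V × V) : Bool := eqV z.1 z'.1 && eqV z.2 z'.2

/-- from width `i` to width `w` -/
def spread (i w : Nat) : Nat → Nat → Nat
  | 0, N => N
  | k + 1, N => spread i w k (low i (2 ^ k) N) + (spread i w k (N >>> (i * 2 ^ k)) <<< (w * 2 ^ k))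

end Pool.Agent.P.SM
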