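import Pool.Agent.P.MP_411dac_pr.Defs
import Pool.Agent.P.MP_411dac_pr.Prog

/-! Working definitions. -/

set_option autoImplicit false

noncomputable section

namespace Pool.Agent.P.SM

open MeasureTheory ProbabilityTheory Set
open scoped ENNReal

/-! ### Words -/

abbrev Sq := ℕ → ℝ

/-- the length of the first `k` gaps -/
def S (k : ℕ) (ω : Sq) : ℝ := ∑ i ∈ Finset.range k, ω i

def sh (k : ℕ) (ω : Sq) : Sq := fun i => ω (k + i)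

/-- `Wd c k ω b`: the first `k` gaps of `ω` form a word of kind `c`, born at time `b`.
Kinds: `0` empty stretch between two paths, `1` point, `2` single edge, `3` longer path. -/
inductive Wd : ℕ → ℕ → Sq → ℝ → Prop
  | gap (ω : Sq) : 0 < ω 0 → Wd 0 1 ω (-1)
  | pt (ω : Sq) : Wd 1 0 ω (-1)
  | dim {k : ℕ} {ω : Sq} {b : ℝ} : Wd 0 k ω b → Wd 2 k ω (S k ω)
  | act {c₁ c₃ k₁ k₂ k₃ : ℕ} {ω : Sq} {b₁ b₂ b₃ s : ℝ} :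
      Wd c₁ k₁ ω b₁ → Wd 0 k₂ (sh k₁ ω) b₂ → Wd c₃ k₃ (sh k₂ (sh k₁ ω)) b₃ →
      s = S k₂ (sh k₁ ω) → c₁ ≠ 0 → c₃ ≠ 0 → k₁ + k₃ ≠ 0 → b₁ ≤ s → b₃ ≤ s →
      (c₁ = 3 → s ≤ S k₁ ω) → (c₃ = 3 → s ≤ S k₃ (sh k₂ (sh k₁ ω))) →
      Wd 3 (k₁ + (k₂ + k₃)) ω s
  | cyc {k₁ k₂ k₃ : ℕ} {ω : Sq} {b₁ b₂ b₃ s : ℝ} :
      Wd 0 k₁ ω b₁ → Wd 3 k₂ (sh k₁ ω) b₂ → Wd 0 k₃ (sh k₂ (sh k₁ ω)) b₃ →
      s = S k₂ (sh k₁ ω) → b₁ ≤ s → b₃ ≤ s → s ≤ S k₁ ω → s ≤ S k₃ (sh k₂ (sh k₁ ω)) →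
      Wd 0 (k₁ + (k₂ + k₃)) ω s

/-! ### Configurations -/

def tail (x : ℤ → ℝ) (i : ℤ) : Sq := fun k => x (i + k)

structure Good (x : ℤ → ℝ) : Prop where
  gap : ∀ i, 0 < x i
  left : ∀ (t : ℝ) (N : ℤ), ∃ i ≤ N, t < x (i - 1) ∧ t < x i
  right : ∀ (t : ℝ) (N : ℤ), ∃ i ≥ N, t < x (i - 1) ∧ t < x i
  tie : ∀ a i b : ℤ, a < i → i < b → pos x i - pos x a ≠ pos x b - pos x i

/-- the gap `g` lies in an empty word of length at least `T` -/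
def BadAt (T : ℝ) (x : ℤ → ℝ) (g : ℤ) : Prop :=
  ∃ (i : ℤ) (k : ℕ) (b : ℝ), i ≤ g ∧ g < i + k ∧ Wd 0 k (tail x i) b ∧ T ≤ S k (tail x i)

/-- `H` is the part of `G` which is present at time `t` -/
structure Cut (p : ℤ → ℝ) (G H : SimpleGraph ℤ) (t : ℝ) : Prop where
  le : H ≤ G
  short : ∀ u v, H.Adj u v → |p u - p v| ≤ t
  long : ∀ u v, G.Adj u v → ¬H.Adj u v → t ≤ |p u - p v|

/-- `u` still has a free stub -/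
def Uns (G H : SimpleGraph ℤ) (u : ℤ) : Prop := ∃ z, G.Adj u z ∧ ¬H.Adj u z

def Full (p : ℤ → ℝ) (R : ℤ → ℤ → Prop) (u : ℤ) (d : ℝ) : Prop :=
  ∃ z z', z ≠ z' ∧ R u z ∧ R u z' ∧ |p u - p z| < d ∧ |p u - p z'| < d

def adjN (p : ℤ → ℝ) : ℕ → ℤ → ℤ → Prop
  | 0 => fun _ _ => False
  | n + 1 => fun u v => u ≠ v ∧ ¬Full p (adjN p n) u |p u - p v| ∧
      ¬Full p (adjN p n) v |p u - p v|

/-- the greedy graph -/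
def GS (p : ℤ → ℝ) : SimpleGraph ℤ :=
  SimpleGraph.fromRel fun u v => ∃ m, ∀ n, m ≤ n → adjN p n u v

def Two (p : ℤ → ℝ) (v : ℤ) : Prop := ∃ z z', z ≠ z' ∧ (GS p).Adj v z ∧ (GS p).Adj v z'

/-- the law of the gaps -/
def Qz : Measure (ℤ → ℝ) := Measure.infinitePi fun _ => expMeasure 1

def Q0 : Measure Sq := Measure.infinitePi fun _ => expMeasure 1

instance : IsProbabilityMeasure (expMeasure 1) := isProbabilityMeasure_expMeasure one_pos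

instance : IsProbabilityMeasure Qz := by unfold Qz; infer_instance

instance : IsProbabilityMeasure Q0 := by unfold Q0; infer_instance

/-! ### Languages -/

abbrev Lang := ℕ → Set Sq

def catC (C : Set (ℝ × ℝ)) (L M : Lang) : Lang := fun k =>
  {ω | ∃ i j, i + j = k ∧ ω ∈ L i ∧ sh i ω ∈ M j ∧ (S i ω, S j (sh i ω)) ∈ C}

def cat (L M : Lang) : Lang := catC univ L M

def catLE (L M : Lang) : Lang := catC {p | p.1 ≤ p.2} L M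

def catGE (L M : Lang) : Lang := catC {p | p.2 ≤ p.1} L M

def res (h : ℝ) (A : Set ℝ) (L : Lang) : Lang := fun k => {ω | ω ∈ L k ∧ S k ω / h ∈ A}

def ptL : Lang := fun k => {_ω | k = 0}

def gapL : Lang := fun k => {_ω | k = 1}

def allL : Lang := fun k => {_ω | k ≠ 0}

/-- the cell number `j` -/
def cl (j : ℕ) : Set ℝ := Ico (j : ℝ) (j + 1)

def Est (t : ℝ) : Lang := fun k => {ω | ∃ b, Wd 0 k ω b ∧ b < t ∧ t ≤ S k ω}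

def Ost (X t : ℝ) : Lang := fun k =>
  {ω | ∃ c b, Wd c k ω b ∧ (c = 2 ∨ c = 3 ∧ t ≤ S k ω) ∧ b < t ∧ S k ω < X}

def Ed (t t' : ℝ) : Lang := fun k => {ω | ∃ b, Wd 0 k ω b ∧ t ≤ S k ω ∧ S k ω < t'}

def Od (t t' : ℝ) : Lang := fun k => {ω | ∃ b, Wd 3 k ω b ∧ t ≤ S k ω ∧ S k ω < t'}

def Eb (t t' : ℝ) : Lang := fun k => {ω | ∃ b, Wd 0 k ω b ∧ t ≤ b ∧ b < t'}

def Ob (X t t' : ℝ) : Lang := fun k => {ω | ∃ b, Wd 3 k ω b ∧ t ≤ b ∧ b < t' ∧ S k ω < X}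

/-- empty words of length at least `t` with at most `n` gaps -/
def An (t : ℝ) (n : ℕ) : Lang := fun k => {ω | k ≤ n ∧ ∃ b, Wd 0 k ω b ∧ t ≤ S k ω}

def opt (c : Bool) (L : Lang) : Lang := cond c L ⊥

def hat (c : Bool) (X : Lang) : Lang := X ⊔ opt c ptL

def Fl (c : Bool) (X Y : Lang) : ℕ → Lang
  | 0 => hat c X
  | m + 1 => cat (cat (hat c X) Y) (Fl c X Y m)

/-- the words which can be born from the old words `X` and the dying words `Y` -/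
def BirthL (h : ℝ) (c : Bool) (j : ℕ) (X Y : Lang) : Lang :=
  (cat (res h (cl j)ᶜ X) (cat Y (res h (cl j)ᶜ X)) ⊔
      opt c (cat Y (res h (cl j)ᶜ X) ⊔ cat (res h (cl j)ᶜ X) Y)) ⊔
    (cat (catGE (res h (cl j) X) Y) (hat c X) ⊔ cat (hat c X) (catLE Y (res h (cl j) X))) ⊔
    ⨆ m, Fl c X Y (m + 2)

def GrowL (h : ℝ) (c : Bool) (j : ℕ) (X Y : Lang) : Lang :=
  X ⊔ res h (Ici (j : ℝ)) (BirthL h c j X Y)

/-- the weight of a language, as a measure on lengths in the unit `h` -/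
def mu (h : ℝ) (L : Lang) : Measure ℝ :=
  Measure.sum fun k => (Q0.restrict (L k)).map fun ω => S k ω / h

structure Cyl (L : Lang) : Prop where
  meas : ∀ k, MeasurableSet (L k)
  dep : ∀ k ω ω', (∀ i < k, ω i = ω' i) → ω ∈ L k → ω' ∈ L k

/-- the weight of `L` has density at most `f` -/
def Cv (h : ℝ) (L : Lang) (f : ℝ → ℝ≥0∞) : Prop :=
  Measurable f ∧ ∃ M, L ≤ M ∧ Cyl M ∧ mu h M ≤ volume.withDensity f

/-! ### Densities -/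

/-- a linear density on the cell `j` -/
def cellD (j : ℕ) (α β : ℝ) : ℝ → ℝ≥0∞ :=
  (cl j).indicator fun x => ENNReal.ofReal (α * (1 - (x - j)) + β * (x - j))

def oc (c : Bool) (f : ℝ → ℝ≥0∞) : ℝ → ℝ≥0∞ := cond c f 0

def it (q s : ℝ → ℝ≥0∞) : ℕ → ℝ → ℝ≥0∞
  | 0 => s
  | m + 1 => q ⋆ₗ it q s m

def b1D (c : Bool) (j : ℕ) (f y : ℝ → ℝ≥0∞) : ℝ → ℝ≥0∞ :=
  y ⋆ₗ ((cl j)ᶜ.indicator f ⋆ₗ (cl j)ᶜ.indicator f +
    oc c ((cl j)ᶜ.indicator f + (cl j)ᶜ.indicator f))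

def tD (c : Bool) (j : ℕ) (f : ℝ → ℝ≥0∞) (M N : ℝ) : ℝ → ℝ≥0∞ :=
  (cellD j M M ⋆ₗ cellD j N N) ⋆ₗ f + oc c (cellD j M M ⋆ₗ cellD j N N)

def birthD (c : Bool) (j : ℕ) (f y : ℝ → ℝ≥0∞) (M N : ℝ) : ℝ → ℝ≥0∞ :=
  b1D c j f y + tD c j f M N + fun x => ∑' m,
    it (y ⋆ₗ f + oc c y) (b1D c j f y + tD c j f M N + tD c j f M N + oc c y) (m + 1) x

/-- the piecewise linear function with the tilted values `a`, `b` -/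
def pl (μ : ℝ) (a b : ℕ → ℝ) (x : ℝ) : ℝ≥0∞ :=
  if 0 ≤ x then
    ENNReal.ofReal ((a ⌊x⌋₊ * (1 - (x - ⌊x⌋₊)) + b ⌊x⌋₊ * (x - ⌊x⌋₊)) / μ ^ ⌊x⌋₊)
  else 0

def wt (μ x : ℝ) : ℝ≥0∞ := ENNReal.ofReal (μ ^ ⌊x⌋₊)

/-- `g` vanishes below `n`, has tilted mass at most `τ` and tilted supremum at most `σ` -/
structure Tl (μ : ℝ) (n : ℕ) (τ σ : ℝ) (g : ℝ → ℝ≥0∞) : Prop where
  meas : Measurable g
  zero : ∀ x : ℝ, x < n → g x = 0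
  mass : ∫⁻ x, wt μ x * g x ≤ ENNReal.ofReal τ
  sup : ∀ x, wt μ x * g x ≤ ENNReal.ofReal σ

structure RRep (μ : ℝ) (n : ℕ) (a b : ℕ → ℝ) (τ σ : ℝ) (f : ℝ → ℝ≥0∞) : Prop where
  one : 1 ≤ μ
  a0 : ∀ l, 0 ≤ a l
  b0 : ∀ l, 0 ≤ b l
  an : ∀ l, n ≤ l → a l = 0
  bn : ∀ l, n ≤ l → b l = 0
  t0 : 0 ≤ τ
  s0 : 0 ≤ σ
  ex : ∃ g, Tl μ n τ σ g ∧ ∀ x, f x ≤ pl μ a b x + g x

/-- global bounds -/
def TB (μ N K : ℝ) (f : ℝ → ℝ≥0∞) : Prop := ∃ g, Tl μ 0 N K g ∧ f ≤ g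

def cv (a b : ℕ → ℝ) (l : ℕ) : ℝ := ∑ i ∈ Finset.range (l + 1), a i * b (l - i)

def shf (μ : ℝ) (v : ℕ → ℝ) : ℕ → ℝ
  | 0 => 0
  | l + 1 => μ * v l

/-- the convolution of two piecewise linear functions on the cell `l` -/
def phi (μ : ℝ) (P Q R : ℕ → ℝ) (l : ℕ) (y : ℝ) : ℝ :=
  P l * (y - y ^ 2 + y ^ 3 / 6) + Q l * (y ^ 2 / 2 - y ^ 3 / 6) + R l * (y ^ 3 / 6) +
    shf μ R l * ((1 - y) - (1 - y) ^ 2 + (1 - y) ^ 3 / 6) +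
    shf μ Q l * ((1 - y) ^ 2 / 2 - (1 - y) ^ 3 / 6) + shf μ P l * ((1 - y) ^ 3 / 6)

/-! ### The program -/

def Pm.mu (p : Pm) : ℝ := p.u / 2 ^ p.g

def Pm.Ok (p : Pm) : Prop :=
  2 ^ p.g ≤ p.u ∧ p.u ≤ 2 * 2 ^ p.g ∧ 1 ≤ p.n ∧ p.F + p.g + 27 ≤ p.w

instance (p : Pm) : Decidable p.Ok := by unfold Pm.Ok; infer_instance

def Ph.Ok (P : Ph) : Prop := P.e.Ok ∧ P.o.Ok ∧ P.e.F = P.o.F ∧ P.e.g = P.o.g

instance (P : Ph) : Decidable P.Ok := by unfold Ph.Ok; infer_instance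

def val (p : Pm) (N l : ℕ) : ℝ := dig p.w N l / 2 ^ p.F

structure WF (p : Pm) (x : V) : Prop where
  ha : x.a < 2 ^ (p.w * p.n)
  hb : x.b < 2 ^ (p.w * p.n)
  ka : ∀ l, dig p.w x.a l ≤ x.k
  kb : ∀ l, dig p.w x.b l ≤ x.k
  fit : 4 * (p.n + 1) * (x.k + 1) < 2 ^ p.w

def Rep (p : Pm) (x : V) (f : ℝ → ℝ≥0∞) : Prop :=
  x.ok = true → WF p x ∧
    RRep p.mu p.n (val p x.a) (val p x.b) (x.t / 2 ^ p.F) (x.s / 2 ^ p.F) f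

def Cov (p : Pm) (h : ℝ) (L : Lang) (x : V) : Prop :=
  x.ok = true → ∃ f, Cv h L f ∧ Rep p x f

def InvB (P : Ph) (h X : ℝ) (j : ℕ) (z : V × V) : Prop :=
  Cov P.e h (Est (j * h)) z.1 ∧ Cov P.o h (Ost X (j * h)) z.2

end Pool.Agent.P.SM
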