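import Pool.Agent.P.MP_411dac_pr.M4

/-!
Almost every configuration is good.
Hints. `mp_tail`, `mp_shift`: `Measure.map_infinitePi_infinitePi_of_inj`. Long double gaps: for natural t
the events {t < x (N + 2 m - 1), t < x (N + 2 m)} are independent with the same positive probability, so
the probability that none of the first M occurs is q ^ M, q < 1 (or use `measure_limsup_eq_one`; one way:
Q0 of E = {ω | ∀ m, ¬(t < ω (2 m) ∧ t < ω (2 m + 1))} satisfies Q0 E ≤ q * Q0 E by `split 2`; the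
left side follows with the injection k ↦ N - k). No ties: with ω = tail x a, i = a + k, b = i + m the event is
S k ω = S m (sh k ω); by `split k` it is enough that S m has no atoms for m ≠ 0 (`Cv.all`,
`Cv.res` with a singleton, `Cv.prob`).
-/

set_option autoImplicit false
set_option linter.unusedVariables false

noncomputable section

namespace Pool.Agent.P.SM

open MeasureTheory ProbabilityTheory Set
open scoped ENNReal

theorem mp_inj_F1 {f : ℕ → ℤ} (hf : Function.Injective f) :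
    MeasurePreserving (fun (x : ℤ → ℝ) (k : ℕ) => x (f k)) Qz Q0 := by
  refine ⟨by fun_prop, ?_⟩
  unfold Qz Q0
  exact Measure.map_infinitePi_infinitePi_of_inj (P := fun _ : ℤ => expMeasure 1) hf

theorem ev0_F1 (i : ℕ) : MeasurePreserving (fun ω : Sq => ω i) Q0 (expMeasure 1) :=
  measurePreserving_eval_infinitePi (fun _ : ℕ => expMeasure 1) i

theorem evz_F1 (i : ℤ) : MeasurePreserving (fun x : ℤ → ℝ => x i) Qz (expMeasure 1) :=
  measurePreserving_eval_infinitePi (fun _ : ℤ => expMeasure 1) i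

theorem exp_Iic_F1 (t : ℝ) : expMeasure 1 (Iic t) =
    ENNReal.ofReal (if 0 ≤ t then 1 - Real.exp (-(1 * t)) else 0) := by
  rw [← ofReal_cdf, cdf_expMeasure_eq one_pos]

theorem exp_Iic_zero_F1 : expMeasure 1 (Iic (0 : ℝ)) = 0 := by
  rw [exp_Iic_F1]; simp

theorem exp_Ioi_F1 (t : ℝ) : expMeasure 1 (Ioi t) ≠ 0 := by
  intro h
  have h1 : expMeasure 1 (Iic t) = 1 := by
    rw [← compl_Ioi, prob_compl_eq_one_iff measurableSet_Ioi]; exact h
  rw [exp_Iic_F1, ENNReal.ofReal_eq_one] at h1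
  split_ifs at h1 with h0
  · have := Real.exp_pos (-(1 * t)); linarith
  · exact zero_ne_one h1

theorem exp_single_F1 (a : ℝ) : expMeasure 1 {a} = 0 := by
  unfold expMeasure gammaMeasure
  exact measure_singleton a

theorem meas_tr_F1 (k : ℕ) :
    Measurable fun ω : Sq => (fun i => if i < k then ω i else 0 : Sq) := by
  refine measurable_pi_lambda _ fun i => ?_
  by_cases h : i < k
  · simp only [h, if_true]; exact measurable_pi_apply i
  · simp only [h, if_false]; exact measurable_const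

theorem null_graph_F1 {g : Sq → ℝ} (hg : Measurable g) : Q0 {ω | ω 0 = g (sh 1 ω)} = 0 := by
  have hm : Measurable fun ω : Sq => ((fun i => if i < 1 then ω i else 0 : Sq), sh 1 ω) :=
    (meas_tr_F1 1).prodMk (measurable_sh 1)
  have hs : MeasurableSet {p : Sq × Sq | p.1 0 = g p.2} :=
    measurableSet_eq_fun ((measurable_pi_apply 0).comp measurable_fst) (hg.comp measurable_snd)
  have e : {ω : Sq | ω 0 = g (sh 1 ω)} =
      (fun ω : Sq => ((fun i => if i < 1 then ω i else 0 : Sq), sh 1 ω)) ⁻¹'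
        {p : Sq × Sq | p.1 0 = g p.2} := by
    ext ω; simp
  have : IsProbabilityMeasure (Q0.map fun ω : Sq => (fun i => if i < 1 then ω i else 0 : Sq)) :=
    Measure.isProbabilityMeasure_map (meas_tr_F1 1).aemeasurable
  rw [e, ← Measure.map_apply hm hs, split 1, Measure.prod_apply_symm hs]
  have z : ∀ v : Sq, (Q0.map fun ω : Sq => (fun i => if i < 1 then ω i else 0 : Sq))
      ((fun u => (u, v)) ⁻¹' {p : Sq × Sq | p.1 0 = g p.2}) = 0 := by
    intro v
    rw [Measure.map_apply (meas_tr_F1 1) (measurable_prodMk_right hs)]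
    have e2 : (fun ω : Sq => (fun i => if i < 1 then ω i else 0 : Sq)) ⁻¹'
        ((fun u => (u, v)) ⁻¹' {p : Sq × Sq | p.1 0 = g p.2}) = (fun ω : Sq => ω 0) ⁻¹' {g v} := by
      ext ω; simp
    rw [e2, (ev0_F1 0).measure_preimage (measurableSet_singleton _).nullMeasurableSet,
      exp_single_F1]
  rw [lintegral_congr z, lintegral_zero]

theorem null_long_F1 (t : ℝ) : Q0 {ω | ∀ m : ℕ, ¬(t < ω (2 * m) ∧ t < ω (2 * m + 1))} = 0 := by
  set E : Set Sq := {ω | ∀ m : ℕ, ¬(t < ω (2 * m) ∧ t < ω (2 * m + 1))} with hE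
  have hB : ∀ i j : ℕ, MeasurableSet {ω : Sq | t < ω i ∧ t < ω j} := fun i j =>
    (measurableSet_lt measurable_const (measurable_pi_apply i)).inter
      (measurableSet_lt measurable_const (measurable_pi_apply j))
  have mE : MeasurableSet E := by
    have : E = ⋂ m : ℕ, {ω : Sq | t < ω (2 * m) ∧ t < ω (2 * m + 1)}ᶜ := by
      ext ω; simp [hE]
    rw [this]
    exact MeasurableSet.iInter fun m => (hB _ _).compl
  have hm : Measurable fun ω : Sq => ((fun i => if i < 2 then ω i else 0 : Sq), sh 2 ω) :=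
    (meas_tr_F1 2).prodMk (measurable_sh 2)
  have hle : E ⊆ (fun ω : Sq => ((fun i => if i < 2 then ω i else 0 : Sq), sh 2 ω)) ⁻¹'
      ({ω : Sq | t < ω 0 ∧ t < ω 1}ᶜ ×ˢ E) := by
    intro ω hω
    refine ⟨?_, fun m => ?_⟩
    · simpa using hω 0
    · have := hω (m + 1)
      simp only [sh]
      rwa [show 2 + 2 * m = 2 * (m + 1) by ring, show 2 + (2 * m + 1) = 2 * (m + 1) + 1 by ring]
  have h1 : Q0 E ≤ Q0 {ω : Sq | t < ω 0 ∧ t < ω 1}ᶜ * Q0 E := by
    refine (measure_mono hle).trans ?_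
    rw [← Measure.map_apply hm ((hB 0 1).compl.prod mE), split 2, Measure.prod_prod,
      Measure.map_apply (meas_tr_F1 2) (hB 0 1).compl]
    refine le_of_eq ?_
    congr 2
  have h2 : Q0 {ω : Sq | t < ω 0 ∧ t < ω 1} ≠ 0 := by
    have e : {ω : Sq | t < ω 0 ∧ t < ω 1} =
        Set.pi (({0, 1} : Finset ℕ) : Set ℕ) fun _ => Ioi t := by
      ext ω; simp
    rw [e]
    unfold Q0
    rw [Measure.infinitePi_pi _ fun _ _ => measurableSet_Ioi]
    exact Finset.prod_ne_zero_iff.2 fun _ _ => exp_Ioi_F1 t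
  have h3 : Q0 {ω : Sq | t < ω 0 ∧ t < ω 1}ᶜ < 1 := by
    refine lt_of_le_of_ne prob_le_one ?_
    rw [Ne, prob_compl_eq_one_iff (hB 0 1)]
    exact h2
  by_contra h0
  have h4 : Q0 {ω : Sq | t < ω 0 ∧ t < ω 1}ᶜ * Q0 E < 1 * Q0 E :=
    ENNReal.mul_lt_mul_left h0 (measure_ne_top _ _) h3
  rw [one_mul] at h4
  exact absurd h1 (not_le.2 h4)

theorem ae_long_F1 {f : ℕ → ℤ} (hf : Function.Injective f) (t : ℝ) :
    ∀ᵐ x ∂Qz, ∃ m : ℕ, t < x (f (2 * m)) ∧ t < x (f (2 * m + 1)) := by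
  have h : ∀ᵐ ω ∂Q0, ∃ m : ℕ, t < ω (2 * m) ∧ t < ω (2 * m + 1) := by
    rw [ae_iff]
    simpa only [not_exists] using null_long_F1 t
  exact (mp_inj_F1 hf).quasiMeasurePreserving.ae h

theorem ae_tie_F1 (k m : ℕ) : ∀ᵐ ω ∂Q0, S (1 + k) ω ≠ S m (sh (1 + k) ω) := by
  have hg : Measurable fun v : Sq => S m (sh k v) - S k v :=
    ((measurable_S m).comp (measurable_sh k)).sub (measurable_S k)
  rw [ae_iff]
  refine measure_mono_null ?_ (null_graph_F1 hg)
  intro ω hω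
  simp only [ne_eq, not_not, mem_ofPred_eq] at hω ⊢
  rw [S_add, ← sh_sh] at hω
  have : S 1 ω = ω 0 := by simp [S]
  linarith

theorem mp_tail (i : ℤ) : MeasurePreserving (fun x => tail x i) Qz Q0 := by
  have hf : Function.Injective fun k : ℕ => i + (k : ℤ) := fun a b h => by
    simpa using h
  exact mp_inj_F1 hf

theorem mp_shift (i : ℤ) : MeasurePreserving (fun (x : ℤ → ℝ) k => x (k + i)) Qz Qz := by
  refine ⟨by fun_prop, ?_⟩
  unfold Qz
  exact Measure.map_infinitePi_infinitePi_of_inj (P := fun _ : ℤ => expMeasure 1)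
    (f := fun k : ℤ => k + i) (add_left_injective i)

theorem ae_good : ∀ᵐ x ∂Qz, Good x := by
  have h1 : ∀ᵐ x ∂Qz, ∀ i, 0 < x i := by
    refine ae_all_iff.2 fun i => ?_
    have : ∀ᵐ y ∂(expMeasure 1), (0 : ℝ) < y := by
      rw [ae_iff]
      simp only [not_lt]
      exact exp_Iic_zero_F1
    exact (evz_F1 i).quasiMeasurePreserving.ae this
  have h2 : ∀ᵐ x ∂Qz, ∀ (n : ℕ) (N : ℤ), ∃ m : ℕ,
      (n : ℝ) < x (N - (2 * m : ℕ)) ∧ (n : ℝ) < x (N - (2 * m + 1 : ℕ)) := by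
    refine ae_all_iff.2 fun n => ae_all_iff.2 fun N => ?_
    exact ae_long_F1 (f := fun k : ℕ => N - (k : ℤ)) (fun a b h => by simpa using h) n
  have h3 : ∀ᵐ x ∂Qz, ∀ (n : ℕ) (N : ℤ), ∃ m : ℕ,
      (n : ℝ) < x (N + (2 * m : ℕ)) ∧ (n : ℝ) < x (N + (2 * m + 1 : ℕ)) := by
    refine ae_all_iff.2 fun n => ae_all_iff.2 fun N => ?_
    exact ae_long_F1 (f := fun k : ℕ => N + (k : ℤ)) (fun a b h => by simpa using h) n
  have h4 : ∀ᵐ x ∂Qz, ∀ (a : ℤ) (k m : ℕ),
      S (1 + k) (tail x a) ≠ S m (sh (1 + k) (tail x a)) := by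
    refine ae_all_iff.2 fun a => ae_all_iff.2 fun k => ae_all_iff.2 fun m => ?_
    exact (mp_tail a).quasiMeasurePreserving.ae (ae_tie_F1 k m)
  filter_upwards [h1, h2, h3, h4] with x h1 h2 h3 h4
  refine ⟨h1, fun t N => ?_, fun t N => ?_, fun a i b hai hib => ?_⟩
  · obtain ⟨n, hn⟩ := exists_nat_ge t
    obtain ⟨m, ha, hb⟩ := h2 n N
    refine ⟨N - (2 * m : ℕ), by omega, ?_, hn.trans_lt ha⟩
    rw [show N - ((2 * m : ℕ) : ℤ) - 1 = N - ((2 * m + 1 : ℕ) : ℤ) by push_cast; ring]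
    exact hn.trans_lt hb
  · obtain ⟨n, hn⟩ := exists_nat_ge t
    obtain ⟨m, ha, hb⟩ := h3 n N
    refine ⟨N + (2 * m + 1 : ℕ), by omega, ?_, hn.trans_lt hb⟩
    rw [show N + ((2 * m + 1 : ℕ) : ℤ) - 1 = N + ((2 * m : ℕ) : ℤ) by push_cast; ring]
    exact hn.trans_lt ha
  · obtain ⟨k, rfl⟩ : ∃ k : ℕ, i = a + ((1 + k : ℕ) : ℤ) := ⟨(i - a - 1).toNat, by omega⟩
    obtain ⟨m, rfl⟩ : ∃ m : ℕ, b = a + ((1 + k : ℕ) : ℤ) + (m : ℤ) :=
      ⟨(b - (a + ((1 + k : ℕ) : ℤ))).toNat, by omega⟩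
    rw [pos_sub, pos_sub, tail_add]
    exact h4 a k m

end Pool.Agent.P.SM
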