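import Pool.Agent.P.MP_411dac_pr.F1

/-!
The probability that the gap 0 lies in a long empty word is small.
Hints. Let T be a large natural number. If the word starts at -m and has k > m gaps, then (all gaps of
a word are positive) its length is at least S m. So for m ≤ 10 * T the event has probability at most
C / T ^ 2, and for m > 10 * T at most 100 * C / m ^ 2 + (3 / 5) ^ m (`short`). Transfer from Q0 to Qz by
`MeasurePreserving.measure_preimage_le` (no measurability of the sets is needed).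
-/

set_option autoImplicit false
set_option linter.unusedVariables false

noncomputable section

namespace Pool.Agent.P.SM

open MeasureTheory ProbabilityTheory Set
open scoped ENNReal

theorem cover_F2 (T : ℝ) (M : ℕ) : {x | BadAt T x 0} ⊆
    (⋃ m ∈ Finset.range M, (fun x => tail x (-(m : ℤ))) ⁻¹'
      {ω | ∃ k b, Wd 0 k ω b ∧ T ≤ S k ω}) ∪
    ⋃ j : ℕ, (fun x => tail x (-((j + M : ℕ) : ℤ))) ⁻¹'
      ({ω | ∃ k b, Wd 0 k ω b ∧ ((j + M : ℕ) : ℝ) / 10 ≤ S k ω} ∪
        {ω | S (j + M) ω < ((j + M : ℕ) : ℝ) / 10}) := by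
  rintro x ⟨i, k, b, hi, hk, hw, hT⟩
  obtain ⟨m, rfl⟩ : ∃ m : ℕ, i = -(m : ℤ) := ⟨(-i).toNat, by omega⟩
  by_cases hm : m < M
  · left
    simp only [mem_iUnion, Finset.mem_range, mem_preimage, mem_ofPred_eq]
    exact ⟨m, hm, k, b, hw, hT⟩
  · right
    obtain ⟨j, rfl⟩ : ∃ j, m = j + M := ⟨m - M, by omega⟩
    simp only [mem_iUnion, mem_preimage, mem_union, mem_ofPred_eq]
    refine ⟨j, ?_⟩
    by_cases hs : S (j + M) (tail x (-((j + M : ℕ) : ℤ))) < ((j + M : ℕ) : ℝ) / 10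
    · exact Or.inr hs
    · refine Or.inl ⟨k, b, hw, (not_lt.1 hs).trans ?_⟩
      have hle : j + M ≤ k := by omega
      unfold S
      exact Finset.sum_le_sum_of_subset_of_nonneg (Finset.range_mono hle)
        fun l hl _ => (hw.pos l (Finset.mem_range.1 hl)).le

theorem bad_small {C t : ℝ} (hC : ∀ T, t ≤ T →
    Q0 {ω | ∃ k b, Wd 0 k ω b ∧ T ≤ S k ω} ≤ ENNReal.ofReal (C / T ^ 2)) :
    ∃ T, Qz {x | BadAt T x 0} < 1 := by
  have hD : (0 : ℝ) ≤ max C 0 := le_max_right _ _
  have hC' : ∀ T, t ≤ T → Q0 {ω | ∃ k b, Wd 0 k ω b ∧ T ≤ S k ω} ≤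
      ENNReal.ofReal (max C 0 / T ^ 2) := fun T hT => (hC T hT).trans
    (ENNReal.ofReal_le_ofReal (div_le_div_of_nonneg_right (le_max_left _ _) (sq_nonneg T)))
  generalize max C 0 = D at hD hC'
  let g : ℕ → ℝ := fun m => D / ((m : ℝ) / 10) ^ 2 + (3 / 5) ^ m
  have g0 : ∀ m, 0 ≤ g m := fun m => by positivity
  have gs : Summable g := by
    refine Summable.add ?_ (summable_geometric_of_lt_one (by norm_num) (by norm_num))
    have h1 : Summable fun m : ℕ => 1 / (m : ℝ) ^ 2 :=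
      Real.summable_one_div_nat_pow.2 (by norm_num)
    refine (h1.mul_left (100 * D)).congr fun m => ?_
    rw [div_pow, div_div_eq_mul_div]
    ring
  have ht := (tendsto_sum_nat_add g).eventually (gt_mem_nhds (show (0 : ℝ) < 1 / 2 by norm_num))
  obtain ⟨M, hM1, hM2⟩ := (ht.and (Filter.eventually_ge_atTop ⌈10 * t⌉₊)).exists
  have hM3 : 10 * t ≤ M := Nat.ceil_le.1 hM2
  have hMD : 0 ≤ (M : ℝ) * D := by positivity
  refine ⟨max t (2 * (M * D) + 1), ?_⟩
  have hT1 : t ≤ max t (2 * (M * D) + 1) := le_max_left _ _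
  have hT2 : 2 * (M * D) + 1 ≤ max t (2 * (M * D) + 1) := le_max_right _ _
  generalize max t (2 * (M * D) + 1) = T at hT1 hT2
  have hT0 : 0 < T := by linarith
  have h1 : Qz (⋃ m ∈ Finset.range M, (fun x => tail x (-(m : ℤ))) ⁻¹'
      {ω | ∃ k b, Wd 0 k ω b ∧ T ≤ S k ω}) ≤ ENNReal.ofReal (1 / 2) := by
    refine (measure_biUnion_finset_le _ _).trans ?_
    refine (Finset.sum_le_sum fun (m : ℕ) _ =>
      ((mp_tail (-(m : ℤ))).measure_preimage_le _).trans (hC' T hT1)).trans ?_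
    rw [Finset.sum_const, Finset.card_range, nsmul_eq_mul, ← ENNReal.ofReal_natCast,
      ← ENNReal.ofReal_mul (Nat.cast_nonneg M)]
    refine ENNReal.ofReal_le_ofReal ?_
    rw [← mul_div_assoc, div_le_iff₀ (by positivity)]
    nlinarith
  have h2 : Qz (⋃ j : ℕ, (fun x => tail x (-((j + M : ℕ) : ℤ))) ⁻¹'
      ({ω | ∃ k b, Wd 0 k ω b ∧ ((j + M : ℕ) : ℝ) / 10 ≤ S k ω} ∪
        {ω | S (j + M) ω < ((j + M : ℕ) : ℝ) / 10})) ≤ ENNReal.ofReal (∑' j, g (j + M)) := by
    rw [ENNReal.ofReal_tsum_of_nonneg (fun j => g0 _) ((summable_nat_add_iff M).2 gs)]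
    refine (measure_iUnion_le _).trans (ENNReal.tsum_le_tsum fun j => ?_)
    refine ((mp_tail _).measure_preimage_le _).trans ((measure_union_le _ _).trans ?_)
    have hj : t ≤ ((j + M : ℕ) : ℝ) / 10 := by
      have : (0 : ℝ) ≤ j := Nat.cast_nonneg j
      push_cast
      linarith
    refine (add_le_add (hC' _ hj) (short (j + M))).trans (le_of_eq ?_)
    rw [← ENNReal.ofReal_add (by positivity) (by positivity)]
  refine ((measure_mono (cover_F2 T M)).trans ((measure_union_le _ _).trans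
    (add_le_add h1 h2))).trans_lt ?_
  rw [← ENNReal.ofReal_add (by norm_num) (tsum_nonneg fun j => g0 _), ENNReal.ofReal_lt_one]
  linarith

end Pool.Agent.P.SM
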