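import Pool.Agent.P.MP_411dac_pr.Df

/-!
Basic facts on words, languages and positions.
-/

set_option autoImplicit false
set_option linter.unusedVariables false

noncomputable section

namespace Pool.Agent.P.SM

open MeasureTheory ProbabilityTheory Set
open scoped ENNReal

variable {c k : ℕ} {ω : Sq} {b : ℝ} {L L' M M' N : Lang}

theorem S_zero (ω : Sq) : S 0 ω = 0 := by
  simp [S]

theorem S_add (i j : ℕ) (ω : Sq) : S (i + j) ω = S i ω + S j (sh i ω) := by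
  simp [S, sh, Finset.sum_range_add]

theorem sh_zero (ω : Sq) : sh 0 ω = ω := by
  funext i
  simp [sh]

theorem sh_sh (i j : ℕ) (ω : Sq) : sh j (sh i ω) = sh (i + j) ω := by
  funext n
  simp [sh, add_assoc]

theorem cat3_G0 {P : ℝ → Prop} {k₁ k₂ k₃ : ℕ} (h1 : ∀ i < k₁, P (ω i))
    (h2 : ∀ i < k₂, P (sh k₁ ω i)) (h3 : ∀ i < k₃, P (sh k₂ (sh k₁ ω) i)) :
    ∀ i < k₁ + (k₂ + k₃), P (ω i) := by
  intro i hi
  rcases lt_or_ge i k₁ with h | h
  · exact h1 i h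
  obtain ⟨j, rfl⟩ := Nat.exists_eq_add_of_le h
  rcases lt_or_ge j k₂ with h | h
  · exact h2 j h
  obtain ⟨l, rfl⟩ := Nat.exists_eq_add_of_le h
  exact h3 l (by omega)

theorem le_S_G0 (h : ∀ i < k, 0 < ω i) : ∀ i < k, ω i ≤ S k ω := fun i hi =>
  Finset.single_le_sum (f := ω) (fun j hj => (h j (Finset.mem_range.1 hj)).le)
    (Finset.mem_range.2 hi)

theorem Wd.pos (h : Wd c k ω b) : ∀ i < k, 0 < ω i := by
  induction h with
  | gap ω h0 => intro i hi; obtain rfl : i = 0 := by omega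
                exact h0
  | pt ω => intro i hi; omega
  | dim _ ih => exact ih
  | act _ _ _ _ _ _ _ _ _ _ _ i1 i2 i3 => exact cat3_G0 (P := fun x => 0 < x) i1 i2 i3
  | cyc _ _ _ _ _ _ _ _ i1 i2 i3 => exact cat3_G0 (P := fun x => 0 < x) i1 i2 i3

theorem Wd.S_nonneg (h : Wd c k ω b) : 0 ≤ S k ω := by
  exact Finset.sum_nonneg fun i hi => (h.pos i (Finset.mem_range.1 hi)).le

theorem Wd.b_le (h : Wd c k ω b) : b ≤ S k ω := by
  have h0 := h.S_nonneg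
  cases h with
  | gap ω _ => linarith
  | pt ω => linarith
  | dim _ => exact le_rfl
  | act h1 h2 h3 hs =>
    have := h1.S_nonneg
    have := h3.S_nonneg
    rw [S_add, S_add]
    linarith
  | cyc h1 h2 h3 hs =>
    have := h1.S_nonneg
    have := h3.S_nonneg
    rw [S_add, S_add]
    linarith

theorem Wd.kind (h : Wd c k ω b) : c = 0 ∨ c = 1 ∨ c = 2 ∨ c = 3 := by
  cases h <;> simp

theorem Wd.ne_zero (h : Wd c k ω b) (hc : c ≠ 1) : k ≠ 0 := by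
  induction h with
  | gap ω _ => exact one_ne_zero
  | pt ω => exact (hc rfl).elim
  | dim _ ih => exact ih zero_ne_one
  | act _ _ _ _ _ _ _ _ _ _ _ i1 i2 i3 => have := i2 zero_ne_one; omega
  | cyc _ _ _ _ _ _ _ _ i1 i2 i3 => have := i1 zero_ne_one; omega

theorem Wd.S_pos (h : Wd c k ω b) (hc : c ≠ 1) : 0 < S k ω := by
  exact Finset.sum_pos (fun i hi => h.pos i (Finset.mem_range.1 hi))
    (Finset.nonempty_range_iff.2 (h.ne_zero hc))

theorem Wd.pt_inv (h : Wd 1 k ω b) : k = 0 ∧ b = -1 := by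
  cases h
  exact ⟨rfl, rfl⟩

theorem Wd.dim_inv (h : Wd 2 k ω b) : b = S k ω ∧ ∃ b', Wd 0 k ω b' := by
  cases h with
  | dim h => exact ⟨rfl, _, h⟩

theorem Wd.b_pos (h : Wd c k ω b) (hc : c = 2 ∨ c = 3) : 0 < b := by
  cases h with
  | gap ω _ => omega
  | pt ω => omega
  | dim h => exact h.S_pos zero_ne_one
  | act h1 h2 h3 hs => exact hs ▸ h2.S_pos zero_ne_one
  | cyc => omega

theorem Wd.gap_le (h : Wd c k ω b) (hc : c ≠ 0) : ∀ i < k, ω i ≤ b := by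
  induction h with
  | gap ω _ => exact (hc rfl).elim
  | pt ω => intro i hi; omega
  | dim h _ => exact le_S_G0 h.pos
  | act _ h2 _ hs c1 c3 _ l1 l3 _ _ i1 _ i3 =>
    exact cat3_G0 (P := fun x => x ≤ _) (fun i hi => (i1 c1 i hi).trans l1)
      (fun i hi => hs ▸ le_S_G0 h2.pos i hi) fun i hi => (i3 c3 i hi).trans l3
  | cyc => exact (hc rfl).elim

theorem Wd.e_inv (h : Wd 0 k ω b) : (k = 1 ∧ b = -1) ∨ ∃ k₁ k₂ k₃ b₁ b₂ b₃,
    k = k₁ + (k₂ + k₃) ∧ Wd 0 k₁ ω b₁ ∧ Wd 3 k₂ (sh k₁ ω) b₂ ∧ Wd 0 k₃ (sh k₂ (sh k₁ ω)) b₃ ∧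
      b = S k₂ (sh k₁ ω) ∧ 0 < b ∧ b₁ ≤ b ∧ b₃ ≤ b ∧ b ≤ S k₁ ω ∧ b ≤ S k₃ (sh k₂ (sh k₁ ω)) := by
  cases h with
  | gap ω _ => exact Or.inl ⟨rfl, rfl⟩
  | cyc h1 h2 h3 hs l1 l3 m1 m3 =>
    exact Or.inr ⟨_, _, _, _, _, _, rfl, h1, h2, h3, hs, hs ▸ h2.S_pos (by omega), l1, l3, m1, m3⟩

theorem catC_mono (C : Set (ℝ × ℝ)) (h : L ≤ L') (h' : M ≤ M') : catC C L M ≤ catC C L' M' := by
  rintro k ω ⟨i, j, e, h1, h2, h3⟩
  exact ⟨i, j, e, h i h1, h' j h2, h3⟩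

theorem cat_mono (h : L ≤ L') (h' : M ≤ M') : cat L M ≤ cat L' M' := by
  exact catC_mono _ h h'

theorem mem_cat : ω ∈ cat L M k ↔ ∃ i j, i + j = k ∧ ω ∈ L i ∧ sh i ω ∈ M j := by
  simp [cat, catC]

theorem cat_assoc (L M N : Lang) : cat (cat L M) N = cat L (cat M N) := by
  funext k
  ext ω
  simp only [mem_cat]
  constructor
  · rintro ⟨_, l, rfl, ⟨i, j, rfl, h1, h2⟩, h3⟩
    exact ⟨i, j + l, by omega, h1, j, l, rfl, h2, by rwa [sh_sh]⟩
  · rintro ⟨i, _, rfl, h1, j, l, rfl, h2, h3⟩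
    exact ⟨i + j, l, by omega, ⟨i, j, rfl, h1, h2⟩, by rwa [sh_sh] at h3⟩

theorem pt_cat (L : Lang) : cat ptL L = L := by
  funext k
  ext ω
  simp only [mem_cat]
  constructor
  · rintro ⟨i, j, rfl, h1, h2⟩
    obtain rfl : i = 0 := h1
    simpa [sh_zero] using h2
  · intro h
    exact ⟨0, k, by omega, rfl, by rwa [sh_zero]⟩

theorem cat_pt (L : Lang) : cat L ptL = L := by
  funext k
  ext ω
  simp only [mem_cat]
  constructor
  · rintro ⟨i, j, rfl, h1, h2⟩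
    obtain rfl : j = 0 := h2
    exact h1
  · intro h
    exact ⟨k, 0, rfl, h, rfl⟩

theorem cat_sup (L M N : Lang) : cat L (M ⊔ N) = cat L M ⊔ cat L N := by
  funext k
  ext ω
  simp only [Pi.sup_apply, sup_eq_union, mem_union, mem_cat]
  constructor
  · rintro ⟨i, j, e, h1, h2 | h2⟩
    exacts [Or.inl ⟨i, j, e, h1, h2⟩, Or.inr ⟨i, j, e, h1, h2⟩]
  · rintro (⟨i, j, e, h1, h2⟩ | ⟨i, j, e, h1, h2⟩)
    exacts [⟨i, j, e, h1, Or.inl h2⟩, ⟨i, j, e, h1, Or.inr h2⟩]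

theorem sup_cat (L M N : Lang) : cat (L ⊔ M) N = cat L N ⊔ cat M N := by
  funext k
  ext ω
  simp only [Pi.sup_apply, sup_eq_union, mem_union, mem_cat]
  constructor
  · rintro ⟨i, j, e, h1 | h1, h2⟩
    exacts [Or.inl ⟨i, j, e, h1, h2⟩, Or.inr ⟨i, j, e, h1, h2⟩]
  · rintro (⟨i, j, e, h1, h2⟩ | ⟨i, j, e, h1, h2⟩)
    exacts [⟨i, j, e, Or.inl h1, h2⟩, ⟨i, j, e, Or.inr h1, h2⟩]

theorem cat_bot (L : Lang) : cat L ⊥ = ⊥ := by
  funext k
  ext ω
  simp [mem_cat]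

theorem bot_cat (L : Lang) : cat ⊥ L = ⊥ := by
  funext k
  ext ω
  simp [mem_cat]

theorem res_le (h : ℝ) (A : Set ℝ) (L : Lang) : res h A L ≤ L := by
  exact fun k ω hω => hω.1

theorem res_mono (h : ℝ) (A : Set ℝ) (hL : L ≤ L') : res h A L ≤ res h A L' := by
  exact fun k ω hω => ⟨hL k hω.1, hω.2⟩

theorem res_sup_compl (h : ℝ) (A : Set ℝ) (L : Lang) : res h A L ⊔ res h Aᶜ L = L := by
  funext k
  ext ω
  simp only [Pi.sup_apply, sup_eq_union, mem_union, res, mem_ofPred_eq, mem_compl_iff]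
  tauto

theorem tail_add (x : ℤ → ℝ) (i : ℤ) (k : ℕ) : tail x (i + k) = sh k (tail x i) := by
  funext n
  simp [tail, sh, add_assoc]

theorem pos_succ (x : ℤ → ℝ) (i : ℤ) : pos x (i + 1) = pos x i + x i := by
  unfold pos
  rcases le_or_gt 0 i with h | h
  · rw [← Finset.insert_Ico_right_eq_Ico_add_one h, Finset.sum_insert (by simp),
      Finset.Ico_eq_empty_of_le h, Finset.Ico_eq_empty_of_le (by omega : (0 : ℤ) ≤ i + 1)]
    ring
  · rw [← Finset.insert_Ico_add_one_left_eq_Ico h, Finset.sum_insert (by simp),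
      Finset.Ico_eq_empty_of_le h.le, Finset.Ico_eq_empty_of_le (by omega : i + 1 ≤ 0)]
    ring

theorem pos_sub (x : ℤ → ℝ) (i : ℤ) (k : ℕ) : pos x (i + k) - pos x i = S k (tail x i) := by
  induction k with
  | zero => simp [S]
  | succ k ih =>
    rw [Nat.cast_succ, ← add_assoc, pos_succ, S, Finset.sum_range_succ, ← S, ← ih, tail]
    ring

theorem pos_strictMono {x : ℤ → ℝ} (hx : ∀ i, 0 < x i) : StrictMono (pos x) := by
  refine strictMono_int_of_lt_succ fun i => ?_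
  rw [pos_succ]
  linarith [hx i]

theorem pos_shift (x : ℤ → ℝ) (i a : ℤ) :
    pos (fun k => x (k + i)) a = pos x (a + i) - pos x i := by
  induction a using Int.induction_on with
  | zero => simp [pos]
  | succ n ih =>
    rw [pos_succ, ih, show (n : ℤ) + 1 + i = n + i + 1 by ring, pos_succ]
    ring
  | pred n ih =>
    have h1 := pos_succ (fun k => x (k + i)) (-(n : ℤ) - 1)
    have h2 := pos_succ x (-(n : ℤ) - 1 + i)
    rw [show -(n : ℤ) - 1 + 1 = -n by ring] at h1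
    rw [show -(n : ℤ) - 1 + i + 1 = -n + i by ring] at h2
    linarith

end Pool.Agent.P.SM
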