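import Pool.Agent.P.MP_411dac_pr.G0

/-!
Flattening of the words born during one step.
Hints. `Fl_append` by induction on a with `cat_assoc`. Write t = j * h, t' = (j + 1) * h.
For paths prove by induction on `Wd` : a word of kind c ≠ 0 with b < t', (c = 3 → t ≤ S), S < X either
has b < t and lies in hat true (Ost X t), or lies in Fl (m + 1) for some m (a single edge born in the
step is point, dying word, point). For `Ob_le` invert the last `act`: if one of the outer words is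
born in the step use `Fl_append` (a + b ≥ 1). If both are old: if the left one has length in the cell j
it has kind 3 (an old single edge is shorter than t), so it is at least as long as the middle word
(catGE); the same on the right (catLE); else both are points or outside the cell, not both points.
`Eb_le` is the same with kind 0 and `cyc`.
-/

set_option autoImplicit false
set_option linter.unusedVariables false

noncomputable section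

namespace Pool.Agent.P.SM

open MeasureTheory ProbabilityTheory Set
open scoped ENNReal

variable {h X : ℝ}

theorem Fl_append (c : Bool) (L Y : Lang) (a b : ℕ) :
    cat (Fl c L Y a) (cat Y (Fl c L Y b)) ≤ Fl c L Y (a + b + 1) := by
  induction a with
  | zero =>
    rw [Nat.zero_add]
    show cat (hat c L) (cat Y (Fl c L Y b)) ≤ cat (cat (hat c L) Y) (Fl c L Y b)
    rw [cat_assoc]
  | succ a ih =>
    rw [show a + 1 + b + 1 = (a + b + 1) + 1 by omega]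
    show cat (cat (cat (hat c L) Y) (Fl c L Y a)) (cat Y (Fl c L Y b)) ≤
      cat (cat (hat c L) Y) (Fl c L Y (a + b + 1))
    rw [cat_assoc]
    exact cat_mono le_rfl ih

theorem cat3_G2 {A B C : Lang} {k₁ k₂ k₃ : ℕ} {ω : Sq} (h1 : ω ∈ A k₁) (h2 : sh k₁ ω ∈ B k₂)
    (h3 : sh k₂ (sh k₁ ω) ∈ C k₃) : ω ∈ cat A (cat B C) (k₁ + (k₂ + k₃)) :=
  mem_cat.2 ⟨k₁, k₂ + k₃, rfl, h1, mem_cat.2 ⟨k₂, k₃, rfl, h2, h3⟩⟩

theorem Fl3_G2 {c : Bool} {L Y : Lang} {a b k₁ k₂ k₃ : ℕ} {ω : Sq} (h1 : ω ∈ Fl c L Y a k₁)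
    (h2 : sh k₁ ω ∈ Y k₂) (h3 : sh k₂ (sh k₁ ω) ∈ Fl c L Y b k₃) :
    ω ∈ Fl c L Y (a + b + 1) (k₁ + (k₂ + k₃)) :=
  Fl_append c L Y a b _ (cat3_G2 h1 h2 h3)

theorem hatL_G2 {c : Bool} {L : Lang} {k : ℕ} {ω : Sq} (h1 : ω ∈ L k) : ω ∈ hat c L k :=
  Or.inl h1

theorem hatP_G2 {L : Lang} {ω : Sq} : ω ∈ hat true L 0 :=
  Or.inr rfl

/-- the possible states of an outer word -/
def Out_G2 (h : ℝ) (c : Bool) (j : ℕ) (L Y : Lang) (s : ℝ) (k : ℕ) (ω : Sq) : Prop :=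
  (∃ m, ω ∈ Fl c L Y (m + 1) k) ∨ (c = true ∧ k = 0) ∨
    (ω ∈ L k ∧ (S k ω / h ∈ cl j → s ≤ S k ω))

theorem hat_G2 {c : Bool} {j k : ℕ} {L : Lang} {s : ℝ} {ω : Sq}
    (h1 : (c = true ∧ k = 0) ∨ (ω ∈ L k ∧ (S k ω / h ∈ cl j → s ≤ S k ω))) :
    ω ∈ hat c L k := by
  rcases h1 with ⟨h2, h3⟩ | h2
  · rw [h2, h3]
    exact hatP_G2
  · exact hatL_G2 h2.1

theorem birth_G2 {c : Bool} {j k₁ k₂ k₃ : ℕ} {L Y : Lang} {ω : Sq}
    (h1 : Out_G2 h c j L Y (S k₂ (sh k₁ ω)) k₁ ω) (h2 : sh k₁ ω ∈ Y k₂)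
    (h3 : Out_G2 h c j L Y (S k₂ (sh k₁ ω)) k₃ (sh k₂ (sh k₁ ω))) (h0 : k₁ + k₃ ≠ 0) :
    ω ∈ BirthL h c j L Y (k₁ + (k₂ + k₃)) := by
  have hF : ∀ m, ω ∈ Fl c L Y (m + 2) (k₁ + (k₂ + k₃)) →
      ω ∈ BirthL h c j L Y (k₁ + (k₂ + k₃)) := fun m hm =>
    Or.inr ((le_iSup (fun m => Fl c L Y (m + 2)) m) _ hm)
  rcases h1 with ⟨a, ha⟩ | h1
  · rcases h3 with ⟨b, hb⟩ | h3
    · have := Fl3_G2 ha h2 hb
      rw [show a + 1 + (b + 1) + 1 = (a + b + 1) + 2 by omega] at this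
      exact hF _ this
    · exact hF a (Fl3_G2 (b := 0) ha h2 (hat_G2 h3))
  rcases h3 with ⟨b, hb⟩ | h3
  · have := Fl3_G2 (a := 0) (hat_G2 h1) h2 hb
    rw [show 0 + (b + 1) + 1 = b + 2 by omega] at this
    exact hF _ this
  have g1 := hat_G2 h1
  have g3 := hat_G2 h3
  by_cases c1 : ω ∈ L k₁ ∧ S k₁ ω / h ∈ cl j ∧ S k₂ (sh k₁ ω) ≤ S k₁ ω
  · refine Or.inl (Or.inr (Or.inl (mem_cat.2 ⟨k₁ + k₂, k₃, by omega, ?_, ?_⟩)))
    · exact ⟨k₁, k₂, rfl, ⟨c1.1, c1.2.1⟩, h2, c1.2.2⟩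
    · rw [← sh_sh]
      exact g3
  by_cases c3 : sh k₂ (sh k₁ ω) ∈ L k₃ ∧ S k₃ (sh k₂ (sh k₁ ω)) / h ∈ cl j ∧
      S k₂ (sh k₁ ω) ≤ S k₃ (sh k₂ (sh k₁ ω))
  · refine Or.inl (Or.inr (Or.inr (mem_cat.2 ⟨k₁, k₂ + k₃, rfl, g1, ?_⟩)))
    exact ⟨k₂, k₃, rfl, h2, ⟨c3.1, c3.2.1⟩, c3.2.2⟩
  refine Or.inl (Or.inl ?_)
  rcases h1 with ⟨e1, e2⟩ | h1
  · rcases h3 with ⟨e3, e4⟩ | h3
    · omega
    · subst e1 e2
      rw [sh_zero] at h2 h3 c3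
      refine Or.inr (Or.inl (mem_cat.2 ⟨k₂, k₃, by omega, h2, h3.1, fun hc => ?_⟩))
      exact c3 ⟨h3.1, hc, h3.2 hc⟩
  · have r1 : ω ∈ res h (cl j)ᶜ L k₁ := ⟨h1.1, fun hc => c1 ⟨h1.1, hc, h1.2 hc⟩⟩
    rcases h3 with ⟨e3, e4⟩ | h3
    · subst e3 e4
      exact Or.inr (Or.inr (mem_cat.2 ⟨k₁, k₂, by omega, r1, h2⟩))
    · exact Or.inl (cat3_G2 r1 h2 ⟨h3.1, fun hc => c3 ⟨h3.1, hc, h3.2 hc⟩⟩)

theorem flatO_G2 {t t' : ℝ} (ht : 0 ≤ t) {c k : ℕ} {ω : Sq} {b : ℝ} (hw : Wd c k ω b) :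
    c ≠ 0 → b < t' → (c = 3 → t ≤ S k ω) → S k ω < X →
      (b < t ∧ ω ∈ hat true (Ost X t) k) ∨ ∃ m, ω ∈ Fl true (Ost X t) (Ed t t') (m + 1) k := by
  induction hw with
  | gap ω h0 => exact fun h => absurd rfl h
  | pt ω => exact fun _ _ _ _ => Or.inl ⟨by linarith, hatP_G2⟩
  | @dim k ω b hw ih =>
    intro _ h2 _ h4
    rcases lt_or_ge (S k ω) t with h5 | h5
    · exact Or.inl ⟨h5, hatL_G2 ⟨2, _, Wd.dim hw, Or.inl rfl, h5, h4⟩⟩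
    · refine Or.inr ⟨0, ?_⟩
      have h6 : sh 0 ω ∈ Ed t t' k := by
        rw [sh_zero]
        exact ⟨b, hw, h5, h2⟩
      have h7 := Fl3_G2 (c := true) (L := Ost X t) (a := 0) (b := 0) hatP_G2 h6 hatP_G2
      rwa [Nat.zero_add, Nat.zero_add, Nat.add_zero] at h7
  | @act c₁ c₃ k₁ k₂ k₃ ω b₁ b₂ b₃ s w1 w2 w3 hs n1 n3 n0 l1 l3 m1 m3 ih1 ih2 ih3 =>
    intro _ h2 h3 h4
    rcases lt_or_ge s t with h5 | h5
    · exact Or.inl ⟨h5, hatL_G2 ⟨3, s, Wd.act w1 w2 w3 hs n1 n3 n0 l1 l3 m1 m3,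
        Or.inr ⟨rfl, h3 rfl⟩, h5, h4⟩⟩
    · rw [S_add, S_add] at h4
      have p1 := w1.S_nonneg
      have p2 := w2.S_nonneg
      have p3 := w3.S_nonneg
      have q2 : sh k₁ ω ∈ Ed t t' k₂ := ⟨b₂, w2, hs ▸ h5, hs ▸ h2⟩
      obtain ⟨a, ha⟩ : ∃ a, ω ∈ Fl true (Ost X t) (Ed t t') a k₁ := by
        rcases ih1 n1 (by linarith) (fun e => h5.trans (m1 e)) (by linarith) with h | ⟨m, h⟩
        · exact ⟨0, h.2⟩
        · exact ⟨_, h⟩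
      obtain ⟨a', ha'⟩ : ∃ a, sh k₂ (sh k₁ ω) ∈ Fl true (Ost X t) (Ed t t') a k₃ := by
        rcases ih3 n3 (by linarith) (fun e => h5.trans (m3 e)) (by linarith) with h | ⟨m, h⟩
        · exact ⟨0, h.2⟩
        · exact ⟨_, h⟩
      exact Or.inr ⟨a + a', Fl3_G2 ha q2 ha'⟩
  | cyc => exact fun h => absurd rfl h

theorem flatE_G2 {t t' : ℝ} (ht : 0 ≤ t) {c k : ℕ} {ω : Sq} {b : ℝ} (hw : Wd c k ω b) :
    c = 0 → b < t' → t ≤ S k ω →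
      ω ∈ Est t k ∨ ∃ m, ω ∈ Fl false (Est t) (Od t t') (m + 1) k := by
  induction hw with
  | gap ω h0 => exact fun _ _ h3 => Or.inl ⟨-1, Wd.gap ω h0, by linarith, h3⟩
  | pt ω => exact fun h => absurd h (by norm_num)
  | dim => exact fun h => absurd h (by norm_num)
  | act => exact fun h => absurd h (by norm_num)
  | @cyc k₁ k₂ k₃ ω b₁ b₂ b₃ s w1 w2 w3 hs l1 l3 m1 m3 ih1 ih2 ih3 =>
    intro _ h2 h3
    rcases lt_or_ge s t with h5 | h5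
    · exact Or.inl ⟨s, Wd.cyc w1 w2 w3 hs l1 l3 m1 m3, h5, h3⟩
    · have q2 : sh k₁ ω ∈ Od t t' k₂ := ⟨b₂, w2, hs ▸ h5, hs ▸ h2⟩
      obtain ⟨a, ha⟩ : ∃ a, ω ∈ Fl false (Est t) (Od t t') a k₁ := by
        rcases ih1 rfl (by linarith) (h5.trans m1) with h | ⟨m, h⟩
        · exact ⟨0, hatL_G2 h⟩
        · exact ⟨_, h⟩
      obtain ⟨a', ha'⟩ : ∃ a, sh k₂ (sh k₁ ω) ∈ Fl false (Est t) (Od t t') a k₃ := by
        rcases ih3 rfl (by linarith) (h5.trans m3) with h | ⟨m, h⟩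
        · exact ⟨0, hatL_G2 h⟩
        · exact ⟨_, h⟩
      exact Or.inr ⟨a + a', Fl3_G2 ha q2 ha'⟩

theorem outO_G2 (hh : 0 < h) {j : ℕ} {t' s : ℝ} {c k : ℕ} {ω : Sq} {b : ℝ} (hw : Wd c k ω b)
    (h1 : c ≠ 0) (h2 : b < t') (h3 : c = 3 → s ≤ S k ω) (hs : j * h ≤ s) (h4 : S k ω < X) :
    Out_G2 h true j (Ost X (j * h)) (Ed (j * h) t') s k ω := by
  rcases flatO_G2 (t := j * h) (by positivity) hw h1 h2 (fun e => hs.trans (h3 e)) h4 with h5 | h5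
  · rcases hw.kind with e | e | e | e
    · exact absurd e h1
    · subst e
      exact Or.inr (Or.inl ⟨rfl, hw.pt_inv.1⟩)
    · subst e
      refine Or.inr (Or.inr ⟨⟨2, b, hw, Or.inl rfl, h5.1, h4⟩, fun hc => ?_⟩)
      have h6 := (le_div_iff₀ hh).1 hc.1
      have h7 := hw.dim_inv.1
      linarith [h5.1]
    · exact Or.inr (Or.inr ⟨⟨c, b, hw, Or.inr ⟨e, hs.trans (h3 e)⟩, h5.1, h4⟩, fun _ => h3 e⟩)
  · exact Or.inl h5

theorem ob_G2 (hh : 0 < h) {j : ℕ} {t' : ℝ} {c k : ℕ} {ω : Sq} {b : ℝ} (hw : Wd c k ω b) :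
    c = 3 → j * h ≤ b → b < t' → S k ω < X →
      ω ∈ BirthL h true j (Ost X (j * h)) (Ed (j * h) t') k := by
  cases hw with
  | gap => exact fun h => absurd h (by norm_num)
  | pt => exact fun h => absurd h (by norm_num)
  | dim => exact fun h => absurd h (by norm_num)
  | cyc => exact fun h => absurd h (by norm_num)
  | @act c₁ c₃ k₁ k₂ k₃ ω b₁ b₂ b₃ s w1 w2 w3 hs n1 n3 n0 l1 l3 m1 m3 =>
    intro _ h5 h2 h4
    rw [S_add, S_add] at h4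
    have p1 := w1.S_nonneg
    have p2 := w2.S_nonneg
    have p3 := w3.S_nonneg
    subst hs
    exact birth_G2 (outO_G2 hh w1 n1 (by linarith) m1 h5 (by linarith)) ⟨b₂, w2, h5, h2⟩
      (outO_G2 hh w3 n3 (by linarith) m3 h5 (by linarith)) n0

theorem Ob_le (hh : 0 < h) (j : ℕ) : Ob X (j * h) (((j + 1 : ℕ) : ℝ) * h) ≤
    BirthL h true j (Ost X (j * h)) (Ed (j * h) (((j + 1 : ℕ) : ℝ) * h)) := by
  rintro k ω ⟨b, hw, h1, h2, h3⟩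
  exact ob_G2 hh hw rfl h1 h2 h3

theorem Eb_le (hh : 0 < h) (j : ℕ) : Eb (j * h) (((j + 1 : ℕ) : ℝ) * h) ≤
    BirthL h false j (Est (j * h)) (Od (j * h) (((j + 1 : ℕ) : ℝ) * h)) := by
  rintro k ω ⟨b, hw, h1, h2⟩
  have ht : 0 ≤ (j : ℝ) * h := by positivity
  rcases hw.e_inv with ⟨-, e⟩ | ⟨k₁, k₂, k₃, b₁, b₂, b₃, e, w1, w2, w3, hs, -, l1, l3, m1, m3⟩
  · linarith
  · subst e hs
    have n1 := w1.ne_zero (by norm_num)
    refine birth_G2 ?_ ⟨b₂, w2, h1, h2⟩ ?_ (by omega)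
    · rcases flatE_G2 ht w1 rfl (l1.trans_lt h2) (h1.trans m1) with h5 | h5
      · exact Or.inr (Or.inr ⟨h5, fun _ => m1⟩)
      · exact Or.inl h5
    · rcases flatE_G2 ht w3 rfl (l3.trans_lt h2) (h1.trans m3) with h5 | h5
      · exact Or.inr (Or.inr ⟨h5, fun _ => m3⟩)
      · exact Or.inl h5

end Pool.Agent.P.SM
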