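import Pool.Agent.P.MP_411dac_pr.Df

/-!
Digits: arithmetic.
Hints. `dig_sum`: a sum ∑ l < n, v l * 2 ^ (w * l) with all v l < 2 ^ w has the digits v l
(induction on n, or `Nat.ofDigits`), and `sum_dig`: every N < 2 ^ (w * n) is such a sum. `dig_mul`:
compare with the product of the polynomials with these coefficients evaluated at 2 ^ w, or
induct on l using N = dig N 0 + 2 ^ w * (N >>> w).
-/

set_option autoImplicit false
set_option linter.unusedVariables false

noncomputable section

namespace Pool.Agent.P.SM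

open MeasureTheory ProbabilityTheory Set
open scoped ENNReal

variable {w n N M c l j : ℕ}

theorem dig_eq (w N l : ℕ) : dig w N l = N / 2 ^ (w * l) % 2 ^ w := by
  rw [dig, Nat.shiftRight_eq_div_pow, Nat.shiftLeft_eq, one_mul]

theorem dig_lt (w N l : ℕ) : dig w N l < 2 ^ w := by
  rw [dig_eq]
  exact Nat.mod_lt _ (by positivity)

theorem dig_zero (w l : ℕ) : dig w 0 l = 0 := by
  rw [dig_eq, Nat.zero_div, Nat.zero_mod]

theorem dig_of_lt (h : N < 2 ^ (w * n)) (hl : n ≤ l) : dig w N l = 0 := by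
  rw [dig_eq, Nat.div_eq_of_lt (h.trans_le
    (Nat.pow_le_pow_right two_pos (Nat.mul_le_mul_left w hl))), Nat.zero_mod]

theorem dig0_K1 (w N : ℕ) : dig w N 0 = N % 2 ^ w := by
  rw [dig_eq, Nat.mul_zero, pow_zero, Nat.div_one]

theorem digS_K1 (w N l : ℕ) : dig w N (l + 1) = dig w (N / 2 ^ w) l := by
  rw [dig_eq, dig_eq, Nat.div_div_eq_div_mul, ← pow_add, mul_add, mul_one, add_comm]

theorem cons0_K1 {a : ℕ} (h : a < 2 ^ w) (N : ℕ) : dig w (a + 2 ^ w * N) 0 = a := by
  rw [dig0_K1, Nat.add_mul_mod_self_left, Nat.mod_eq_of_lt h]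

theorem consS_K1 {a : ℕ} (h : a < 2 ^ w) (N l : ℕ) :
    dig w (a + 2 ^ w * N) (l + 1) = dig w N l := by
  rw [digS_K1, Nat.add_mul_div_left _ _ (by positivity), Nat.div_eq_of_lt h, zero_add]

theorem sum_succ_K1 (w n : ℕ) (v : ℕ → ℕ) :
    ∑ i ∈ Finset.range (n + 1), v i * 2 ^ (w * i) =
      v 0 + 2 ^ w * ∑ i ∈ Finset.range n, v (i + 1) * 2 ^ (w * i) := by
  rw [Finset.sum_range_succ', Finset.mul_sum, Nat.mul_zero, pow_zero, mul_one, add_comm]
  refine congrArg _ (Finset.sum_congr rfl fun i _ => ?_)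
  ring

theorem big_K1 (hw : 0 < w) (h : N ≤ n) : N < 2 ^ (w * n) :=
  Nat.lt_two_pow_self.trans_le (Nat.pow_le_pow_right two_pos
    (h.trans (Nat.le_mul_of_pos_left n hw)))

theorem dig_sum {v : ℕ → ℕ} (hv : ∀ l < n, v l < 2 ^ w) (l : ℕ) :
    dig w (∑ i ∈ Finset.range n, v i * 2 ^ (w * i)) l = if l < n then v l else 0 := by
  induction n generalizing v l with
  | zero => simp [dig_zero]
  | succ n ih =>
    rw [sum_succ_K1]
    have h0 := hv 0 (Nat.succ_pos n)
    cases l with
    | zero => rw [cons0_K1 h0, if_pos (Nat.succ_pos n)]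
    | succ l =>
      rw [consS_K1 h0, ih (v := fun i => v (i + 1)) fun i hi => hv _ (Nat.succ_lt_succ hi)]
      simp only [Nat.add_lt_add_iff_right]

theorem sum_dig (h : N < 2 ^ (w * n)) : ∑ i ∈ Finset.range n, dig w N i * 2 ^ (w * i) = N := by
  induction n generalizing N with
  | zero =>
    rw [Finset.sum_range_zero]
    simp only [Nat.mul_zero, pow_zero] at h
    omega
  | succ n ih =>
    rw [sum_succ_K1]
    simp only [digS_K1]
    rw [ih, dig0_K1, Nat.mod_add_div]
    rw [Nat.div_lt_iff_lt_mul (by positivity), ← pow_add]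
    exact h

theorem dig_ext (hw : 0 < w) (h : ∀ l, dig w N l = dig w M l) : N = M := by
  refine (sum_dig (big_K1 hw (Nat.le_add_right N M))).symm.trans
    (Eq.trans ?_ (sum_dig (big_K1 hw (Nat.le_add_left M N))))
  simp only [h]

theorem lt_of_dig (hw : 0 < w) (h : ∀ l, n ≤ l → dig w N l = 0) : N < 2 ^ (w * n) := by
  induction n generalizing N with
  | zero =>
    have h0 : N = 0 := dig_ext hw fun l => by rw [h l (Nat.zero_le l), dig_zero]
    rw [h0]
    positivity
  | succ n ih =>
    have h1 := ih (N := N / 2 ^ w) fun l hl => by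
      rw [← digS_K1]
      exact h _ (Nat.succ_le_succ hl)
    rwa [Nat.div_lt_iff_lt_mul (by positivity), ← pow_add] at h1

theorem dig_add (hw : 0 < w) (h : ∀ l, dig w N l + dig w M l < 2 ^ w) (l : ℕ) :
    dig w (N + M) l = dig w N l + dig w M l := by
  have h1 := sum_dig (big_K1 hw (show N ≤ N + M + l + 1 by omega))
  have h2 := sum_dig (big_K1 hw (show M ≤ N + M + l + 1 by omega))
  have h3 := dig_sum (w := w) (n := N + M + l + 1) (v := fun i => dig w N i + dig w M i)
    (fun i _ => h i) l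
  simp only [add_mul, Finset.sum_add_distrib, h1, h2] at h3
  rw [h3, if_pos (by omega)]

theorem dig_sub (hw : 0 < w) (h : ∀ l, dig w M l ≤ dig w N l) (l : ℕ) :
    dig w (N - M) l = dig w N l - dig w M l := by
  have h1 := sum_dig (big_K1 hw (show N ≤ N + M + l + 1 by omega))
  have h2 := sum_dig (big_K1 hw (show M ≤ N + M + l + 1 by omega))
  have h3 := dig_sum (w := w) (n := N + M + l + 1) (v := fun i => dig w N i - dig w M i)
    (fun i _ => (Nat.sub_le _ _).trans_lt (dig_lt w N i)) l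
  have h4 : ∑ i ∈ Finset.range (N + M + l + 1), (dig w N i - dig w M i) * 2 ^ (w * i) + M = N := by
    conv_lhs => enter [2]; rw [← h2]
    conv_rhs => rw [← h1]
    rw [← Finset.sum_add_distrib]
    refine Finset.sum_congr rfl fun i _ => ?_
    rw [← add_mul, Nat.sub_add_cancel (h i)]
  rw [← Nat.eq_sub_of_add_eq h4, h3, if_pos (by omega)]

theorem dig_smul (hw : 0 < w) (h : ∀ l, c * dig w N l < 2 ^ w) (l : ℕ) :
    dig w (c * N) l = c * dig w N l := by
  have h1 := sum_dig (big_K1 hw (show N ≤ N + l + 1 by omega))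
  have h3 := dig_sum (w := w) (n := N + l + 1) (v := fun i => c * dig w N i) (fun i _ => h i) l
  simp only [mul_assoc, ← Finset.mul_sum, h1] at h3
  rw [h3, if_pos (by omega)]

theorem dig_mul (hw : 0 < w)
    (h : ∀ l, ∑ i ∈ Finset.range (l + 1), dig w N i * dig w M (l - i) < 2 ^ w) (l : ℕ) :
    dig w (N * M) l = ∑ i ∈ Finset.range (l + 1), dig w N i * dig w M (l - i) := by
  induction N using Nat.strong_induction_on generalizing l with
  | _ N ih =>
    rcases Nat.eq_zero_or_pos N with rfl | hN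
    · simp [dig_zero]
    have hs : ∀ k, ∑ i ∈ Finset.range (k + 1 + 1), dig w N i * dig w M (k + 1 - i) =
        ∑ i ∈ Finset.range (k + 1), dig w (N / 2 ^ w) i * dig w M (k - i) +
          dig w N 0 * dig w M (k + 1) := by
      intro k
      rw [Finset.sum_range_succ']
      simp only [digS_K1, Nat.add_sub_add_right, Nat.sub_zero]
    have h1 : ∀ k, dig w (N / 2 ^ w * M) k =
        ∑ i ∈ Finset.range (k + 1), dig w (N / 2 ^ w) i * dig w M (k - i) := by
      refine ih _ (Nat.div_lt_self hN (Nat.one_lt_two_pow hw.ne')) fun k => ?_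
      have h2 := h (k + 1)
      rw [hs] at h2
      omega
    have h2 : ∀ k, dig w (dig w N 0 * M) k = dig w N 0 * dig w M k := by
      refine dig_smul hw fun k => lt_of_le_of_lt ?_ (h k)
      exact Finset.single_le_sum (f := fun i => dig w N i * dig w M (k - i))
        (fun _ _ => Nat.zero_le _) (Finset.mem_range.2 (Nat.succ_pos k))
    have h3 : ∀ k, dig w (dig w N 0 * M) k + dig w (0 + 2 ^ w * (N / 2 ^ w * M)) k =
        ∑ i ∈ Finset.range (k + 1), dig w N i * dig w M (k - i) := by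
      intro k
      have h0 : 0 < 2 ^ w := by positivity
      cases k with
      | zero => rw [cons0_K1 h0, h2, Finset.sum_range_one, Nat.add_zero]
      | succ k => rw [consS_K1 h0, h2, h1, hs, add_comm]
    have h4 : N * M = dig w N 0 * M + (0 + 2 ^ w * (N / 2 ^ w * M)) := by
      rw [dig0_K1, zero_add, ← mul_assoc, ← add_mul, Nat.mod_add_div]
    rw [h4, dig_add hw (fun k => by rw [h3]; exact h k), h3]

theorem dig_shl (w N j l : ℕ) :
    dig w (N <<< (w * j)) l = if j ≤ l then dig w N (l - j) else 0 := by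
  rw [Nat.shiftLeft_eq]
  induction j generalizing l with
  | zero => simp
  | succ j ih =>
    have h0 : 0 < 2 ^ w := by positivity
    have h1 : N * 2 ^ (w * (j + 1)) = 0 + 2 ^ w * (N * 2 ^ (w * j)) := by ring
    rw [h1]
    cases l with
    | zero => rw [cons0_K1 h0, if_neg (by omega)]
    | succ l =>
      rw [consS_K1 h0, ih]
      simp only [Nat.add_le_add_iff_right, Nat.add_sub_add_right]

theorem dig_shr (w N j l : ℕ) : dig w (N >>> (w * j)) l = dig w N (j + l) := by
  rw [dig_eq, dig_eq, Nat.shiftRight_eq_div_pow, Nat.div_div_eq_div_mul, ← pow_add, ← mul_add]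

theorem dig_small (h : c < 2 ^ w) (l : ℕ) : dig w c l = if l = 0 then c else 0 := by
  cases l with
  | zero => rw [dig0_K1, Nat.mod_eq_of_lt h, if_pos rfl]
  | succ l => rw [digS_K1, Nat.div_eq_of_lt h, dig_zero, if_neg (Nat.succ_ne_zero l)]

theorem dig_ones (hw : 0 < w) (n l : ℕ) : dig w (ones w n) l = if l < n then 1 else 0 := by
  have h1 : 1 < 2 ^ w := Nat.one_lt_two_pow hw.ne'
  have h2 : ones w n = ∑ i ∈ Finset.range n, 1 * 2 ^ (w * i) := by
    simp only [ones, Nat.shiftLeft_eq, one_mul, pow_mul]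
    rw [Nat.geomSum_eq h1]
  rw [h2, dig_sum (v := fun _ => 1) fun _ _ => h1]

theorem dsum_eq (h : N < 2 ^ (w * n)) (hs : ∑ l ∈ Finset.range n, dig w N l + 1 < 2 ^ w) :
    dsum w N = ∑ l ∈ Finset.range n, dig w N l := by
  have h1 : 2 ^ w ≡ 1 [MOD 2 ^ w - 1] :=
    ((Nat.modEq_iff_dvd' Nat.one_le_two_pow).2 dvd_rfl).symm
  have h2 : ∀ m, ∑ i ∈ Finset.range m, dig w N i * 2 ^ (w * i) ≡
      ∑ i ∈ Finset.range m, dig w N i [MOD 2 ^ w - 1] := by
    intro m
    induction m with
    | zero => rfl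
    | succ m ih =>
      rw [Finset.sum_range_succ, Finset.sum_range_succ]
      refine ih.add ?_
      have h3 := (h1.pow m).mul_left (dig w N m)
      rwa [one_pow, mul_one, ← pow_mul] at h3
  have h3 := h2 n
  rw [sum_dig h] at h3
  rw [dsum, Nat.shiftLeft_eq, one_mul, h3, Nat.mod_eq_of_lt (by omega)]

end Pool.Agent.P.SM
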