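import Pool.Agent.P.MP_411dac_pr.K1

/-!
Digits: bitwise operations.
Hints. (dig w N l).testBit i = (decide (i < w) && N.testBit (w * l + i)); use `Nat.eq_of_testBit_eq`.
`dig_monus`: G has the digits 2 ^ (w - 1) below n, D has the digits d = a + 2 ^ (w - 1) - b, T has the
digits d &&& 2 ^ (w - 1) (`Nat.and_two_pow`), T >>> (w - 1) has the digits 1 or 0.
-/

set_option autoImplicit false
set_option linter.unusedVariables false

noncomputable section

namespace Pool.Agent.P.SM

open MeasureTheory ProbabilityTheory Set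
open scoped ENNReal

variable {w n r N M : ℕ}

theorem testBit_dig (w N l i : ℕ) :
    (dig w N l).testBit i = (decide (i < w) && N.testBit (w * l + i)) := by
  rw [dig, Nat.one_shiftLeft, Nat.testBit_mod_two_pow, Nat.testBit_shiftRight]

theorem dig_land (w N M l : ℕ) : dig w (N &&& M) l = dig w N l &&& dig w M l := by
  refine Nat.eq_of_testBit_eq fun i => ?_
  simp only [testBit_dig, Nat.testBit_and]
  cases decide (i < w) <;> simp

theorem dig_lor (w N M l : ℕ) : dig w (N ||| M) l = dig w N l ||| dig w M l := by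
  refine Nat.eq_of_testBit_eq fun i => ?_
  simp only [testBit_dig, Nat.testBit_or]
  cases decide (i < w) <;> simp

theorem low_eq (w n N : ℕ) : low w n N = N % 2 ^ (w * n) := by
  rw [low, Nat.one_shiftLeft, Nat.and_two_pow_sub_one_eq_mod]

theorem dig_low (w n N l : ℕ) : dig w (low w n N) l = if l < n then dig w N l else 0 := by
  refine Nat.eq_of_testBit_eq fun i => ?_
  rw [low_eq, testBit_dig, Nat.testBit_mod_two_pow]
  split_ifs with h
  · rw [testBit_dig]
    by_cases hi : i < w
    · have h1 : w * (l + 1) ≤ w * n := Nat.mul_le_mul_left w h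
      have h2 : w * l + i < w * n := by rw [Nat.mul_add] at h1; omega
      simp [hi, h2]
    · simp [hi]
  · have h1 : w * n ≤ w * l := Nat.mul_le_mul_left w (not_lt.1 h)
    have h2 : ¬ w * l + i < w * n := by omega
    simp [h2]

theorem low_lt (w n N : ℕ) : low w n N < 2 ^ (w * n) := by
  rw [low_eq]
  exact Nat.mod_lt _ (Nat.two_pow_pos _)

theorem le_orf (w k N l : ℕ) : dig w N l ≤ orf w k N := by
  induction k generalizing N l with
  | zero => exact (Nat.mod_le _ _).trans (Nat.shiftRight_le _ _)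
  | succ k ih =>
    rw [orf]
    rcases lt_or_ge l (2 ^ k) with h | h
    · refine le_trans ?_ (ih _ l)
      rw [dig_lor, dig_low, if_pos h]
      exact Nat.left_le_or
    · refine le_trans ?_ (ih _ (l - 2 ^ k))
      rw [dig_lor, dig_shr, Nat.add_sub_cancel' h]
      exact Nat.right_le_or

theorem le_orf_left (w k N M l : ℕ) : dig w N l ≤ orf w k (N ||| M) := by
  refine le_trans ?_ (le_orf w k (N ||| M) l)
  rw [dig_lor]
  exact Nat.left_le_or

theorem le_orf_right (w k N M l : ℕ) : dig w M l ≤ orf w k (N ||| M) := by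
  refine le_trans ?_ (le_orf w k (N ||| M) l)
  rw [dig_lor]
  exact Nat.right_le_or

theorem shr_K2 (hr : r ≤ w) (N l : ℕ) :
    dig w (N >>> r) l % 2 ^ (w - r) = dig w N l / 2 ^ r := by
  refine Nat.eq_of_testBit_eq fun i => ?_
  rw [Nat.testBit_mod_two_pow, Nat.testBit_div_two_pow, testBit_dig, testBit_dig,
    Nat.testBit_shiftRight, show r + (w * l + i) = w * l + (i + r) by omega]
  by_cases h : i + r < w
  · simp [h, show i < w - r by omega, show i < w by omega]
  · simp [h, show ¬ i < w - r by omega]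

theorem shr_dvd_K2 (hr : r ≤ w) (h : ∀ l, 2 ^ r ∣ dig w N l) (l : ℕ) :
    dig w (N >>> r) l = dig w N l / 2 ^ r := by
  rw [← shr_K2 hr]
  refine Nat.eq_of_testBit_eq fun i => ?_
  rw [Nat.testBit_mod_two_pow]
  by_cases h1 : i < w - r
  · simp [h1]
  · by_cases h2 : i < w
    · obtain ⟨y, hy⟩ := h (l + 1)
      have h3 := testBit_dig w N (l + 1) (i + r - w)
      rw [hy, Nat.testBit_two_pow_mul] at h3
      rw [testBit_dig, Nat.testBit_shiftRight,
        show r + (w * l + i) = w * (l + 1) + (i + r - w) by rw [Nat.mul_add]; omega]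
      simpa [h1, h2, show ¬ r ≤ i + r - w by omega, show i + r - w < w by omega] using h3
    · simp [testBit_dig, h2]

theorem dig_monus (hw : 0 < w) (hN : ∀ l, dig w N l < 2 ^ (w - 1))
    (hM : ∀ l, dig w M l < 2 ^ (w - 1)) (hN' : ∀ l, n ≤ l → dig w N l = 0)
    (hM' : ∀ l, n ≤ l → dig w M l = 0) (l : ℕ) :
    dig w (monus w n N M) l = dig w N l - dig w M l := by
  obtain ⟨v, rfl⟩ : ∃ v, w = v + 1 := ⟨w - 1, by omega⟩
  simp only [Nat.add_sub_cancel] at hN hM
  have hp : 2 ^ (v + 1) = 2 * 2 ^ v := Nat.pow_succ'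
  have hp0 : 0 < 2 ^ v := Nat.two_pow_pos v
  have hG : ∀ l, dig (v + 1) (ones (v + 1) n <<< v) l = if l < n then 2 ^ v else 0 := fun l => by
    rw [Nat.shiftLeft_eq, Nat.mul_comm, dig_smul hw fun l => by
      rw [dig_ones hw]; split_ifs <;> omega, dig_ones hw]
    split_ifs <;> simp
  have hS : ∀ l, dig (v + 1) (N + ones (v + 1) n <<< v) l =
      dig (v + 1) N l + if l < n then 2 ^ v else 0 := fun l => by
    rw [dig_add hw fun l => by
      have := hN l
      rw [hG]; split_ifs <;> omega, hG]
  have hD : ∀ l, dig (v + 1) (N + ones (v + 1) n <<< v - M) l =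
      (dig (v + 1) N l + if l < n then 2 ^ v else 0) - dig (v + 1) M l := fun l => by
    rw [dig_sub hw fun l => by
      have := hM l
      have := hM' l
      rw [hS]; split_ifs <;> omega, hS]
  have hT : ∀ l, dig (v + 1) ((N + ones (v + 1) n <<< v - M) &&& ones (v + 1) n <<< v) l =
      if l < n ∧ dig (v + 1) M l ≤ dig (v + 1) N l then 2 ^ v else 0 := fun l => by
    rw [dig_land, hD, hG]
    have h1 := hN l
    have h2 := hM l
    by_cases h : l < n
    · simp only [h, if_true, true_and]
      rw [Nat.and_two_pow]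
      split_ifs with h3
      · rw [show dig (v + 1) N l + 2 ^ v - dig (v + 1) M l =
          2 ^ v + (dig (v + 1) N l - dig (v + 1) M l) by omega, Nat.testBit_two_pow_add_eq,
          Nat.testBit_lt_two_pow (by omega)]
        simp
      · rw [Nat.testBit_lt_two_pow (by omega)]
        simp
    · simp [h]
  have hT' := shr_dvd_K2 (w := v + 1) (Nat.le_succ v) fun l => by
    rw [hT l]; split_ifs <;> simp
  simp only [monus, Nat.add_sub_cancel]
  rw [dig_land, hD, dig_sub hw fun l => by rw [hT' l]; exact Nat.div_le_self _ _, hT', hT]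
  have h1 := hN l
  have h2 := hM l
  have h3 := hN' l
  split_ifs with h4 h5 h5
  · rw [Nat.div_self hp0, Nat.and_two_pow_sub_one_eq_mod,
      show dig (v + 1) N l + 2 ^ v - dig (v + 1) M l =
        dig (v + 1) N l - dig (v + 1) M l + 2 ^ v by omega, Nat.add_mod_right,
      Nat.mod_eq_of_lt (by omega)]
  · rw [Nat.zero_div, Nat.sub_zero, Nat.and_zero]
    omega
  · exact absurd h5.1 h4
  · rw [Nat.zero_div, Nat.sub_zero, Nat.and_zero]
    omega

theorem dig_rnd (h1 : 1 ≤ r) (hr : r ≤ w) (n N l : ℕ) :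
    dig w (rnd w n r N) l = if l < n then dig w N l / 2 ^ r + 1 else 0 := by
  have hw : 0 < w := by omega
  have hp : 2 ^ (w - r) < 2 ^ w := Nat.pow_lt_pow_right (by norm_num) (by omega)
  have hp0 : 0 < 2 ^ (w - r) := Nat.two_pow_pos _
  have hA : ∀ l, dig w ((N >>> r) &&& (ones w n * ((1 <<< (w - r)) - 1))) l =
      if l < n then dig w (N >>> r) l % 2 ^ (w - r) else 0 := fun l => by
    rw [dig_land, Nat.one_shiftLeft, Nat.mul_comm, dig_smul hw fun l => by
      rw [dig_ones hw]; split_ifs <;> omega, dig_ones hw]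
    split_ifs
    · rw [Nat.mul_one, Nat.and_two_pow_sub_one_eq_mod]
    · simp
  rw [rnd, dig_add hw fun l => by
    have := Nat.mod_lt (dig w (N >>> r) l) hp0
    rw [hA, dig_ones hw]; split_ifs <;> omega, hA, dig_ones hw, shr_K2 hr]
  split_ifs <;> rfl

theorem dig_clr (hw : 0 < w) (N j l : ℕ) :
    dig w (N - (dig w N j <<< (w * j))) l = if l = j then 0 else dig w N l := by
  have h : ∀ l, dig w (dig w N j <<< (w * j)) l = if l = j then dig w N j else 0 := fun l => by
    rw [dig_shl, dig_small (dig_lt w N j)]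
    split_ifs <;> first | rfl | omega
  rw [dig_sub hw fun l => by
    rw [h]; split_ifs with k
    · rw [k]
    · exact Nat.zero_le _, h]
  split_ifs with k
  · rw [k, Nat.sub_self]
  · rfl

end Pool.Agent.P.SM
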