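import Pool.Agent.P.MP_411dac_pr.K2

/-!
The digits of the packed convolution.
Hints. Put K₀ = nr p x * y.k, G = 2 ^ g. The natural number convolutions P, Q, S are at most K₀
(`nr_eq`), u ≤ 2 * G, so all intermediate vectors have digits at most 45 * G * K₀, and
5592406 * 45 < 2 ^ 28. It is convenient to work with a predicate `∀ l, dig w N l = v l`.
-/

set_option autoImplicit false
set_option linter.unusedVariables false

noncomputable section

namespace Pool.Agent.P.SM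

open MeasureTheory ProbabilityTheory Set
open scoped ENNReal

variable {p : Pm} {x y : V}

/-- convolution of natural sequences -/
def cn (w N M l : ℕ) : ℕ := ∑ i ∈ Finset.range (l + 1), dig w N i * dig w M (l - i)

/-- shifted and multiplied by `u` -/
def shn (u : ℕ) (v : ℕ → ℕ) : ℕ → ℕ
  | 0 => 0
  | l + 1 => u * v l

theorem Pm.Ok.w_pos (hp : p.Ok) : 0 < p.w := by
  have := hp.2.2.2
  omega

theorem sum_le_K3 {w n N : ℕ} (h : N < 2 ^ (w * n)) (m : ℕ) :
    ∑ i ∈ Finset.range m, dig w N i ≤ ∑ i ∈ Finset.range n, dig w N i := by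
  rcases le_total m n with h1 | h1
  · exact Finset.sum_le_sum_of_subset (Finset.range_mono h1)
  · refine le_of_eq (Finset.sum_subset (Finset.range_mono h1) fun i _ hi => ?_).symm
    exact dig_of_lt h (by simpa using hi)

theorem nr_eq (hp : p.Ok) (hx : WF p x) :
    nr p x = ∑ l ∈ Finset.range p.n, (dig p.w x.a l + dig p.w x.b l) + 2 * x.t := by
  have hf := hx.fit
  have h1 : ∀ l, dig p.w (x.a + x.b) l = dig p.w x.a l + dig p.w x.b l :=
    dig_add hp.w_pos fun l => by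
      have := hx.ka l
      have := hx.kb l
      nlinarith
  have h2 : x.a + x.b < 2 ^ (p.w * p.n) := lt_of_dig hp.w_pos fun l hl => by
    rw [h1, dig_of_lt hx.ha hl, dig_of_lt hx.hb hl]
  have h3 : ∑ l ∈ Finset.range p.n, dig p.w (x.a + x.b) l ≤ p.n * (2 * x.k) := by
    have h4 := Finset.sum_le_card_nsmul (Finset.range p.n) (fun l => dig p.w (x.a + x.b) l)
      (2 * x.k) fun l _ => by
        have := hx.ka l
        have := hx.kb l
        rw [h1]
        omega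
    simpa using h4
  rw [nr, dsum_eq h2 (by nlinarith)]
  simp only [h1]

theorem lcv_conds_K3 (h : (lcv p x y).ok = true) : x.ok = true ∧ y.ok = true ∧
    4 * (p.n + 1) * ((lcv p x y).k + 1) < 2 ^ p.w ∧
    (nr p x * y.k + 1) * 2 ^ (p.g + 30) < 2 ^ p.w ∧ nr p x * nr p y + 1 < 2 ^ p.w := by
  have h1 : (x.ok && y.ok && fit p (lcv p x y).k
      && Nat.blt ((nr p x * y.k + 1) <<< (p.g + 30)) (1 <<< p.w)
      && Nat.blt (nr p x * nr p y + 1) (1 <<< p.w)) = true := h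
  simp only [Bool.and_eq_true, fit, Nat.blt_eq, Nat.shiftLeft_eq, one_mul] at h1
  exact ⟨h1.1.1.1.1, h1.1.1.1.2, h1.1.1.2, h1.1.2, h1.2⟩

theorem lcv_ok (h : (lcv p x y).ok = true) : x.ok = true ∧ y.ok = true := by
  exact ⟨(lcv_conds_K3 h).1, (lcv_conds_K3 h).2.1⟩

theorem lcv_wf (hp : p.Ok) (h : (lcv p x y).ok = true) : WF p (lcv p x y) := by
  have hr : ∀ N, rnd p.w p.n (p.F + p.g + 27) N < 2 ^ (p.w * p.n) := fun N =>
    lt_of_dig hp.w_pos fun l hl => by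
      rw [dig_rnd (by omega) hp.2.2.2, if_neg (by omega)]
  exact ⟨hr _, hr _, fun l => le_orf_left _ _ _ _ l, fun l => le_orf_right _ _ _ _ l,
    (lcv_conds_K3 h).2.2.1⟩

theorem cn_le_K3 {w n N M k : ℕ} (h : N < 2 ^ (w * n)) (hM : ∀ l, dig w M l ≤ k) (l : ℕ) :
    cn w N M l ≤ (∑ i ∈ Finset.range n, dig w N i) * k := by
  refine le_trans ?_ (Nat.mul_le_mul_right k (sum_le_K3 h (l + 1)))
  rw [cn, Finset.sum_mul]
  exact Finset.sum_le_sum fun i _ => Nat.mul_le_mul_left _ (hM _)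

theorem cn_sum_K3 {w n N M : ℕ} (h : N < 2 ^ (w * n)) (hM : M < 2 ^ (w * n)) (m : ℕ) :
    ∑ l ∈ Finset.range m, cn w N M l ≤
      (∑ i ∈ Finset.range n, dig w N i) * ∑ i ∈ Finset.range n, dig w M i := by
  refine le_trans ?_ (Nat.mul_le_mul_right _ (sum_le_K3 h m))
  simp only [cn]
  rw [Finset.sum_range_diag_flip m fun i j => dig w N i * dig w M j, Finset.sum_mul]
  refine Finset.sum_le_sum fun i _ => ?_
  rw [← Finset.mul_sum]
  exact Nat.mul_le_mul_left _ (sum_le_K3 hM _)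

/-- The digits of the three products, with bounds. -/
theorem pqr_K3 (hp : p.Ok) (hx : WF p x) (hy : WF p y) (h : (lcv p x y).ok = true)
    {P Q R : ℕ → ℕ} (hP : P = cn p.w x.a y.a) (hQ : Q = cn p.w x.a y.b + cn p.w x.b y.a)
    (hR : R = cn p.w x.b y.b) :
    (∀ l, dig p.w (x.a * y.a) l = P l ∧ P l ≤ nr p x * y.k) ∧
    (∀ l, dig p.w (x.a * y.b + x.b * y.a) l = Q l ∧ Q l ≤ nr p x * y.k) ∧
    (∀ l, dig p.w (x.b * y.b) l = R l ∧ R l ≤ nr p x * y.k) := by
  have h1 := (lcv_conds_K3 h).2.2.2.1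
  have h2 : nr p x * y.k < 2 ^ p.w :=
    lt_of_le_of_lt ((Nat.le_succ _).trans (Nat.le_mul_of_pos_right _ (by positivity))) h1
  have h3 := nr_eq hp hx
  rw [Finset.sum_add_distrib] at h3
  have h4 : (∑ i ∈ Finset.range p.n, dig p.w x.a i) * y.k +
      (∑ i ∈ Finset.range p.n, dig p.w x.b i) * y.k ≤ nr p x * y.k := by
    rw [← add_mul]
    exact Nat.mul_le_mul_right _ (by omega)
  have a1 := cn_le_K3 hx.ha hy.ka
  have a2 := cn_le_K3 hx.ha hy.kb
  have a3 := cn_le_K3 hx.hb hy.ka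
  have a4 := cn_le_K3 hx.hb hy.kb
  have b1 : ∀ l, dig p.w (x.a * y.a) l = cn p.w x.a y.a l :=
    dig_mul hp.w_pos fun l => lt_of_le_of_lt (a1 l) (by omega)
  have b2 : ∀ l, dig p.w (x.a * y.b) l = cn p.w x.a y.b l :=
    dig_mul hp.w_pos fun l => lt_of_le_of_lt (a2 l) (by omega)
  have b3 : ∀ l, dig p.w (x.b * y.a) l = cn p.w x.b y.a l :=
    dig_mul hp.w_pos fun l => lt_of_le_of_lt (a3 l) (by omega)
  have b4 : ∀ l, dig p.w (x.b * y.b) l = cn p.w x.b y.b l :=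
    dig_mul hp.w_pos fun l => lt_of_le_of_lt (a4 l) (by omega)
  subst hP hQ hR
  refine ⟨fun l => ⟨b1 l, (a1 l).trans (by omega)⟩, fun l => ⟨?_, ?_⟩,
    fun l => ⟨b4 l, (a4 l).trans (by omega)⟩⟩
  · rw [dig_add hp.w_pos fun l => ?_, b2, b3, Pi.add_apply]
    have := a2 l
    have := a3 l
    rw [b2, b3]
    omega
  · have := a2 l
    have := a3 l
    rw [Pi.add_apply]
    omega

/-- The digits of `N` are `v` below `n`, bounded by `c * E`, and vanish from `n` on. -/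
def DB_K3 (w n E N c : ℕ) (v : ℕ → ℕ) : Prop :=
  ∀ l, dig w N l = (if l < n then v l else 0) ∧ v l ≤ c * E

section
variable {w n E N M c d : ℕ} {v v' : ℕ → ℕ}

theorem DB_K3.le (h : DB_K3 w n E N c v) (l : ℕ) : dig w N l ≤ c * E := by
  rw [(h l).1]
  split_ifs
  · exact (h l).2
  · exact Nat.zero_le _

theorem lt_K3 (hw : 0 < w) (hE : 2 ^ 30 * E < 2 ^ w) (hc : c ≤ 2 ^ 29) : c * E < 2 ^ (w - 1) := by
  have h1 : 2 ^ w = 2 * 2 ^ (w - 1) := by
    rw [← pow_succ', Nat.sub_add_cancel hw]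
  have h2 := Nat.mul_le_mul_right E hc
  omega

theorem lt'_K3 (hE : 2 ^ 30 * E < 2 ^ w) (hc : c ≤ 2 ^ 29) : c * E < 2 ^ w := by
  have h2 := Nat.mul_le_mul_right E hc
  omega

theorem DB_K3.add (hw : 0 < w) (hE : 2 ^ 30 * E < 2 ^ w) (h : DB_K3 w n E N c v)
    (h' : DB_K3 w n E M d v') (hc : c + d ≤ 2 ^ 29) :
    DB_K3 w n E (N + M) (c + d) fun l => v l + v' l := fun l => by
  refine ⟨?_, by rw [add_mul]; exact add_le_add (h l).2 (h' l).2⟩
  rw [dig_add hw fun l => lt_of_le_of_lt (add_le_add (h.le l) (h'.le l))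
    (by rw [← add_mul]; exact lt'_K3 hE hc), (h l).1, (h' l).1]
  split_ifs <;> rfl

theorem DB_K3.smul (hw : 0 < w) (hE : 2 ^ 30 * E < 2 ^ w) (a : ℕ) (h : DB_K3 w n E N c v)
    (hc : a * c ≤ 2 ^ 29) : DB_K3 w n E (a * N) (a * c) fun l => a * v l := fun l => by
  refine ⟨?_, by rw [mul_assoc]; exact Nat.mul_le_mul_left a (h l).2⟩
  rw [dig_smul hw fun l => lt_of_le_of_lt (Nat.mul_le_mul_left a (h.le l))
    (by rw [← mul_assoc]; exact lt'_K3 hE hc), (h l).1]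
  split_ifs <;> rfl

theorem DB_K3.monus (hw : 0 < w) (hE : 2 ^ 30 * E < 2 ^ w) (h : DB_K3 w n E N c v)
    (h' : DB_K3 w n E M d v') (hc : c ≤ 2 ^ 29) (hd : d ≤ 2 ^ 29) :
    DB_K3 w n E (monus w n N M) c fun l => v l - v' l := fun l => by
  refine ⟨?_, (Nat.sub_le _ _).trans (h l).2⟩
  rw [dig_monus hw (fun l => (h.le l).trans_lt (lt_K3 hw hE hc))
    (fun l => (h'.le l).trans_lt (lt_K3 hw hE hd))
    (fun l hl => by rw [(h l).1, if_neg (by omega)])
    (fun l hl => by rw [(h' l).1, if_neg (by omega)]), (h l).1, (h' l).1]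
  split_ifs <;> rfl

theorem one_K3 {g K : ℕ} (hw : 0 < w) (hE : 2 ^ 30 * (2 ^ g * K) < 2 ^ w)
    (h : ∀ l, dig w N l = v l ∧ v l ≤ K) :
    DB_K3 w n (2 ^ g * K) (low w n N <<< g) 1 fun l => 2 ^ g * v l := fun l => by
  have h1 : ∀ l, 2 ^ g * v l ≤ 2 ^ g * K := fun l => Nat.mul_le_mul_left _ (h l).2
  refine ⟨?_, by rw [one_mul]; exact h1 l⟩
  rw [Nat.shiftLeft_eq, mul_comm, dig_smul hw fun l => ?_, dig_low, (h l).1]
  · split_ifs <;> rfl
  · have := h1 l
    rw [dig_low, (h l).1]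
    split_ifs <;> omega

theorem two_K3 {g K u : ℕ} (hw : 0 < w) (hE : 2 ^ 30 * (2 ^ g * K) < 2 ^ w) (hu : u ≤ 2 * 2 ^ g)
    (hn : 1 ≤ n) (h : ∀ l, dig w N l = v l ∧ v l ≤ K) :
    DB_K3 w n (2 ^ g * K) ((u * low w (n - 1) N) <<< w) 2 (shn u v) := fun l => by
  have h1 : ∀ l, u * v l ≤ 2 * (2 ^ g * K) := fun l => by
    rw [← mul_assoc]
    exact Nat.mul_le_mul hu (h l).2
  have h2 := dig_shl w (u * low w (n - 1) N) 1 l
  rw [mul_one] at h2
  rw [h2]
  cases l with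
  | zero => simp [shn]
  | succ l =>
    refine ⟨?_, h1 l⟩
    rw [if_pos (by omega), Nat.add_sub_cancel, dig_smul hw fun l => ?_, dig_low, (h l).1]
    · by_cases h3 : l < n - 1
      · rw [if_pos h3, if_pos (by omega)]
        rfl
      · rw [if_neg h3, if_neg (by omega)]
        rfl
    · have := h1 l
      rw [dig_low, (h l).1]
      split_ifs <;> omega

end

theorem lcv_dig (hp : p.Ok) (hx : WF p x) (hy : WF p y) (h : (lcv p x y).ok = true)
    {P Q R : ℕ → ℕ} (hP : P = cn p.w x.a y.a) (hQ : Q = cn p.w x.a y.b + cn p.w x.b y.a)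
    (hR : R = cn p.w x.b y.b) {l : ℕ} (hl : l < p.n) :
    dig p.w (lcv p x y).a l = 5592406 * (4 * (shn p.u P l + 2 * shn p.u Q l + shn p.u R l) +
      (5 * (2 ^ p.g * P l) + 4 * shn p.u R l - (2 * (2 ^ p.g * Q l) + 2 ^ p.g * R l +
        2 * shn p.u P l + shn p.u Q l))) / 2 ^ (p.F + p.g + 27) + 1 ∧
    dig p.w (lcv p x y).b l = 5592406 * (4 * (2 ^ p.g * P l + 2 * (2 ^ p.g * Q l) + 2 ^ p.g * R l) +
      (4 * (2 ^ p.g * P l) + 5 * shn p.u R l - (2 ^ p.g * Q l + 2 * (2 ^ p.g * R l) +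
        shn p.u P l + 2 * shn p.u Q l))) / 2 ^ (p.F + p.g + 27) + 1 := by
  obtain ⟨kP, kQ, kR⟩ := pqr_K3 hp hx hy h hP hQ hR
  have hw := hp.w_pos
  have hE : 2 ^ 30 * (2 ^ p.g * (nr p x * y.k)) < 2 ^ p.w := by
    refine lt_of_le_of_lt ?_ (lcv_conds_K3 h).2.2.2.1
    rw [pow_add, add_mul]
    exact le_trans (le_of_eq (by ring)) (Nat.le_add_right _ _)
  have P1 := one_K3 (n := p.n) hw hE kP
  have Q1 := one_K3 (n := p.n) hw hE kQ
  have S1 := one_K3 (n := p.n) hw hE kR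
  have P2 := two_K3 hw hE hp.2.1 hp.2.2.1 kP
  have Q2 := two_K3 hw hE hp.2.1 hp.2.2.1 kQ
  have S2 := two_K3 hw hE hp.2.1 hp.2.2.1 kR
  have X0 := ((((P2.add hw hE (Q2.smul hw hE 2 (by norm_num)) (by norm_num)).add hw hE S2
    (by norm_num)).smul hw hE 4 (by norm_num)).add hw hE
    (((P1.smul hw hE 5 (by norm_num)).add hw hE (S2.smul hw hE 4 (by norm_num))
      (by norm_num)).monus hw hE ((((Q1.smul hw hE 2 (by norm_num)).add hw hE S1
        (by norm_num)).add hw hE (P2.smul hw hE 2 (by norm_num)) (by norm_num)).add hw hE Q2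
        (by norm_num)) (by norm_num) (by norm_num)) (by norm_num)).smul hw hE 5592406
    (by norm_num)
  have X1 := ((((P1.add hw hE (Q1.smul hw hE 2 (by norm_num)) (by norm_num)).add hw hE S1
    (by norm_num)).smul hw hE 4 (by norm_num)).add hw hE
    (((P1.smul hw hE 4 (by norm_num)).add hw hE (S2.smul hw hE 5 (by norm_num))
      (by norm_num)).monus hw hE (((Q1.add hw hE (S1.smul hw hE 2 (by norm_num))
        (by norm_num)).add hw hE P2 (by norm_num)).add hw hE (Q2.smul hw hE 2 (by norm_num))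
        (by norm_num)) (by norm_num) (by norm_num)) (by norm_num)).smul hw hE 5592406
    (by norm_num)
  constructor
  · refine (dig_rnd (by omega) hp.2.2.2 p.n _ l).trans ?_
    rw [if_pos hl, (X0 l).1, if_pos hl]
  · refine (dig_rnd (by omega) hp.2.2.2 p.n _ l).trans ?_
    rw [if_pos hl, (X1 l).1, if_pos hl]

theorem lcv_high (hp : p.Ok) (hx : WF p x) (hy : WF p y) (h : (lcv p x y).ok = true)
    {P Q R : ℕ → ℕ} (hP : P = cn p.w x.a y.a) (hQ : Q = cn p.w x.a y.b + cn p.w x.b y.a)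
    (hR : R = cn p.w x.b y.b) : ∃ Hs Hm : ℕ,
      (∀ m, ∑ l ∈ Finset.range m, (P (p.n - 1 + l) + Q (p.n - 1 + l) + R (p.n - 1 + l)) ≤ Hs) ∧
      (∀ l, P (p.n - 1 + l) + Q (p.n - 1 + l) + R (p.n - 1 + l) ≤ Hm) ∧
      (lcv p x y).t = p.u * (x.t * nr p y + nr p x * y.t + 2 * Hs) / 2 ^ (p.F + p.g + 1) + 1 ∧
      (lcv p x y).s = p.u * (x.s * nr p y + nr p x * y.s + 2 * Hm) / 2 ^ (p.F + p.g + 1) + 1 := by
  obtain ⟨kP, kQ, kR⟩ := pqr_K3 hp hx hy h hP hQ hR
  have hw := hp.w_pos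
  have hE : 2 ^ 30 * (nr p x * y.k) < 2 ^ p.w := by
    refine lt_of_le_of_lt ?_ (lcv_conds_K3 h).2.2.2.1
    rw [mul_comm]
    exact Nat.mul_le_mul (Nat.le_succ _) (Nat.pow_le_pow_right two_pos (by omega))
  have h1 : ∀ l, dig p.w (x.a * y.a + (x.a * y.b + x.b * y.a)) l = P l + Q l := fun l => by
    rw [dig_add hw fun l => ?_, (kP l).1, (kQ l).1]
    have := (kP l).2
    have := (kQ l).2
    rw [(kP l).1, (kQ l).1]
    omega
  have h2 : ∀ l, dig p.w ((x.a * y.a + (x.a * y.b + x.b * y.a) + x.b * y.b) >>>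
      (p.w * (p.n - 1))) l = P (p.n - 1 + l) + Q (p.n - 1 + l) + R (p.n - 1 + l) := fun l => by
    rw [dig_shr, dig_add hw fun l => ?_, h1, (kR _).1]
    have := (kP l).2
    have := (kQ l).2
    have := (kR l).2
    rw [h1, (kR l).1]
    omega
  have h3 : ∀ m, ∑ l ∈ Finset.range m, (P l + Q l + R l) ≤ nr p x * nr p y := fun m => by
    have a1 := cn_sum_K3 hx.ha hy.ha m
    have a2 := cn_sum_K3 hx.ha hy.hb m
    have a3 := cn_sum_K3 hx.hb hy.ha m
    have a4 := cn_sum_K3 hx.hb hy.hb m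
    have a5 := nr_eq hp hx
    have a6 := nr_eq hp hy
    rw [Finset.sum_add_distrib] at a5 a6
    subst hP hQ hR
    simp only [Pi.add_apply, Finset.sum_add_distrib]
    refine le_trans ?_ (Nat.mul_le_mul (Nat.le.intro a5.symm) (Nat.le.intro a6.symm))
    rw [add_mul, mul_add, mul_add]
    omega
  generalize hH : (x.a * y.a + (x.a * y.b + x.b * y.a) + x.b * y.b) >>> (p.w * (p.n - 1)) = H
    at h2
  refine ⟨dsum p.w H, orf p.w (p.k + 1) H, fun m => ?_, fun l => h2 l ▸ le_orf _ _ _ l, ?_, ?_⟩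
  · have h4 : H < 2 ^ (p.w * (H + m)) := big_K1 hw (Nat.le_add_right _ _)
    rw [dsum_eq h4 (lt_of_le_of_lt (Nat.succ_le_succ ?_) (lcv_conds_K3 h).2.2.2.2)]
    · simp only [h2]
      exact Finset.sum_le_sum_of_subset (Finset.range_mono (Nat.le_add_left _ _))
    · refine le_trans ?_ (h3 (p.n - 1 + (H + m)))
      rw [Finset.sum_range_add (fun l => P l + Q l + R l)]
      simp only [h2]
      exact Nat.le_add_left _ _
  · rw [← hH, ← Nat.shiftRight_eq_div_pow]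
    rfl
  · rw [← hH, ← Nat.shiftRight_eq_div_pow]
    rfl

end Pool.Agent.P.SM
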