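import Pool.Agent.P.MP_411dac_pr.A0

/-!
Tilted bounds.
Hints. wt (u + v) ≤ ofReal μ * wt u * wt v for u, v ≥ 0 since ⌊u + v⌋₊ ≤ ⌊u⌋₊ + ⌊v⌋₊ + 1. `lint_lc`.
`RRep.env`: the m-th iterate of the majorants has mass ≤ θ ^ m * Nz and supremum ≤ θ ^ m * Kz,
θ = μ * Nq; the sum R satisfies Tl μ 0 τ σ R; split R at n.
-/

set_option autoImplicit false
set_option linter.unusedVariables false

noncomputable section

namespace Pool.Agent.P.SM

open MeasureTheory ProbabilityTheory Set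
open scoped ENNReal

variable {μ τ σ τ' σ' N K : ℝ} {n n' : ℕ} {a b : ℕ → ℝ} {f g g' : ℝ → ℝ≥0∞}

theorem Tl.mono (h : Tl μ n τ σ g) (hn : n' ≤ n) (hτ : τ ≤ τ') (hσ : σ ≤ σ') : Tl μ n' τ' σ' g := by
  refine ⟨h.meas, fun x hx => h.zero x (lt_of_lt_of_le hx (by exact_mod_cast hn)), ?_, ?_⟩
  · exact h.mass.trans (ENNReal.ofReal_le_ofReal hτ)
  · exact fun x => (h.sup x).trans (ENNReal.ofReal_le_ofReal hσ)

theorem Tl.add (h : Tl μ n τ σ g) (h' : Tl μ n τ' σ' g') (hτ : 0 ≤ τ) (hτ' : 0 ≤ τ') (hσ : 0 ≤ σ)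
    (hσ' : 0 ≤ σ') : Tl μ n (τ + τ') (σ + σ') (g + g') := by
  refine ⟨h.meas.add h'.meas, fun x hx => ?_, ?_, fun x => ?_⟩
  · simp [h.zero x hx, h'.zero x hx]
  · have e : ∀ x, wt μ x * (g + g') x = wt μ x * g x + wt μ x * g' x := fun x => by
      simp [mul_add]
    have m1 : Measurable fun x => wt μ x * g x := (measurable_wt μ).mul h.meas
    simp_rw [e]
    rw [lintegral_add_left m1, ENNReal.ofReal_add hτ hτ']
    exact add_le_add h.mass h'.mass
  · rw [Pi.add_apply, mul_add, ENNReal.ofReal_add hσ hσ']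
    exact add_le_add (h.sup x) (h'.sup x)

theorem Tl.nil (μ : ℝ) (n : ℕ) : Tl μ n 0 0 0 := by
  refine ⟨measurable_const, fun x hx => rfl, ?_, fun x => ?_⟩ <;> simp

theorem wt_add_S2 (hμ : 1 ≤ μ) (u v : ℝ) :
    wt μ (u + v) ≤ ENNReal.ofReal μ * (wt μ u * wt μ v) := by
  have h0 : 0 ≤ μ := zero_le_one.trans hμ
  have hf : ⌊u + v⌋₊ < ⌊u⌋₊ + ⌊v⌋₊ + 1 + 1 := by
    rw [Nat.floor_lt' (Nat.succ_ne_zero _)]
    have h1 := Nat.lt_floor_add_one u
    have h2 := Nat.lt_floor_add_one v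
    push_cast
    linarith
  unfold wt
  rw [← ENNReal.ofReal_mul (pow_nonneg h0 _), ← ENNReal.ofReal_mul h0]
  apply ENNReal.ofReal_le_ofReal
  rw [← pow_add, ← pow_succ']
  exact pow_le_pow_right₀ hμ (by omega)

theorem Tl.conv (hμ : 1 ≤ μ) (h : Tl μ n τ σ g) (h' : Tl μ 0 N K g') (hτ : 0 ≤ τ) (hσ : 0 ≤ σ) :
    Tl μ n (μ * (τ * N)) (μ * (σ * N)) (g ⋆ₗ g') := by
  have h0 : 0 ≤ μ := zero_le_one.trans hμ
  have m1 : Measurable fun x => wt μ x * g x := (measurable_wt μ).mul h.meas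
  have m2 : Measurable fun x => wt μ x * g' x := (measurable_wt μ).mul h'.meas
  refine ⟨measurable_lconvolution _ h.meas h'.meas, fun x hx => ?_, ?_, fun x => ?_⟩
  · rw [lconvolution_def]
    have e : ∀ y, g y * g' (-y + x) = 0 := fun y => by
      rcases lt_or_ge y n with hy | hy
      · simp [h.zero y hy]
      · rw [h'.zero (-y + x) (by push_cast; linarith), mul_zero]
    simp [e]
  · rw [lint_lc (measurable_wt μ) h.meas h'.meas, ENNReal.ofReal_mul h0, ENNReal.ofReal_mul hτ]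
    calc ∫⁻ u, ∫⁻ v, wt μ (u + v) * (g u * g' v)
        ≤ ∫⁻ u, ∫⁻ v, ENNReal.ofReal μ * (wt μ u * g u) * (wt μ v * g' v) := by
          refine lintegral_mono fun u => lintegral_mono fun v => ?_
          calc wt μ (u + v) * (g u * g' v)
              ≤ ENNReal.ofReal μ * (wt μ u * wt μ v) * (g u * g' v) := by
                gcongr
                exact wt_add_S2 hμ u v
            _ = _ := by ring
      _ = ∫⁻ u, ENNReal.ofReal μ * (wt μ u * g u) * ∫⁻ v, wt μ v * g' v := by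
          refine lintegral_congr fun u => ?_
          rw [lintegral_const_mul _ m2]
      _ = ENNReal.ofReal μ * ((∫⁻ u, wt μ u * g u) * ∫⁻ v, wt μ v * g' v) := by
          rw [lintegral_mul_const _ (m1.const_mul _), lintegral_const_mul _ m1, mul_assoc]
      _ ≤ _ := by
          gcongr
          · exact h.mass
          · exact h'.mass
  · have m3 : Measurable fun y => g y * g' (-y + x) :=
      h.meas.mul (h'.meas.comp (measurable_neg.add_const x))
    have m4 : Measurable fun y => wt μ (-y + x) * g' (-y + x) :=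
      m2.comp (measurable_neg.add_const x)
    rw [lconvolution_def, ← lintegral_const_mul _ m3, ENNReal.ofReal_mul h0,
      ENNReal.ofReal_mul hσ]
    calc ∫⁻ y, wt μ x * (g y * g' (-y + x))
        ≤ ∫⁻ y, ENNReal.ofReal μ * ENNReal.ofReal σ * (wt μ (-y + x) * g' (-y + x)) := by
          refine lintegral_mono fun y => ?_
          have e : wt μ x = wt μ (y + (-y + x)) := by congr 1; ring
          calc wt μ x * (g y * g' (-y + x))
              ≤ ENNReal.ofReal μ * (wt μ y * wt μ (-y + x)) * (g y * g' (-y + x)) := by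
                gcongr
                rw [e]
                exact wt_add_S2 hμ _ _
            _ = ENNReal.ofReal μ * (wt μ y * g y) * (wt μ (-y + x) * g' (-y + x)) := by ring
            _ ≤ _ := by
                gcongr
                exact h.sup y
      _ = ENNReal.ofReal μ * ENNReal.ofReal σ * ∫⁻ y, wt μ y * g' y := by
          rw [lintegral_const_mul _ m4]
          congr 1
          have e := lintegral_sub_left_eq_self (μ := volume) (fun y => wt μ y * g' y) x
          simpa only [sub_eq_neg_add] using e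
      _ ≤ _ := by
          rw [mul_assoc]
          gcongr
          exact h'.mass

theorem wt_pl_S2 (hμ : 1 ≤ μ) (a b : ℕ → ℝ) (l : ℕ) {y : ℝ} (h0 : 0 ≤ y) (h1 : y < 1) :
    wt μ (l + y) * pl μ a b (l + y) = ENNReal.ofReal (a l * (1 - y) + b l * y) := by
  have hp : 0 < μ ^ l := pow_pos (zero_lt_one.trans_le hμ) l
  rw [wt_cell μ l h0 h1, pl_cell μ a b l h0 h1, ← ENNReal.ofReal_mul hp.le]
  congr 1
  field_simp

theorem lin_S2 {α β : ℝ} (hα : 0 ≤ α) (hβ : 0 ≤ β) :
    ∫⁻ y in Ico (0 : ℝ) 1, ENNReal.ofReal (α * (1 - y) + β * y) =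
      ENNReal.ofReal ((α + β) / 2) := by
  have hc : Continuous fun y : ℝ => α * (1 - y) + β * y := by fun_prop
  have hi : IntegrableOn (fun y : ℝ => α * (1 - y) + β * y) (Ico 0 1) :=
    (hc.integrableOn_Icc (a := 0) (b := 1)).mono_set Ico_subset_Icc_self
  rw [← ofReal_integral_eq_lintegral_ofReal hi]
  · congr 1
    rw [integral_Ico_eq_integral_Ioc, ← intervalIntegral.integral_of_le zero_le_one]
    have e : ∀ y : ℝ, α * (1 - y) + β * y = α + (β - α) * y := fun y => by ring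
    simp_rw [e]
    rw [intervalIntegral.integral_add (by simp) (by
      exact (continuous_const.mul continuous_id).intervalIntegrable _ _),
      intervalIntegral.integral_const_mul, integral_id]
    simp
    ring
  · filter_upwards [ae_restrict_mem measurableSet_Ico] with y hy
    have h1 := hy.1
    have h2 := hy.2.le
    have h3 : 0 ≤ 1 - y := by linarith
    show (0 : ℝ) ≤ α * (1 - y) + β * y
    positivity

theorem pl_neg_S2 (μ : ℝ) (a b : ℕ → ℝ) {x : ℝ} (hx : x < 0) : pl μ a b x = 0 := by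
  unfold pl
  rw [if_neg (not_le.mpr hx)]

theorem pl_tl (hμ : 1 ≤ μ) (ha : ∀ l, 0 ≤ a l) (hb : ∀ l, 0 ≤ b l) (an : ∀ l, n ≤ l → a l = 0)
    (bn : ∀ l, n ≤ l → b l = 0) (hka : ∀ l, a l ≤ K) (hkb : ∀ l, b l ≤ K) :
    Tl μ 0 (∑ l ∈ Finset.range n, (a l + b l) / 2) K (pl μ a b) := by
  refine ⟨measurable_pl μ a b, fun x hx => pl_neg_S2 μ a b (by simpa using hx), ?_, fun x => ?_⟩
  · rw [lint_cells (f := fun x => wt μ x * pl μ a b x)
      ((measurable_wt μ).mul (measurable_pl μ a b))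
      (fun x hx => by simp only [pl_neg_S2 μ a b hx, mul_zero])]
    have e : ∀ l : ℕ, ∫⁻ y in Ico (0 : ℝ) 1, wt μ (l + y) * pl μ a b (l + y) =
        ENNReal.ofReal ((a l + b l) / 2) := fun l => by
      rw [← lin_S2 (ha l) (hb l)]
      refine setLIntegral_congr_fun measurableSet_Ico fun y hy => ?_
      exact wt_pl_S2 hμ a b l hy.1 hy.2
    simp only [e]
    rw [tsum_eq_sum (s := Finset.range n), ENNReal.ofReal_sum_of_nonneg]
    · intro l _
      have h1 := ha l
      have h2 := hb l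
      positivity
    · intro l hl
      have hl' : n ≤ l := by simpa using hl
      simp [an l hl', bn l hl']
  · rcases lt_or_ge x 0 with hx | hx
    · simp [pl_neg_S2 μ a b hx]
    · obtain ⟨l, y, h0, h1, rfl⟩ := exists_cell hx
      rw [wt_pl_S2 hμ a b l h0 h1]
      apply ENNReal.ofReal_le_ofReal
      have h2 := mul_le_mul_of_nonneg_right (hka l) (sub_nonneg.mpr h1.le)
      have h3 := mul_le_mul_of_nonneg_right (hkb l) h0
      linarith

theorem RRep.tb (h : RRep μ n a b τ σ f) (hka : ∀ l, a l ≤ K) (hkb : ∀ l, b l ≤ K) :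
    TB μ (∑ l ∈ Finset.range n, (a l + b l) / 2 + τ) (K + σ) f := by
  obtain ⟨g, hg, hf⟩ := h.ex
  have hK : 0 ≤ K := (h.a0 0).trans (hka 0)
  have hs : 0 ≤ ∑ l ∈ Finset.range n, (a l + b l) / 2 := Finset.sum_nonneg fun l _ => by
    have h1 := h.a0 l
    have h2 := h.b0 l
    positivity
  exact ⟨pl μ a b + g, (pl_tl h.one h.a0 h.b0 h.an h.bn hka hkb).add
    (hg.mono (Nat.zero_le n) le_rfl le_rfl) hs h.t0 hK h.s0, fun x => hf x⟩

theorem it_tl_S2 {Nq Kq Nz Kz : ℝ} {q z : ℝ → ℝ≥0∞} (hμ : 1 ≤ μ) (hq : Tl μ 0 Nq Kq q)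
    (hz : Tl μ 0 Nz Kz z) (hNq : 0 ≤ Nq) (hNz : 0 ≤ Nz) (hKz : 0 ≤ Kz) (m : ℕ) :
    Tl μ 0 ((μ * Nq) ^ m * Nz) ((μ * Nq) ^ m * Kz) (it q z m) := by
  have h0 : 0 ≤ μ := zero_le_one.trans hμ
  induction m with
  | zero => simpa [it] using hz
  | succ m ih =>
    have e : it q z (m + 1) = it q z m ⋆ₗ q := lc_comm _ _
    rw [e]
    exact (ih.conv hμ hq (by positivity) (by positivity)).mono le_rfl (le_of_eq (by ring))
      (le_of_eq (by ring))

theorem geo_S2 {θ c t : ℝ} (h0 : 0 ≤ θ) (h1 : θ < 1) (hc : 0 ≤ c) (ht : θ * c ≤ t * (1 - θ)) :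
    ∑' m : ℕ, ENNReal.ofReal (θ ^ (m + 1) * c) ≤ ENNReal.ofReal t := by
  have hs : HasSum (fun m : ℕ => θ ^ (m + 1) * c) ((1 - θ)⁻¹ * (θ * c)) := by
    have h2 := (hasSum_geometric_of_lt_one h0 h1).mul_right (θ * c)
    have e : (fun m : ℕ => θ ^ (m + 1) * c) = fun m : ℕ => θ ^ m * (θ * c) := by
      funext m
      ring
    rw [e]
    exact h2
  rw [← ENNReal.ofReal_tsum_of_nonneg (fun m => by positivity) hs.summable, hs.tsum_eq]
  apply ENNReal.ofReal_le_ofReal
  rw [inv_mul_le_iff₀ (sub_pos.mpr h1)]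
  linarith

theorem RRep.env {Nq Kq Nz Kz : ℝ} {q z : ℝ → ℝ≥0∞} (n : ℕ) (hμ : 1 ≤ μ) (hq : TB μ Nq Kq q)
    (hz : TB μ Nz Kz z) (hNq : 0 ≤ Nq) (hNz : 0 ≤ Nz) (hKz : 0 ≤ Kz) (hθ : μ * Nq < 1)
    (hτ : μ * Nq * Nz ≤ τ * (1 - μ * Nq)) (hσ : μ * Nq * Kz ≤ σ * (1 - μ * Nq)) :
    RRep μ n (fun l => if l < n then σ else 0) (fun l => if l < n then σ else 0) τ σ
      fun x => ∑' m, it q z (m + 1) x := by
  obtain ⟨q', hq', hqq⟩ := hq
  obtain ⟨z', hz', hzz⟩ := hz
  have h0 : 0 ≤ μ := zero_le_one.trans hμ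
  have hθ0 : 0 ≤ μ * Nq := mul_nonneg h0 hNq
  have h1 : 0 < 1 - μ * Nq := sub_pos.mpr hθ
  have hτ0 : 0 ≤ τ := by
    by_contra hc
    have h2 := mul_neg_of_neg_of_pos (not_le.mp hc) h1
    have h3 := mul_nonneg hθ0 hNz
    linarith
  have hσ0 : 0 ≤ σ := by
    by_contra hc
    have h2 := mul_neg_of_neg_of_pos (not_le.mp hc) h1
    have h3 := mul_nonneg hθ0 hKz
    linarith
  have hi := it_tl_S2 hμ hq' hz' hNq hNz hKz
  set R : ℝ → ℝ≥0∞ := fun x => ∑' m, it q' z' (m + 1) x with hR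
  have hRm : Measurable R := Measurable.tsum fun m => (hi (m + 1)).meas
  have hRs : ∀ x, wt μ x * R x ≤ ENNReal.ofReal σ := fun x => by
    rw [hR, ← ENNReal.tsum_mul_left]
    exact (ENNReal.tsum_le_tsum fun m => (hi (m + 1)).sup x).trans (geo_S2 hθ0 hθ hKz hσ)
  have hRt : ∫⁻ x, wt μ x * R x ≤ ENNReal.ofReal τ := by
    simp only [hR, ← ENNReal.tsum_mul_left]
    have hm : ∀ m, Measurable fun x => wt μ x * it q' z' (m + 1) x := fun m =>
      (measurable_wt μ).mul (hi (m + 1)).meas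
    rw [lintegral_tsum fun m => (hm m).aemeasurable]
    exact (ENNReal.tsum_le_tsum fun m => (hi (m + 1)).mass).trans (geo_S2 hθ0 hθ hNz hτ)
  have hle : ∀ x, (Ici (n : ℝ)).indicator R x ≤ R x := fun x => indicator_le_self _ _ x
  refine ⟨hμ, fun l => ?_, fun l => ?_, fun l hl => if_neg (not_lt.mpr hl),
    fun l hl => if_neg (not_lt.mpr hl), hτ0, hσ0, (Ici (n : ℝ)).indicator R,
    ⟨hRm.indicator measurableSet_Ici, fun x hx => indicator_of_notMem (by simpa using hx) _,
      ?_, fun x => ?_⟩, fun x => ?_⟩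
  · split_ifs
    · exact hσ0
    · exact le_rfl
  · split_ifs
    · exact hσ0
    · exact le_rfl
  · refine le_trans (lintegral_mono fun x => ?_) hRt
    gcongr
    exact hle x
  · refine le_trans ?_ (hRs x)
    gcongr
    exact hle x
  · refine le_trans (b := R x) (ENNReal.tsum_le_tsum fun m => it_mono hqq hzz (m + 1) x) ?_
    rcases le_or_gt (n : ℝ) x with hx | hx
    · rw [indicator_of_mem (mem_Ici.mpr hx)]
      exact le_add_self
    · refine le_trans ?_ le_self_add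
      rcases lt_or_ge x 0 with hx0 | hx0
      · have e : R x = 0 := by
          rw [hR]
          exact ENNReal.tsum_eq_zero.mpr fun m => (hi (m + 1)).zero x (by simpa using hx0)
        rw [e]
        exact zero_le
      · obtain ⟨l, y, hy0, hy1, rfl⟩ := exists_cell hx0
        have hl : l < n := by
          have h2 : (l : ℝ) < n := by linarith
          exact_mod_cast h2
        have hp : 0 < μ ^ l := pow_pos (zero_lt_one.trans_le hμ) l
        have h3 := hRs (l + y)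
        rw [wt_cell μ l hy0 hy1] at h3
        rw [pl_cell μ _ _ l hy0 hy1, if_pos hl, show σ * (1 - y) + σ * y = σ by ring,
          ENNReal.ofReal_div_of_pos hp,
          ENNReal.le_div_iff_mul_le (Or.inl (ENNReal.ofReal_pos.mpr hp).ne')
            (Or.inl ENNReal.ofReal_ne_top), mul_comm]
        exact h3

end Pool.Agent.P.SM
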