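import Pool.Agent.P.MP_411dac_pr.S1
import Pool.Agent.P.MP_411dac_pr.S2

/-!
The convolution rule.
Hints. `phi_le`: phi - (m₀ (1 - y) + m₁ y) = y (1 - y) (c₀ (1 - y) + c₁ y) and y (1 - y) ≤ 1 / 4.
`RRep.conv`: f ⋆ f' ≤ p ⋆ p' + g ⋆ (p' + g') + g' ⋆ p. Below n use `pl_conv`, `phi_le`. The part of
p ⋆ p' above n is a tail: on the cell l it is bounded by `phi_le'`, sum with `lint_cells`.
-/

set_option autoImplicit false
set_option linter.unusedVariables false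

noncomputable section

namespace Pool.Agent.P.SM

open MeasureTheory ProbabilityTheory Set
open scoped ENNReal

variable {μ : ℝ} {P Q R : ℕ → ℝ}

theorem phi_le (l : ℕ) {y α β : ℝ} (h0 : 0 ≤ y) (h1 : y ≤ 1)
    (hα : 4 * (shf μ P l + 2 * shf μ Q l + shf μ R l) + max 0 (5 * P l + 4 * shf μ R l -
      (2 * Q l + R l + 2 * shf μ P l + shf μ Q l)) ≤ 24 * α)
    (hβ : 4 * (P l + 2 * Q l + R l) + max 0 (4 * P l + 5 * shf μ R l -
      (Q l + 2 * R l + shf μ P l + 2 * shf μ Q l)) ≤ 24 * β) :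
    phi μ P Q R l y ≤ α * (1 - y) + β * y := by
  have hq : y * (1 - y) ≤ 1 / 4 := by nlinarith [sq_nonneg (y - 1 / 2)]
  have hq0 : 0 ≤ y * (1 - y) := mul_nonneg h0 (by linarith)
  unfold phi
  generalize shf μ P l = P' at *
  generalize shf μ Q l = Q' at *
  generalize shf μ R l = R' at *
  generalize P l = p at *
  generalize Q l = q at *
  generalize R l = r at *
  have a1 := le_max_left 0 (5 * p + 4 * R' - (2 * q + r + 2 * P' + Q'))
  have a2 := le_max_right 0 (5 * p + 4 * R' - (2 * q + r + 2 * P' + Q'))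
  have b1 := le_max_left 0 (4 * p + 5 * R' - (q + 2 * r + P' + 2 * Q'))
  have b2 := le_max_right 0 (4 * p + 5 * R' - (q + 2 * r + P' + 2 * Q'))
  generalize max 0 (5 * p + 4 * R' - (2 * q + r + 2 * P' + Q')) = A at *
  generalize max 0 (4 * p + 5 * R' - (q + 2 * r + P' + 2 * Q')) = B at *
  have hy' : 0 ≤ 1 - y := by linarith
  have e1 : (5 * p + 4 * R' - (2 * q + r + 2 * P' + Q')) * (1 - y) +
      (4 * p + 5 * R' - (q + 2 * r + P' + 2 * Q')) * y ≤ A * (1 - y) + B * y :=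
    add_le_add (mul_le_mul_of_nonneg_right a2 hy') (mul_le_mul_of_nonneg_right b2 h0)
  have e0 : 0 ≤ A * (1 - y) + B * y := add_nonneg (mul_nonneg a1 hy') (mul_nonneg b1 h0)
  have e2 := mul_le_mul_of_nonneg_left e1 hq0
  have e3 := mul_le_mul_of_nonneg_right hq e0
  have e4 := mul_le_mul_of_nonneg_right hα hy'
  have e5 := mul_le_mul_of_nonneg_right hβ h0
  nlinarith [e2, e3, e4, e5]

theorem phi_le' (hμ : 0 ≤ μ) (hP : ∀ l, 0 ≤ P l) (hQ : ∀ l, 0 ≤ Q l) (hR : ∀ l, 0 ≤ R l) (l : ℕ)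
    {y : ℝ} (h0 : 0 ≤ y) (h1 : y ≤ 1) : phi μ P Q R (l + 1) y ≤
      (P (l + 1) + Q (l + 1) + R (l + 1) + μ * (P l + Q l + R l)) / 2 := by
  have hy' : 0 ≤ 1 - y := by linarith
  have k1 : ∀ t : ℝ, 0 ≤ t → t ≤ 1 → t - t ^ 2 + t ^ 3 / 6 ≤ 1 / 2 := by
    intro t t0 t1
    have : t ^ 3 ≤ 1 := pow_le_one₀ t0 t1
    nlinarith [sq_nonneg (t - 1 / 2)]
  have k2 : ∀ t : ℝ, 0 ≤ t → t ≤ 1 → t ^ 2 / 2 - t ^ 3 / 6 ≤ 1 / 2 := by
    intro t t0 t1
    have : t ^ 2 ≤ 1 := pow_le_one₀ t0 t1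
    have : 0 ≤ t ^ 3 := pow_nonneg t0 3
    linarith
  have k3 : ∀ t : ℝ, 0 ≤ t → t ≤ 1 → t ^ 3 / 6 ≤ 1 / 2 := by
    intro t t0 t1
    have : t ^ 3 ≤ 1 := pow_le_one₀ t0 t1
    linarith
  have e1 := mul_le_mul_of_nonneg_left (k1 y h0 h1) (hP (l + 1))
  have e2 := mul_le_mul_of_nonneg_left (k2 y h0 h1) (hQ (l + 1))
  have e3 := mul_le_mul_of_nonneg_left (k3 y h0 h1) (hR (l + 1))
  have e4 := mul_le_mul_of_nonneg_left (k1 (1 - y) hy' (by linarith)) (mul_nonneg hμ (hR l))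
  have e5 := mul_le_mul_of_nonneg_left (k2 (1 - y) hy' (by linarith)) (mul_nonneg hμ (hQ l))
  have e6 := mul_le_mul_of_nonneg_left (k3 (1 - y) hy' (by linarith)) (mul_nonneg hμ (hP l))
  simp only [phi, shf]
  linarith

theorem cv_nonneg_S3 {a b : ℕ → ℝ} (ha : ∀ l, 0 ≤ a l) (hb : ∀ l, 0 ≤ b l) (l : ℕ) :
    0 ≤ cv a b l :=
  Finset.sum_nonneg fun i _ => mul_nonneg (ha _) (hb _)

theorem shf_nonneg_S3 (hμ : 0 ≤ μ) (hP : ∀ l, 0 ≤ P l) (l : ℕ) : 0 ≤ shf μ P l := by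
  cases l with
  | zero => exact le_rfl
  | succ l => exact mul_nonneg hμ (hP l)

theorem tail_S3 {c : ℝ → ℝ≥0∞} {H : ℕ → ℝ} {k : ℕ} {Hs Hm : ℝ} (hμ : 1 ≤ μ) (hc : Measurable c)
    (hH : ∀ l, 0 ≤ H l)
    (hb : ∀ (l : ℕ) (y : ℝ), 0 ≤ y → y < 1 → c (((l + 1 : ℕ) : ℝ) + y) ≤
      ENNReal.ofReal ((H (l + 1) + μ * H l) / 2 / μ ^ (l + 1)))
    (hHs : ∀ m, ∑ l ∈ Finset.range m, H (k + l) ≤ Hs) (hHm : ∀ l, H (k + l) ≤ Hm) :
    Tl μ (k + 1) (μ * Hs) (μ * Hm) ((Ici ((k + 1 : ℕ) : ℝ)).indicator c) := by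
  have hμ0 : 0 < μ := by linarith
  have hz : ∀ x : ℝ, x < ((k + 1 : ℕ) : ℝ) → (Ici ((k + 1 : ℕ) : ℝ)).indicator c x = 0 :=
    fun x hx => indicator_of_notMem (by simpa using hx) _
  have hm : Measurable ((Ici ((k + 1 : ℕ) : ℝ)).indicator c) := hc.indicator measurableSet_Ici
  set D : ℕ → ℝ := fun l => if k + 1 ≤ l then (H l + μ * H (l - 1)) / 2 else 0 with hD
  have hD0 : ∀ l, 0 ≤ D l := by
    intro l
    simp only [hD]
    split_ifs
    · have := hH l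
      have := mul_nonneg hμ0.le (hH (l - 1))
      linarith
    · exact le_rfl
  have key : ∀ (l : ℕ) (y : ℝ), 0 ≤ y → y < 1 →
      wt μ (l + y) * (Ici ((k + 1 : ℕ) : ℝ)).indicator c (l + y) ≤ ENNReal.ofReal (D l) := by
    intro l y y0 y1
    by_cases hl : k + 1 ≤ l
    · obtain ⟨j, rfl⟩ : ∃ j, l = j + 1 := ⟨l - 1, by omega⟩
      rw [wt_cell μ _ y0 y1]
      have h1 : (Ici ((k + 1 : ℕ) : ℝ)).indicator c (((j + 1 : ℕ) : ℝ) + y) ≤
          ENNReal.ofReal ((H (j + 1) + μ * H j) / 2 / μ ^ (j + 1)) :=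
        (indicator_le_self _ _ _).trans (hb j y y0 y1)
      refine (mul_le_mul_right h1 _).trans (le_of_eq ?_)
      have hp : 0 < μ ^ (j + 1) := pow_pos hμ0 _
      rw [← ENNReal.ofReal_mul hp.le]
      congr 1
      simp only [hD, if_pos hl, Nat.add_sub_cancel]
      field_simp
    · rw [hz _ ?_, mul_zero]
      · exact zero_le
      · have : ((l + 1 : ℕ) : ℝ) ≤ ((k + 1 : ℕ) : ℝ) := by exact_mod_cast (by omega)
        push_cast at this ⊢
        linarith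
  have hk0 : (0 : ℝ) ≤ ((k + 1 : ℕ) : ℝ) := Nat.cast_nonneg _
  have hHm0 : 0 ≤ Hm := (hH _).trans (hHm 0)
  refine ⟨hm, hz, ?_, ?_⟩
  · rw [lint_cells (f := fun x => wt μ x * (Ici ((k + 1 : ℕ) : ℝ)).indicator c x)
      ((measurable_wt μ).mul hm) (fun x hx => by rw [hz x (by linarith), mul_zero])]
    have h1 : ∀ l : ℕ, ∫⁻ y in Ico (0 : ℝ) 1,
        wt μ (l + y) * (Ici ((k + 1 : ℕ) : ℝ)).indicator c (l + y) ≤ ENNReal.ofReal (D l) := by
      intro l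
      refine (setLIntegral_mono' measurableSet_Ico
        (g := fun _ => ENNReal.ofReal (D l)) fun y hy => key l y hy.1 hy.2).trans ?_
      simp
    refine (ENNReal.tsum_le_tsum h1).trans ?_
    rw [ENNReal.tsum_eq_iSup_nat]
    refine iSup_le fun m => ?_
    rw [← ENNReal.ofReal_sum_of_nonneg fun l _ => hD0 l]
    refine ENNReal.ofReal_le_ofReal ?_
    have h2 : ∑ l ∈ Finset.range m, D l ≤ ∑ l ∈ Finset.range (k + 1 + m), D l :=
      Finset.sum_le_sum_of_subset_of_nonneg (Finset.range_mono (by omega)) fun l _ _ => hD0 l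
    rw [Finset.sum_range_add] at h2
    have h3 : ∑ l ∈ Finset.range (k + 1), D l = 0 :=
      Finset.sum_eq_zero fun l hl => by
        have : ¬ k + 1 ≤ l := by simpa using hl
        simp only [hD, if_neg this]
    have h4 : ∑ l ∈ Finset.range m, D (k + 1 + l) =
        (∑ l ∈ Finset.range m, H (k + (l + 1)) + μ * ∑ l ∈ Finset.range m, H (k + l)) / 2 := by
      rw [Finset.mul_sum, ← Finset.sum_add_distrib, Finset.sum_div]
      refine Finset.sum_congr rfl fun l _ => ?_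
      have e1 : k + 1 + l - 1 = k + l := by omega
      have e2 : k + 1 + l = k + (l + 1) := by omega
      simp only [hD, if_pos (Nat.le_add_right (k + 1) l), e1]
      rw [e2]
    have h5 := hHs (m + 1)
    rw [Finset.sum_range_succ'] at h5
    have h6 := hH (k + 0)
    have h7 := mul_le_mul_of_nonneg_left (hHs m) hμ0.le
    have h8 : 0 ≤ Hs := by simpa using hHs 0
    have h9 : Hs ≤ μ * Hs := le_mul_of_one_le_left h8 hμ
    linarith
  · intro x
    by_cases hx : x < ((k + 1 : ℕ) : ℝ)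
    · rw [hz x hx, mul_zero]
      exact zero_le
    · obtain ⟨l, y, y0, y1, rfl⟩ := exists_cell (x := x) (by linarith)
      refine (key l y y0 y1).trans (ENNReal.ofReal_le_ofReal ?_)
      simp only [hD]
      have h9 : Hm ≤ μ * Hm := le_mul_of_one_le_left hHm0 hμ
      split_ifs with hl
      · have e1 := hHm (l - k)
        have e2 := hHm (l - 1 - k)
        rw [show k + (l - k) = l by omega] at e1
        rw [show k + (l - 1 - k) = l - 1 by omega] at e2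
        have := mul_le_mul_of_nonneg_left e2 hμ0.le
        linarith
      · linarith

theorem bound_S3 {n : ℕ} {a : ℕ → ℝ} (ha : ∀ l, 0 ≤ a l) (an : ∀ l, n ≤ l → a l = 0) (l : ℕ) :
    a l ≤ ∑ i ∈ Finset.range n, a i := by
  by_cases hl : l < n
  · exact Finset.single_le_sum (fun i _ => ha i) (Finset.mem_range.2 hl)
  · rw [an l (by omega)]
    exact Finset.sum_nonneg fun i _ => ha i

theorem pl_tl_S3 {n : ℕ} {a b : ℕ → ℝ} {τ σ : ℝ} {f : ℝ → ℝ≥0∞} (h : RRep μ n a b τ σ f) :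
    ∃ K, 0 ≤ K ∧ Tl μ 0 (∑ l ∈ Finset.range n, (a l + b l) / 2) K (pl μ a b) := by
  have sa : 0 ≤ ∑ i ∈ Finset.range n, a i := Finset.sum_nonneg fun i _ => h.a0 i
  have sb : 0 ≤ ∑ i ∈ Finset.range n, b i := Finset.sum_nonneg fun i _ => h.b0 i
  refine ⟨∑ i ∈ Finset.range n, a i + ∑ i ∈ Finset.range n, b i, add_nonneg sa sb,
    pl_tl h.one h.a0 h.b0 h.an h.bn (fun l => ?_) fun l => ?_⟩
  · have := bound_S3 h.a0 h.an l
    linarith
  · have := bound_S3 h.b0 h.bn l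
    linarith

theorem RRep.conv {n : ℕ} {a b a' b' α β : ℕ → ℝ} {τ σ τ' σ' τ'' σ'' N N' Hs Hm : ℝ}
    {f f' : ℝ → ℝ≥0∞} (h : RRep μ n a b τ σ f) (h' : RRep μ n a' b' τ' σ' f') (hn : 1 ≤ n)
    (hP : P = cv a a') (hQ : Q = cv a b' + cv b a') (hR : R = cv b b')
    (hα : ∀ l < n, 4 * (shf μ P l + 2 * shf μ Q l + shf μ R l) + max 0 (5 * P l + 4 * shf μ R l -
      (2 * Q l + R l + 2 * shf μ P l + shf μ Q l)) ≤ 24 * α l)
    (hβ : ∀ l < n, 4 * (P l + 2 * Q l + R l) + max 0 (4 * P l + 5 * shf μ R l -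
      (Q l + 2 * R l + shf μ P l + 2 * shf μ Q l)) ≤ 24 * β l)
    (αn : ∀ l, n ≤ l → α l = 0) (βn : ∀ l, n ≤ l → β l = 0)
    (hN : ∑ l ∈ Finset.range n, (a l + b l) / 2 + τ ≤ N)
    (hN' : ∑ l ∈ Finset.range n, (a' l + b' l) / 2 + τ' ≤ N')
    (hHs : ∀ m, ∑ l ∈ Finset.range m, (P (n - 1 + l) + Q (n - 1 + l) + R (n - 1 + l)) ≤ Hs)
    (hHm : ∀ l, P (n - 1 + l) + Q (n - 1 + l) + R (n - 1 + l) ≤ Hm)
    (hτ : μ * (τ * N' + N * τ' + Hs) ≤ τ'') (hσ : μ * (σ * N' + N * σ' + Hm) ≤ σ'') :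
    RRep μ n α β τ'' σ'' (f ⋆ₗ f') := by
  obtain ⟨k, rfl⟩ : ∃ k, n = k + 1 := ⟨n - 1, by omega⟩
  simp only [Nat.add_sub_cancel] at hHs hHm
  have hμ := h.one
  have hμ0 : 0 < μ := by linarith
  obtain ⟨g, hg, hfg⟩ := h.ex
  obtain ⟨g', hg', hfg'⟩ := h'.ex
  obtain ⟨K, K0, hK⟩ := pl_tl_S3 h
  obtain ⟨K', K0', hK'⟩ := pl_tl_S3 h'
  have P0 : ∀ l, 0 ≤ P l := hP ▸ cv_nonneg_S3 h.a0 h'.a0
  have Q0' : ∀ l, 0 ≤ Q l := fun l =>
    hQ ▸ add_nonneg (cv_nonneg_S3 h.a0 h'.b0 l) (cv_nonneg_S3 h.b0 h'.a0 l)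
  have R0 : ∀ l, 0 ≤ R l := hR ▸ cv_nonneg_S3 h.b0 h'.b0
  have s0 : 0 ≤ ∑ l ∈ Finset.range (k + 1), (a l + b l) / 2 :=
    Finset.sum_nonneg fun l _ => by have := h.a0 l; have := h.b0 l; positivity
  have s0' : 0 ≤ ∑ l ∈ Finset.range (k + 1), (a' l + b' l) / 2 :=
    Finset.sum_nonneg fun l _ => by have := h'.a0 l; have := h'.b0 l; positivity
  have t0 := h.t0
  have t0' := h'.t0
  have u0 := h.s0
  have u0' := h'.s0
  have N0 : 0 ≤ N := by linarith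
  have N0' : 0 ≤ N' := by linarith
  have Hs0 : 0 ≤ Hs := by simpa using hHs 0
  have Hm0 : 0 ≤ Hm := (add_nonneg (add_nonneg (P0 _) (Q0' _)) (R0 _)).trans (hHm 0)
  have mp := measurable_pl μ a b
  have mp' := measurable_pl μ a' b'
  have mc : Measurable (pl μ a b ⋆ₗ pl μ a' b') := measurable_lconvolution _ mp mp'
  have hc : ∀ (l : ℕ) (y : ℝ), 0 ≤ y → y < 1 → (pl μ a b ⋆ₗ pl μ a' b') (l + y) ≤
      ENNReal.ofReal (phi μ P Q R l y / μ ^ l) := by
    intro l y y0 y1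
    rw [hP, hQ, hR]
    exact pl_conv hμ0 h.a0 h.b0 h'.a0 h'.b0 l y0 y1
  have T1 : Tl μ (k + 1) (μ * (τ * N')) (μ * (σ * N')) (g ⋆ₗ (pl μ a' b' + g')) :=
    Tl.conv hμ hg ((Tl.add hK' (hg'.mono (Nat.zero_le _) le_rfl le_rfl) s0' t0' K0' u0').mono
      le_rfl hN' le_rfl) t0 u0
  have T2 : Tl μ (k + 1) (μ * (τ' * N)) (μ * (σ' * N)) (g' ⋆ₗ pl μ a b) :=
    Tl.conv hμ hg' (hK.mono le_rfl (by linarith) le_rfl) t0' u0'
  have T3 := tail_S3 (H := fun l => P l + Q l + R l) (k := k) hμ mc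
    (fun l => add_nonneg (add_nonneg (P0 _) (Q0' _)) (R0 _))
    (fun l y y0 y1 => (hc (l + 1) y y0 y1).trans (ENNReal.ofReal_le_ofReal
      (div_le_div_of_nonneg_right (phi_le' hμ0.le P0 Q0' R0 l y0 y1.le) (pow_pos hμ0 _).le)))
    hHs hHm
  have T4 := (T1.add T2 (by positivity) (by positivity) (by positivity) (by positivity)).add T3
    (by positivity) (by positivity) (by positivity) (by positivity)
  have sP := shf_nonneg_S3 hμ0.le P0
  have sQ := shf_nonneg_S3 hμ0.le Q0'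
  have sR := shf_nonneg_S3 hμ0.le R0
  refine ⟨hμ, fun l => ?_, fun l => ?_, αn, βn, le_trans (by positivity) hτ,
    le_trans (by positivity) hσ, _, T4.mono le_rfl (by linarith) (by linarith), fun x => ?_⟩
  · by_cases hl : l < k + 1
    · have e := hα l hl
      have := le_max_left 0 (5 * P l + 4 * shf μ R l -
        (2 * Q l + R l + 2 * shf μ P l + shf μ Q l))
      have := sP l
      have := sQ l
      have := sR l
      linarith
    · rw [αn l (by omega)]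
  · by_cases hl : l < k + 1
    · have e := hβ l hl
      have := le_max_left 0 (4 * P l + 5 * shf μ R l -
        (Q l + 2 * R l + shf μ P l + 2 * shf μ Q l))
      have := P0 l
      have := Q0' l
      have := R0 l
      linarith
    · rw [βn l (by omega)]
  · have e1 : f ⋆ₗ f' ≤ (pl μ a b + g) ⋆ₗ (pl μ a' b' + g') := lc_mono hfg hfg'
    rw [add_lc mp (mp'.add hg'.meas), lc_add mp mp', lc_comm (pl μ a b) g'] at e1
    refine (e1 x).trans ?_
    have e2 : (pl μ a b ⋆ₗ pl μ a' b') x ≤ pl μ α β x +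
        (Ici ((k + 1 : ℕ) : ℝ)).indicator (pl μ a b ⋆ₗ pl μ a' b') x := by
      by_cases hx : x < 0
      · rw [pl_conv_neg hx]
        exact zero_le
      by_cases hx' : ((k + 1 : ℕ) : ℝ) ≤ x
      · rw [indicator_of_mem (mem_Ici.2 hx')]
        exact le_add_self
      obtain ⟨l, y, y0, y1, rfl⟩ := exists_cell (x := x) (by linarith)
      have hl : l < k + 1 := by
        have : (l : ℝ) < ((k + 1 : ℕ) : ℝ) := by linarith
        exact_mod_cast this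
      refine le_trans ?_ le_self_add
      rw [pl_cell μ α β l y0 y1]
      exact (hc l y y0 y1).trans (ENNReal.ofReal_le_ofReal
        (div_le_div_of_nonneg_right (phi_le l y0 y1.le (hα l hl) (hβ l hl)) (pow_pos hμ0 _).le))
    simp only [Pi.add_apply]
    calc _ ≤ pl μ α β x + (Ici ((k + 1 : ℕ) : ℝ)).indicator (pl μ a b ⋆ₗ pl μ a' b') x +
          (g' ⋆ₗ pl μ a b) x + (g ⋆ₗ (pl μ a' b' + g')) x := by gcongr
      _ = _ := by ring

end Pool.Agent.P.SM
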