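import Pool.Agent.P.MP_411dac_pr.S2

/-!
Simple rules for representations. Use `exists_cell`, `pl_cell`, `wt_cell`.
-/

set_option autoImplicit false
set_option linter.unusedVariables false

noncomputable section

namespace Pool.Agent.P.SM

open MeasureTheory ProbabilityTheory Set
open scoped ENNReal

variable {μ τ σ τ' σ' : ℝ} {n : ℕ} {a b a' b' : ℕ → ℝ} {f f' : ℝ → ℝ≥0∞}

theorem pl_neg_S4 (μ : ℝ) (a b : ℕ → ℝ) {x : ℝ} (hx : x < 0) : pl μ a b x = 0 := by
  unfold pl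
  rw [if_neg (not_le.mpr hx)]

theorem mem_cl_S4 {l j : ℕ} {y : ℝ} (h0 : 0 ≤ y) (h1 : y < 1) : (l : ℝ) + y ∈ cl j ↔ l = j := by
  unfold cl
  constructor
  · rintro ⟨h2, h3⟩
    have h4 : (j : ℝ) < l + 1 := by linarith
    have h5 : (l : ℝ) < j + 1 := by linarith
    have h6 : j < l + 1 := by exact_mod_cast h4
    have h7 : l < j + 1 := by exact_mod_cast h5
    omega
  · rintro rfl
    exact ⟨by linarith, by linarith⟩

theorem le_cell_S4 {l j : ℕ} {y : ℝ} (h0 : 0 ≤ y) (h1 : y < 1) : (j : ℝ) ≤ l + y ↔ j ≤ l := by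
  constructor
  · intro h2
    have h4 : (j : ℝ) < l + 1 := by linarith
    have h6 : j < l + 1 := by exact_mod_cast h4
    omega
  · intro h2
    have h4 : (j : ℝ) ≤ l := by exact_mod_cast h2
    linarith

theorem cell_of_mem_S4 {j : ℕ} {x : ℝ} (hx : x ∈ cl j) :
    ∃ y : ℝ, 0 ≤ y ∧ y < 1 ∧ x = j + y :=
  ⟨x - j, by linarith [hx.1], by linarith [hx.2], by ring⟩

theorem cellD_cell_S4 (j : ℕ) (α β : ℝ) {y : ℝ} (h0 : 0 ≤ y) (h1 : y < 1) :
    cellD j α β (j + y) = ENNReal.ofReal (α * (1 - y) + β * y) := by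
  unfold cellD
  rw [indicator_of_mem ((mem_cl_S4 h0 h1).mpr rfl)]
  congr 1
  ring

theorem Tl.ind_S4 {g : ℝ → ℝ≥0∞} (h : Tl μ n τ σ g) (n' : ℕ) :
    Tl μ n' τ σ ((Ici (n' : ℝ)).indicator g) := by
  have hle : ∀ x, (Ici (n' : ℝ)).indicator g x ≤ g x := fun x =>
    indicator_le_self' (fun _ _ => zero_le) x
  refine ⟨h.meas.indicator measurableSet_Ici, fun x hx => ?_, ?_, fun x => ?_⟩
  · exact indicator_of_notMem (by simpa using hx) _
  · exact (lintegral_mono fun x => mul_le_mul_right (hle x) _).trans h.mass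
  · exact (mul_le_mul_right (hle x) _).trans (h.sup x)

theorem conv_le_S4 {c g : ℝ → ℝ≥0∞} {A B : ℝ≥0∞} (hm : Measurable c) (hc : ∫⁻ y, c y ≤ A)
    (hg : ∀ z, g z ≤ B) (x : ℝ) : (c ⋆ₗ g) x ≤ A * B := by
  rw [lconvolution_def]
  calc ∫⁻ y, c y * g (-y + x) ≤ ∫⁻ y, c y * B :=
        lintegral_mono fun y => mul_le_mul_right (hg _) _
    _ = (∫⁻ y, c y) * B := lintegral_mul_const _ hm
    _ ≤ A * B := mul_le_mul_left hc _

theorem RRep.le (h : RRep μ n a b τ σ f) (hf : f' ≤ f) : RRep μ n a b τ σ f' := by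
  obtain ⟨g, hg, hx⟩ := h.ex
  exact ⟨h.one, h.a0, h.b0, h.an, h.bn, h.t0, h.s0, g, hg, fun x => (hf x).trans (hx x)⟩

theorem RRep.add (h : RRep μ n a b τ σ f) (h' : RRep μ n a' b' τ' σ' f') :
    RRep μ n (fun l => a l + a' l) (fun l => b l + b' l) (τ + τ') (σ + σ') (f + f') := by
  obtain ⟨g, hg, hx⟩ := h.ex
  obtain ⟨g', hg', hx'⟩ := h'.ex
  have hμ : 0 < μ := lt_of_lt_of_le one_pos h.one
  refine ⟨h.one, fun l => add_nonneg (h.a0 l) (h'.a0 l), fun l => add_nonneg (h.b0 l) (h'.b0 l),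
    fun l hl => by rw [h.an l hl, h'.an l hl, add_zero],
    fun l hl => by rw [h.bn l hl, h'.bn l hl, add_zero], add_nonneg h.t0 h'.t0,
    add_nonneg h.s0 h'.s0, g + g', hg.add hg' h.t0 h'.t0 h.s0 h'.s0, fun x => ?_⟩
  have key : pl μ a b x + pl μ a' b' x =
      pl μ (fun l => a l + a' l) (fun l => b l + b' l) x := by
    rcases lt_or_ge x 0 with h0 | h0
    · rw [pl_neg_S4 _ _ _ h0, pl_neg_S4 _ _ _ h0, pl_neg_S4 _ _ _ h0, add_zero]
    · obtain ⟨l, y, hy0, hy1, rfl⟩ := exists_cell h0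
      have hy : 0 ≤ 1 - y := by linarith
      have h1 := h.a0 l
      have h2 := h.b0 l
      have h3 := h'.a0 l
      have h4 := h'.b0 l
      rw [pl_cell _ _ _ l hy0 hy1, pl_cell _ _ _ l hy0 hy1, pl_cell _ _ _ l hy0 hy1,
        ← ENNReal.ofReal_add (by positivity) (by positivity)]
      congr 1
      ring
  calc (f + f') x = f x + f' x := rfl
    _ ≤ (pl μ a b x + g x) + (pl μ a' b' x + g' x) := add_le_add (hx x) (hx' x)
    _ = (pl μ a b x + pl μ a' b' x) + (g x + g' x) := by ring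
    _ = _ := by rw [key]; rfl

theorem RRep.clr (h : RRep μ n a b τ σ f) (j : ℕ) : RRep μ n (fun l => if l = j then 0 else a l)
    (fun l => if l = j then 0 else b l) τ σ ((cl j)ᶜ.indicator f) := by
  obtain ⟨g, hg, hx⟩ := h.ex
  refine ⟨h.one, fun l => ?_, fun l => ?_, fun l hl => ?_, fun l hl => ?_, h.t0, h.s0, g, hg,
    fun x => ?_⟩
  · split_ifs
    · exact le_rfl
    · exact h.a0 l
  · split_ifs
    · exact le_rfl
    · exact h.b0 l
  · split_ifs
    · rfl
    · exact h.an l hl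
  · split_ifs
    · rfl
    · exact h.bn l hl
  · by_cases hm : x ∈ (cl j)ᶜ
    · rw [indicator_of_mem hm]
      refine (hx x).trans (le_of_eq ?_)
      congr 1
      rcases lt_or_ge x 0 with h0 | h0
      · rw [pl_neg_S4 _ _ _ h0, pl_neg_S4 _ _ _ h0]
      · obtain ⟨l, y, hy0, hy1, rfl⟩ := exists_cell h0
        have hl : l ≠ j := fun e => hm ((mem_cl_S4 hy0 hy1).mpr e)
        rw [pl_cell _ _ _ l hy0 hy1, pl_cell _ _ _ l hy0 hy1, if_neg hl, if_neg hl]
    · rw [indicator_of_notMem hm]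
      exact zero_le

theorem RRep.drp (h : RRep μ n a b τ σ f) (j : ℕ) : RRep μ n (fun l => if j ≤ l then a l else 0)
    (fun l => if j ≤ l then b l else 0) τ σ ((Ici (j : ℝ)).indicator f) := by
  obtain ⟨g, hg, hx⟩ := h.ex
  refine ⟨h.one, fun l => ?_, fun l => ?_, fun l hl => ?_, fun l hl => ?_, h.t0, h.s0, g, hg,
    fun x => ?_⟩
  · split_ifs
    · exact h.a0 l
    · exact le_rfl
  · split_ifs
    · exact h.b0 l
    · exact le_rfl
  · split_ifs
    · exact h.an l hl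
    · rfl
  · split_ifs
    · exact h.bn l hl
    · rfl
  · by_cases hm : x ∈ Ici (j : ℝ)
    · rw [indicator_of_mem hm]
      refine (hx x).trans (le_of_eq ?_)
      congr 1
      have h0 : 0 ≤ x := le_trans (Nat.cast_nonneg j) hm
      obtain ⟨l, y, hy0, hy1, rfl⟩ := exists_cell h0
      have hl : j ≤ l := (le_cell_S4 hy0 hy1).mp hm
      rw [pl_cell _ _ _ l hy0 hy1, pl_cell _ _ _ l hy0 hy1, if_pos hl, if_pos hl]
    · rw [indicator_of_notMem hm]
      exact zero_le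

theorem RRep.cellof (h : RRep μ n a b τ σ f) {j : ℕ} (hj : j < n) :
    (cl j).indicator f ≤ cellD j (a j / μ ^ j) (b j / μ ^ j) := by
  obtain ⟨g, hg, hx⟩ := h.ex
  intro x
  by_cases hm : x ∈ cl j
  · rw [indicator_of_mem hm]
    obtain ⟨y, hy0, hy1, rfl⟩ := cell_of_mem_S4 hm
    have hn : (j : ℝ) + 1 ≤ n := by exact_mod_cast hj
    refine (hx _).trans (le_of_eq ?_)
    rw [hg.zero _ (by linarith), add_zero, pl_cell _ _ _ j hy0 hy1, cellD_cell_S4 _ _ _ hy0 hy1]
    congr 1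
    ring
  · rw [indicator_of_notMem hm]
    exact zero_le

theorem RRep.cell {j : ℕ} {α β α' β' : ℝ} (hμ : 1 ≤ μ) (hj : j < n) (h0 : 0 ≤ α') (h0' : 0 ≤ β')
    (hα : α * μ ^ j ≤ α') (hβ : β * μ ^ j ≤ β') : RRep μ n (fun l => if l = j then α' else 0)
      (fun l => if l = j then β' else 0) 0 0 (cellD j α β) := by
  have hμ0 : 0 < μ := lt_of_lt_of_le one_pos hμ
  refine ⟨hμ, fun l => ?_, fun l => ?_, fun l hl => ?_, fun l hl => ?_, le_rfl, le_rfl, 0,
    Tl.nil μ n, fun x => ?_⟩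
  · split_ifs
    · exact h0
    · exact le_rfl
  · split_ifs
    · exact h0'
    · exact le_rfl
  · rw [if_neg (by omega)]
  · rw [if_neg (by omega)]
  · by_cases hm : x ∈ cl j
    · obtain ⟨y, hy0, hy1, rfl⟩ := cell_of_mem_S4 hm
      rw [cellD_cell_S4 _ _ _ hy0 hy1, pl_cell _ _ _ j hy0 hy1, if_pos rfl, if_pos rfl]
      refine le_trans (ENNReal.ofReal_le_ofReal ?_) le_self_add
      have hp : 0 < μ ^ j := pow_pos hμ0 j
      rw [le_div_iff₀ hp]
      have hy : 0 ≤ 1 - y := by linarith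
      nlinarith [mul_le_mul_of_nonneg_right hα hy, mul_le_mul_of_nonneg_right hβ hy0]
    · unfold cellD
      rw [indicator_of_notMem hm]
      exact zero_le

theorem RRep.cut (h : RRep μ n a b τ σ f) : RRep μ n a b 0 0 ((Iio (n : ℝ)).indicator f) := by
  obtain ⟨g, hg, hx⟩ := h.ex
  refine ⟨h.one, h.a0, h.b0, h.an, h.bn, le_rfl, le_rfl, 0, Tl.nil μ n, fun x => ?_⟩
  by_cases hm : x ∈ Iio (n : ℝ)
  · rw [indicator_of_mem hm]
    refine (hx x).trans (le_of_eq ?_)
    rw [hg.zero x hm]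
    rfl
  · rw [indicator_of_notMem hm]
    exact zero_le

theorem RRep.ext (h : RRep μ n a b τ σ f) {n' : ℕ} (hn : n ≤ n') :
    RRep μ n' (fun l => a l + if n ≤ l ∧ l < n' then σ else 0)
      (fun l => b l + if n ≤ l ∧ l < n' then σ else 0) τ σ f := by
  obtain ⟨g, hg, hx⟩ := h.ex
  have hμ : 0 < μ := lt_of_lt_of_le one_pos h.one
  have hi : ∀ l : ℕ, 0 ≤ if n ≤ l ∧ l < n' then σ else 0 := fun l => by
    split_ifs
    · exact h.s0
    · exact le_rfl
  refine ⟨h.one, fun l => add_nonneg (h.a0 l) (hi l), fun l => add_nonneg (h.b0 l) (hi l),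
    fun l hl => ?_, fun l hl => ?_, h.t0, h.s0, _, hg.ind_S4 n', fun x => ?_⟩
  · rw [h.an l (hn.trans hl), if_neg (by omega), add_zero]
  · rw [h.bn l (hn.trans hl), if_neg (by omega), add_zero]
  · refine (hx x).trans ?_
    rcases lt_or_ge x 0 with h0 | h0
    · rw [pl_neg_S4 _ _ _ h0, hg.zero x (lt_of_lt_of_le h0 (Nat.cast_nonneg n)), add_zero]
      exact zero_le
    · obtain ⟨l, y, hy0, hy1, rfl⟩ := exists_cell h0
      rw [pl_cell _ _ _ l hy0 hy1, pl_cell _ _ _ l hy0 hy1]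
      rcases lt_or_ge l n with h1 | h1
      · have h2 : (l : ℝ) + y < n := lt_of_not_ge fun e =>
          absurd ((le_cell_S4 hy0 hy1).mp e) (by omega)
        rw [hg.zero _ h2, if_neg (by omega), add_zero, add_zero, add_zero]
        exact le_self_add
      · rcases lt_or_ge l n' with h2 | h2
        · rw [h.an l h1, h.bn l h1, if_pos ⟨h1, h2⟩]
          refine le_trans ?_ le_self_add
          have hp : 0 < μ ^ l := pow_pos hμ l
          have hs := hg.sup (l + y)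
          rw [wt_cell _ l hy0 hy1] at hs
          have e1 : (0 * (1 - y) + 0 * y) / μ ^ l = 0 := by simp
          have e2 : ((0 + σ) * (1 - y) + (0 + σ) * y) / μ ^ l = σ / μ ^ l := by
            congr 1
            ring
          rw [e1, e2, ENNReal.ofReal_zero, zero_add, ENNReal.ofReal_div_of_pos hp,
            ENNReal.le_div_iff_mul_le (Or.inl (by simpa using hp))
              (Or.inl ENNReal.ofReal_ne_top), mul_comm]
          exact hs
        · rw [if_neg (by omega), add_zero, add_zero,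
            indicator_of_mem (show (l : ℝ) + y ∈ Ici (n' : ℝ) from (le_cell_S4 hy0 hy1).mpr h2)]

theorem RRep.nil (hμ : 1 ≤ μ) (n : ℕ) : RRep μ n (fun _ => 0) (fun _ => 0) 0 0 0 := by
  exact ⟨hμ, fun _ => le_rfl, fun _ => le_rfl, fun _ _ => rfl, fun _ _ => rfl, le_rfl, le_rfl, 0,
    Tl.nil μ n, fun x => zero_le⟩

theorem cellD_add (j : ℕ) {α β γ : ℝ} (hα : 0 ≤ α) (hβ : 0 ≤ β) (hγ : 0 ≤ γ) :
    cellD j α β + cellD j γ γ ≤ cellD j (α + γ) (β + γ) := by
  intro x
  by_cases hm : x ∈ cl j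
  · obtain ⟨y, hy0, hy1, rfl⟩ := cell_of_mem_S4 hm
    have hy : 0 ≤ 1 - y := by linarith
    rw [Pi.add_apply, cellD_cell_S4 _ _ _ hy0 hy1, cellD_cell_S4 _ _ _ hy0 hy1,
      cellD_cell_S4 _ _ _ hy0 hy1, ← ENNReal.ofReal_add (by positivity) (by positivity)]
    refine le_of_eq ?_
    congr 1
    ring
  · unfold cellD
    rw [Pi.add_apply, indicator_of_notMem hm, indicator_of_notMem hm, add_zero]
    exact zero_le

theorem extra_le {h : ℝ} (hh : 0 < h) (x : ℝ) :
    ((cl 0).indicator ((Ici (0 : ℝ)).indicator fun _ => ENNReal.ofReal h) ⋆ₗ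
      ((cl 0).indicator ((Ici (0 : ℝ)).indicator fun _ => ENNReal.ofReal h) ⋆ₗ
        (cl 0).indicator ((Ici (0 : ℝ)).indicator fun _ => ENNReal.ofReal h))) x ≤
      ENNReal.ofReal (h ^ 3) := by
  set c : ℝ → ℝ≥0∞ := (cl 0).indicator ((Ici (0 : ℝ)).indicator fun _ => ENNReal.ofReal h)
    with hc
  have hm : Measurable c :=
    (measurable_const.indicator measurableSet_Ici).indicator (measurableSet_cl 0)
  have h1 : ∀ z, c z ≤ (cl 0).indicator (fun _ => ENNReal.ofReal h) z := fun z =>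
    indicator_le_indicator (indicator_le_self' (fun _ _ => zero_le) z)
  have h2 : ∀ z, c z ≤ ENNReal.ofReal h := fun z =>
    (h1 z).trans (indicator_le_self' (fun _ _ => zero_le) z)
  have h3 : ∫⁻ y, c y ≤ ENNReal.ofReal h := by
    refine (lintegral_mono h1).trans (le_of_eq ?_)
    rw [lintegral_indicator_const (measurableSet_cl 0)]
    unfold cl
    simp
  refine (conv_le_S4 hm h3 (conv_le_S4 hm h3 h2) x).trans (le_of_eq ?_)
  rw [ENNReal.ofReal_pow hh.le]
  ring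

end Pool.Agent.P.SM
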