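import Pool.Agent.P.MP_411dac_pr.K3
import Pool.Agent.P.MP_411dac_pr.S3
import Pool.Agent.P.MP_411dac_pr.S4

/-!
The packed convolution and the envelope are correct.
Hints. `lcv_rep`: `RRep.conv` with N = nr p x / 2 / 2 ^ F; cv (val x.a) (val y.a) l = cn / 2 ^ (2 * F),
shf μ of it is shn / 2 ^ g / 2 ^ (2 * F); 2 ^ 27 ≤ 24 * 5592406; m / d + 1 ≥ m / d in the reals.
`tl_rep`: induction on m, `it_succ`, `tsum_eq_zero_add`.
-/

set_option autoImplicit false
set_option linter.unusedVariables false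

noncomputable section

namespace Pool.Agent.P.SM

open MeasureTheory ProbabilityTheory Set
open scoped ENNReal

variable {p : Pm} {x y : V} {f g : ℝ → ℝ≥0∞}

theorem div_succ_ge (m : ℕ) {d : ℕ} (hd : 0 < d) : (m : ℝ) / d ≤ ((m / d + 1 : ℕ) : ℝ) := by
  have hd' : (0 : ℝ) < d := by exact_mod_cast hd
  rw [div_le_iff₀ hd']
  have h : m ≤ (m / d + 1) * d := by
    have := Nat.lt_div_mul_add (a := m) hd
    nlinarith
  exact_mod_cast h

theorem Pm.Ok.one_le (hp : p.Ok) : 1 ≤ p.mu := by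
  unfold Pm.mu
  have h : (2 : ℝ) ^ p.g ≤ p.u := by exact_mod_cast hp.1
  rw [le_div_iff₀ (by positivity)]
  linarith

theorem fit_lt_K4 {k : ℕ} (h : fit p k = true) : 4 * (p.n + 1) * (k + 1) < 2 ^ p.w := by
  unfold fit at h
  rw [Nat.blt_eq, Nat.one_shiftLeft] at h
  exact h

theorem lt_of_fit_K4 {k : ℕ} (h : 4 * (p.n + 1) * (k + 1) < 2 ^ p.w) : k < 2 ^ p.w := by
  nlinarith

theorem cv_val_K4 (N M l : ℕ) :
    cv (val p N) (val p M) l = (cn p.w N M l : ℝ) / (2 ^ p.F * 2 ^ p.F) := by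
  unfold cv cn val
  push_cast
  rw [Finset.sum_div]
  refine Finset.sum_congr rfl fun i _ => ?_
  rw [div_mul_div_comm]

theorem shf_K4 {v : ℕ → ℝ} {W : ℕ → ℕ} {E : ℝ} (h : ∀ l, v l = (W l : ℝ) / E) (l : ℕ) :
    shf p.mu v l = (shn p.u W l : ℝ) / (2 ^ p.g * E) := by
  cases l with
  | zero => simp [shf, shn]
  | succ l =>
    simp only [shf, shn, Pm.mu, h]
    push_cast
    rw [div_mul_div_comm]

theorem key_K4 (F G X Y Z : ℕ) {u v : ℝ} (hu : u = (X : ℝ) / (2 ^ G * (2 ^ F * 2 ^ F)))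
    (hv : v = ((Y : ℝ) - Z) / (2 ^ G * (2 ^ F * 2 ^ F))) :
    u + max 0 v ≤
      24 * (((5592406 * (X + (Y - Z)) / 2 ^ (F + G + 27) + 1 : ℕ) : ℝ) / 2 ^ F) := by
  have hE : (0 : ℝ) < 2 ^ G * (2 ^ F * 2 ^ F) := by positivity
  have h1 : max 0 v ≤ ((Y - Z : ℕ) : ℝ) / (2 ^ G * (2 ^ F * 2 ^ F)) := by
    refine max_le (by positivity) ?_
    rw [hv]
    refine div_le_div_of_nonneg_right ?_ hE.le
    have : Y ≤ (Y - Z) + Z := by omega
    have h2 : (Y : ℝ) ≤ ((Y - Z : ℕ) : ℝ) + Z := by exact_mod_cast this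
    linarith
  have h2 := div_succ_ge (5592406 * (X + (Y - Z))) (d := 2 ^ (F + G + 27)) (by positivity)
  set T : ℝ := ((5592406 * (X + (Y - Z)) / 2 ^ (F + G + 27) + 1 : ℕ) : ℝ) with hT
  have h3 : (((5592406 * (X + (Y - Z)) : ℕ) : ℝ)) / ((2 ^ (F + G + 27) : ℕ) : ℝ) =
      5592406 * ((X : ℝ) + ((Y - Z : ℕ) : ℝ)) / (2 ^ F * 2 ^ G * 134217728) := by
    rw [Nat.cast_mul, Nat.cast_add, Nat.cast_pow, pow_add, pow_add]
    norm_num
  rw [h3] at h2
  set A : ℝ := ((Y - Z : ℕ) : ℝ) with hA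
  have hA0 : 0 ≤ A := by positivity
  have hX0 : (0 : ℝ) ≤ X := by positivity
  have h4 : u + max 0 v ≤ ((X : ℝ) + A) / (2 ^ G * (2 ^ F * 2 ^ F)) := by
    rw [add_div, hu]; linarith
  refine h4.trans ?_
  rw [div_le_iff₀ (by positivity)] at h2
  rw [div_le_iff₀ hE]
  have h5 : 24 * (T / 2 ^ F) * (2 ^ G * (2 ^ F * 2 ^ F)) = 24 * (T * (2 ^ F * 2 ^ G)) := by
    field_simp
  rw [h5]
  nlinarith

theorem nr_val_K4 (hp : p.Ok) (hx : WF p x) :
    ∑ l ∈ Finset.range p.n, (val p x.a l + val p x.b l) / 2 + (x.t : ℝ) / 2 ^ p.F =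
      (nr p x : ℝ) / 2 / 2 ^ p.F := by
  rw [nr_eq hp hx]
  unfold val
  push_cast
  rw [add_div, add_div, Finset.sum_div, Finset.sum_div]
  congr 1
  · refine Finset.sum_congr rfl fun i _ => ?_
    ring
  · ring

theorem tail_K4 (F G u a b c d H : ℕ) :
    (u : ℝ) / 2 ^ G * ((a : ℝ) / 2 ^ F * ((b : ℝ) / 2 / 2 ^ F) + (c : ℝ) / 2 / 2 ^ F * (d / 2 ^ F) +
      (H : ℝ) / (2 ^ F * 2 ^ F)) ≤
      ((u * (a * b + c * d + 2 * H) / 2 ^ (F + G + 1) + 1 : ℕ) : ℝ) / 2 ^ F := by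
  have h2 := div_succ_ge (u * (a * b + c * d + 2 * H)) (d := 2 ^ (F + G + 1)) (by positivity)
  refine le_trans (le_of_eq ?_) (div_le_div_of_nonneg_right h2 (by positivity))
  push_cast
  rw [pow_add, pow_add]
  field_simp

theorem lcv_rep (hp : p.Ok) (hx : Rep p x f) (hy : Rep p y g) : Rep p (lcv p x y) (f ⋆ₗ g) := by
  intro ho
  obtain ⟨hox, hoy⟩ := lcv_ok ho
  obtain ⟨wx, rx⟩ := hx hox
  obtain ⟨wy, ry⟩ := hy hoy
  have wz := lcv_wf hp ho
  refine ⟨wz, ?_⟩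
  obtain ⟨Hs, Hm, h1, h2, h3, h4⟩ := lcv_high hp wx wy ho rfl rfl rfl
  have hP : ∀ l, cv (val p x.a) (val p y.a) l =
      (cn p.w x.a y.a l : ℝ) / (2 ^ p.F * 2 ^ p.F) := fun l => cv_val_K4 _ _ l
  have hR : ∀ l, cv (val p x.b) (val p y.b) l =
      (cn p.w x.b y.b l : ℝ) / (2 ^ p.F * 2 ^ p.F) := fun l => cv_val_K4 _ _ l
  have hQ : ∀ l, (cv (val p x.a) (val p y.b) + cv (val p x.b) (val p y.a)) l =
      ((cn p.w x.a y.b + cn p.w x.b y.a) l : ℝ) / (2 ^ p.F * 2 ^ p.F) := fun l => by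
    simp only [Pi.add_apply, cv_val_K4]
    push_cast
    rw [add_div]
  refine RRep.conv (N := (nr p x : ℝ) / 2 / 2 ^ p.F) (N' := (nr p y : ℝ) / 2 / 2 ^ p.F)
    (Hs := (Hs : ℝ) / (2 ^ p.F * 2 ^ p.F)) (Hm := (Hm : ℝ) / (2 ^ p.F * 2 ^ p.F))
    rx ry hp.2.2.1 rfl rfl rfl ?_ ?_ ?_ ?_ (nr_val_K4 hp wx).le (nr_val_K4 hp wy).le ?_ ?_ ?_ ?_
  · intro l hl
    have hd := (lcv_dig hp wx wy ho rfl rfl rfl hl).1
    rw [shf_K4 hP, shf_K4 hQ, shf_K4 hR, hP, hQ, hR]
    unfold val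
    rw [hd]
    refine key_K4 _ _ _ _ _ ?_ ?_
    · push_cast; ring
    · push_cast; field_simp
  · intro l hl
    have hd := (lcv_dig hp wx wy ho rfl rfl rfl hl).2
    rw [shf_K4 hP, shf_K4 hQ, shf_K4 hR, hP, hQ, hR]
    unfold val
    rw [hd]
    refine key_K4 _ _ _ _ _ ?_ ?_
    · push_cast; field_simp
    · push_cast; field_simp
  · intro l hl
    unfold val
    rw [dig_of_lt wz.ha hl]; simp
  · intro l hl
    unfold val
    rw [dig_of_lt wz.hb hl]; simp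
  · intro m
    simp only [hP, hQ, hR, ← add_div]
    rw [← Finset.sum_div]
    refine div_le_div_of_nonneg_right ?_ (by positivity)
    exact_mod_cast h1 m
  · intro l
    simp only [hP, hQ, hR, ← add_div]
    refine div_le_div_of_nonneg_right ?_ (by positivity)
    exact_mod_cast h2 l
  · rw [h3]; exact tail_K4 _ _ _ _ _ _ _ _
  · rw [h4]; exact tail_K4 _ _ _ _ _ _ _ _

theorem add_rep (hp : p.Ok) (hx : Rep p x f) (hy : Rep p y g) : Rep p (add p x y) (f + g) := by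
  intro ho
  have ho' : (x.ok = true ∧ y.ok = true) ∧ fit p (x.k + y.k) = true := by
    simpa only [add, Bool.and_eq_true] using ho
  obtain ⟨⟨hox, hoy⟩, hf⟩ := ho'
  obtain ⟨wx, rx⟩ := hx hox
  obtain ⟨wy, ry⟩ := hy hoy
  have hfit := fit_lt_K4 hf
  have hk := lt_of_fit_K4 hfit
  have da : ∀ l, dig p.w (x.a + y.a) l = dig p.w x.a l + dig p.w y.a l :=
    dig_add hp.w_pos fun l => lt_of_le_of_lt (Nat.add_le_add (wx.ka l) (wy.ka l)) hk
  have db : ∀ l, dig p.w (x.b + y.b) l = dig p.w x.b l + dig p.w y.b l :=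
    dig_add hp.w_pos fun l => lt_of_le_of_lt (Nat.add_le_add (wx.kb l) (wy.kb l)) hk
  refine ⟨⟨?_, ?_, ?_, ?_, hfit⟩, ?_⟩
  · exact lt_of_dig hp.w_pos fun l hl => by
      show dig p.w (x.a + y.a) l = 0
      rw [da, dig_of_lt wx.ha hl, dig_of_lt wy.ha hl]
  · exact lt_of_dig hp.w_pos fun l hl => by
      show dig p.w (x.b + y.b) l = 0
      rw [db, dig_of_lt wx.hb hl, dig_of_lt wy.hb hl]
  · intro l
    show dig p.w (x.a + y.a) l ≤ x.k + y.k
    rw [da]; exact Nat.add_le_add (wx.ka l) (wy.ka l)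
  · intro l
    show dig p.w (x.b + y.b) l ≤ x.k + y.k
    rw [db]; exact Nat.add_le_add (wx.kb l) (wy.kb l)
  · have h := rx.add ry
    have ea : val p (add p x y).a = fun l => val p x.a l + val p y.a l := by
      funext l
      show val p (x.a + y.a) l = _
      unfold val
      rw [da]; push_cast; rw [add_div]
    have eb : val p (add p x y).b = fun l => val p x.b l + val p y.b l := by
      funext l
      show val p (x.b + y.b) l = _
      unfold val
      rw [db]; push_cast; rw [add_div]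
    have et : (((add p x y).t : ℕ) : ℝ) / 2 ^ p.F = x.t / 2 ^ p.F + y.t / 2 ^ p.F := by
      show ((x.t + y.t : ℕ) : ℝ) / 2 ^ p.F = _
      push_cast; rw [add_div]
    have es : (((add p x y).s : ℕ) : ℝ) / 2 ^ p.F = x.s / 2 ^ p.F + y.s / 2 ^ p.F := by
      show ((x.s + y.s : ℕ) : ℝ) / 2 ^ p.F = _
      push_cast; rw [add_div]
    rw [ea, eb, et, es]
    exact h

theorem Rep.tb (hp : p.Ok) (hx : Rep p x f) (ho : x.ok = true) :
    TB p.mu (nr p x / 2 / 2 ^ p.F) (((x.k + x.s : ℕ) : ℝ) / 2 ^ p.F) f := by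
  obtain ⟨wx, rx⟩ := hx ho
  have h := rx.tb (K := (x.k : ℝ) / 2 ^ p.F)
    (fun l => div_le_div_of_nonneg_right (by exact_mod_cast wx.ka l) (by positivity))
    (fun l => div_le_div_of_nonneg_right (by exact_mod_cast wx.kb l) (by positivity))
  rw [nr_val_K4 hp wx, ← add_div] at h
  push_cast
  exact h

theorem env_rep (hp : p.Ok) (hx : Rep p x f) (hy : Rep p y g) :
    Rep p (env p x y) fun t => ∑' m, it f g (m + 1) t := by
  intro ho
  obtain ⟨d, hd⟩ : ∃ d, d = 2 ^ (p.F + p.g + 1) - p.u * nr p x := ⟨_, rfl⟩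
  obtain ⟨s, hs⟩ : ∃ s, s = p.u * nr p x * (y.k + y.s) / d + 1 := ⟨_, rfl⟩
  have he : env p x y = ⟨s * ones p.w p.n, s * ones p.w p.n,
      p.u * nr p x * nr p y / (2 * d) + 1, s, s, x.ok && y.ok && Nat.blt 0 d && fit p s⟩ := by
    rw [hs, hd]
    simp only [env, Nat.one_shiftLeft]
  rw [he] at ho ⊢
  have ho' : ((x.ok = true ∧ y.ok = true) ∧ 0 < d) ∧ fit p s = true := by
    simpa only [Bool.and_eq_true, Nat.blt_eq] using ho
  obtain ⟨⟨⟨hox, hoy⟩, hd0⟩, hf⟩ := ho'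
  have hfit := fit_lt_K4 hf
  have hk := lt_of_fit_K4 hfit
  have dg : ∀ l, dig p.w (s * ones p.w p.n) l = if l < p.n then s else 0 := by
    intro l
    rw [dig_smul hp.w_pos, dig_ones hp.w_pos]
    · split_ifs <;> simp
    · intro l
      rw [dig_ones hp.w_pos]
      split_ifs
      · simpa using hk
      · simp
  have hlt : s * ones p.w p.n < 2 ^ (p.w * p.n) :=
    lt_of_dig hp.w_pos fun l hl => by rw [dg, if_neg (by omega)]
  have hle : ∀ l, dig p.w (s * ones p.w p.n) l ≤ s := fun l => by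
    rw [dg]; split_ifs <;> omega
  refine ⟨⟨hlt, hlt, hle, hle, hfit⟩, ?_⟩
  have ev : val p (s * ones p.w p.n) = fun l => if l < p.n then (s : ℝ) / 2 ^ p.F else 0 := by
    funext l
    unfold val
    rw [dg]; split_ifs <;> simp
  show RRep p.mu p.n (val p (s * ones p.w p.n)) (val p (s * ones p.w p.n))
    (((p.u * nr p x * nr p y / (2 * d) + 1 : ℕ) : ℝ) / 2 ^ p.F) ((s : ℝ) / 2 ^ p.F) _
  rw [ev]
  have hdr : (d : ℝ) = 2 ^ p.F * 2 ^ p.g * 2 - p.u * nr p x := by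
    have : d + p.u * nr p x = 2 ^ (p.F + p.g + 1) := by omega
    have h2 : (d : ℝ) + p.u * nr p x = 2 ^ (p.F + p.g + 1) := by exact_mod_cast this
    rw [pow_add, pow_add, pow_one] at h2
    linarith
  have hd0' : (0 : ℝ) < d := by exact_mod_cast hd0
  have hθ : 1 - p.mu * ((nr p x : ℝ) / 2 / 2 ^ p.F) = d / (2 ^ p.F * 2 ^ p.g * 2) := by
    rw [hdr]; unfold Pm.mu; field_simp
  have hpos : (0 : ℝ) < d / (2 ^ p.F * 2 ^ p.g * 2) := by positivity
  refine RRep.env p.n hp.one_le (hx.tb hp hox) (hy.tb hp hoy) (by positivity) (by positivity)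
    (by positivity) (by linarith) ?_ ?_
  · rw [hθ]
    have h2 := div_succ_ge (p.u * nr p x * nr p y) (d := 2 * d) (by omega)
    refine le_trans (le_of_eq ?_) (mul_le_mul_of_nonneg_right
      (div_le_div_of_nonneg_right h2 (by positivity)) hpos.le)
    unfold Pm.mu
    push_cast
    field_simp
  · rw [hθ]
    have h2 := div_succ_ge (p.u * nr p x * (y.k + y.s)) hd0
    rw [← hs] at h2
    refine le_trans (le_of_eq ?_) (mul_le_mul_of_nonneg_right
      (div_le_div_of_nonneg_right h2 (by positivity)) hpos.le)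
    unfold Pm.mu
    push_cast
    field_simp

theorem tl_rep (hp : p.Ok) (m : ℕ) (hx : Rep p x f) (hy : Rep p y g) :
    Rep p (tl p x m y) fun t => ∑' m, it f g (m + 1) t := by
  induction m generalizing y g with
  | zero => exact env_rep hp hx hy
  | succ m ih =>
    have h1 := lcv_rep hp hx hy
    have h2 := add_rep hp h1 (ih h1)
    have e : (fun t => ∑' m, it f g (m + 1) t) =
        (f ⋆ₗ g) + fun t => ∑' m, it f (f ⋆ₗ g) (m + 1) t := by
      funext t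
      rw [tsum_eq_zero_add' ENNReal.summable]
      simp only [Pi.add_apply]
      congr 1
      exact tsum_congr fun m => by rw [it_succ f g (m + 1)]
    rw [e]
    exact h2

end Pool.Agent.P.SM
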