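import Pool.Agent.P.MP_411dac_pr.K4

/-!
The simple operations and `birth` are correct.
-/

set_option autoImplicit false
set_option linter.unusedVariables false

noncomputable section

namespace Pool.Agent.P.SM

open MeasureTheory ProbabilityTheory Set
open scoped ENNReal

variable {p : Pm} {x y : V} {f f' g : ℝ → ℝ≥0∞}

theorem fit_lt_K5 {k : ℕ} (h : fit p k = true) : 4 * (p.n + 1) * (k + 1) < 2 ^ p.w := by
  unfold fit at h
  rw [Nat.blt_eq, Nat.one_shiftLeft] at h
  exact h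

theorem lt_of_fit_K5 {n k w : ℕ} (h : 4 * (n + 1) * (k + 1) < 2 ^ w) : k < 2 ^ w := by
  have : k + 1 ≤ 4 * (n + 1) * (k + 1) := Nat.le_mul_of_pos_left _ (by omega)
  omega

theorem dig_drp_K5 (w N j l : ℕ) :
    dig w ((N >>> (w * j)) <<< (w * j)) l = if j ≤ l then dig w N l else 0 := by
  rw [dig_shl]
  split_ifs with h
  · rw [dig_shr]; congr 1; omega
  · rfl

theorem dig_cell_K5 {w c : ℕ} (hc : c < 2 ^ w) (j l : ℕ) :
    dig w (c <<< (w * j)) l = if l = j then c else 0 := by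
  rw [dig_shl]
  by_cases h : j ≤ l
  · rw [if_pos h, dig_small hc]
    by_cases h2 : l = j
    · rw [if_pos (by omega), if_pos h2]
    · rw [if_neg (by omega), if_neg h2]
  · rw [if_neg h, if_neg (by omega)]

theorem dig_ext_K5 {w N k s m n : ℕ} (hw : 0 < w) (hk : ∀ l, dig w N l ≤ k) (hs : k + s < 2 ^ w)
    (hm : m ≤ n) (l : ℕ) : dig w (N + ((s * ones w (n - m)) <<< (w * m))) l =
      dig w N l + if m ≤ l ∧ l < n then s else 0 := by
  have h1 : ∀ l, dig w ((s * ones w (n - m)) <<< (w * m)) l = if m ≤ l ∧ l < n then s else 0 := by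
    intro l
    rw [dig_shl]
    by_cases h : m ≤ l
    · rw [if_pos h, dig_smul hw (fun i => by rw [dig_ones hw]; split_ifs <;> omega), dig_ones hw]
      by_cases h2 : l < n
      · rw [if_pos (by omega), if_pos ⟨h, h2⟩, mul_one]
      · rw [if_neg (by omega), if_neg (by omega), mul_zero]
    · rw [if_neg h, if_neg (by omega)]
  rw [dig_add hw (fun i => by have := hk i; rw [h1]; split_ifs <;> omega), h1]

theorem add_ok_K5 (h : (add p x y).ok = true) : x.ok = true ∧ y.ok = true := by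
  simp only [add, Bool.and_eq_true] at h
  exact h.1

theorem addc_ok_K5 {c : Bool} (h : (addc p c x y).ok = true) : x.ok = true := by
  cases c
  · exact h
  · exact (add_ok_K5 h).1

theorem Rep.le (hx : Rep p x f) (hf : f' ≤ f) : Rep p x f' := by
  exact fun h => ⟨(hx h).1, (hx h).2.le hf⟩

theorem addc_rep (hp : p.Ok) (c : Bool) (hx : Rep p x f) (hy : Rep p y g) :
    Rep p (addc p c x y) (f + oc c g) := by
  cases c
  · have e : f + oc false g = f := add_zero f
    rw [e]; exact hx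
  · exact add_rep hp hx hy

theorem clr_rep (hp : p.Ok) (j : ℕ) (hx : Rep p x f) : Rep p (clr p j x) ((cl j)ᶜ.indicator f) := by
  intro h
  obtain ⟨h1, h2⟩ := hx h
  have hw := hp.w_pos
  refine ⟨⟨lt_of_le_of_lt (Nat.sub_le _ _) h1.ha, lt_of_le_of_lt (Nat.sub_le _ _) h1.hb,
    fun l => ?_, fun l => ?_, h1.fit⟩, ?_⟩
  · have := h1.ka l
    simp only [clr, dig_clr hw]; split_ifs <;> omega
  · have := h1.kb l
    simp only [clr, dig_clr hw]; split_ifs <;> omega
  · have e : ∀ N, val p (N - (dig p.w N j <<< (p.w * j))) =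
        fun l => if l = j then 0 else val p N l := by
      intro N; funext l
      simp only [val, dig_clr hw]; split_ifs <;> simp
    simp only [clr, e]
    exact h2.clr j

theorem drp_rep (hp : p.Ok) (j : ℕ) (hx : Rep p x f) :
    Rep p (drp p j x) ((Ici (j : ℝ)).indicator f) := by
  intro h
  obtain ⟨h1, h2⟩ := hx h
  have hw := hp.w_pos
  refine ⟨⟨lt_of_dig hw fun l hl => ?_, lt_of_dig hw fun l hl => ?_,
    fun l => ?_, fun l => ?_, h1.fit⟩, ?_⟩
  · simp only [drp, dig_drp_K5, dig_of_lt h1.ha hl, ite_self]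
  · simp only [drp, dig_drp_K5, dig_of_lt h1.hb hl, ite_self]
  · have := h1.ka l
    simp only [drp, dig_drp_K5]; split_ifs <;> omega
  · have := h1.kb l
    simp only [drp, dig_drp_K5]; split_ifs <;> omega
  · have e : ∀ N, val p ((N >>> (p.w * j)) <<< (p.w * j)) =
        fun l => if j ≤ l then val p N l else 0 := by
      intro N; funext l
      simp only [val, dig_drp_K5]; split_ifs <;> simp
    simp only [drp, e]
    exact h2.drp j

theorem cell_rep (hp : p.Ok) {j a b : ℕ} {α β : ℝ} (hα : α * p.mu ^ j ≤ a / 2 ^ p.F)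
    (hβ : β * p.mu ^ j ≤ b / 2 ^ p.F) : Rep p (cell p j a b) (cellD j α β) := by
  intro h
  simp only [cell, Bool.and_eq_true, Nat.blt_eq] at h
  obtain ⟨hj, hf⟩ := h
  have hf' := fit_lt_K5 hf
  have hk := lt_of_fit_K5 hf'
  have ha : a < 2 ^ p.w := by omega
  have hb : b < 2 ^ p.w := by omega
  have hw := hp.w_pos
  refine ⟨⟨lt_of_dig hw fun l hl => ?_, lt_of_dig hw fun l hl => ?_,
    fun l => ?_, fun l => ?_, hf'⟩, ?_⟩
  · simp only [cell, dig_cell_K5 ha]; rw [if_neg (by omega)]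
  · simp only [cell, dig_cell_K5 hb]; rw [if_neg (by omega)]
  · simp only [cell, dig_cell_K5 ha]; split_ifs <;> omega
  · simp only [cell, dig_cell_K5 hb]; split_ifs <;> omega
  · have e : ∀ c : ℕ, c < 2 ^ p.w → val p (c <<< (p.w * j)) =
        fun l => if l = j then (c : ℝ) / 2 ^ p.F else 0 := by
      intro c hc; funext l
      simp only [val, dig_cell_K5 hc]; split_ifs <;> simp
    simp only [cell, e a ha, e b hb, Nat.cast_zero, zero_div]
    exact RRep.cell hp.one_le hj (by positivity) (by positivity) hα hβ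

theorem cut_rep (hx : Rep p x f) : Rep p (cut true x) ((Iio (p.n : ℝ)).indicator f) := by
  intro h
  obtain ⟨h1, h2⟩ := hx h
  refine ⟨⟨h1.ha, h1.hb, h1.ka, h1.kb, h1.fit⟩, ?_⟩
  simp only [cut, cond_true, Nat.cast_zero, zero_div]
  exact h2.cut

theorem tight_rep (hx : Rep p x f) : Rep p (tight p x) f := by
  intro h
  simp only [tight, Bool.and_eq_true] at h
  obtain ⟨h1, h2⟩ := hx h.1
  exact ⟨⟨h1.ha, h1.hb, fun l => le_orf_left _ _ _ _ l, fun l => le_orf_right _ _ _ _ l,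
    fit_lt_K5 h.2⟩, h2⟩

theorem ext_rep (hp : p.Ok) (n : ℕ) (hx : Rep p x f) : Rep { p with n := n } (ext p n x) f := by
  intro h
  simp only [ext, Bool.and_eq_true, Nat.ble_eq] at h
  obtain ⟨⟨ho, hn⟩, hf⟩ := h
  obtain ⟨h1, h2⟩ := hx ho
  have hf' := fit_lt_K5 hf
  have hk : x.k + x.s < 2 ^ p.w := lt_of_fit_K5 hf'
  have hw := hp.w_pos
  have ea := dig_ext_K5 hw h1.ka hk hn
  have eb := dig_ext_K5 hw h1.kb hk hn
  refine ⟨⟨lt_of_dig hw fun l hl => ?_, lt_of_dig hw fun l hl => ?_,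
    fun l => ?_, fun l => ?_, hf'⟩, ?_⟩
  · have hl' : n ≤ l := hl
    simp only [ext, ea, dig_of_lt h1.ha (hn.trans hl')]; rw [if_neg (by omega)]
  · have hl' : n ≤ l := hl
    simp only [ext, eb, dig_of_lt h1.hb (hn.trans hl')]; rw [if_neg (by omega)]
  · have := h1.ka l
    simp only [ext, ea]; split_ifs <;> omega
  · have := h1.kb l
    simp only [ext, eb]; split_ifs <;> omega
  · have e1 : val { p with n := n } (ext p n x).a =
        fun l => val p x.a l + if p.n ≤ l ∧ l < n then (x.s : ℝ) / 2 ^ p.F else 0 := by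
      funext l
      simp only [val, ext, ea]; split_ifs <;> simp [add_div]
    have e2 : val { p with n := n } (ext p n x).b =
        fun l => val p x.b l + if p.n ≤ l ∧ l < n then (x.s : ℝ) / 2 ^ p.F else 0 := by
      funext l
      simp only [val, ext, eb]; split_ifs <;> simp [add_div]
    rw [e1, e2]
    exact h2.ext hn

theorem nil_rep (hp : p.Ok) (h : fit p 0 = true) : Rep p ⟨0, 0, 0, 0, 0, true⟩ 0 := by
  intro _
  refine ⟨⟨by positivity, by positivity, fun l => (dig_zero _ l).le, fun l => (dig_zero _ l).le,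
    fit_lt_K5 h⟩, ?_⟩
  have e : val p 0 = fun _ => 0 := by
    funext l; simp only [val, dig_zero, Nat.cast_zero, zero_div]
  simp only [e, Nat.cast_zero, zero_div]
  exact RRep.nil hp.one_le _

theorem birth_ok {nz j ya yb : ℕ} {c : Bool} (h : (birth p nz c j x ya yb).ok = true) :
    x.ok = true ∧ j < p.n := by
  have h1 := lcv_ok (add_ok_K5 (add_ok_K5 h).1).1
  have h2 := (lcv_ok (addc_ok_K5 h1.2)).1
  have h3 := h1.1
  simp only [cell, Bool.and_eq_true, Nat.blt_eq] at h3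
  exact ⟨h2, h3.1⟩

theorem birth_rep (hp : p.Ok) (nz : ℕ) (c : Bool) {j ya yb : ℕ} {α β : ℝ} (hx : Rep p x f)
    (hα : α * p.mu ^ j ≤ ya / 2 ^ p.F) (hβ : β * p.mu ^ j ≤ yb / 2 ^ p.F) :
    Rep p (birth p nz c j x ya yb) (birthD c j f (cellD j α β)
      (((max ya yb : ℕ) : ℝ) / 2 ^ p.F / p.mu ^ j)
      (((max (dig p.w x.a j) (dig p.w x.b j) : ℕ) : ℝ) / 2 ^ p.F / p.mu ^ j)) := by
  have hμ : p.mu ^ j ≠ 0 := pow_ne_zero _ (by linarith [hp.one_le])
  have hc : ∀ m : ℕ, Rep p (cell p j m m)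
      (cellD j ((m : ℝ) / 2 ^ p.F / p.mu ^ j) ((m : ℝ) / 2 ^ p.F / p.mu ^ j)) := fun m =>
    cell_rep hp (div_mul_cancel₀ _ hμ).le (div_mul_cancel₀ _ hμ).le
  have hy := cell_rep hp hα hβ
  have hxp := clr_rep hp j hx
  have hB1 := lcv_rep hp hy (addc_rep hp c (lcv_rep hp hxp hxp) (add_rep hp hxp hxp))
  have hTc := lcv_rep hp (hc (max ya yb)) (hc (max (dig p.w x.a j) (dig p.w x.b j)))
  have hT := addc_rep hp c (lcv_rep hp hTc hx) hTc
  have hBT := add_rep hp hB1 hT
  exact add_rep hp hBT (tl_rep hp nz (addc_rep hp c (lcv_rep hp hy hx) hy)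
    (addc_rep hp c (add_rep hp hBT hT) hy))

theorem frc_eq {α : Type} (n : ℕ) (F : ℕ → α) : frc n F = F n := by
  cases n <;> rfl

theorem frcV_eq {α : Type} (x : V) (F : V → α) : frcV x F = F x := by
  obtain ⟨a, b, t, s, k, ok⟩ := x
  simp only [frcV, frc_eq]
  cases ok <;> rfl

theorem eq_of_eqV (h : eqV x y = true) : x = y := by
  obtain ⟨a, b, t, s, k, ok⟩ := x
  obtain ⟨a', b', t', s', k', ok'⟩ := y
  simp only [eqV, Bool.and_eq_true, Nat.beq_eq, beq_iff_eq] at h
  obtain ⟨⟨⟨⟨⟨rfl, rfl⟩, rfl⟩, rfl⟩, rfl⟩, rfl⟩ := h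
  rfl

theorem eq_of_eqS {z z' : V × V} (h : eqS z z' = true) : z = z' := by
  simp only [eqS, Bool.and_eq_true] at h
  exact Prod.ext (eq_of_eqV h.1) (eq_of_eqV h.2)

theorem tr_ge (j u' d : ℕ) {u : ℕ} (hu : 0 < u) : (d : ℝ) * ((u' : ℝ) / u) ^ j ≤ tr j u u' d := by
  have h := div_succ_ge (d * u' ^ j) (pow_pos hu j)
  unfold tr
  refine le_trans (le_of_eq ?_) h
  push_cast
  rw [div_pow, mul_div_assoc]

end Pool.Agent.P.SM
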