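import Pool.Agent.P.MP_411dac_pr.S2

/-!
Coarser cells, the start, the second moment.
Hints. `RRep.halve`: the tail is x ↦ 2 * g (2 * x); μ' ^ ⌊x⌋₊ ≤ κ ^ ⌊x⌋₊ * μ ^ ⌊2 * x⌋₊ with
κ = μ' / μ ^ 2 ≤ 1. For x = l + y the point 2 * x lies in the cell 2 * l (y < 1 / 2) or 2 * l + 1.
`RRep.init`: convexity of exp. `TB.moment`: x ≤ l + 1, z ≤ exp (z - 1) for z = (l + 1) * log μ / 2,
log μ ≥ 1 - 1 / μ, exp 1 > 2.7.
-/

set_option autoImplicit false
set_option linter.unusedVariables false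

noncomputable section

namespace Pool.Agent.P.SM

open MeasureTheory ProbabilityTheory Set
open scoped ENNReal

variable {μ μ' τ σ τ' σ' : ℝ} {n : ℕ} {a b a' b' : ℕ → ℝ} {f : ℝ → ℝ≥0∞}

theorem lint_two_S5 {F : ℝ → ℝ≥0∞} (hF : Measurable F) :
    ∫⁻ x, 2 * F (2 * x) = ∫⁻ x, F x := by
  have h1 : ∫⁻ x, F (2 * x) = ∫⁻ x, F x ∂(Measure.map (fun x : ℝ => 2 * x) volume) :=
    (lintegral_map hF (measurable_const_mul 2)).symm
  have h2 : Measurable fun x : ℝ => F (2 * x) := hF.comp (measurable_const_mul 2)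
  rw [lintegral_const_mul _ h2, h1, Real.map_volume_mul_left (by norm_num : (2 : ℝ) ≠ 0),
    lintegral_smul_measure, smul_eq_mul, ← mul_assoc]
  have h3 : (2 : ℝ≥0∞) * ENNReal.ofReal |(2 : ℝ)⁻¹| = 1 := by
    rw [abs_of_pos (by norm_num), ← ENNReal.ofReal_ofNat 2, ← ENNReal.ofReal_mul (by norm_num)]
    norm_num
  rw [h3, one_mul]

theorem wt_halve_S5 (h0 : 1 ≤ μ) (h1 : 1 ≤ μ') (h2 : μ' ≤ μ ^ 2) {x : ℝ} (hx : (n : ℝ) ≤ x) :
    wt μ' x ≤ ENNReal.ofReal ((μ' / μ ^ 2) ^ n) * wt μ (2 * x) := by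
  have hμ : 0 < μ := by linarith
  have hκ0 : 0 ≤ μ' / μ ^ 2 := by positivity
  have hκ1 : μ' / μ ^ 2 ≤ 1 := by rw [div_le_one (by positivity)]; exact h2
  have hx0 : 0 ≤ x := le_trans (Nat.cast_nonneg n) hx
  have hn : n ≤ ⌊x⌋₊ := Nat.le_floor hx
  have hf : 2 * ⌊x⌋₊ ≤ ⌊2 * x⌋₊ := by
    apply Nat.le_floor
    push_cast
    linarith [Nat.floor_le hx0]
  unfold wt
  rw [← ENNReal.ofReal_mul (by positivity)]
  apply ENNReal.ofReal_le_ofReal
  calc μ' ^ ⌊x⌋₊ = (μ' / μ ^ 2) ^ ⌊x⌋₊ * μ ^ (2 * ⌊x⌋₊) := by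
        rw [pow_mul, ← mul_pow, div_mul_cancel₀ _ (by positivity)]
    _ ≤ (μ' / μ ^ 2) ^ n * μ ^ ⌊2 * x⌋₊ :=
        mul_le_mul (pow_le_pow_of_le_one hκ0 hκ1 hn) (pow_le_pow_right₀ h0 hf) (by positivity)
          (by positivity)

theorem pl_halve_S5 (h0 : 1 ≤ μ) (h1 : 1 ≤ μ') {l : ℕ} {y D : ℝ} (y0 : 0 ≤ y) (y1 : y < 1)
    (hD0 : 0 ≤ D) (hD1 : 2 * b (2 * l) - (a (2 * l) + b (2 * l + 1) / μ) ≤ D)
    (hD2 : 2 * (a (2 * l + 1) / μ) - (a (2 * l) + b (2 * l + 1) / μ) ≤ D)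
    (ha : (μ' / μ ^ 2) ^ l * (2 * a (2 * l) + D) ≤ a' l)
    (hb : (μ' / μ ^ 2) ^ l * (2 * (b (2 * l + 1) / μ) + D) ≤ b' l) :
    2 * pl μ a b (2 * (l + y)) ≤ pl μ' a' b' (l + y) := by
  have hμ : 0 < μ := by linarith
  have hμ' : 0 < μ' := by linarith
  have key : (2 * a (2 * l) * (1 - y) + 2 * (b (2 * l + 1) / μ) * y + D) / μ ^ (2 * l) ≤
      (a' l * (1 - y) + b' l * y) / μ' ^ l := by
    rw [le_div_iff₀ (by positivity)]
    have e : (2 * a (2 * l) * (1 - y) + 2 * (b (2 * l + 1) / μ) * y + D) / μ ^ (2 * l) * μ' ^ l =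
        (μ' / μ ^ 2) ^ l * (2 * a (2 * l) + D) * (1 - y) +
          (μ' / μ ^ 2) ^ l * (2 * (b (2 * l + 1) / μ) + D) * y := by
      rw [div_pow, ← pow_mul]
      field_simp
      ring
    rw [e]
    exact add_le_add (mul_le_mul_of_nonneg_right ha (by linarith))
      (mul_le_mul_of_nonneg_right hb y0)
  rw [pl_cell μ' a' b' l y0 y1]
  refine le_trans ?_ (ENNReal.ofReal_le_ofReal key)
  rcases lt_or_ge y (1 / 2) with hy | hy
  · have e : 2 * ((l : ℝ) + y) = ((2 * l : ℕ) : ℝ) + 2 * y := by push_cast; ring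
    rw [e, pl_cell μ a b (2 * l) (by linarith) (by linarith), ← ENNReal.ofReal_ofNat 2,
      ← ENNReal.ofReal_mul (by norm_num)]
    apply ENNReal.ofReal_le_ofReal
    rw [← mul_div_assoc]
    apply div_le_div_of_nonneg_right _ (by positivity)
    have h3 := mul_le_mul_of_nonneg_left hD1 (by linarith : 0 ≤ 2 * y)
    have h4 := mul_le_mul_of_nonneg_right (by linarith : 2 * y ≤ 1) hD0
    nlinarith
  · have e : 2 * ((l : ℝ) + y) = ((2 * l + 1 : ℕ) : ℝ) + (2 * y - 1) := by push_cast; ring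
    rw [e, pl_cell μ a b (2 * l + 1) (by linarith) (by linarith), ← ENNReal.ofReal_ofNat 2,
      ← ENNReal.ofReal_mul (by norm_num)]
    apply ENNReal.ofReal_le_ofReal
    have e2 : 2 * ((a (2 * l + 1) * (1 - (2 * y - 1)) + b (2 * l + 1) * (2 * y - 1)) /
        μ ^ (2 * l + 1)) = 2 * ((a (2 * l + 1) / μ) * (1 - (2 * y - 1)) +
          (b (2 * l + 1) / μ) * (2 * y - 1)) / μ ^ (2 * l) := by
      rw [pow_succ]
      field_simp
    rw [e2]
    apply div_le_div_of_nonneg_right _ (by positivity)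
    have h3 := mul_le_mul_of_nonneg_left hD2 (by linarith : 0 ≤ 2 * (1 - y))
    have h4 := mul_le_mul_of_nonneg_right (by linarith : 2 * (1 - y) ≤ 1) hD0
    nlinarith

theorem exp_cell_S5 {h ρ c y : ℝ} (hh : 0 < h) (hρ : Real.exp (-h) ≤ ρ) (hc : h ≤ c) (l : ℕ)
    (y0 : 0 ≤ y) (y1 : y < 1) :
    h * Real.exp (-(h * (l + y))) ≤ c * ρ ^ l * ((1 - y) + ρ * y) := by
  have hρ0 : 0 < ρ := lt_of_lt_of_le (Real.exp_pos _) hρ
  have e : Real.exp (-(h * (l + y))) = Real.exp (-h) ^ l * Real.exp (y * (-h)) := by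
    rw [← Real.exp_nat_mul, ← Real.exp_add]
    congr 1
    ring
  have h1 : Real.exp (y * (-h)) ≤ (1 - y) + ρ * y := by
    have := convexOn_exp.2 (mem_univ (0 : ℝ)) (mem_univ (-h)) (by linarith : 0 ≤ 1 - y) y0
      (by ring)
    simp only [smul_eq_mul, mul_zero, zero_add, Real.exp_zero, mul_one] at this
    nlinarith
  have h2 : Real.exp (-h) ^ l ≤ ρ ^ l := pow_le_pow_left₀ (Real.exp_pos _).le hρ l
  rw [e, ← mul_assoc]
  exact mul_le_mul (mul_le_mul hc h2 (by positivity) (by linarith)) h1 (Real.exp_pos _).le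
    (mul_nonneg (by linarith) (by positivity))

theorem sq_le_S5 (hμ : 1 < μ) {x : ℝ} (hx : 0 ≤ x) :
    x ^ 2 ≤ 11 / 20 * μ * (μ / (μ - 1)) ^ 2 * μ ^ ⌊x⌋₊ := by
  have hμ0 : 0 < μ := by linarith
  have hL : 1 - μ⁻¹ ≤ Real.log μ := Real.one_sub_inv_le_log_of_pos hμ0
  have hq : 0 < μ / (μ - 1) := div_pos hμ0 (by linarith)
  have hL1 : 1 ≤ μ / (μ - 1) * Real.log μ := by
    have e : μ / (μ - 1) * (1 - μ⁻¹) = 1 := by
      have : μ - 1 ≠ 0 := by linarith
      field_simp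
    exact e.ge.trans (mul_le_mul_of_nonneg_left hL hq.le)
  have hL0 : 0 < Real.log μ := Real.log_pos hμ
  set l := ⌊x⌋₊ with hl
  have hx1 : x ≤ (l : ℝ) + 1 := (Nat.lt_floor_add_one x).le
  set z : ℝ := ((l : ℝ) + 1) * Real.log μ / 2 with hz
  have z0 : 0 ≤ z := by positivity
  have z1 : z ≤ Real.exp (z - 1) := by linarith [Real.add_one_le_exp (z - 1)]
  have z2 : z ^ 2 * Real.exp 1 ^ 2 ≤ μ * μ ^ l := by
    have h1 : z ^ 2 ≤ Real.exp (z - 1) ^ 2 := pow_le_pow_left₀ z0 z1 2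
    have h2 : Real.exp (z - 1) ^ 2 * Real.exp 1 ^ 2 = μ * μ ^ l := by
      rw [← mul_pow, ← Real.exp_add, ← Real.exp_nat_mul]
      have : ((2 : ℕ) : ℝ) * (z - 1 + 1) = ((l + 1 : ℕ) : ℝ) * Real.log μ := by
        rw [hz]; push_cast; ring
      rw [this, Real.exp_nat_mul, Real.exp_log hμ0, pow_succ, mul_comm]
    rw [← h2]
    exact mul_le_mul_of_nonneg_right h1 (by positivity)
  have he : (27 / 10 : ℝ) ≤ Real.exp 1 := by linarith [Real.exp_one_gt_d9]
  have he2 : (729 / 100 : ℝ) ≤ Real.exp 1 ^ 2 := by nlinarith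
  have z3 : z ^ 2 * (729 / 100) ≤ μ * μ ^ l :=
    le_trans (mul_le_mul_of_nonneg_left he2 (by positivity)) z2
  have h5 : x ≤ μ / (μ - 1) * (2 * z) := by
    have : μ / (μ - 1) * (2 * z) = ((l : ℝ) + 1) * (μ / (μ - 1) * Real.log μ) := by
      rw [hz]; ring
    rw [this]
    have h6 : (0 : ℝ) ≤ (l : ℝ) + 1 := by positivity
    nlinarith
  have h7 : x ^ 2 ≤ (μ / (μ - 1)) ^ 2 * (4 * z ^ 2) := by
    calc x ^ 2 ≤ (μ / (μ - 1) * (2 * z)) ^ 2 := pow_le_pow_left₀ hx h5 2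
      _ = _ := by ring
  have h8 : 4 * z ^ 2 ≤ 11 / 20 * (μ * μ ^ l) := by
    have : 0 ≤ z ^ 2 := by positivity
    linarith
  calc x ^ 2 ≤ (μ / (μ - 1)) ^ 2 * (4 * z ^ 2) := h7
    _ ≤ (μ / (μ - 1)) ^ 2 * (11 / 20 * (μ * μ ^ l)) :=
        mul_le_mul_of_nonneg_left h8 (by positivity)
    _ = _ := by ring

theorem RRep.halve (h : RRep μ (2 * n) a b τ σ f) (h1 : 1 ≤ μ') (h2 : μ' ≤ μ ^ 2)
    (ha : ∀ l < n, (μ' / μ ^ 2) ^ l * (2 * a (2 * l) + max 0 (2 * max (b (2 * l))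
      (a (2 * l + 1) / μ) - (a (2 * l) + b (2 * l + 1) / μ))) ≤ a' l)
    (hb : ∀ l < n, (μ' / μ ^ 2) ^ l * (2 * (b (2 * l + 1) / μ) + max 0 (2 * max (b (2 * l))
      (a (2 * l + 1) / μ) - (a (2 * l) + b (2 * l + 1) / μ))) ≤ b' l)
    (an : ∀ l, n ≤ l → a' l = 0) (bn : ∀ l, n ≤ l → b' l = 0)
    (hτ : (μ' / μ ^ 2) ^ n * τ ≤ τ') (hσ : (μ' / μ ^ 2) ^ n * (2 * σ) ≤ σ') :
    RRep μ' n a' b' τ' σ' fun x => 2 * f (2 * x) := by
  obtain ⟨g, hg, hfg⟩ := h.ex
  have h0 := h.one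
  have hμ : 0 < μ := by linarith
  have hκ0 : 0 ≤ μ' / μ ^ 2 := by positivity
  have hw : ∀ x : ℝ, wt μ' x * (2 * g (2 * x)) ≤
      ENNReal.ofReal ((μ' / μ ^ 2) ^ n) * (2 * (wt μ (2 * x) * g (2 * x))) := by
    intro x
    rcases lt_or_ge x n with hx | hx
    · rw [hg.zero (2 * x) (by push_cast; linarith)]
      simp
    · calc wt μ' x * (2 * g (2 * x))
          ≤ (ENNReal.ofReal ((μ' / μ ^ 2) ^ n) * wt μ (2 * x)) * (2 * g (2 * x)) :=
            mul_le_mul_left (wt_halve_S5 h0 h1 h2 hx) _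
        _ = _ := by ring
  refine ⟨h1, fun l => ?_, fun l => ?_, an, bn, ?_, ?_, fun x => 2 * g (2 * x),
    ⟨(hg.meas.comp (measurable_const_mul 2)).const_mul 2, fun x hx => ?_, ?_, fun x => ?_⟩,
    fun x => ?_⟩
  · rcases lt_or_ge l n with hl | hl
    · refine le_trans (mul_nonneg (by positivity) ?_) (ha l hl)
      exact add_nonneg (by linarith [h.a0 (2 * l)]) (le_max_left _ _)
    · rw [an l hl]
  · rcases lt_or_ge l n with hl | hl
    · refine le_trans (mul_nonneg (by positivity) ?_) (hb l hl)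
      have := div_nonneg (h.b0 (2 * l + 1)) hμ.le
      exact add_nonneg (by linarith) (le_max_left _ _)
    · rw [bn l hl]
  · exact le_trans (mul_nonneg (by positivity) h.t0) hτ
  · exact le_trans (mul_nonneg (by positivity) (by linarith [h.s0])) hσ
  · rw [hg.zero (2 * x) (by push_cast; linarith), mul_zero]
  · have hm : Measurable fun x => wt μ x * g x := (measurable_wt μ).mul hg.meas
    calc ∫⁻ x, wt μ' x * (2 * g (2 * x))
        ≤ ∫⁻ x, ENNReal.ofReal ((μ' / μ ^ 2) ^ n) * (2 * (wt μ (2 * x) * g (2 * x))) :=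
          lintegral_mono hw
      _ = ENNReal.ofReal ((μ' / μ ^ 2) ^ n) * ∫⁻ x, wt μ x * g x := by
          rw [lintegral_const_mul' _ _ ENNReal.ofReal_ne_top, lint_two_S5 hm]
      _ ≤ ENNReal.ofReal ((μ' / μ ^ 2) ^ n) * ENNReal.ofReal τ := mul_le_mul_right hg.mass _
      _ ≤ ENNReal.ofReal τ' := by
          rw [← ENNReal.ofReal_mul (by positivity)]
          exact ENNReal.ofReal_le_ofReal hτ
  · refine le_trans (hw x) ?_
    calc ENNReal.ofReal ((μ' / μ ^ 2) ^ n) * (2 * (wt μ (2 * x) * g (2 * x)))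
        ≤ ENNReal.ofReal ((μ' / μ ^ 2) ^ n) * (2 * ENNReal.ofReal σ) :=
          mul_le_mul_right (mul_le_mul_right (hg.sup _) _) _
      _ ≤ ENNReal.ofReal σ' := by
          rw [← ENNReal.ofReal_ofNat 2, ← ENNReal.ofReal_mul (by norm_num),
            ← ENNReal.ofReal_mul (by positivity)]
          exact ENNReal.ofReal_le_ofReal hσ
  · refine le_trans (mul_le_mul_right (hfg (2 * x)) 2) ?_
    rw [mul_add]
    refine add_le_add_left ?_ _
    rcases lt_or_ge x 0 with hx | hx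
    · have : ¬ (0 ≤ 2 * x) := by linarith
      simp [pl, this]
    · obtain ⟨l, y, y0, y1, rfl⟩ := exists_cell hx
      rcases lt_or_ge l n with hl | hl
      · refine pl_halve_S5 h0 h1 y0 y1 (le_max_left _ _) ?_ ?_ (ha l hl) (hb l hl)
        · refine le_trans ?_ (le_max_right _ _)
          linarith [le_max_left (b (2 * l)) (a (2 * l + 1) / μ)]
        · refine le_trans ?_ (le_max_right _ _)
          linarith [le_max_right (b (2 * l)) (a (2 * l + 1) / μ)]
      · have hf : 2 * n ≤ ⌊2 * ((l : ℝ) + y)⌋₊ := by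
          apply Nat.le_floor
          have : (n : ℝ) ≤ l := by exact_mod_cast hl
          push_cast
          linarith
        simp [pl, h.an _ hf, h.bn _ hf]

theorem RRep.init {h ρ c : ℝ} (hμ : 1 ≤ μ) (hh : 0 < h) (hρ : Real.exp (-h) ≤ ρ) (hc : h ≤ c)
    (h1 : ρ * μ < 1) (ha : ∀ l < n, c * (ρ * μ) ^ l ≤ a l)
    (hb : ∀ l < n, c * ρ * (ρ * μ) ^ l ≤ b l) (an : ∀ l, n ≤ l → a l = 0)
    (bn : ∀ l, n ≤ l → b l = 0) (hτ : c * (ρ * μ) ^ n ≤ τ * (1 - ρ * μ))
    (hσ : c * (ρ * μ) ^ n ≤ σ) : RRep μ n a b τ σ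
      ((Ici (0 : ℝ)).indicator fun x => ENNReal.ofReal (h * Real.exp (-(h * x)))) := by
  have hρ0 : 0 < ρ := lt_of_lt_of_le (Real.exp_pos _) hρ
  have hμ0 : 0 < μ := by linarith
  have hc0 : 0 < c := by linarith
  have hr0 : 0 < ρ * μ := by positivity
  have hρ1 : ρ ≤ 1 := by nlinarith
  have hm : Measurable fun x : ℝ => ENNReal.ofReal (h * Real.exp (-(h * x))) := by fun_prop
  have hcell : ∀ (l : ℕ) (y : ℝ), 0 ≤ y → y < 1 →
      wt μ (l + y) * (Ici (n : ℝ)).indicator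
        (fun x => ENNReal.ofReal (h * Real.exp (-(h * x)))) (l + y) ≤
      ENNReal.ofReal (if n ≤ l then c * (ρ * μ) ^ l else 0) := by
    intro l y y0 y1
    rcases lt_or_ge l n with hl | hl
    · have : (l : ℝ) + 1 ≤ n := by exact_mod_cast hl
      rw [indicator_of_notMem (by rw [mem_Ici]; linarith), mul_zero]
      exact zero_le
    · have : (n : ℝ) ≤ l := by exact_mod_cast hl
      rw [indicator_of_mem (by rw [mem_Ici]; linarith), if_pos hl, wt_cell μ l y0 y1,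
        ← ENNReal.ofReal_mul (by positivity)]
      apply ENNReal.ofReal_le_ofReal
      have h2 := exp_cell_S5 hh hρ hc l y0 y1
      have h3 : c * ρ ^ l * ((1 - y) + ρ * y) ≤ c * ρ ^ l * 1 :=
        mul_le_mul_of_nonneg_left (by nlinarith) (by positivity)
      calc μ ^ l * (h * Real.exp (-(h * (l + y)))) ≤ μ ^ l * (c * ρ ^ l * 1) :=
            mul_le_mul_of_nonneg_left (h2.trans h3) (by positivity)
        _ = _ := by rw [mul_pow]; ring
  have hzero : ∀ x : ℝ, x < n → (Ici (n : ℝ)).indicator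
      (fun x => ENNReal.ofReal (h * Real.exp (-(h * x)))) x = 0 := fun x hx =>
    indicator_of_notMem (by rw [mem_Ici]; linarith) _
  have hτ0 : 0 ≤ τ := by
    have h2 : 0 ≤ τ * (1 - ρ * μ) := le_trans (by positivity) hτ
    exact nonneg_of_mul_nonneg_left h2 (by linarith)
  refine ⟨hμ, fun l => ?_, fun l => ?_, an, bn, hτ0, le_trans (by positivity) hσ,
    (Ici (n : ℝ)).indicator fun x => ENNReal.ofReal (h * Real.exp (-(h * x))),
    ⟨hm.indicator measurableSet_Ici, hzero, ?_, fun x => ?_⟩, fun x => ?_⟩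
  · rcases lt_or_ge l n with hl | hl
    · exact le_trans (by positivity) (ha l hl)
    · rw [an l hl]
  · rcases lt_or_ge l n with hl | hl
    · exact le_trans (by positivity) (hb l hl)
    · rw [bn l hl]
  · have hs : HasSum (fun l : ℕ => if n ≤ l then c * (ρ * μ) ^ l else 0)
        (c * (ρ * μ) ^ n * (1 - ρ * μ)⁻¹) := by
      rw [← hasSum_nat_add_iff' n, Finset.sum_eq_zero (fun i hi => if_neg
        (not_le.2 (Finset.mem_range.1 hi))), sub_zero]
      have := (hasSum_geometric_of_lt_one hr0.le h1).mul_left (c * (ρ * μ) ^ n)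
      refine this.congr_fun ?_
      intro i
      rw [if_pos (Nat.le_add_left _ _), pow_add]
      ring
    have hm2 : Measurable fun x => wt μ x * (Ici (n : ℝ)).indicator
        (fun x => ENNReal.ofReal (h * Real.exp (-(h * x)))) x :=
      (measurable_wt μ).mul (hm.indicator measurableSet_Ici)
    rw [lint_cells hm2
      (fun x hx => by rw [hzero x (lt_of_lt_of_le hx (Nat.cast_nonneg n)), mul_zero])]
    calc _ ≤ ∑' l : ℕ, ENNReal.ofReal (if n ≤ l then c * (ρ * μ) ^ l else 0) := by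
          refine ENNReal.tsum_le_tsum fun l => ?_
          calc _ ≤ ∫⁻ y in Ico (0 : ℝ) 1,
                ENNReal.ofReal (if n ≤ l then c * (ρ * μ) ^ l else 0) :=
                setLIntegral_mono' measurableSet_Ico fun y hy => hcell l y hy.1 hy.2
            _ = _ := by simp
      _ = ENNReal.ofReal (c * (ρ * μ) ^ n * (1 - ρ * μ)⁻¹) := by
          rw [← ENNReal.ofReal_tsum_of_nonneg (fun l => by split_ifs <;> positivity) hs.summable,
            hs.tsum_eq]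
      _ ≤ ENNReal.ofReal τ := by
          apply ENNReal.ofReal_le_ofReal
          rw [← div_eq_mul_inv, div_le_iff₀ (by linarith)]
          exact hτ
  · rcases lt_or_ge x n with hx | hx
    · rw [hzero x hx, mul_zero]
      exact zero_le
    · obtain ⟨l, y, y0, y1, rfl⟩ := exists_cell (le_trans (Nat.cast_nonneg n) hx)
      refine le_trans (hcell l y y0 y1) (ENNReal.ofReal_le_ofReal (le_trans ?_ hσ))
      split_ifs with hl
      · exact mul_le_mul_of_nonneg_left (pow_le_pow_of_le_one hr0.le h1.le hl) hc0.le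
      · positivity
  · rcases lt_or_ge x 0 with hx | hx
    · rw [indicator_of_notMem (by rw [mem_Ici]; linarith)]
      exact zero_le
    · rw [indicator_of_mem (mem_Ici.2 hx)]
      rcases lt_or_ge x n with hn | hn
      · obtain ⟨l, y, y0, y1, rfl⟩ := exists_cell hx
        have hl : l < n := by
          have : (l : ℝ) < n := by linarith
          exact_mod_cast this
        refine le_trans ?_ le_self_add
        rw [pl_cell μ a b l y0 y1]
        apply ENNReal.ofReal_le_ofReal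
        refine le_trans (exp_cell_S5 hh hρ hc l y0 y1) ?_
        rw [le_div_iff₀ (by positivity)]
        have e : c * ρ ^ l * ((1 - y) + ρ * y) * μ ^ l =
            c * (ρ * μ) ^ l * (1 - y) + c * ρ * (ρ * μ) ^ l * y := by
          rw [mul_pow]; ring
        rw [e]
        exact add_le_add (mul_le_mul_of_nonneg_right (ha l hl) (by linarith))
          (mul_le_mul_of_nonneg_right (hb l hl) y0)
      · rw [indicator_of_mem (mem_Ici.2 hn)]
        exact le_add_self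

theorem TB.moment {N K : ℝ} (h : TB μ N K f) (hμ : 1 < μ) :
    ∫⁻ x, ENNReal.ofReal (x ^ 2) * f x ≤
      ENNReal.ofReal (11 / 20 * μ * (μ / (μ - 1)) ^ 2 * N) := by
  obtain ⟨g, hg, hfg⟩ := h
  have hC : 0 ≤ 11 / 20 * μ * (μ / (μ - 1)) ^ 2 := by positivity
  calc ∫⁻ x, ENNReal.ofReal (x ^ 2) * f x
      ≤ ∫⁻ x, ENNReal.ofReal (11 / 20 * μ * (μ / (μ - 1)) ^ 2) * (wt μ x * g x) := by
        refine lintegral_mono fun x => ?_
        refine le_trans (mul_le_mul_right (hfg x) _) ?_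
        rcases lt_or_ge x 0 with hx | hx
        · rw [hg.zero x (by simpa using hx)]
          simp
        · rw [← mul_assoc]
          refine mul_le_mul_left ?_ _
          unfold wt
          rw [← ENNReal.ofReal_mul hC]
          exact ENNReal.ofReal_le_ofReal (sq_le_S5 hμ hx)
    _ = ENNReal.ofReal (11 / 20 * μ * (μ / (μ - 1)) ^ 2) * ∫⁻ x, wt μ x * g x :=
        lintegral_const_mul' _ _ ENNReal.ofReal_ne_top
    _ ≤ ENNReal.ofReal (11 / 20 * μ * (μ / (μ - 1)) ^ 2) * ENNReal.ofReal N :=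
        mul_le_mul_right hg.mass _
    _ = _ := (ENNReal.ofReal_mul hC).symm

end Pool.Agent.P.SM
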