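import Pool.Agent.P.MP_411dac_pr.K5
import Pool.Agent.P.MP_411dac_pr.S5

/-!
Tables, coarser cells and the start.
Hints. `dc_spec`: induction on k, generalising c, A, B, l; the lower half is < 2 ^ (w * 2 ^ k). In
`halve_rep` no digit is saturated: it is at most k and `fit` gives k < 2 ^ (w - 1). The digits 0 and 1
(width w) of A' only depend on A' % 2 ^ (2 * w) = dig (2 * w) A l; they are the digits 2 * l, 2 * l + 1
of A.
-/

set_option autoImplicit false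
set_option linter.unusedVariables false

noncomputable section

namespace Pool.Agent.P.SM

open MeasureTheory ProbabilityTheory Set
open scoped ENNReal

variable {p p' : Pm} {x : V} {f : ℝ → ℝ≥0∞}

theorem gp_ge (r m c : ℕ) {d : ℕ} (hd : 0 < d) : (c : ℝ) * ((r : ℝ) / d) ^ m ≤ gp r d m c := by
  have h1 := div_succ_ge (r ^ m * 2 ^ 64) (pow_pos hd m)
  have h2 := div_succ_ge (c * (r ^ m * 2 ^ 64 / d ^ m + 1)) (pow_pos (by norm_num : 0 < 2) 64)
  unfold gp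
  rw [Nat.shiftLeft_eq, Nat.shiftRight_eq_div_pow]
  refine le_trans ?_ h2
  rw [le_div_iff₀ (by positivity), Nat.cast_mul, mul_assoc]
  refine mul_le_mul_of_nonneg_left (le_trans (le_of_eq ?_) h1) (Nat.cast_nonneg c)
  push_cast
  rw [div_pow]
  ring

theorem dc_lt (lf : ℕ → ℕ → ℕ → ℕ) (i r d : ℕ) {w : ℕ} (hw : 0 < w) (k c A B : ℕ) :
    dc lf i w r d k c A B < 2 ^ (w * 2 ^ k) := by
  induction k generalizing c A B with
  | zero =>
    rw [dc, Nat.one_shiftLeft, pow_zero, mul_one]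
    exact lt_of_le_of_lt (min_le_right _ _) (Nat.pow_lt_pow_right (by norm_num) (by omega))
  | succ k ih =>
    rw [dc, frc_eq, Nat.shiftLeft_eq, pow_succ, ← mul_assoc, mul_two, pow_add]
    have h1 := ih c (low i (2 ^ k) A) (low i (2 ^ k) B)
    have h2 := ih (gp r d (2 ^ k) c) (A >>> (i * 2 ^ k)) (B >>> (i * 2 ^ k))
    generalize dc lf i w r d k c (low i (2 ^ k) A) (low i (2 ^ k) B) = X at h1
    generalize dc lf i w r d k (gp r d (2 ^ k) c) (A >>> (i * 2 ^ k)) (B >>> (i * 2 ^ k)) = Y at h2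
    generalize 2 ^ (w * 2 ^ k) = T at h1 h2
    calc X + Y * T < (Y + 1) * T := by rw [add_mul, one_mul]; omega
      _ ≤ T * T := Nat.mul_le_mul_right _ h2

theorem dig_cat_K6 {w n X : ℕ} (hw : 0 < w) (hX : X < 2 ^ (w * n)) (Y l : ℕ) :
    dig w (X + Y <<< (w * n)) l = if l < n then dig w X l else dig w Y (l - n) := by
  rw [dig_add hw]
  · rw [dig_shl]
    by_cases h : l < n
    · rw [if_pos h, if_neg (by omega), add_zero]
    · rw [if_neg h, if_pos (by omega), dig_of_lt hX (by omega), zero_add]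
  · intro j
    rw [dig_shl]
    by_cases h : n ≤ j
    · rw [if_pos h, dig_of_lt hX h, zero_add]
      exact dig_lt _ _ _
    · rw [if_neg h, add_zero]
      exact dig_lt _ _ _

theorem dc_spec (lf : ℕ → ℕ → ℕ → ℕ) (i r : ℕ) {w d : ℕ} (hw : 0 < w) (hd : 0 < d)
    (k c A B : ℕ) {l : ℕ} (hl : l < 2 ^ k) : ∃ c' A' B' : ℕ, (c : ℝ) * ((r : ℝ) / d) ^ l ≤ c' ∧
      A' % 2 ^ i = dig i A l ∧ B' % 2 ^ i = dig i B l ∧
      dig w (dc lf i w r d k c A B) l = min (lf c' A' B') (2 ^ (w - 1)) := by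
  induction k generalizing c A B l with
  | zero =>
    obtain rfl : l = 0 := by omega
    refine ⟨c, A, B, by simp, by simp [dig_eq], by simp [dig_eq], ?_⟩
    have h := dc_lt lf i r d hw 0 c A B
    rw [pow_zero, mul_one] at h
    rw [dig_small h, if_pos rfl, dc, Nat.one_shiftLeft]
  | succ k ih =>
    rw [dc, frc_eq, dig_cat_K6 hw (dc_lt lf i r d hw k _ _ _)]
    by_cases h : l < 2 ^ k
    · obtain ⟨c', A', B', h1, h2, h3, h4⟩ := ih c (low i (2 ^ k) A) (low i (2 ^ k) B) h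
      rw [dig_low, if_pos h] at h2 h3
      exact ⟨c', A', B', h1, h2, h3, by rw [if_pos h, h4]⟩
    · obtain ⟨m, rfl⟩ : ∃ m, l = 2 ^ k + m := ⟨l - 2 ^ k, by omega⟩
      have hm : m < 2 ^ k := by rw [pow_succ] at hl; omega
      obtain ⟨c', A', B', h1, h2, h3, h4⟩ :=
        ih (gp r d (2 ^ k) c) (A >>> (i * 2 ^ k)) (B >>> (i * 2 ^ k)) hm
      rw [dig_shr] at h2 h3
      refine ⟨c', A', B', le_trans ?_ h1, h2, h3, ?_⟩
      · rw [pow_add, ← mul_assoc]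
        exact mul_le_mul_of_nonneg_right (gp_ge r _ c hd) (by positivity)
      · rw [if_neg h, Nat.add_sub_cancel_left, h4]

theorem dig_two_K6 {w A A' l : ℕ} (h : A' % 2 ^ (2 * w) = dig (2 * w) A l) {j : ℕ} (hj : j < 2) :
    dig w A' j = dig w A (2 * l + j) := by
  have h1 : low w 2 A' = low w 2 (A >>> (w * (2 * l))) := by
    rw [low_eq, low_eq, mul_comm w 2, h, dig_eq, Nat.shiftRight_eq_div_pow]
    congr 3
    ring
  have h2 := dig_low w 2 A' j
  rw [h1, dig_low, if_pos hj, if_pos hj, dig_shr] at h2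
  exact h2.symm

theorem fit_lt_K6 {k : ℕ} (h : fit p k = true) : 4 * (p.n + 1) * (k + 1) < 2 ^ p.w := by
  unfold fit at h
  rwa [Nat.blt_eq, Nat.one_shiftLeft] at h

theorem unsat_K6 {k m v : ℕ} (h : fit p k = true) (hw : 0 < p.w) (hv : v ≤ k)
    (hm : v = min m (2 ^ (p.w - 1))) : v = m := by
  have h1 := fit_lt_K6 h
  have h2 : 2 ^ p.w = 2 * 2 ^ (p.w - 1) := by
    rw [← pow_succ']
    congr 1
    omega
  have h3 : 4 * (k + 1) ≤ 4 * (p.n + 1) * (k + 1) := by nlinarith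
  omega

theorem lift_ge_K6 (hu : 0 < p.u) (A B : ℕ) :
    max 0 (2 * max ((dig p.w B 0 : ℝ) / 2 ^ p.F) ((dig p.w A 1 : ℝ) / 2 ^ p.F / p.mu) -
      ((dig p.w A 0 : ℝ) / 2 ^ p.F + (dig p.w B 1 : ℝ) / 2 ^ p.F / p.mu)) ≤
      (lift p A B : ℝ) / (p.u * 2 ^ p.F) := by
  have hu' : (0 : ℝ) < p.u := by exact_mod_cast hu
  refine max_le (by positivity) ?_
  unfold lift Pm.mu
  rw [Nat.shiftLeft_eq, Nat.shiftLeft_eq]
  generalize dig p.w A 0 = a0
  generalize dig p.w A 1 = a1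
  generalize dig p.w B 0 = b0
  generalize dig p.w B 1 = b1
  have h1 : p.u * b0 ≤ max (p.u * b0) (a1 * 2 ^ p.g) := le_max_left _ _
  have h2 : a1 * 2 ^ p.g ≤ max (p.u * b0) (a1 * 2 ^ p.g) := le_max_right _ _
  generalize max (p.u * b0) (a1 * 2 ^ p.g) = M at h1 h2
  have h3 : 2 * M ≤ (2 * M - (p.u * a0 + b1 * 2 ^ p.g)) + (p.u * a0 + b1 * 2 ^ p.g) := by omega
  generalize 2 * M - (p.u * a0 + b1 * 2 ^ p.g) = L at h3
  have h1' : (p.u : ℝ) * b0 ≤ M := by exact_mod_cast h1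
  have h2' : (a1 : ℝ) * 2 ^ p.g ≤ M := by exact_mod_cast h2
  have h3' : 2 * (M : ℝ) ≤ L + (p.u * a0 + b1 * 2 ^ p.g) := by exact_mod_cast h3
  have hD : (0 : ℝ) < p.u * 2 ^ p.F := by positivity
  have e1 : (b0 : ℝ) / 2 ^ p.F = p.u * b0 / (p.u * 2 ^ p.F) := by field_simp
  have e2 : (a1 : ℝ) / 2 ^ p.F / (p.u / 2 ^ p.g) = a1 * 2 ^ p.g / (p.u * 2 ^ p.F) := by field_simp
  have e3 : (a0 : ℝ) / 2 ^ p.F = p.u * a0 / (p.u * 2 ^ p.F) := by field_simp
  have e4 : (b1 : ℝ) / 2 ^ p.F / (p.u / 2 ^ p.g) = b1 * 2 ^ p.g / (p.u * 2 ^ p.F) := by field_simp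
  have h4 : max ((b0 : ℝ) / 2 ^ p.F) (a1 / 2 ^ p.F / (p.u / 2 ^ p.g)) ≤ M / (p.u * 2 ^ p.F) := by
    rw [e1, e2]
    exact max_le (div_le_div_of_nonneg_right h1' hD.le) (div_le_div_of_nonneg_right h2' hD.le)
  have h5 : 2 * ((M : ℝ) / (p.u * 2 ^ p.F)) - (a0 / 2 ^ p.F + b1 / 2 ^ p.F / (p.u / 2 ^ p.g)) ≤
      L / (p.u * 2 ^ p.F) := by
    rw [e3, e4, ← mul_div_assoc, ← add_div, ← sub_div]
    exact div_le_div_of_nonneg_right (by linarith) hD.le
  linarith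

theorem lf_ge_K6 (hu : 0 < p.u) {κ y : ℝ} {c Y : ℕ} (hc : ((1 <<< 64 : ℕ) : ℝ) * κ ≤ c)
    (hκ : 0 ≤ κ) (hy : y ≤ (Y : ℝ) / (p.u * 2 ^ p.F)) :
    κ * y ≤ ((((c * Y) <<< p'.F) / (p.u <<< (p.F + 64)) + 1 : ℕ) : ℝ) / 2 ^ p'.F := by
  have hu' : (0 : ℝ) < p.u := by exact_mod_cast hu
  have h1 := div_succ_ge ((c * Y) <<< p'.F) (d := p.u <<< (p.F + 64))
    (by rw [Nat.shiftLeft_eq]; positivity)
  rw [le_div_iff₀ (by positivity)]
  refine le_trans ?_ h1
  rw [Nat.one_shiftLeft] at hc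
  rw [Nat.shiftLeft_eq, Nat.shiftLeft_eq]
  have h2 : κ ≤ c / 2 ^ 64 := by
    rw [le_div_iff₀ (by positivity), mul_comm]
    exact_mod_cast hc
  have h3 : κ * y ≤ c / 2 ^ 64 * ((Y : ℝ) / (p.u * 2 ^ p.F)) :=
    le_trans (mul_le_mul_of_nonneg_left hy hκ) (mul_le_mul_of_nonneg_right h2 (by positivity))
  refine le_trans (mul_le_mul_of_nonneg_right h3 (by positivity)) (le_of_eq ?_)
  rw [Nat.cast_mul, Nat.cast_mul, Nat.cast_mul, Nat.cast_pow, Nat.cast_pow, Nat.cast_ofNat, pow_add]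
  field_simp

theorem tail_ge_K6 {r d n t F F' : ℕ} (hd : 0 < d) :
    ((r : ℝ) / d) ^ n * ((t : ℝ) / 2 ^ F) ≤
      (((gp r d n (t <<< F') >>> F) + 1 : ℕ) : ℝ) / 2 ^ F' := by
  have h1 := div_succ_ge (gp r d n (t <<< F')) (pow_pos (by norm_num : 0 < 2) F)
  have h2 := gp_ge r n (t <<< F') hd
  rw [le_div_iff₀ (by positivity), Nat.shiftRight_eq_div_pow]
  refine le_trans ?_ h1
  rw [Nat.cast_pow, Nat.cast_ofNat]
  refine le_trans (le_of_eq ?_) (div_le_div_of_nonneg_right h2 (by positivity))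
  rw [Nat.shiftLeft_eq]
  push_cast
  ring

theorem halve_rep (hu : 0 < p.u) (hp' : p'.Ok) (hn : p.n = 2 * p'.n) (hx : Rep p x f) :
    Rep p' (halve p p' x) fun t => 2 * f (2 * t) := by
  intro hok
  have hw := hp'.w_pos
  have hu' : (0 : ℝ) < p.u := by exact_mod_cast hu
  have hd : 0 < (p.u * p.u) <<< p'.g := by rw [Nat.shiftLeft_eq]; positivity
  have hκ : p'.mu / p.mu ^ 2 =
      ((p'.u <<< (2 * p.g) : ℕ) : ℝ) / (((p.u * p.u) <<< p'.g : ℕ) : ℝ) := by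
    rw [Nat.shiftLeft_eq, Nat.shiftLeft_eq]
    unfold Pm.mu
    push_cast
    rw [mul_comm 2 p.g, pow_mul]
    field_simp
  have hμ : 0 < p.mu := by unfold Pm.mu; positivity
  simp only [halve, Bool.and_eq_true, Nat.ble_eq] at hok
  obtain ⟨⟨⟨h1, h2⟩, h3⟩, h4⟩ := hok
  obtain ⟨hwf, hr⟩ := hx h1
  rw [hn] at hr
  refine ⟨⟨low_lt _ _ _, low_lt _ _ _, fun l => le_orf_left _ _ _ _ _,
    fun l => le_orf_right _ _ _ _ _, fit_lt_K6 h2⟩, ?_⟩
  refine hr.halve hp'.one_le ?_ ?_ ?_ ?_ ?_ ?_ ?_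
  · rw [← div_le_one (by positivity), hκ, div_le_one (by exact_mod_cast hd)]
    exact_mod_cast h3
  · intro l hl
    obtain ⟨c', A', B', k1, k2, k3, k4⟩ := dc_spec (lfa p p') (2 * p.w) (p'.u <<< (2 * p.g)) hw hd
      p'.k (1 <<< 64) x.a x.b (lt_of_lt_of_le hl h4)
    have k5 : dig p'.w (halve p p' x).a l = lfa p p' c' A' B' :=
      unsat_K6 h2 hw (le_orf_left _ _ _ _ _) (by
        rw [← k4]; exact (dig_low _ _ _ _).trans (if_pos hl))
    have k6 := lift_ge_K6 hu A' B'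
    unfold val
    rw [k5, hκ]
    refine lf_ge_K6 hu k1 (by positivity) ?_
    rw [← dig_two_K6 k2 (j := 1) (by norm_num), ← dig_two_K6 k3 (j := 1) (by norm_num),
      ← add_zero (2 * l), ← dig_two_K6 k2 (j := 0) (by norm_num),
      ← dig_two_K6 k3 (j := 0) (by norm_num)]
    refine le_trans (add_le_add le_rfl k6) (le_of_eq ?_)
    push_cast
    field_simp
  · intro l hl
    obtain ⟨c', A', B', k1, k2, k3, k4⟩ := dc_spec (lfb p p') (2 * p.w) (p'.u <<< (2 * p.g)) hw hd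
      p'.k (1 <<< 64) x.a x.b (lt_of_lt_of_le hl h4)
    have k5 : dig p'.w (halve p p' x).b l = lfb p p' c' A' B' :=
      unsat_K6 h2 hw (le_orf_right _ _ _ _ _) (by
        rw [← k4]; exact (dig_low _ _ _ _).trans (if_pos hl))
    have k6 := lift_ge_K6 hu A' B'
    unfold val
    rw [k5, hκ]
    refine lf_ge_K6 hu k1 (by positivity) ?_
    rw [← dig_two_K6 k2 (j := 1) (by norm_num), ← dig_two_K6 k3 (j := 1) (by norm_num),
      ← add_zero (2 * l), ← dig_two_K6 k2 (j := 0) (by norm_num),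
      ← dig_two_K6 k3 (j := 0) (by norm_num)]
    refine le_trans (add_le_add le_rfl k6) (le_of_eq ?_)
    rw [Nat.shiftLeft_eq]
    unfold Pm.mu
    push_cast
    field_simp
  · intro l hl
    have k5 : dig p'.w (halve p p' x).a l = 0 := (dig_low _ _ _ _).trans (if_neg (by omega))
    unfold val
    rw [k5, Nat.cast_zero, zero_div]
  · intro l hl
    have k5 : dig p'.w (halve p p' x).b l = 0 := (dig_low _ _ _ _).trans (if_neg (by omega))
    unfold val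
    rw [k5, Nat.cast_zero, zero_div]
  · rw [hκ]
    exact tail_ge_K6 hd
  · rw [hκ]
    refine le_trans (le_of_eq ?_) (tail_ge_K6 (t := 2 * x.s) (F := p.F) hd)
    push_cast
    ring

theorem reg1_rep (hp : p.Ok) (hp' : p'.Ok) (hx : Rep p x f) :
    Rep p' (reg1 p p' x) fun t => 2 * f (2 * t) :=
  halve_rep (p := { p with n := 2 * p'.n }) (lt_of_lt_of_le (pow_pos (by norm_num) _) hp.1) hp' rfl
    (ext_rep hp _ hx)

theorem shr_ge_K6 {y : ℝ} {c F : ℕ} (h : y * 2 ^ 32 ≤ c) :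
    y / 2 ^ F ≤ (((c >>> 32) + 1 : ℕ) : ℝ) / 2 ^ F := by
  have h1 := div_succ_ge c (pow_pos (by norm_num : 0 < 2) 32)
  rw [Nat.shiftRight_eq_div_pow]
  refine div_le_div_of_nonneg_right (le_trans ?_ h1) (by positivity)
  rw [le_div_iff₀ (by positivity), Nat.cast_pow, Nat.cast_ofNat]
  exact h

theorem init_rep (hp : p.Ok) {r d c : ℕ} {h : ℝ} (hh : 0 < h) (hd : 0 < d)
    (hr : Real.exp (-h) ≤ (r : ℝ) / d) (hc : h * 2 ^ p.F ≤ c) : Rep p (init p r d c)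
      ((Ici (0 : ℝ)).indicator fun x => ENNReal.ofReal (h * Real.exp (-(h * x)))) := by
  intro hok
  have hw := hp.w_pos
  have hd' : 0 < d <<< p.g := by rw [Nat.shiftLeft_eq]; positivity
  have hd0 : (0 : ℝ) < d := by exact_mod_cast hd
  have hd1 : (0 : ℝ) < (d <<< p.g : ℕ) := by exact_mod_cast hd'
  have hκ : (r : ℝ) / d * p.mu = ((r * p.u : ℕ) : ℝ) / ((d <<< p.g : ℕ) : ℝ) := by
    rw [Nat.shiftLeft_eq]
    unfold Pm.mu
    push_cast
    field_simp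
  have h32 : ((c <<< 32 : ℕ) : ℝ) = c * 2 ^ 32 := by
    rw [Nat.shiftLeft_eq, Nat.cast_mul, Nat.cast_pow, Nat.cast_ofNat]
  simp only [init, Bool.and_eq_true, Nat.ble_eq, Nat.blt_eq] at hok
  obtain ⟨⟨h2, h3⟩, h4⟩ := hok
  have h3' : ((r * p.u : ℕ) : ℝ) < (d <<< p.g : ℕ) := by exact_mod_cast h3
  have hG := gp_ge (r * p.u) p.n c hd'
  refine ⟨⟨low_lt _ _ _, low_lt _ _ _, fun l => le_orf_left _ _ _ _ _,
    fun l => le_orf_right _ _ _ _ _, fit_lt_K6 h2⟩, ?_⟩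
  refine RRep.init (ρ := (r : ℝ) / d) (c := c / 2 ^ p.F) hp.one_le hh hr ?_ ?_ ?_ ?_ ?_ ?_ ?_ ?_
  · rwa [le_div_iff₀ (by positivity)]
  · rw [hκ, div_lt_one hd1]
    exact h3'
  · intro l hl
    obtain ⟨c', A', B', k1, -, -, k4⟩ := dc_spec (fun c _ _ => (c >>> 32) + 1) 1 (r * p.u) hw hd'
      p.k (c <<< 32) 0 0 (lt_of_lt_of_le hl h4)
    have k5 : dig p.w (init p r d c).a l = (c' >>> 32) + 1 :=
      unsat_K6 h2 hw (le_orf_left _ _ _ _ _) (by
        rw [← k4]; exact (dig_low _ _ _ _).trans (if_pos hl))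
    unfold val
    rw [k5, hκ, div_mul_eq_mul_div]
    refine shr_ge_K6 (le_trans (le_of_eq ?_) k1)
    rw [h32]
    ring
  · intro l hl
    obtain ⟨c', A', B', k1, -, -, k4⟩ := dc_spec (fun c _ _ => (c >>> 32) + 1) 1 (r * p.u) hw hd'
      p.k (gp r d 1 (c <<< 32)) 0 0 (lt_of_lt_of_le hl h4)
    have k5 : dig p.w (init p r d c).b l = (c' >>> 32) + 1 :=
      unsat_K6 h2 hw (le_orf_right _ _ _ _ _) (by
        rw [← k4]; exact (dig_low _ _ _ _).trans (if_pos hl))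
    have k6 := gp_ge r 1 (c <<< 32) hd
    rw [h32, pow_one] at k6
    unfold val
    rw [k5, hκ, div_mul_eq_mul_div (c : ℝ), div_mul_eq_mul_div (c * _ : ℝ)]
    refine shr_ge_K6 (le_trans ?_ k1)
    have k7 : (0 : ℝ) ≤ (((r * p.u : ℕ) : ℝ) / ((d <<< p.g : ℕ) : ℝ)) ^ l :=
      pow_nonneg (div_nonneg (Nat.cast_nonneg _) (Nat.cast_nonneg _)) _
    refine le_trans (le_of_eq ?_) (mul_le_mul_of_nonneg_right k6 k7)
    ring
  · intro l hl
    have k5 : dig p.w (init p r d c).a l = 0 := (dig_low _ _ _ _).trans (if_neg (by omega))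
    unfold val
    rw [k5, Nat.cast_zero, zero_div]
  · intro l hl
    have k5 : dig p.w (init p r d c).b l = 0 := (dig_low _ _ _ _).trans (if_neg (by omega))
    unfold val
    rw [k5, Nat.cast_zero, zero_div]
  · have k1 := div_succ_ge (gp (r * p.u) (d <<< p.g) p.n c * (d <<< p.g))
      (d := d <<< p.g - r * p.u) (by omega)
    have k2 : (init p r d c).t = gp (r * p.u) (d <<< p.g) p.n c * (d <<< p.g) /
      (d <<< p.g - r * p.u) + 1 := by simp only [init]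
    rw [← k2, Nat.cast_sub h3.le, Nat.cast_mul, div_le_iff₀ (sub_pos.2 h3')] at k1
    rw [hκ, div_mul_eq_mul_div, div_mul_eq_mul_div]
    refine div_le_div_of_nonneg_right (le_trans hG ?_) (by positivity)
    rw [one_sub_div hd1.ne', ← mul_div_assoc, le_div_iff₀ hd1]
    exact k1
  · have k2 : (init p r d c).s = gp (r * p.u) (d <<< p.g) p.n c := by simp only [init]
    rw [hκ, div_mul_eq_mul_div, k2]
    exact div_le_div_of_nonneg_right hG (by positivity)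

end Pool.Agent.P.SM
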