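import Pool.Agent.P.MP_411dac_pr.M2

/-!
One gap, all words, short sums.
Hints. `Cv.gap`: the law of ω 0 is expMeasure 1 = withDensity (exponentialPDF 1); scale by h.
`Cv.all`: let U N = the words with 1 ≤ k ≤ N gaps; U (N + 1) ≤ gapL ⊔ cat gapL (U N) and
γ + γ ⋆ u ≤ u for u = h on [0, ∞). Since U N is itself `Cyl`, mu h (U N) ≤ withDensity u, and
mu h allL A is the supremum of the partial sums. `short`: the words with exactly m + 1 gaps have a
density f with ∫ exp (-x) * f ≤ 2⁻¹ ^ (m + 1) (h = 1, `lint_lc`); exp (1 / 10) / 2 ≤ 3 / 5.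
-/

set_option autoImplicit false
set_option linter.unusedVariables false

noncomputable section

namespace Pool.Agent.P.SM

open MeasureTheory ProbabilityTheory Set
open scoped ENNReal

variable {h : ℝ}

theorem pdf_M4 (h : ℝ) :
    ((Ici (0 : ℝ)).indicator fun x => ENNReal.ofReal (h * Real.exp (-(h * x)))) =
      exponentialPDF h := by
  funext x
  by_cases hx : 0 ≤ x
  · rw [indicator_of_mem (mem_Ici.2 hx), exponentialPDF_of_nonneg hx]
  · rw [indicator_of_notMem (fun h' => hx (mem_Ici.1 h')), exponentialPDF_of_neg (not_le.1 hx)]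

theorem meas_pdf_M4 (h : ℝ) : Measurable (exponentialPDF h) :=
  (measurable_exponentialPDFReal h).ennreal_ofReal

theorem scale_M4 (hh : 0 < h) (y : ℝ) :
    ENNReal.ofReal h * exponentialPDF 1 (h * y) = exponentialPDF h y := by
  by_cases hy : 0 ≤ y
  · rw [exponentialPDF_of_nonneg hy, exponentialPDF_of_nonneg (mul_nonneg hh.le hy),
      ← ENNReal.ofReal_mul hh.le, one_mul, one_mul]
  · rw [exponentialPDF_of_neg (not_le.1 hy),
      exponentialPDF_of_neg (mul_neg_of_pos_of_neg hh (not_le.1 hy)), mul_zero]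

theorem gap_M4 (hh : 0 < h) : Cv h gapL (exponentialPDF h) := by
  refine ⟨meas_pdf_M4 h, gapL, le_rfl, ⟨fun k => MeasurableSet.const _, fun k ω ω' _ hk => hk⟩, ?_⟩
  refine Measure.le_iff.2 fun A hA => le_of_eq ?_
  have hB : MeasurableSet {x : ℝ | x / h ∈ A} := (measurable_id.div_const h) hA
  rw [mu_apply h gapL hA, tsum_eq_single 1, withDensity_apply _ hA]
  · have e1 : ({ω : Sq | S 1 ω / h ∈ A} ∩ gapL 1) = (fun ω : Sq => ω 0) ⁻¹' {x : ℝ | x / h ∈ A} := by
      ext ω
      simp [gapL, S]
    have e2 : Q0.map (fun ω : Sq => ω 0) = expMeasure 1 :=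
      Measure.infinitePi_map_eval (fun _ : ℕ => expMeasure 1) 0
    rw [e1, ← Measure.map_apply (measurable_pi_apply 0) hB, e2]
    have e3 : expMeasure 1 = volume.withDensity (exponentialPDF 1) := rfl
    rw [e3, withDensity_apply _ hB, ← lintegral_indicator hB, ← lintegral_indicator hA]
    have hm : Measurable ({x : ℝ | x / h ∈ A}.indicator (exponentialPDF 1)) :=
      (meas_pdf_M4 1).indicator hB
    have hm' : Measurable fun y : ℝ =>
        {x : ℝ | x / h ∈ A}.indicator (exponentialPDF 1) (h * y) :=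
      hm.comp (measurable_const_mul h)
    conv_lhs => rw [← Real.smul_map_volume_mul_left hh.ne']
    rw [lintegral_smul_measure, lintegral_map hm (measurable_const_mul h), smul_eq_mul,
      ← lintegral_const_mul _ hm', abs_of_pos hh]
    refine lintegral_congr fun y => ?_
    have hy : h * y / h = y := by field_simp
    by_cases hyA : y ∈ A
    · rw [indicator_of_mem hyA, indicator_of_mem (by rw [mem_ofPred_eq, hy]; exact hyA),
        scale_M4 hh]
    · rw [indicator_of_notMem hyA, indicator_of_notMem (by rw [mem_ofPred_eq, hy]; exact hyA),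
        mul_zero]
  · intro k hk
    have : gapL k = ∅ := by
      ext ω
      simp [gapL, hk]
    rw [this, inter_empty, measure_empty]

theorem Cv.gap (hh : 0 < h) : Cv h gapL
    ((Ici (0 : ℝ)).indicator fun x => ENNReal.ofReal (h * Real.exp (-(h * x)))) := by
  rw [pdf_M4]
  exact gap_M4 hh

theorem ren_M4 (hh : 0 < h) :
    exponentialPDF h + exponentialPDF h ⋆ₗ ((Ici (0 : ℝ)).indicator fun _ => ENNReal.ofReal h) ≤
      (Ici (0 : ℝ)).indicator fun _ => ENNReal.ofReal h := by
  intro x
  have e1 : (exponentialPDF h ⋆ₗ ((Ici (0 : ℝ)).indicator fun _ => ENNReal.ofReal h)) x =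
      (∫⁻ y in Iic x, exponentialPDF h y) * ENNReal.ofReal h := by
    rw [lconvolution_def, ← lintegral_indicator measurableSet_Iic,
      ← lintegral_mul_const _ ((meas_pdf_M4 h).indicator measurableSet_Iic)]
    refine lintegral_congr fun y => ?_
    by_cases hy : y ≤ x
    · rw [indicator_of_mem (mem_Iic.2 hy), indicator_of_mem (mem_Ici.2 (by linarith))]
    · rw [indicator_of_notMem (fun h' => hy (mem_Iic.1 h')),
        indicator_of_notMem (fun h' => hy (by linarith [mem_Ici.1 h'])), mul_zero, zero_mul]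
  rw [Pi.add_apply, e1, lintegral_exponentialPDF_eq_antiDeriv hh]
  by_cases hx : 0 ≤ x
  · have h1 : Real.exp (-(h * x)) ≤ 1 := Real.exp_le_one_iff.2 (by nlinarith)
    have h2 : 0 ≤ 1 - Real.exp (-(h * x)) := by linarith
    rw [if_pos hx, exponentialPDF_of_nonneg hx, indicator_of_mem (mem_Ici.2 hx),
      ← ENNReal.ofReal_mul h2, ← ENNReal.ofReal_add (by positivity) (by positivity)]
    exact ENNReal.ofReal_le_ofReal (le_of_eq (by ring))
  · rw [if_neg hx, exponentialPDF_of_neg (not_le.1 hx), ENNReal.ofReal_zero, zero_mul, add_zero]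
    exact zero_le

theorem upto_M4 (hh : 0 < h) (N : ℕ) : Cv h (fun k => {_ω | k ≠ 0 ∧ k ≤ N})
    ((Ici (0 : ℝ)).indicator fun _ => ENNReal.ofReal h) := by
  have hm : Measurable ((Ici (0 : ℝ)).indicator fun _ => ENNReal.ofReal h) :=
    measurable_const.indicator measurableSet_Ici
  induction N with
  | zero =>
    refine Cv.bot.mono (fun k ω hω => ?_) (fun x => zero_le) hm
    exact absurd (Nat.le_zero.1 hω.2) hω.1
  | succ N ih =>
    refine ((gap_M4 hh).sup ((gap_M4 hh).cat ih)).mono (fun k ω hω => ?_) (ren_M4 hh) hm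
    have h1 : k ≠ 0 := hω.1
    have h2 : k ≤ N + 1 := hω.2
    by_cases hk : k = 1
    · exact Or.inl hk
    · exact Or.inr ⟨1, k - 1, by omega, rfl, ⟨by omega, by omega⟩, mem_univ _⟩

theorem Cv.all (hh : 0 < h) : Cv h allL ((Ici (0 : ℝ)).indicator fun _ => ENNReal.ofReal h) := by
  refine ⟨measurable_const.indicator measurableSet_Ici, allL, le_rfl,
    ⟨fun k => MeasurableSet.const _, fun k ω ω' _ hk => hk⟩, ?_⟩
  refine Measure.le_iff.2 fun A hA => ?_
  rw [mu_apply h allL hA]
  refine ENNReal.tsum_le_of_sum_range_le fun n => ?_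
  obtain ⟨-, M, hM, -, hle⟩ := upto_M4 hh n
  refine le_trans ?_ (Measure.le_iff.1 ((mu_mono hM).trans hle) A hA)
  rw [mu_apply h _ hA]
  refine le_trans (Finset.sum_le_sum fun k hk => measure_mono fun ω hω => ?_)
    (ENNReal.sum_le_tsum (Finset.range n))
  exact ⟨hω.1, hω.2, (Finset.mem_range.1 hk).le⟩

theorem exact_M4 (m : ℕ) : Cv 1 (fun k => {_ω | k = m + 1})
    (it (exponentialPDF 1) (exponentialPDF 1) m) := by
  induction m with
  | zero => exact gap_M4 one_pos
  | succ m ih =>
    refine ((gap_M4 one_pos).cat ih).le fun k ω hω => ?_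
    have h1 : k = m + 1 + 1 := hω
    exact ⟨1, m + 1, by omega, rfl, rfl, mem_univ _⟩

theorem lap1_M4 :
    ∫⁻ x, ENNReal.ofReal (Real.exp (-x)) * exponentialPDF 1 x = ENNReal.ofReal (1 / 2) := by
  have e : ∀ x : ℝ, ENNReal.ofReal (Real.exp (-x)) * exponentialPDF 1 x =
      ENNReal.ofReal (1 / 2) * exponentialPDF 2 x := by
    intro x
    by_cases hx : 0 ≤ x
    · rw [exponentialPDF_of_nonneg hx, exponentialPDF_of_nonneg hx,
        ← ENNReal.ofReal_mul (Real.exp_pos _).le, ← ENNReal.ofReal_mul (by norm_num), one_mul,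
        one_mul, ← Real.exp_add, show -x + -x = -(2 * x) by ring]
      congr 1
      ring
    · rw [exponentialPDF_of_neg (not_le.1 hx), exponentialPDF_of_neg (not_le.1 hx), mul_zero,
        mul_zero]
  rw [lintegral_congr e, lintegral_const_mul _ (meas_pdf_M4 2),
    lintegral_exponentialPDF_eq_one two_pos, mul_one]

theorem lap_M4 (m : ℕ) :
    ∫⁻ x, ENNReal.ofReal (Real.exp (-x)) * it (exponentialPDF 1) (exponentialPDF 1) m x =
      ENNReal.ofReal (1 / 2) ^ (m + 1) := by
  have hφ : Measurable fun x : ℝ => ENNReal.ofReal (Real.exp (-x)) :=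
    (Real.measurable_exp.comp measurable_neg).ennreal_ofReal
  induction m with
  | zero => rw [zero_add, pow_one]; exact lap1_M4
  | succ m ih =>
    have hg := measurable_it (meas_pdf_M4 1) (meas_pdf_M4 1) m
    have e0 : it (exponentialPDF 1) (exponentialPDF 1) (m + 1) =
      exponentialPDF 1 ⋆ₗ it (exponentialPDF 1) (exponentialPDF 1) m := rfl
    rw [e0, lint_lc hφ (meas_pdf_M4 1) hg]
    have e : ∀ u : ℝ, ∫⁻ v, ENNReal.ofReal (Real.exp (-(u + v))) *
        (exponentialPDF 1 u * it (exponentialPDF 1) (exponentialPDF 1) m v) =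
        ENNReal.ofReal (Real.exp (-u)) * exponentialPDF 1 u * ENNReal.ofReal (1 / 2) ^ (m + 1) := by
      intro u
      rw [← ih, ← lintegral_const_mul _ (hφ.fun_mul hg)]
      refine lintegral_congr fun v => ?_
      rw [neg_add, Real.exp_add, ENNReal.ofReal_mul (Real.exp_pos _).le]
      ring
    rw [lintegral_congr e, lintegral_mul_const _ (hφ.fun_mul (meas_pdf_M4 1)), lap1_M4]
    ring

theorem short (m : ℕ) : Q0 {ω | S m ω < m / 10} ≤ ENNReal.ofReal ((3 / 5) ^ m) := by
  cases m with
  | zero =>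
    rw [pow_zero, ENNReal.ofReal_one]
    exact prob_le_one
  | succ m =>
    have hφ : Measurable fun x : ℝ => ENNReal.ofReal (Real.exp (-x)) :=
      (Real.measurable_exp.comp measurable_neg).ennreal_ofReal
    have hg := measurable_it (meas_pdf_M4 1) (meas_pdf_M4 1) m
    obtain ⟨c, hc⟩ : ∃ c : ℝ, c = ((m + 1 : ℕ) : ℝ) / 10 := ⟨_, rfl⟩
    rw [← hc]
    have h1 := ((exact_M4 m).res (A := Iio c) measurableSet_Iio).prob
    have h2 : Q0 {ω | S (m + 1) ω < c} ≤
        Q0 {ω | ∃ k, ω ∈ res 1 (Iio c) (fun k => {_ω | k = m + 1}) k} :=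
      measure_mono fun ω hω => ⟨m + 1, rfl, by rw [div_one]; exact hω⟩
    refine h2.trans (h1.trans ?_)
    have h3 : ∀ x, (Iio c).indicator (it (exponentialPDF 1) (exponentialPDF 1) m) x ≤
        ENNReal.ofReal (Real.exp c) *
          (ENNReal.ofReal (Real.exp (-x)) * it (exponentialPDF 1) (exponentialPDF 1) m x) := by
      intro x
      by_cases hx : x ∈ Iio c
      · rw [indicator_of_mem hx, ← mul_assoc, ← ENNReal.ofReal_mul (Real.exp_pos _).le,
          ← Real.exp_add]
        refine le_mul_of_one_le_left' ?_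
        rw [ENNReal.one_le_ofReal]
        exact Real.one_le_exp (by linarith [mem_Iio.1 hx])
      · rw [indicator_of_notMem hx]
        exact zero_le
    refine (lintegral_mono h3).trans ?_
    rw [lintegral_const_mul _ (hφ.fun_mul hg), lap_M4, ← ENNReal.ofReal_pow (by norm_num),
      ← ENNReal.ofReal_mul (Real.exp_pos _).le]
    refine ENNReal.ofReal_le_ofReal ?_
    have h4 : Real.exp (1 / 10) ≤ 6 / 5 := by
      have := Real.exp_bound_div_one_sub_of_interval (x := 1 / 10) (by norm_num) (by norm_num)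
      linarith [show (1 : ℝ) / (1 - 1 / 10) ≤ 6 / 5 by norm_num]
    have h5 : Real.exp c = Real.exp (1 / 10) ^ (m + 1) := by
      rw [← Real.exp_nat_mul, hc]
      congr 1
      ring
    rw [h5, ← mul_pow]
    exact pow_le_pow_left₀ (by positivity) (by linarith) _

end Pool.Agent.P.SM
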