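import Pool.Agent.P.MP_411dac_pr.M3

/-!
The weight of the new words.
Hints. `Cv.cat_hat`, `Cv.hat_cat`: cases c, `cat_sup`, `cat_pt`. With X0 = res (cl j) X,
Xp = res (cl j)ᶜ X: Fl 1 ≤ (first part of BirthL) ⊔ cat (cat X0 Y) hat ⊔ cat hat (cat Y X0) ⊔ opt c Y,
and cat X0 Y, cat Y X0 have density at most cellD j M M ⋆ cellD j N N. By induction
Cv (Fl (m + 1)) (it q s m). The two tie terms have density 2⁻¹ * tD each.
-/

set_option autoImplicit false
set_option linter.unusedVariables false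

noncomputable section

namespace Pool.Agent.P.SM

open MeasureTheory ProbabilityTheory Set
open scoped ENNReal

variable {h M N : ℝ} {c : Bool} {j : ℕ} {X Y Z : Lang} {f y z : ℝ → ℝ≥0∞}

theorem Cv.cat_hat (hZ : Cv h Z z) (hX : Cv h X f) :
    Cv h (SM.cat Z (hat c X)) (z ⋆ₗ f + oc c z) := by
  cases c with
  | false =>
    have e : hat false X = X := by simp [hat, SM.opt]
    have e' : z ⋆ₗ f + oc false z = z ⋆ₗ f := by simp [oc]
    rw [e, e']
    exact hZ.cat hX
  | true =>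
    have e : SM.cat Z (hat true X) = SM.cat Z X ⊔ Z := by
      have : hat true X = X ⊔ ptL := rfl
      rw [this, cat_sup, cat_pt]
    rw [e]
    exact (hZ.cat hX).sup hZ

theorem Cv.hat_cat (hZ : Cv h Z z) (hX : Cv h X f) :
    Cv h (SM.cat (hat c X) Z) (z ⋆ₗ f + oc c z) := by
  rw [lc_comm z f]
  cases c with
  | false =>
    have e : hat false X = X := by simp [hat, SM.opt]
    have e' : f ⋆ₗ z + oc false z = f ⋆ₗ z := by simp [oc]
    rw [e, e']
    exact hX.cat hZ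
  | true =>
    have e : SM.cat (hat true X) Z = SM.cat X Z ⊔ Z := by
      have : hat true X = X ⊔ ptL := rfl
      rw [this, sup_cat, pt_cat]
    rw [e]
    exact (hX.cat hZ).sup hZ

theorem b1_M5 {P : Lang} {p : ℝ → ℝ≥0∞} (hP : Cv h P p) (hY : Cv h Y y) :
    Cv h (cat P (cat Y P) ⊔ opt c (cat Y P ⊔ cat P Y)) (y ⋆ₗ (p ⋆ₗ p + oc c (p + p))) := by
  have hp := hP.1
  have hy := hY.1
  have hpp : Measurable (p ⋆ₗ p) := measurable_lconvolution volume hp hp
  have e1 : p ⋆ₗ (y ⋆ₗ p) = y ⋆ₗ (p ⋆ₗ p) := by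
    rw [lconvolution_assoc hp hy hp, lc_comm p y, lconvolution_assoc hy hp hp]
  have e2 : oc c (y ⋆ₗ p + p ⋆ₗ y) = y ⋆ₗ oc c (p + p) := by
    cases c with
    | false => simp [oc]
    | true =>
      show y ⋆ₗ p + p ⋆ₗ y = y ⋆ₗ (p + p)
      rw [lc_add hy hp, lc_comm p y]
  rw [lc_add hy hpp, ← e1, ← e2]
  exact (hP.cat (hY.cat hP)).sup (((hY.cat hP).sup (hP.cat hY)).opt c)

theorem half_M5 {t : ℝ → ℝ≥0∞} (ht : Measurable t) (hf : Measurable f) :
    ((fun x => 2⁻¹ * t x) ⋆ₗ f + oc c fun x => 2⁻¹ * t x) +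
      ((fun x => 2⁻¹ * t x) ⋆ₗ f + oc c fun x => 2⁻¹ * t x) = t ⋆ₗ f + oc c t := by
  have hh : ∀ a : ℝ≥0∞, 2⁻¹ * a + 2⁻¹ * a = a := fun a => by
    rw [← add_mul, ENNReal.inv_two_add_inv_two, one_mul]
  rw [smul_lc _ ht hf]
  funext x
  cases c with
  | false =>
    simp only [oc, cond_false, Pi.add_apply, Pi.zero_apply, add_zero]
    exact hh _
  | true =>
    simp only [oc, cond_true, Pi.add_apply]
    calc 2⁻¹ * (t ⋆ₗ f) x + 2⁻¹ * t x + (2⁻¹ * (t ⋆ₗ f) x + 2⁻¹ * t x)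
        = (2⁻¹ * (t ⋆ₗ f) x + 2⁻¹ * (t ⋆ₗ f) x) + (2⁻¹ * t x + 2⁻¹ * t x) := by ring
      _ = (t ⋆ₗ f) x + t x := by rw [hh, hh]

theorem fl_one_M5 {A P : Lang} (hX : A ⊔ P = X) :
    Fl c X Y 1 ≤ (cat P (cat Y P) ⊔ opt c (cat Y P ⊔ cat P Y)) ⊔ cat (cat A Y) (hat c X) ⊔
      cat (hat c X) (cat Y A) ⊔ opt c Y := by
  have e0 : Fl c X Y 1 = cat (cat (hat c X) Y) (hat c X) := rfl
  have eH : hat c X = A ⊔ hat c P := by
    unfold hat
    rw [← hX, sup_assoc]
  have hP : hat c P ≤ hat c X := by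
    rw [eH]
    exact le_sup_right
  have e1 : cat (cat (hat c X) Y) (hat c X) =
      cat (cat A Y) (hat c X) ⊔ cat (cat (hat c P) Y) (hat c X) := by
    rw [← sup_cat, ← sup_cat, ← eH]
  have e2 : cat (cat (hat c P) Y) (hat c X) =
      cat (cat (hat c P) Y) A ⊔ cat (cat (hat c P) Y) (hat c P) := by
    rw [← cat_sup, ← eH]
  have h3 : cat (cat (hat c P) Y) A ≤ cat (hat c X) (cat Y A) := by
    rw [cat_assoc]
    exact cat_mono hP le_rfl
  have h4 : cat (cat (hat c P) Y) (hat c P) ≤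
      (cat P (cat Y P) ⊔ opt c (cat Y P ⊔ cat P Y)) ⊔ opt c Y := by
    cases c with
    | false =>
      have e : hat false P = P := by simp [hat, SM.opt]
      rw [e, cat_assoc]
      exact le_sup_of_le_left le_sup_left
    | true =>
      have e : hat true P = P ⊔ ptL := rfl
      have e' : ∀ L : Lang, opt true L = L := fun _ => rfl
      rw [e, e', e', sup_cat, pt_cat, cat_sup, cat_pt, sup_cat, cat_assoc]
      refine sup_le (sup_le ?_ ?_) (sup_le ?_ ?_)
      · exact le_sup_of_le_left le_sup_left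
      · exact le_sup_of_le_left (le_sup_of_le_right le_sup_left)
      · exact le_sup_of_le_left (le_sup_of_le_right le_sup_right)
      · exact le_sup_right
  rw [e0, e1, e2]
  refine sup_le ?_ (sup_le ?_ ?_)
  · exact le_sup_of_le_left (le_sup_of_le_left le_sup_right)
  · exact h3.trans (le_sup_of_le_left le_sup_right)
  · refine h4.trans (sup_le ?_ le_sup_right)
    exact le_sup_of_le_left (le_sup_of_le_left le_sup_left)

theorem birth_cv (hh : 0 < h) (hX : Cv h X f) (hY : Cv h Y y) (hy : y ≤ cellD j M M)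
    (hf : (cl j).indicator f ≤ cellD j N N) : Cv h (BirthL h c j X Y) (birthD c j f y M N) := by
  have h0 : Cv h (res h (cl j) X) ((cl j).indicator f) := hX.res (measurableSet_cl j)
  have hp : Cv h (res h (cl j)ᶜ X) ((cl j)ᶜ.indicator f) := hX.res (measurableSet_cl j).compl
  have hT : Measurable (cellD j M M ⋆ₗ cellD j N N) :=
    measurable_lconvolution volume (measurable_cellD j M M) (measurable_cellD j N N)
  have hb : Cv h (cat (res h (cl j)ᶜ X) (cat Y (res h (cl j)ᶜ X)) ⊔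
      opt c (cat Y (res h (cl j)ᶜ X) ⊔ cat (res h (cl j)ᶜ X) Y)) (b1D c j f y) := b1_M5 hp hY
  have hge := Cv.tieGE hh h0 hY hf hy
  rw [lc_comm (cellD j N N)] at hge
  have hle := Cv.tieLE hh hY h0 hy hf
  have ht : Cv h (cat (catGE (res h (cl j) X) Y) (hat c X) ⊔
      cat (hat c X) (catLE Y (res h (cl j) X))) (tD c j f M N) := by
    have := (Cv.cat_hat (c := c) hge hX).sup (Cv.hat_cat (c := c) hle hX)
    rw [half_M5 hT hX.1] at this
    exact this
  have hAY : Cv h (cat (res h (cl j) X) Y) (cellD j M M ⋆ₗ cellD j N N) := by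
    refine (h0.cat hY).mono le_rfl ?_ hT
    rw [lc_comm (cellD j M M)]
    exact lc_mono hf hy
  have hYA : Cv h (cat Y (res h (cl j) X)) (cellD j M M ⋆ₗ cellD j N N) :=
    (hY.cat h0).mono le_rfl (lc_mono hy hf) hT
  have h1 : Cv h (Fl c X Y 1) (b1D c j f y + tD c j f M N + tD c j f M N + oc c y) :=
    (((hb.sup (Cv.cat_hat (c := c) hAY hX)).sup (Cv.hat_cat (c := c) hYA hX)).sup
      (hY.opt c)).le (fl_one_M5 (res_sup_compl h (cl j) X))
  have hq : Cv h (cat (hat c X) Y) (y ⋆ₗ f + oc c y) := Cv.hat_cat hY hX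
  have hF : ∀ m, Cv h (Fl c X Y (m + 1))
      (it (y ⋆ₗ f + oc c y) (b1D c j f y + tD c j f M N + tD c j f M N + oc c y) m) := by
    intro m
    induction m with
    | zero => exact h1
    | succ m ih => exact hq.cat ih
  exact (hb.sup ht).sup (Cv.iSup fun m => hF (m + 1))

end Pool.Agent.P.SM
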