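import Pool.Agent.P.MP_411dac_pr.K6
import Pool.Agent.P.MP_411dac_pr.M4
import Pool.Agent.P.MP_411dac_pr.M5
import Pool.Agent.P.MP_411dac_pr.G1
import Pool.Agent.P.MP_411dac_pr.G2

/-!
The invariants.
-/

set_option autoImplicit false
set_option linter.unusedVariables false

noncomputable section

namespace Pool.Agent.P.SM

open MeasureTheory ProbabilityTheory Set
open scoped ENNReal

variable {p p' : Pm} {P P' : Ph} {h X : ℝ} {x : V} {z : V × V} {L L' Y : Lang}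

theorem Cov.le (hx : Cov p h L x) (hL : L' ≤ L) : Cov p h L' x := by
  intro ho
  obtain ⟨f, hc, hr⟩ := hx ho
  exact ⟨f, hc.le hL, hr⟩

theorem Cov.cell (hx : Cov p h L x) (ho : x.ok = true) {j : ℕ} (hj : j < p.n) :
    Cv h (res h (cl j) L) (cellD j (val p x.a j / p.mu ^ j) (val p x.b j / p.mu ^ j)) := by
  obtain ⟨f, hc, hr⟩ := hx ho
  exact (hc.res (measurableSet_cl j)).mono le_rfl ((hr ho).2.cellof hj) (measurable_cellD _ _ _)

theorem Cov.clr_K7 (hp : p.Ok) (j : ℕ) (hx : Cov p h L x) :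
    Cov p h (res h (cl j)ᶜ L) (clr p j x) := by
  intro ho
  obtain ⟨f, hc, hr⟩ := hx ho
  exact ⟨_, hc.res (measurableSet_cl j).compl, clr_rep hp j hr⟩

theorem Cov.tight_K7 (hx : Cov p h L x) : Cov p h L (tight p x) := by
  intro ho
  have ho' : x.ok = true := by
    simp only [tight, Bool.and_eq_true] at ho
    exact ho.1
  obtain ⟨f, hc, hr⟩ := hx ho'
  exact ⟨f, hc, tight_rep hr⟩

theorem add_ok_K7 {y : V} (ho : (add p x y).ok = true) : x.ok = true ∧ y.ok = true := by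
  simp only [add, Bool.and_eq_true] at ho
  exact ho.1

theorem Cov.add_K7 (hp : p.Ok) {y : V} (hx : Cov p h L x) (hy : Cov p h L' y) :
    Cov p h (L ⊔ L') (add p x y) := by
  intro ho
  obtain ⟨f, hc, hr⟩ := hx (add_ok_K7 ho).1
  obtain ⟨g, hc', hr'⟩ := hy (add_ok_K7 ho).2
  exact ⟨_, hc.sup hc', add_rep hp hr hr'⟩

theorem andok_true_K7 (x : V) : andok true x = x := by
  cases x
  simp [andok]

theorem andok_ok_K7 {c : Bool} (ho : (andok c x).ok = true) : x.ok = true ∧ c = true := by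
  simpa only [andok, Bool.and_eq_true] using ho

theorem Cov.andok_K7 {c : Bool} (hx : c = true → Cov p h L x) : Cov p h L (andok c x) := by
  intro ho
  have hc := (andok_ok_K7 ho).2
  subst hc
  rw [andok_true_K7] at ho ⊢
  exact hx rfl ho

theorem Cov.cut_K7 (hh : 0 < h) {c : Bool} {t : ℝ} (hc : c = true → X ≤ p.n * h)
    (hx : Cov p h (Ost X t) x) : Cov p h (Ost X t) (cut c x) := by
  cases c
  · exact hx
  · intro ho
    obtain ⟨f, hf, hr⟩ := hx ho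
    exact ⟨_, (hf.res measurableSet_Iio).le (Ost_cut hh (hc rfl)), cut_rep hr⟩

theorem grow_ok_K7 {nz j ya yb : ℕ} {c : Bool} (ho : (grow p nz c j x ya yb).ok = true) :
    x.ok = true ∧ j < p.n :=
  birth_ok (nz := nz) (ya := ya) (yb := yb) (c := c) (add_ok_K7 ho).2

theorem u_pos_K7 (hp : p.Ok) : 0 < p.u := lt_of_lt_of_le (Nat.two_pow_pos _) hp.1

theorem mu_pos_K7 (hp : p.Ok) : 0 < p.mu := lt_of_lt_of_le one_pos hp.one_le

theorem tr_le_K7 (hp : p.Ok) (hF : p.F = p'.F) (hg : p.g = p'.g) (j d : ℕ) :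
    (d : ℝ) / 2 ^ p.F / p.mu ^ j * p'.mu ^ j ≤ tr j p.u p'.u d / 2 ^ p'.F := by
  have h1 := tr_ge j p'.u d (u_pos_K7 hp)
  have hu : (0 : ℝ) < p.u := by exact_mod_cast u_pos_K7 hp
  have e : (d : ℝ) / 2 ^ p.F / p.mu ^ j * p'.mu ^ j = d * ((p'.u : ℝ) / p.u) ^ j / 2 ^ p'.F := by
    simp only [Pm.mu, div_pow, ← hF, ← hg]
    field_simp
  rw [e]
  exact div_le_div_of_nonneg_right h1 (by positivity)

theorem grow_cov (hp : p.Ok) (hh : 0 < h) (nz : ℕ) (c : Bool) {j ya yb : ℕ} {α β : ℝ}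
    (hx : Cov p h L x) (hY : Cv h Y (cellD j α β)) (hα : α * p.mu ^ j ≤ ya / 2 ^ p.F)
    (hβ : β * p.mu ^ j ≤ yb / 2 ^ p.F) : Cov p h (GrowL h c j L Y) (grow p nz c j x ya yb) := by
  intro ho
  obtain ⟨hxo, hj⟩ := grow_ok_K7 ho
  obtain ⟨f, hc, hr⟩ := hx hxo
  have hμ : 0 < p.mu ^ j := pow_pos (mu_pos_K7 hp) j
  have hF : (0 : ℝ) < 2 ^ p.F := by positivity
  have hy : cellD j α β ≤ cellD j (((max ya yb : ℕ) : ℝ) / 2 ^ p.F / p.mu ^ j)
      (((max ya yb : ℕ) : ℝ) / 2 ^ p.F / p.mu ^ j) := by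
    refine cellD_mono j ?_ ?_
    · rw [le_div_iff₀ hμ]
      exact hα.trans (div_le_div_of_nonneg_right (by exact_mod_cast le_max_left _ _) hF.le)
    · rw [le_div_iff₀ hμ]
      exact hβ.trans (div_le_div_of_nonneg_right (by exact_mod_cast le_max_right _ _) hF.le)
  have hf : (cl j).indicator f ≤
      cellD j (((max (dig p.w x.a j) (dig p.w x.b j) : ℕ) : ℝ) / 2 ^ p.F / p.mu ^ j)
        (((max (dig p.w x.a j) (dig p.w x.b j) : ℕ) : ℝ) / 2 ^ p.F / p.mu ^ j) := by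
    refine ((hr hxo).2.cellof hj).trans (cellD_mono j ?_ ?_)
    · exact div_le_div_of_nonneg_right
        (div_le_div_of_nonneg_right (by exact_mod_cast le_max_left _ _) hF.le) hμ.le
    · exact div_le_div_of_nonneg_right
        (div_le_div_of_nonneg_right (by exact_mod_cast le_max_right _ _) hF.le) hμ.le
  exact ⟨_, hc.sup ((birth_cv (c := c) hh hc hY hy hf).res measurableSet_Ici),
    add_rep hp hr (drp_rep hp j (birth_rep hp nz c hr hα hβ))⟩

theorem e_step (hp : p.Ok) (hh : 0 < h) (nz : ℕ) {j ya yb : ℕ} {α β : ℝ}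
    (hx : Cov p h (Est (j * h)) x)
    (hY : Cv h (Od (j * h) (((j + 1 : ℕ) : ℝ) * h)) (cellD j α β))
    (hα : α * p.mu ^ j ≤ ya / 2 ^ p.F) (hβ : β * p.mu ^ j ≤ yb / 2 ^ p.F) :
    Cov p h (Est (((j + 1 : ℕ) : ℝ) * h)) (tight p (clr p j (grow p nz false j x ya yb))) := by
  refine (((grow_cov hp hh nz false hx hY hα hβ).clr_K7 hp j).le ?_).tight_K7
  exact (Est_succ hh j).trans
    (res_mono _ _ (sup_le_sup_left (res_mono _ _ (Eb_le hh j)) _))

/-- the density of the empty words which die during the step -/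
theorem ed_cv_K7 (hp : p.Ok) (hh : 0 < h) {j ex : ℕ} (hex : j = 0 → h ^ 3 * 2 ^ p.F ≤ ex)
    (hx : Cov p h (Est (j * h)) x) (ho : x.ok = true) (hj : j < p.n) :
    Cv h (Ed (j * h) (((j + 1 : ℕ) : ℝ) * h))
      (cellD j (((dig p.w x.a j + cond (Nat.beq j 0) ex 0 : ℕ) : ℝ) / 2 ^ p.F / p.mu ^ j)
        (((dig p.w x.b j + cond (Nat.beq j 0) ex 0 : ℕ) : ℝ) / 2 ^ p.F / p.mu ^ j)) := by
  obtain ⟨f, hc, hr⟩ := hx ho
  have h0 := (Cv.all hh).res (measurableSet_cl 0)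
  have h3 := (hc.sup ((h0.cat (h0.cat h0)).opt (Nat.beq j 0))).res (measurableSet_cl j)
  refine h3.mono (Ed_le hh j) ?_ (measurable_cellD _ _ _)
  have hμ : 0 < p.mu ^ j := pow_pos (mu_pos_K7 hp) j
  have hF : (0 : ℝ) < 2 ^ p.F := by positivity
  set γ : ℝ := ((cond (Nat.beq j 0) ex 0 : ℕ) : ℝ) / 2 ^ p.F / p.mu ^ j with hγ
  have ea : (((dig p.w x.a j + cond (Nat.beq j 0) ex 0 : ℕ) : ℝ) / 2 ^ p.F / p.mu ^ j) =
      val p x.a j / p.mu ^ j + γ := by
    rw [hγ, val, Nat.cast_add, add_div, add_div]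
  have eb : (((dig p.w x.b j + cond (Nat.beq j 0) ex 0 : ℕ) : ℝ) / 2 ^ p.F / p.mu ^ j) =
      val p x.b j / p.mu ^ j + γ := by
    rw [hγ, val, Nat.cast_add, add_div, add_div]
  rw [ea, eb, indicator_add']
  have hR := (hr ho).2
  refine le_trans (add_le_add (hR.cellof hj) ?_) (cellD_add j
    (div_nonneg (hR.a0 j) hμ.le) (div_nonneg (hR.b0 j) hμ.le) (by positivity))
  rw [cellD_const]
  refine fun t => indicator_le_indicator ?_
  rcases Nat.eq_zero_or_pos j with rfl | hj0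
  · refine (extra_le hh t).trans (ENNReal.ofReal_le_ofReal ?_)
    rw [hγ, pow_zero, div_one, le_div_iff₀ hF]
    exact hex rfl
  · obtain ⟨i, rfl⟩ : ∃ i, j = i + 1 := ⟨j - 1, by omega⟩
    exact zero_le

theorem step_inv (hP : P.Ok) (hh : 0 < h) {j : ℕ} (hX : ((j + 1 : ℕ) : ℝ) * h ≤ X)
    (hc : P.c = true → X ≤ P.o.n * h) (hex : j = 0 → h ^ 3 * 2 ^ P.e.F ≤ P.ex)
    (hz : InvB P h X j z) : InvB P h X (j + 1) (step P j z) := by
  obtain ⟨he, ho, hF, hg⟩ := hP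
  set ea := tr j P.e.u P.o.u (dig P.e.w z.1.a j + cond (Nat.beq j 0) P.ex 0) with hea
  set eb := tr j P.e.u P.o.u (dig P.e.w z.1.b j + cond (Nat.beq j 0) P.ex 0) with heb
  set o1 := andok (z.1.ok && Nat.blt j P.e.n) (grow P.o P.nz true j z.2 ea eb) with ho1
  have hα := tr_le_K7 he hF hg j (dig P.e.w z.1.a j + cond (Nat.beq j 0) P.ex 0)
  have hβ := tr_le_K7 he hF hg j (dig P.e.w z.1.b j + cond (Nat.beq j 0) P.ex 0)
  have hEd : (z.1.ok && Nat.blt j P.e.n) = true → _ := fun hk =>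
    ed_cv_K7 he hh hex hz.1 (Bool.and_eq_true_iff.mp hk).1
      (Nat.blt_eq.mp (Bool.and_eq_true_iff.mp hk).2)
  have hO : Cov P.o h (Ost X (j * h) ⊔
      res h (Ici (j : ℝ)) (Ob X (j * h) (((j + 1 : ℕ) : ℝ) * h))) o1 :=
    Cov.andok_K7 fun hk => (grow_cov ho hh P.nz true hz.2 (hEd hk) hα hβ).le
      (sup_le_sup_left (res_mono _ _ (Ob_le hh j)) _)
  constructor
  · change Cov P.e h _ (tight P.e (clr P.e j (andok o1.ok (grow P.e P.nz false j z.1
      (tr j P.o.u P.e.u (dig P.o.w o1.a j)) (tr j P.o.u P.e.u (dig P.o.w o1.b j))))))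
    rcases hk : o1.ok with _ | _
    · intro hf
      simp [tight, clr, andok] at hf
    · rw [andok_true_K7]
      have hj : j < P.o.n := (grow_ok_K7 (andok_ok_K7 hk).1).2
      exact e_step he hh P.nz hz.1 ((hO.cell hk hj).le (Od_le hh j hX))
        (tr_le_K7 ho hF.symm hg.symm j _) (tr_le_K7 ho hF.symm hg.symm j _)
  · change Cov P.o h _ (tight P.o (cut P.c (add P.o (clr P.o j o1) (cell P.o j ea eb))))
    refine (Cov.cut_K7 hh hc ?_).tight_K7
    intro hf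
    have hk : o1.ok = true := (add_ok_K7 hf).1
    have hcell : Cov P.o h (Ed (j * h) (((j + 1 : ℕ) : ℝ) * h)) (cell P.o j ea eb) :=
      fun _ => ⟨_, hEd (andok_ok_K7 hk).2, cell_rep ho hα hβ⟩
    exact (((hO.clr_K7 ho j).add_K7 ho hcell).le (Ost_succ hh j)) hf

theorem run_inv (hP : P.Ok) (hh : 0 < h) (m : ℕ) {j : ℕ} (hX : ((j + m : ℕ) : ℝ) * h ≤ X)
    (hc : P.c = true → X ≤ P.o.n * h) (hex : j = 0 → h ^ 3 * 2 ^ P.e.F ≤ P.ex)
    (hz : InvB P h X j z) : InvB P h X (j + m) (run P m j z) := by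
  induction m generalizing j z with
  | zero => exact hz
  | succ m ih =>
    have e : j + (m + 1) = j + 1 + m := by omega
    have hX1 : ((j + 1 : ℕ) : ℝ) * h ≤ X :=
      le_trans (mul_le_mul_of_nonneg_right (by exact_mod_cast (by omega)) hh.le) hX
    rw [run, frcV_eq, frcV_eq, frc_eq, e]
    rw [e] at hX
    exact ih hX (fun h0 => absurd h0 (Nat.succ_ne_zero j)) (step_inv hP hh hX1 hc hex hz)

theorem runE_inv (hp : p.Ok) (hh : 0 < h) (nz : ℕ) {hb : ℕ} (hhb : h * 2 ^ p.F ≤ hb) (m : ℕ)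
    {j : ℕ} (hx : Cov p h (Est (j * h)) x) :
    Cov p h (Est (((j + m : ℕ) : ℝ) * h)) (runE p nz hb m j x) := by
  induction m generalizing j x with
  | zero => exact hx
  | succ m ih =>
    have e : j + (m + 1) = j + 1 + m := by omega
    rw [runE, frcV_eq, frc_eq, e]
    refine ih ?_
    have hY : Cv h (Od (j * h) (((j + 1 : ℕ) : ℝ) * h)) (cellD j h h) := by
      refine ((Cv.all hh).res (measurableSet_cl j)).mono (Od_le_all hh j) ?_
        (measurable_cellD _ _ _)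
      rw [cellD_const]
      exact fun t => indicator_le_indicator (indicator_le_self _ _ t)
    have hF : (0 : ℝ) < 2 ^ p.F := by positivity
    have hα : h * p.mu ^ j ≤ tr j (1 <<< p.g) p.u hb / 2 ^ p.F := by
      have h1 := tr_ge j p.u hb (u := 1 <<< p.g) (by rw [Nat.one_shiftLeft]; positivity)
      rw [le_div_iff₀ hF]
      refine le_trans ?_ h1
      rw [Nat.one_shiftLeft, Nat.cast_pow, Nat.cast_ofNat, mul_right_comm]
      exact mul_le_mul_of_nonneg_right hhb (pow_pos (mu_pos_K7 hp) j).le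
    exact e_step hp hh nz hx hY hα hα

theorem reg1_cov (hp : p.Ok) (hp' : p'.Ok) (hx : Cov p h L x) : Cov p' (2 * h) L (reg1 p p' x) := by
  intro ho
  have hxo : x.ok = true := by
    simp only [reg1, halve, ext, Bool.and_eq_true] at ho
    exact ho.1.1.1.1.1
  obtain ⟨f, hc, hr⟩ := hx hxo
  exact ⟨_, hc.regrid, reg1_rep hp hp' hr⟩

theorem reg_inv (hP : P.Ok) (hP' : P'.Ok) (hh : 0 < h) {j : ℕ}
    (hc : P'.c = true → X ≤ P'.o.n * (2 * h)) (hz : InvB P h X (2 * j) z) :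
    InvB P' (2 * h) X j (reg P P' z) := by
  have e : ((2 * j : ℕ) : ℝ) * h = j * (2 * h) := by
    push_cast
    ring
  obtain ⟨h1, h2⟩ := hz
  rw [e] at h1 h2
  rw [reg, frcV_eq, frcV_eq]
  exact ⟨reg1_cov hP.1 hP'.1 h1, (reg1_cov hP.2.1 hP'.2.1 h2).cut_K7 (by positivity) hc⟩

theorem init_inv (hP : P.Ok) {r d c : ℕ} (hh : 0 < h) (hd : 0 < d)
    (hr : Real.exp (-h) ≤ (r : ℝ) / d) (hc : h * 2 ^ P.e.F ≤ c) (hf : fit P.o 0 = true) :
    InvB P h X 0 (init P.e r d c, ⟨0, 0, 0, 0, 0, true⟩) := by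
  have e : ((0 : ℕ) : ℝ) * h = 0 := by simp
  rw [InvB, e]
  exact ⟨fun _ => ⟨_, (Cv.gap hh).le Est_zero, init_rep hP.1 hh hd hr hc⟩,
    fun _ => ⟨_, Cv.bot.le Ost_zero, nil_rep hP.2.1 hf⟩⟩

theorem fin_spec (hp : p.Ok) {hn j : ℕ} (hx : Cov p hn L x) (hf : fin p hn j x = true) :
    7 ≤ j ∧ ∃ (f : ℝ → ℝ≥0∞) (N : ℝ), Cv hn L f ∧ 0 ≤ N ∧ 40 * hn * N ≤ j - 1 ∧
      ∫⁻ t, ENNReal.ofReal (t ^ 2) * f t ≤ ENNReal.ofReal N := by
  simp only [fin, Bool.and_eq_true, Nat.ble_eq, Nat.blt_eq, Nat.shiftLeft_eq,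
    one_mul] at hf
  obtain ⟨⟨⟨ho, h7⟩, hu⟩, hN⟩ := hf
  obtain ⟨f, hc, hr⟩ := hx ho
  have hG : (0 : ℝ) < 2 ^ p.g := by positivity
  have hF : (0 : ℝ) < 2 ^ p.F := by positivity
  have hu' : (2 : ℝ) ^ p.g < p.u := by exact_mod_cast hu
  have hμ : 1 < p.mu := by
    rw [Pm.mu, one_lt_div hG]
    exact hu'
  have hμ1 : 0 < p.mu - 1 := sub_pos.mpr hμ
  refine ⟨h7, f, _, hc, ?_, ?_, (hr.tb hp ho).moment hμ⟩
  · have : 0 < p.mu := by linarith
    positivity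
  · have hN' : (11 : ℝ) * hn * p.u ^ 3 * nr p x ≤
        ((j : ℝ) - 1) * ((p.u : ℝ) - 2 ^ p.g) ^ 2 * (2 ^ p.g * 2 ^ p.F) := by
      have h1 : 1 ≤ j := by omega
      have := (Nat.cast_le (α := ℝ)).mpr hN
      push_cast [Nat.cast_sub h1, Nat.cast_sub hu.le, pow_add] at this
      exact this
    have hd : (0 : ℝ) < (p.u : ℝ) - 2 ^ p.g := sub_pos.mpr hu'
    have e1 : p.mu / (p.mu - 1) = p.u / ((p.u : ℝ) - 2 ^ p.g) := by
      rw [div_eq_div_iff hμ1.ne' hd.ne', Pm.mu]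
      field_simp
    have e : 40 * (hn : ℝ) * (11 / 20 * p.mu * (p.mu / (p.mu - 1)) ^ 2 *
        (nr p x / 2 / 2 ^ p.F)) = 11 * hn * p.u ^ 3 * nr p x /
          (((p.u : ℝ) - 2 ^ p.g) ^ 2 * (2 ^ p.g * 2 ^ p.F)) := by
      rw [e1, Pm.mu]
      field_simp
      ring
    rw [e, div_le_iff₀ (by positivity), ← mul_assoc]
    exact hN'

end Pool.Agent.P.SM
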