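import Pool.Agent.P.MP_411dac_pr.G0
import Pool.Agent.P.MP_411dac_pr.A0

/-!
Weights of languages: elementary rules.
Hints. Compare measures on measurable sets (`Measure.le_iff`) with `mu_apply`. `Cv.regrid`:
mu (2 * h) M A = mu h M {x | x / 2 ∈ A}, then change variables (`lintegral_comp_mul_left` or
`Real.map_volume_mul_left`).
-/

set_option autoImplicit false
set_option linter.unusedVariables false

noncomputable section

namespace Pool.Agent.P.SM

open MeasureTheory ProbabilityTheory Set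
open scoped ENNReal

variable {h : ℝ} {L L' M : Lang} {f f' g : ℝ → ℝ≥0∞}

theorem measurable_S (k : ℕ) : Measurable (S k) := by
  unfold S
  exact Finset.measurable_sum _ fun i _ => measurable_pi_apply i

theorem measurable_sh (k : ℕ) : Measurable (sh k) := by
  unfold sh
  exact measurable_pi_lambda _ fun i => measurable_pi_apply (k + i)

theorem mu_apply (h : ℝ) (L : Lang) {A : Set ℝ} (hA : MeasurableSet A) :
    mu h L A = ∑' k, Q0 ({ω | S k ω / h ∈ A} ∩ L k) := by
  unfold mu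
  rw [Measure.sum_apply _ hA]
  refine tsum_congr fun k => ?_
  have hm : Measurable fun ω : Sq => S k ω / h := (measurable_S k).div_const h
  rw [Measure.map_apply hm hA, Measure.restrict_apply (hm hA)]
  rfl

theorem mu_mono (hL : L ≤ L') : mu h L ≤ mu h L' := by
  rw [Measure.le_iff]
  intro A hA
  rw [mu_apply h L hA, mu_apply h L' hA]
  exact ENNReal.tsum_le_tsum fun k => measure_mono (inter_subset_inter_right _ (hL k))

theorem Cv.mono (hc : Cv h L f) (hL : L' ≤ L) (hf : f ≤ f') (hm : Measurable f') : Cv h L' f' := by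
  obtain ⟨_, M, h1, h2, h3⟩ := hc
  exact ⟨hm, M, hL.trans h1, h2, h3.trans (withDensity_mono (Filter.Eventually.of_forall hf))⟩

theorem Cv.le (hc : Cv h L f) (hL : L' ≤ L) : Cv h L' f :=
  hc.mono hL le_rfl hc.1

theorem Cv.bot : Cv h ⊥ 0 := by
  refine ⟨measurable_const, ⊥, le_rfl, ⟨fun k => MeasurableSet.empty, fun k ω ω' _ hω => hω⟩, ?_⟩
  rw [Measure.le_iff]
  intro A hA
  rw [mu_apply h ⊥ hA]
  have e : ∀ k, ({ω | S k ω / h ∈ A} ∩ (⊥ : Lang) k : Set Sq) = ∅ := fun k => inter_empty _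
  simp only [e, measure_empty, tsum_zero]
  exact zero_le

theorem Cv.sup (hc : Cv h L f) (hc' : Cv h M g) : Cv h (L ⊔ M) (f + g) := by
  obtain ⟨m1, M1, h1, h2, h3⟩ := hc
  obtain ⟨m2, M2, k1, k2, k3⟩ := hc'
  refine ⟨m1.add m2, M1 ⊔ M2, sup_le_sup h1 k1, ⟨fun k => (h2.meas k).union (k2.meas k), ?_⟩, ?_⟩
  · intro k ω ω' e hω
    exact hω.imp (h2.dep k ω ω' e) (k2.dep k ω ω' e)
  · rw [withDensity_add_left m1]
    refine le_trans ?_ (add_le_add h3 k3)
    rw [Measure.le_iff]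
    intro A hA
    rw [Measure.add_apply, mu_apply h _ hA, mu_apply h _ hA, mu_apply h _ hA,
      ← ENNReal.tsum_add]
    refine ENNReal.tsum_le_tsum fun k => ?_
    have e : ({ω | S k ω / h ∈ A} ∩ (M1 ⊔ M2) k : Set Sq) =
        ({ω | S k ω / h ∈ A} ∩ M1 k) ∪ ({ω | S k ω / h ∈ A} ∩ M2 k) :=
      inter_union_distrib_left _ _ _
    rw [e]
    exact measure_union_le _ _

theorem Cv.opt (c : Bool) (hc : Cv h L f) : Cv h (opt c L) (oc c f) := by
  cases c
  · exact Cv.bot
  · exact hc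

theorem Cv.iSup {L : ℕ → Lang} {f : ℕ → ℝ → ℝ≥0∞} (hc : ∀ m, Cv h (L m) (f m)) :
    Cv h (⨆ m, L m) fun x => ∑' m, f m x := by
  have hm : ∀ m, Measurable (f m) := fun m => (hc m).1
  choose M h1 h2 h3 using fun m => (hc m).2
  have e0 : ∀ k, (⨆ m, M m) k = ⋃ m, M m k := fun k => by
    rw [iSup_apply]; rfl
  refine ⟨Measurable.ennreal_tsum hm, ⨆ m, M m, iSup_mono h1, ⟨fun k => ?_, ?_⟩, ?_⟩
  · rw [e0]
    exact MeasurableSet.iUnion fun m => (h2 m).meas k
  · intro k ω ω' e hω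
    rw [e0] at hω ⊢
    obtain ⟨m, hm'⟩ := mem_iUnion.1 hω
    exact mem_iUnion.2 ⟨m, (h2 m).dep k ω ω' e hm'⟩
  · rw [Measure.le_iff]
    intro A hA
    rw [mu_apply h _ hA, withDensity_apply _ hA,
      lintegral_tsum fun m => (hm m).aemeasurable]
    calc ∑' k, Q0 ({ω | S k ω / h ∈ A} ∩ (⨆ m, M m) k)
        ≤ ∑' k, ∑' m, Q0 ({ω | S k ω / h ∈ A} ∩ M m k) := by
          refine ENNReal.tsum_le_tsum fun k => ?_
          rw [e0, inter_iUnion]
          exact measure_iUnion_le _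
      _ = ∑' m, mu h (M m) A := by
          rw [ENNReal.tsum_comm]
          exact tsum_congr fun m => (mu_apply h _ hA).symm
      _ ≤ ∑' m, ∫⁻ x in A, f m x := by
          refine ENNReal.tsum_le_tsum fun m => ?_
          rw [← withDensity_apply _ hA]
          exact h3 m A

theorem Cv.res {A : Set ℝ} (hA : MeasurableSet A) (hc : Cv h L f) :
    Cv h (res h A L) (A.indicator f) := by
  obtain ⟨m1, M, h1, h2, h3⟩ := hc
  refine ⟨m1.indicator hA, SM.res h A M, fun k ω hω => ⟨h1 k hω.1, hω.2⟩, ⟨fun k => ?_, ?_⟩, ?_⟩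
  · exact (h2.meas k).inter (((measurable_S k).div_const h) hA)
  · intro k ω ω' e hω
    refine ⟨h2.dep k ω ω' e hω.1, ?_⟩
    have : S k ω' = S k ω :=
      Finset.sum_congr rfl fun i hi => (e i (Finset.mem_range.1 hi)).symm
    rw [this]
    exact hω.2
  · rw [Measure.le_iff]
    intro B hB
    rw [withDensity_apply _ hB, lintegral_indicator hA, Measure.restrict_restrict hA,
      ← withDensity_apply _ (hA.inter hB)]
    refine le_trans (le_of_eq ?_) (h3 (A ∩ B))
    rw [mu_apply h _ hB, mu_apply h _ (hA.inter hB)]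
    refine tsum_congr fun k => congrArg _ ?_
    ext ω
    exact ⟨fun hω => ⟨⟨hω.2.2, hω.1⟩, hω.2.1⟩, fun hω => ⟨hω.1.2, hω.2, hω.1.1⟩⟩

theorem scale_M1 {F : ℝ → ℝ≥0∞} (hF : Measurable F) :
    ∫⁻ x, F x = ∫⁻ x, 2 * F (2 * x) := by
  have hm : Measurable fun x : ℝ => 2 * x := measurable_const.mul measurable_id
  have hc : Measurable fun x : ℝ => F (2 * x) := hF.comp hm
  rw [lintegral_const_mul _ hc, ← lintegral_map hF hm,
    Real.map_volume_mul_left (two_ne_zero), lintegral_smul_measure, smul_eq_mul, ← mul_assoc]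
  have e : (2 : ℝ≥0∞) * ENNReal.ofReal |(2 : ℝ)⁻¹| = 1 := by
    rw [abs_of_pos (by norm_num), ENNReal.ofReal_inv_of_pos (by norm_num), ENNReal.ofReal_ofNat]
    exact ENNReal.mul_inv_cancel (by norm_num) (by norm_num)
  rw [e, one_mul]

theorem Cv.regrid (hc : Cv h L f) : Cv (2 * h) L fun x => 2 * f (2 * x) := by
  obtain ⟨m1, M, h1, h2, h3⟩ := hc
  have hm : Measurable fun x : ℝ => 2 * x := measurable_const.mul measurable_id
  refine ⟨measurable_const.mul (m1.comp hm), M, h1, h2, ?_⟩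
  rw [Measure.le_iff]
  intro A hA
  have hB : MeasurableSet {x : ℝ | x / 2 ∈ A} := (measurable_id.div_const 2) hA
  have e1 : mu (2 * h) M A = mu h M {x : ℝ | x / 2 ∈ A} := by
    rw [mu_apply _ _ hA, mu_apply _ _ hB]
    refine tsum_congr fun k => congrArg _ ?_
    ext ω
    simp only [mem_inter_iff, mem_setOf_eq, div_div, mul_comm h 2]
  rw [e1]
  refine (h3 _).trans (le_of_eq ?_)
  rw [withDensity_apply _ hB, withDensity_apply _ hA, ← lintegral_indicator hB,
    ← lintegral_indicator hA, scale_M1 (m1.indicator hB)]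
  refine lintegral_congr fun x => ?_
  have e2 : 2 * x / 2 = x := by ring
  by_cases hx : x ∈ A
  · rw [indicator_of_mem hx, indicator_of_mem (show 2 * x ∈ {x : ℝ | x / 2 ∈ A} by
      rw [mem_setOf_eq, e2]; exact hx)]
  · rw [indicator_of_notMem hx, indicator_of_notMem (show 2 * x ∉ {x : ℝ | x / 2 ∈ A} by
      rw [mem_setOf_eq, e2]; exact hx), mul_zero]

theorem Cv.prob (hc : Cv h L f) : Q0 {ω | ∃ k, ω ∈ L k} ≤ ∫⁻ x, f x := by
  obtain ⟨m1, M, h1, h2, h3⟩ := hc
  have e := h3 univ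
  rw [mu_apply _ _ MeasurableSet.univ, withDensity_apply _ MeasurableSet.univ,
    Measure.restrict_univ] at e
  refine le_trans ?_ e
  refine le_trans (measure_mono ?_) (measure_iUnion_le _)
  rintro ω ⟨k, hk⟩
  exact mem_iUnion.2 ⟨k, mem_univ _, h1 k hk⟩

end Pool.Agent.P.SM
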