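import Pool.Agent.P.MP_411dac_pr.M1

/-!
Concatenation.
Hints. `split`: the first k coordinates (extended by 0) and the shifted sequence are independent
(`iIndepFun_infinitePi`, `iIndepFun.indepFun_finset` or `indep_iSup_of_disjoint`, or compare on boxes),
the shifted sequence has law Q0 (`Measure.map_infinitePi_infinitePi_of_inj`). `mu_catC`: for
measurable A bound each Q0 (... ∩ catC C L M k) by the sum over i + j = k, use `split` and
`Measure.prod_sum`. `Cv.cat`: `conv_withDensity_eq_lconvolution`, monotonicity of the product measure.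
-/

set_option autoImplicit false
set_option linter.unusedVariables false

noncomputable section

namespace Pool.Agent.P.SM

open MeasureTheory ProbabilityTheory Set
open scoped ENNReal

variable {h : ℝ} {L M : Lang} {f g : ℝ → ℝ≥0∞}

theorem meas_trunc_M2 (k : ℕ) :
    Measurable fun ω : Sq => (fun i => if i < k then ω i else 0 : Sq) := by
  refine measurable_pi_lambda _ fun i => ?_
  by_cases hi : i < k
  · simp only [hi, if_true]; exact measurable_pi_apply i
  · simp only [hi, if_false]; exact measurable_const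

theorem map_sh_M2 (k : ℕ) : Q0.map (sh k) = Q0 := by
  have := Measure.map_infinitePi_infinitePi_of_inj (P := fun _ : ℕ => expMeasure 1)
    (f := fun i : ℕ => k + i) (add_right_injective k)
  exact this

theorem meas_coord_M2 (T : Set ℕ) {i : ℕ} (hi : i ∈ T) :
    Measurable[⨆ j ∈ T, MeasurableSpace.comap (fun ω : Sq => ω j) inferInstance]
      fun ω : Sq => ω i := by
  refine Measurable.of_comap_le ?_
  exact le_iSup₂_of_le (f := fun j (_ : j ∈ T) =>
    MeasurableSpace.comap (fun ω : Sq => ω j) inferInstance) i hi le_rfl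

theorem split (k : ℕ) : Q0.map (fun ω => ((fun i => if i < k then ω i else 0 : Sq), sh k ω)) =
    (Q0.map fun ω => (fun i => if i < k then ω i else 0 : Sq)).prod Q0 := by
  have hI : iIndepFun (fun (i : ℕ) (ω : Sq) => ω i) Q0 :=
    iIndepFun_infinitePi (P := fun _ : ℕ => expMeasure 1) (X := fun _ x => x)
      fun _ => measurable_id
  have h1 := indep_iSup_of_disjoint (fun i => (measurable_pi_apply i).comap_le) hI.iIndep
    (S := {i | i < k}) (T := {i | k ≤ i})
    (Set.disjoint_left.2 fun i (hi : i < k) (hi' : k ≤ i) => absurd hi (not_lt.2 hi'))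
  have h2 : IndepFun (fun ω : Sq => (fun i => if i < k then ω i else 0 : Sq)) (sh k) Q0 := by
    rw [IndepFun_iff_Indep]
    refine indep_of_indep_of_le h1 ?_ ?_
    · refine Measurable.comap_le ?_
      refine @measurable_pi_lambda _ _ _ (_) _ _ fun i => ?_
      by_cases hi : i < k
      · simp only [hi, if_true]; exact meas_coord_M2 _ hi
      · simp only [hi, if_false]; exact measurable_const
    · refine Measurable.comap_le ?_
      refine @measurable_pi_lambda _ _ _ (_) _ _ fun i => ?_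
      exact meas_coord_M2 {i | k ≤ i} (i := k + i) (Nat.le_add_right k i)
  have h3 := h2.map_prod_eq_prod_map_map (meas_trunc_M2 k).aemeasurable
    (measurable_sh k).aemeasurable
  rw [map_sh_M2] at h3
  exact h3

theorem S_congr_M2 {k : ℕ} {ω ω' : Sq} (hω : ∀ i < k, ω i = ω' i) : S k ω = S k ω' :=
  Finset.sum_congr rfl fun i hi => hω i (Finset.mem_range.1 hi)

theorem prod_eq_M2 (k : ℕ) {G : Set (Sq × Sq)} (hG : MeasurableSet G)
    (hd : ∀ u u' v, (∀ i < k, u i = u' i) → (u, v) ∈ G → (u', v) ∈ G) :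
    Q0 {ω | (ω, sh k ω) ∈ G} = (Q0.prod Q0) G := by
  have hm := meas_trunc_M2 k
  have e1 : ∀ u v, (((fun i => if i < k then u i else 0 : Sq), v) ∈ G) ↔ (u, v) ∈ G := by
    intro u v
    constructor
    · exact hd _ _ _ fun i hi => by simp [hi]
    · exact hd _ _ _ fun i hi => by simp [hi]
  have h1 : Q0 {ω | (ω, sh k ω) ∈ G} =
      (Q0.map (fun ω => ((fun i => if i < k then ω i else 0 : Sq), sh k ω))) G := by
    rw [Measure.map_apply (hm.prodMk (measurable_sh k)) hG]
    congr 1
    ext ω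
    exact (e1 ω _).symm
  rw [h1, split]
  have h2 : (Q0.map fun ω => (fun i => if i < k then ω i else 0 : Sq)).prod Q0 =
      (Q0.prod Q0).map (Prod.map (fun ω => (fun i => if i < k then ω i else 0 : Sq)) id) := by
    rw [← Measure.map_prod_map _ _ hm measurable_id, Measure.map_id]
  rw [h2, Measure.map_apply (hm.prodMap measurable_id) hG]
  congr 1
  ext p
  exact e1 p.1 p.2

theorem Cyl.catC {C : Set (ℝ × ℝ)} (hC : MeasurableSet C) (hL : Cyl L) (hM : Cyl M) :
    Cyl (catC C L M) := by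
  constructor
  · intro k
    have : SM.catC C L M k = ⋃ i, ⋃ j, ({_ω : Sq | i + j = k} ∩ (L i ∩ (sh i ⁻¹' M j ∩
        (fun ω => (S i ω, S j (sh i ω))) ⁻¹' C))) := by
      ext ω
      simp only [SM.catC, mem_ofPred_eq, mem_iUnion, mem_inter_iff, mem_preimage]
    rw [this]
    refine MeasurableSet.iUnion fun i => MeasurableSet.iUnion fun j => ?_
    refine (MeasurableSet.const _).inter ((hL.meas i).inter
      ((measurable_sh i (hM.meas j)).inter ?_))
    exact ((measurable_S i).prodMk ((measurable_S j).comp (measurable_sh i))) hC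
  · rintro k ω ω' hω ⟨i, j, hij, h1, h2, h3⟩
    have e1 : ∀ l < i, ω l = ω' l := fun l hl => hω l (by omega)
    have e2 : ∀ l < j, sh i ω l = sh i ω' l := fun l hl => hω (i + l) (by omega)
    refine ⟨i, j, hij, hL.dep i ω ω' e1 h1, hM.dep j _ _ e2 h2, ?_⟩
    rw [← S_congr_M2 e1, ← S_congr_M2 e2]
    exact h3

instance (h : ℝ) (L : Lang) : SFinite (mu h L) := by unfold mu; infer_instance

theorem mu_catC {C C' : Set (ℝ × ℝ)} (hL : Cyl L) (hM : Cyl M) (hC' : MeasurableSet C')
    (hCC : ∀ a b : ℝ, (a, b) ∈ C → (a / h, b / h) ∈ C') :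
    mu h (catC C L M) ≤ (((mu h L).prod (mu h M)).restrict C').map fun p => p.1 + p.2 := by
  refine Measure.le_iff.2 fun A hA => ?_
  have hadd : Measurable fun p : ℝ × ℝ => p.1 + p.2 := measurable_fst.add measurable_snd
  have hS : ∀ k, Measurable fun ω : Sq => S k ω / h := fun k => (measurable_S k).div_const h
  set D : Set (ℝ × ℝ) := (fun p : ℝ × ℝ => p.1 + p.2) ⁻¹' A ∩ C' with hD
  have hDm : MeasurableSet D := (hadd hA).inter hC'
  set G : ℕ × ℕ → Set (Sq × Sq) := fun p =>
    Prod.map (fun ω : Sq => S p.1 ω / h) (fun ω : Sq => S p.2 ω / h) ⁻¹' D ∩ L p.1 ×ˢ M p.2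
    with hG
  have hGm : ∀ p, MeasurableSet (G p) := fun p =>
    (((hS p.1).prodMap (hS p.2)) hDm).inter ((hL.meas _).prod (hM.meas _))
  have hR : ((((mu h L).prod (mu h M)).restrict C').map fun p => p.1 + p.2) A =
      ∑' p : ℕ × ℕ, Q0 {ω | (ω, sh p.1 ω) ∈ G p} := by
    rw [Measure.map_apply hadd hA, Measure.restrict_apply (hadd hA)]
    unfold mu
    rw [Measure.prod_sum, Measure.sum_apply _ hDm]
    refine tsum_congr fun p => ?_
    rw [Measure.map_prod_map _ _ (hS p.1) (hS p.2),
      Measure.map_apply ((hS p.1).prodMap (hS p.2)) hDm, Measure.prod_restrict,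
      Measure.restrict_apply (((hS p.1).prodMap (hS p.2)) hDm), prod_eq_M2 p.1 (hGm p)]
    rintro u u' v hu ⟨h1, h2, h3⟩
    refine ⟨?_, hL.dep _ _ _ hu h2, h3⟩
    simp only [mem_preimage, Prod.map_apply] at h1 ⊢
    rw [← S_congr_M2 hu]
    exact h1
  rw [hR, mu_apply h _ hA, ← Finset.HasAntidiagonal.sigmaAntidiagonalEquivProd.tsum_eq,
    ENNReal.tsum_sigma']
  refine ENNReal.tsum_le_tsum fun k => ?_
  refine le_trans (measure_mono ?_) (measure_iUnion_le _)
  rintro ω ⟨hω, i, j, hij, h1, h2, h3⟩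
  refine mem_iUnion.2 ⟨⟨(i, j), Finset.HasAntidiagonal.mem_antidiagonal.2 hij⟩, ⟨?_, hCC _ _ h3⟩, h1, h2⟩
  have : S k ω = S i ω + S j (sh i ω) := by
    rw [← hij]
    exact Finset.sum_range_add _ _ _
  simp only [mem_ofPred_eq, this, add_div] at hω
  exact hω

theorem prod_le {ν₁ ν₂ ρ₁ ρ₂ : Measure ℝ} [SFinite ν₂] [SFinite ρ₂] (h₁ : ν₁ ≤ ρ₁)
    (h₂ : ν₂ ≤ ρ₂) : ν₁.prod ν₂ ≤ ρ₁.prod ρ₂ :=
  Measure.prod_mono h₁ h₂

theorem Cv.cat (hc : Cv h L f) (hc' : Cv h M g) : Cv h (cat L M) (f ⋆ₗ g) := by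
  obtain ⟨hf, L', hL, cL, mL⟩ := hc
  obtain ⟨hg, M', hM, cM, mM⟩ := hc'
  refine ⟨measurable_lconvolution volume hf hg, SM.cat L' M', ?_,
    Cyl.catC MeasurableSet.univ cL cM, ?_⟩
  · rintro k ω ⟨i, j, hij, h1, h2, h3⟩
    exact ⟨i, j, hij, hL i h1, hM j h2, h3⟩
  · refine (mu_catC (C' := univ) cL cM MeasurableSet.univ fun _ _ _ => mem_univ _).trans ?_
    rw [Measure.restrict_univ, ← conv_withDensity_eq_lconvolution hf hg]
    exact Measure.map_mono (prod_le mL mM) (measurable_fst.add measurable_snd)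

end Pool.Agent.P.SM
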