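import Pool.Agent.P.MP_411dac_pr.M2

/-!
Two words in the same cell: each order has weight one half.
Hints. With ρ = volume.restrict (cl j) one has withDensity (cellD j a a) = ofReal a • ρ. The
restrictions of ρ.prod ρ to {p.1 ≤ p.2} and to {p.2 ≤ p.1} have the same image under the sum
(`Measure.prod_swap`), and they add up to ρ.prod ρ since the diagonal is null.
-/

set_option autoImplicit false
set_option linter.unusedVariables false

noncomputable section

namespace Pool.Agent.P.SM

open MeasureTheory ProbabilityTheory Set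
open scoped ENNReal

variable {h a b : ℝ} {j : ℕ} {L M : Lang} {f g : ℝ → ℝ≥0∞}

theorem swap_M3 (ρ : Measure ℝ) [SFinite ρ] :
    ((ρ.prod ρ).restrict {p : ℝ × ℝ | p.2 ≤ p.1}).map (fun p => p.1 + p.2) =
      ((ρ.prod ρ).restrict {p : ℝ × ℝ | p.1 ≤ p.2}).map fun p => p.1 + p.2 := by
  have hm : MeasurableSet {p : ℝ × ℝ | p.2 ≤ p.1} := measurableSet_le measurable_snd measurable_fst
  have ha : Measurable fun p : ℝ × ℝ => p.1 + p.2 := measurable_fst.add measurable_snd
  conv_lhs => rw [← Measure.prod_swap, Measure.restrict_map measurable_swap hm,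
    Measure.map_map ha measurable_swap]
  congr 1
  funext p
  simp [add_comm]

theorem half_M3 (j : ℕ) :
    (((volume.restrict (cl j)).prod (volume.restrict (cl j))).restrict
      {p : ℝ × ℝ | p.1 ≤ p.2}).map (fun p => p.1 + p.2) =
    (2⁻¹ : ℝ≥0∞) • ((volume.restrict (cl j)).prod (volume.restrict (cl j))).map
      fun p : ℝ × ℝ => p.1 + p.2 := by
  set ρ : Measure ℝ := volume.restrict (cl j) with hρ
  have hm : MeasurableSet {p : ℝ × ℝ | p.2 ≤ p.1} := measurableSet_le measurable_snd measurable_fst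
  have hm' : MeasurableSet {p : ℝ × ℝ | p.1 ≤ p.2} :=
    measurableSet_le measurable_fst measurable_snd
  have ha : Measurable fun p : ℝ × ℝ => p.1 + p.2 := measurable_fst.add measurable_snd
  have hu : {p : ℝ × ℝ | p.1 ≤ p.2} ∪ {p : ℝ × ℝ | p.2 ≤ p.1} = univ := by
    ext p
    simpa using le_total p.1 p.2
  have hd : (ρ.prod ρ) ({p : ℝ × ℝ | p.1 ≤ p.2} ∩ {p : ℝ × ℝ | p.2 ≤ p.1}) = 0 := by
    rw [Measure.prod_apply (hm'.inter hm)]
    have e : ∀ x : ℝ, ρ (Prod.mk x ⁻¹' ({p : ℝ × ℝ | p.1 ≤ p.2} ∩ {p : ℝ × ℝ | p.2 ≤ p.1})) = 0 := by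
      intro x
      refine measure_mono_null (t := {x}) ?_ (measure_singleton x)
      intro y hy
      exact le_antisymm hy.2 hy.1
    simp only [e, lintegral_zero]
  have hs := Measure.restrict_union_add_inter (μ := ρ.prod ρ) {p : ℝ × ℝ | p.1 ≤ p.2} hm
  rw [hu, Measure.restrict_univ, Measure.restrict_eq_zero.2 hd, add_zero] at hs
  conv_rhs => rw [hs, Measure.map_add _ _ ha, swap_M3, ← two_smul ℝ≥0∞, smul_smul,
    ENNReal.inv_mul_cancel two_ne_zero ENNReal.ofNat_ne_top, one_smul]

theorem dens_M3 (j : ℕ) (a : ℝ) :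
    volume.withDensity (cellD j a a) = ENNReal.ofReal a • volume.restrict (cl j) := by
  rw [cellD_const, withDensity_indicator (measurableSet_cl j), withDensity_const]

theorem tie_M3 {C : Set (ℝ × ℝ)} (hC : MeasurableSet C)
    (hCC : ∀ x y : ℝ, (x, y) ∈ C → (x / h, y / h) ∈ C)
    (hhalf : (((volume.restrict (cl j)).prod (volume.restrict (cl j))).restrict C).map
      (fun p => p.1 + p.2) =
      (2⁻¹ : ℝ≥0∞) • ((volume.restrict (cl j)).prod (volume.restrict (cl j))).map
        fun p : ℝ × ℝ => p.1 + p.2)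
    (hc : Cv h L f) (hc' : Cv h M g) (hf : f ≤ cellD j a a) (hg : g ≤ cellD j b b) :
    Cv h (catC C L M) fun x => 2⁻¹ * (cellD j a a ⋆ₗ cellD j b b) x := by
  obtain ⟨-, L', hL, cL, mL⟩ := hc
  obtain ⟨-, M', hM, cM, mM⟩ := hc'
  have hmc : Measurable (cellD j a a ⋆ₗ cellD j b b) :=
    measurable_lconvolution volume (measurable_cellD j a a) (measurable_cellD j b b)
  have ha : Measurable fun p : ℝ × ℝ => p.1 + p.2 := measurable_fst.add measurable_snd
  refine ⟨hmc.const_mul _, catC C L' M', ?_, Cyl.catC hC cL cM, ?_⟩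
  · rintro k ω ⟨i, l, h1, h2, h3, h4⟩
    exact ⟨i, l, h1, hL i h2, hM l h3, h4⟩
  · have h1 : mu h L' ≤ volume.withDensity (cellD j a a) :=
      mL.trans (withDensity_mono (Filter.Eventually.of_forall hf))
    have h2 : mu h M' ≤ volume.withDensity (cellD j b b) :=
      mM.trans (withDensity_mono (Filter.Eventually.of_forall hg))
    refine (mu_catC cL cM hC hCC).trans
      ((Measure.map_mono (Measure.restrict_mono subset_rfl (prod_le h1 h2)) ha).trans (le_of_eq ?_))
    have e : (fun x => 2⁻¹ * (cellD j a a ⋆ₗ cellD j b b) x) =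
        (2⁻¹ : ℝ≥0∞) • (cellD j a a ⋆ₗ cellD j b b) := rfl
    rw [e, withDensity_smul _ hmc, ← conv_withDensity_eq_lconvolution (measurable_cellD j a a)
      (measurable_cellD j b b), dens_M3, dens_M3]
    unfold Measure.conv
    rw [Measure.prod_smul_left, Measure.prod_smul_right, Measure.restrict_smul,
      Measure.restrict_smul, Measure.map_smul, Measure.map_smul, Measure.map_smul,
      Measure.map_smul, hhalf, smul_comm (ENNReal.ofReal b), smul_comm (ENNReal.ofReal a)]

theorem Cv.tieLE (hh : 0 < h) (hc : Cv h L f) (hc' : Cv h M g) (hf : f ≤ cellD j a a)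
    (hg : g ≤ cellD j b b) :
    Cv h (catLE L M) fun x => 2⁻¹ * (cellD j a a ⋆ₗ cellD j b b) x := by
  exact tie_M3 (measurableSet_le measurable_fst measurable_snd)
    (fun x y hxy => div_le_div_of_nonneg_right hxy hh.le) (half_M3 j) hc hc' hf hg

theorem Cv.tieGE (hh : 0 < h) (hc : Cv h L f) (hc' : Cv h M g) (hf : f ≤ cellD j a a)
    (hg : g ≤ cellD j b b) :
    Cv h (catGE L M) fun x => 2⁻¹ * (cellD j a a ⋆ₗ cellD j b b) x := by
  exact tie_M3 (measurableSet_le measurable_snd measurable_fst)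
    (fun x y hxy => div_le_div_of_nonneg_right hxy hh.le) ((swap_M3 _).trans (half_M3 j))
    hc hc' hf hg

end Pool.Agent.P.SM
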