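import Pool.Agent.P.MP_411dac_pr.A0

/-!
The convolution of two piecewise linear functions.
Hints. `lint_cells` for u ↦ pl a b u * pl a' b' (-u + (l + y)). On the cell i, u = i + v: for v ≤ y the
second argument is (l - i) + (y - v) if i ≤ l, for v > y it is (l - 1 - i) + (1 + y - v) if i < l, and it
is negative otherwise. Each piece is the integral of a polynomial in v
(`ofReal_integral_eq_lintegral_ofReal`, `integral_pow`).
-/

set_option autoImplicit false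
set_option linter.unusedVariables false

noncomputable section

namespace Pool.Agent.P.SM

open MeasureTheory ProbabilityTheory Set
open scoped ENNReal

variable {μ : ℝ} {a b a' b' : ℕ → ℝ}

theorem pl_neg_S1 {x : ℝ} (hx : x < 0) : pl μ a b x = 0 := by
  unfold pl
  rw [if_neg (not_le.mpr hx)]

theorem pl_conv_neg {x : ℝ} (hx : x < 0) : (pl μ a b ⋆ₗ pl μ a' b') x = 0 := by
  rw [lconvolution_def]
  have h : (fun u : ℝ => pl μ a b u * pl μ a' b' (-u + x)) = fun _ => 0 := by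
    funext u
    by_cases hu : u < 0
    · rw [pl_neg_S1 hu, zero_mul]
    · rw [pl_neg_S1 (x := -u + x) (by linarith [not_lt.mp hu]), mul_zero]
  rw [h, lintegral_zero]

theorem poly_int_S1 (c0 c1 c2 s t : ℝ) :
    ∫ v in s..t, (c0 + c1 * v + c2 * v ^ 2) =
      c0 * (t - s) + c1 * ((t ^ 2 - s ^ 2) / 2) + c2 * ((t ^ 3 - s ^ 3) / 3) := by
  have h : ∀ v : ℝ, HasDerivAt (fun v : ℝ => c0 * v + c1 * (v ^ 2 / 2) + c2 * (v ^ 3 / 3))
      (c0 + c1 * v + c2 * v ^ 2) v := by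
    intro v
    have h1 : HasDerivAt (fun v : ℝ => c0 * v) (c0 * 1) v := (hasDerivAt_id v).const_mul c0
    have h2 : HasDerivAt (fun v : ℝ => c1 * (v ^ 2 / 2)) (c1 * (((2 : ℕ) : ℝ) * v ^ (2 - 1) / 2)) v :=
      ((hasDerivAt_pow 2 v).div_const 2).const_mul c1
    have h3 : HasDerivAt (fun v : ℝ => c2 * (v ^ 3 / 3)) (c2 * (((3 : ℕ) : ℝ) * v ^ (3 - 1) / 3)) v :=
      ((hasDerivAt_pow 3 v).div_const 3).const_mul c2
    have h4 := (h1.add h2).add h3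
    have e : c0 * 1 + c1 * (((2 : ℕ) : ℝ) * v ^ (2 - 1) / 2) + c2 * (((3 : ℕ) : ℝ) * v ^ (3 - 1) / 3)
        = c0 + c1 * v + c2 * v ^ 2 := by
      push_cast
      ring
    rw [e] at h4
    exact h4
  rw [intervalIntegral.integral_eq_sub_of_hasDerivAt (fun v _ => h v)
    ((by fun_prop : Continuous fun v : ℝ => c0 + c1 * v + c2 * v ^ 2).intervalIntegrable _ _)]
  ring

theorem lint_poly_S1 (c0 c1 c2 : ℝ) {s t : ℝ} (hst : s ≤ t)
    (hp : ∀ v, s ≤ v → v ≤ t → 0 ≤ c0 + c1 * v + c2 * v ^ 2) :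
    ∫⁻ v in Ioo s t, ENNReal.ofReal (c0 + c1 * v + c2 * v ^ 2) =
      ENNReal.ofReal
        (c0 * (t - s) + c1 * ((t ^ 2 - s ^ 2) / 2) + c2 * ((t ^ 3 - s ^ 3) / 3)) := by
  have hc : Continuous fun v : ℝ => c0 + c1 * v + c2 * v ^ 2 := by fun_prop
  rw [← poly_int_S1, intervalIntegral.integral_of_le hst, integral_Ioc_eq_integral_Ioo]
  symm
  apply ofReal_integral_eq_lintegral_ofReal
  · exact (hc.integrableOn_Icc (a := s) (b := t)).mono_set Ioo_subset_Icc_self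
  · refine (ae_restrict_iff' measurableSet_Ioo).mpr (Filter.Eventually.of_forall ?_)
    intro v hv
    exact hp v hv.1.le hv.2.le

theorem piece1_S1 {α β α' β' y : ℝ} (hα : 0 ≤ α) (hβ : 0 ≤ β) (hα' : 0 ≤ α') (hβ' : 0 ≤ β')
    (h0 : 0 ≤ y) (h1 : y < 1) :
    ∫⁻ v in Ioo 0 y, ENNReal.ofReal (α * (1 - v) + β * v) *
        ENNReal.ofReal (α' * (1 - (y - v)) + β' * (y - v)) =
      ENNReal.ofReal (α * α' * (y - y ^ 2 + y ^ 3 / 6) + (α * β' + β * α') * (y ^ 2 / 2 - y ^ 3 / 6)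
        + β * β' * (y ^ 3 / 6)) := by
  have key : ∀ v : ℝ, (α * (1 - v) + β * v) * (α' * (1 - (y - v)) + β' * (y - v)) =
      α * (α' * (1 - y) + β' * y) + (α * (α' - β') + (β - α) * (α' * (1 - y) + β' * y)) * v +
        (β - α) * (α' - β') * v ^ 2 := by
    intro v
    ring
  have hn : ∀ v, 0 ≤ v → v ≤ y → 0 ≤ α * (1 - v) + β * v := by
    intro v hv hv'
    have : 0 ≤ 1 - v := by linarith
    positivity
  have hn' : ∀ v, 0 ≤ v → v ≤ y → 0 ≤ α' * (1 - (y - v)) + β' * (y - v) := by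
    intro v hv hv'
    have : 0 ≤ 1 - (y - v) := by linarith
    have : 0 ≤ y - v := by linarith
    positivity
  rw [setLIntegral_congr_fun measurableSet_Ioo (g := fun v => ENNReal.ofReal
      (α * (α' * (1 - y) + β' * y) + (α * (α' - β') + (β - α) * (α' * (1 - y) + β' * y)) * v +
        (β - α) * (α' - β') * v ^ 2))
    (fun v hv => by
      show _ = ENNReal.ofReal _
      rw [← key, ENNReal.ofReal_mul (hn v hv.1.le hv.2.le)])]
  rw [lint_poly_S1 _ _ _ h0 (fun v hv hv' => by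
    rw [← key]
    exact mul_nonneg (hn v hv hv') (hn' v hv hv'))]
  congr 1
  ring

theorem piece2_S1 {α β α' β' y : ℝ} (hα : 0 ≤ α) (hβ : 0 ≤ β) (hα' : 0 ≤ α') (hβ' : 0 ≤ β')
    (h0 : 0 ≤ y) (h1 : y < 1) :
    ∫⁻ v in Ioo y 1, ENNReal.ofReal (α * (1 - v) + β * v) *
        ENNReal.ofReal (α' * (1 - (1 + y - v)) + β' * (1 + y - v)) =
      ENNReal.ofReal (β * β' * ((1 - y) - (1 - y) ^ 2 + (1 - y) ^ 3 / 6) +
        (α * β' + β * α') * ((1 - y) ^ 2 / 2 - (1 - y) ^ 3 / 6) + α * α' * ((1 - y) ^ 3 / 6)) := by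
  have key : ∀ v : ℝ, (α * (1 - v) + β * v) * (α' * (1 - (1 + y - v)) + β' * (1 + y - v)) =
      α * (α' * (-y) + β' * (1 + y)) + (α * (α' - β') + (β - α) * (α' * (-y) + β' * (1 + y))) * v +
        (β - α) * (α' - β') * v ^ 2 := by
    intro v
    ring
  have hn : ∀ v, y ≤ v → v ≤ 1 → 0 ≤ α * (1 - v) + β * v := by
    intro v hv hv'
    have : 0 ≤ 1 - v := by linarith
    have : 0 ≤ v := by linarith
    positivity
  have hn' : ∀ v, y ≤ v → v ≤ 1 → 0 ≤ α' * (1 - (1 + y - v)) + β' * (1 + y - v) := by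
    intro v hv hv'
    have : 0 ≤ 1 - (1 + y - v) := by linarith
    have : 0 ≤ 1 + y - v := by linarith
    positivity
  rw [setLIntegral_congr_fun measurableSet_Ioo (g := fun v => ENNReal.ofReal
      (α * (α' * (-y) + β' * (1 + y)) + (α * (α' - β') + (β - α) * (α' * (-y) + β' * (1 + y))) * v +
        (β - α) * (α' - β') * v ^ 2))
    (fun v hv => by
      show _ = ENNReal.ofReal _
      rw [← key, ENNReal.ofReal_mul (hn v hv.1.le hv.2.le)])]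
  rw [lint_poly_S1 _ _ _ h1.le (fun v hv hv' => by
    rw [← key]
    exact mul_nonneg (hn v hv hv') (hn' v hv hv'))]
  congr 1
  ring

theorem split_S1 (F : ℝ → ℝ≥0∞) {y : ℝ} (h0 : 0 ≤ y) (h1 : y < 1) :
    ∫⁻ v in Ico (0 : ℝ) 1, F v ≤ (∫⁻ v in Ioo 0 y, F v) + ∫⁻ v in Ioo y 1, F v := by
  have hs : Ico (0 : ℝ) 1 ⊆ Icc 0 y ∪ Ioo y 1 := by
    intro v hv
    by_cases h : v ≤ y
    · exact Or.inl ⟨hv.1, h⟩
    · exact Or.inr ⟨not_le.mp h, hv.2⟩
  calc ∫⁻ v in Ico (0 : ℝ) 1, F v ≤ ∫⁻ v in Icc 0 y ∪ Ioo y 1, F v := lintegral_mono_set hs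
    _ ≤ (∫⁻ v in Icc 0 y, F v) + ∫⁻ v in Ioo y 1, F v := lintegral_union_le _ _ _
    _ = _ := by rw [setLIntegral_congr (Ioo_ae_eq_Icc (μ := volume) (a := (0 : ℝ)) (b := y))]

theorem pl_cell_S1 (μ : ℝ) (a b : ℕ → ℝ) (l : ℕ) {y : ℝ} (h0 : 0 ≤ y) (h1 : y < 1) :
    pl μ a b (l + y) = ENNReal.ofReal (a l / μ ^ l * (1 - y) + b l / μ ^ l * y) := by
  rw [pl_cell μ a b l h0 h1]
  congr 1
  ring

/-- the first piece of the cell `i` -/
def q1_S1 (μ : ℝ) (a b a' b' : ℕ → ℝ) (l i : ℕ) (y : ℝ) : ℝ :=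
  (a i * a' (l - i) * (y - y ^ 2 + y ^ 3 / 6) +
    (a i * b' (l - i) + b i * a' (l - i)) * (y ^ 2 / 2 - y ^ 3 / 6) +
    b i * b' (l - i) * (y ^ 3 / 6)) / μ ^ l

/-- the second piece of the cell `i` -/
def q2_S1 (μ : ℝ) (a b a' b' : ℕ → ℝ) (l i : ℕ) (y : ℝ) : ℝ :=
  (b i * b' (l - i) * ((1 - y) - (1 - y) ^ 2 + (1 - y) ^ 3 / 6) +
    (a i * b' (l - i) + b i * a' (l - i)) * ((1 - y) ^ 2 / 2 - (1 - y) ^ 3 / 6) +
    a i * a' (l - i) * ((1 - y) ^ 3 / 6)) / μ ^ l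

theorem coef_S1 {y : ℝ} (h0 : 0 ≤ y) (h1 : y ≤ 1) :
    0 ≤ y - y ^ 2 + y ^ 3 / 6 ∧ 0 ≤ y ^ 2 / 2 - y ^ 3 / 6 ∧ 0 ≤ y ^ 3 / 6 := by
  have h2 : 0 ≤ y * (1 - y) := mul_nonneg h0 (by linarith)
  have h3 : 0 ≤ y ^ 2 * (3 - y) := mul_nonneg (by positivity) (by linarith)
  have h4 : 0 ≤ y ^ 3 := by positivity
  refine ⟨by nlinarith, by nlinarith, by positivity⟩

theorem q1_nonneg_S1 (hμ : 0 < μ) (ha : ∀ l, 0 ≤ a l) (hb : ∀ l, 0 ≤ b l) (ha' : ∀ l, 0 ≤ a' l)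
    (hb' : ∀ l, 0 ≤ b' l) (l i : ℕ) {y : ℝ} (h0 : 0 ≤ y) (h1 : y < 1) :
    0 ≤ q1_S1 μ a b a' b' l i y := by
  obtain ⟨c1, c2, c3⟩ := coef_S1 h0 h1.le
  have := ha i
  have := hb i
  have := ha' (l - i)
  have := hb' (l - i)
  unfold q1_S1
  positivity

theorem q2_nonneg_S1 (hμ : 0 < μ) (ha : ∀ l, 0 ≤ a l) (hb : ∀ l, 0 ≤ b l) (ha' : ∀ l, 0 ≤ a' l)
    (hb' : ∀ l, 0 ≤ b' l) (l i : ℕ) {y : ℝ} (h0 : 0 ≤ y) (h1 : y < 1) :
    0 ≤ q2_S1 μ a b a' b' l i y := by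
  obtain ⟨c1, c2, c3⟩ := coef_S1 (y := 1 - y) (by linarith) (by linarith)
  have := ha i
  have := hb i
  have := ha' (l - i)
  have := hb' (l - i)
  unfold q2_S1
  positivity

theorem cell1_S1 (hμ : 0 < μ) (ha : ∀ l, 0 ≤ a l) (hb : ∀ l, 0 ≤ b l) (ha' : ∀ l, 0 ≤ a' l)
    (hb' : ∀ l, 0 ≤ b' l) (l i : ℕ) {y : ℝ} (h0 : 0 ≤ y) (h1 : y < 1) :
    ∫⁻ v in Ioo 0 y, pl μ a b (i + v) * pl μ a' b' (-((i : ℝ) + v) + (l + y)) =
      if i < l + 1 then ENNReal.ofReal (q1_S1 μ a b a' b' l i y) else 0 := by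
  split_ifs with hi
  · obtain ⟨j, rfl⟩ : ∃ j, l = i + j := ⟨l - i, by omega⟩
    have hp : 0 < μ ^ i := pow_pos hμ i
    have hq : 0 < μ ^ j := pow_pos hμ j
    rw [setLIntegral_congr_fun measurableSet_Ioo (g := fun v =>
      ENNReal.ofReal (a i / μ ^ i * (1 - v) + b i / μ ^ i * v) *
        ENNReal.ofReal (a' j / μ ^ j * (1 - (y - v)) + b' j / μ ^ j * (y - v)))
      (fun v hv => by
        have e : -((i : ℝ) + v) + (((i + j : ℕ) : ℝ) + y) = (j : ℝ) + (y - v) := by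
          push_cast
          ring
        show _ * _ = _ * _
        rw [e, pl_cell_S1 μ a b i hv.1.le (hv.2.trans h1),
          pl_cell_S1 μ a' b' j (by linarith [hv.2]) (by linarith [hv.1])])]
    rw [piece1_S1 (div_nonneg (ha i) hp.le) (div_nonneg (hb i) hp.le) (div_nonneg (ha' j) hq.le)
      (div_nonneg (hb' j) hq.le) h0 h1]
    congr 1
    unfold q1_S1
    rw [Nat.add_sub_cancel_left, pow_add]
    field_simp
  · rw [setLIntegral_congr_fun measurableSet_Ioo (g := fun _ => 0) (fun v hv => by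
      have hl : (l : ℝ) + 1 ≤ i := by exact_mod_cast not_lt.mp hi
      show _ * _ = 0
      rw [pl_neg_S1 (x := -((i : ℝ) + v) + (l + y)) (by linarith [hv.1]), mul_zero])]
    exact lintegral_zero

theorem cell2_S1 (hμ : 0 < μ) (ha : ∀ l, 0 ≤ a l) (hb : ∀ l, 0 ≤ b l) (ha' : ∀ l, 0 ≤ a' l)
    (hb' : ∀ l, 0 ≤ b' l) (l i : ℕ) {y : ℝ} (h0 : 0 ≤ y) (h1 : y < 1) :
    ∫⁻ v in Ioo y 1, pl μ a b (i + v) * pl μ a' b' (-((i : ℝ) + v) + (l + y)) =
      if i < l then ENNReal.ofReal (q2_S1 μ a b a' b' (l - 1) i y) else 0 := by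
  split_ifs with hi
  · obtain ⟨j, rfl⟩ : ∃ j, l = i + j + 1 := ⟨l - i - 1, by omega⟩
    have hp : 0 < μ ^ i := pow_pos hμ i
    have hq : 0 < μ ^ j := pow_pos hμ j
    rw [setLIntegral_congr_fun measurableSet_Ioo (g := fun v =>
      ENNReal.ofReal (a i / μ ^ i * (1 - v) + b i / μ ^ i * v) *
        ENNReal.ofReal (a' j / μ ^ j * (1 - (1 + y - v)) + b' j / μ ^ j * (1 + y - v)))
      (fun v hv => by
        have e : -((i : ℝ) + v) + (((i + j + 1 : ℕ) : ℝ) + y) = (j : ℝ) + (1 + y - v) := by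
          push_cast
          ring
        show _ * _ = _ * _
        rw [e, pl_cell_S1 μ a b i (h0.trans hv.1.le) hv.2,
          pl_cell_S1 μ a' b' j (by linarith [hv.2]) (by linarith [hv.1])])]
    rw [piece2_S1 (div_nonneg (ha i) hp.le) (div_nonneg (hb i) hp.le) (div_nonneg (ha' j) hq.le)
      (div_nonneg (hb' j) hq.le) h0 h1]
    congr 1
    unfold q2_S1
    rw [Nat.add_sub_cancel, Nat.add_sub_cancel_left, pow_add]
    field_simp
  · rw [setLIntegral_congr_fun measurableSet_Ioo (g := fun _ => 0) (fun v hv => by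
      have hl : (l : ℝ) ≤ i := by exact_mod_cast not_lt.mp hi
      show _ * _ = 0
      rw [pl_neg_S1 (x := -((i : ℝ) + v) + (l + y)) (by linarith [hv.1]), mul_zero])]
    exact lintegral_zero

theorem tsum_if_S1 (n : ℕ) (q : ℕ → ℝ) (hq : ∀ i, 0 ≤ q i) :
    ∑' i : ℕ, (if i < n then ENNReal.ofReal (q i) else 0) =
      ENNReal.ofReal (∑ i ∈ Finset.range n, q i) := by
  rw [tsum_eq_sum (s := Finset.range n) (fun i hi => if_neg (by simpa using hi)),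
    ENNReal.ofReal_sum_of_nonneg (fun i _ => hq i)]
  exact Finset.sum_congr rfl fun i hi => if_pos (Finset.mem_range.mp hi)

theorem sum_q1_S1 (μ : ℝ) (a b a' b' : ℕ → ℝ) (l : ℕ) (y : ℝ) :
    ∑ i ∈ Finset.range (l + 1), q1_S1 μ a b a' b' l i y =
      (cv a a' l * (y - y ^ 2 + y ^ 3 / 6) + (cv a b' l + cv b a' l) * (y ^ 2 / 2 - y ^ 3 / 6) +
        cv b b' l * (y ^ 3 / 6)) / μ ^ l := by
  unfold q1_S1 cv
  rw [← Finset.sum_div, Finset.sum_add_distrib, Finset.sum_add_distrib, ← Finset.sum_mul,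
    ← Finset.sum_mul, ← Finset.sum_mul, Finset.sum_add_distrib]

theorem sum_q2_S1 (μ : ℝ) (a b a' b' : ℕ → ℝ) (l : ℕ) (y : ℝ) :
    ∑ i ∈ Finset.range (l + 1), q2_S1 μ a b a' b' l i y =
      (cv b b' l * ((1 - y) - (1 - y) ^ 2 + (1 - y) ^ 3 / 6) +
        (cv a b' l + cv b a' l) * ((1 - y) ^ 2 / 2 - (1 - y) ^ 3 / 6) +
        cv a a' l * ((1 - y) ^ 3 / 6)) / μ ^ l := by
  unfold q2_S1 cv
  rw [← Finset.sum_div, Finset.sum_add_distrib, Finset.sum_add_distrib, ← Finset.sum_mul,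
    ← Finset.sum_mul, ← Finset.sum_mul, Finset.sum_add_distrib]

theorem pl_conv (hμ : 0 < μ) (ha : ∀ l, 0 ≤ a l) (hb : ∀ l, 0 ≤ b l) (ha' : ∀ l, 0 ≤ a' l)
    (hb' : ∀ l, 0 ≤ b' l) (l : ℕ) {y : ℝ} (h0 : 0 ≤ y) (h1 : y < 1) :
    (pl μ a b ⋆ₗ pl μ a' b') (l + y) ≤
      ENNReal.ofReal (phi μ (cv a a') (cv a b' + cv b a') (cv b b') l y / μ ^ l) := by
  rw [lconvolution_def]
  have hm : Measurable fun u : ℝ => pl μ a b u * pl μ a' b' (-u + (l + y)) :=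
    (measurable_pl μ a b).mul ((measurable_pl μ a' b').comp (measurable_neg.add_const _))
  rw [lint_cells hm (fun x hx => by rw [pl_neg_S1 hx, zero_mul])]
  have h1q := fun i => q1_nonneg_S1 hμ ha hb ha' hb' l i h0 h1
  have h2q := fun i => q2_nonneg_S1 hμ ha hb ha' hb' (l - 1) i h0 h1
  calc ∑' i : ℕ, ∫⁻ v in Ico (0 : ℝ) 1, pl μ a b (i + v) * pl μ a' b' (-((i : ℝ) + v) + (l + y))
      ≤ ∑' i : ℕ, ((if i < l + 1 then ENNReal.ofReal (q1_S1 μ a b a' b' l i y) else 0) +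
          if i < l then ENNReal.ofReal (q2_S1 μ a b a' b' (l - 1) i y) else 0) := by
        refine ENNReal.tsum_le_tsum fun i => ?_
        rw [← cell1_S1 hμ ha hb ha' hb' l i h0 h1, ← cell2_S1 hμ ha hb ha' hb' l i h0 h1]
        exact split_S1 _ h0 h1
    _ = ENNReal.ofReal (∑ i ∈ Finset.range (l + 1), q1_S1 μ a b a' b' l i y +
          ∑ i ∈ Finset.range l, q2_S1 μ a b a' b' (l - 1) i y) := by
        rw [ENNReal.tsum_add, tsum_if_S1 _ _ h1q, tsum_if_S1 _ _ h2q,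
          ENNReal.ofReal_add (Finset.sum_nonneg fun i _ => h1q i)
            (Finset.sum_nonneg fun i _ => h2q i)]
    _ = _ := by
        congr 1
        rw [sum_q1_S1]
        unfold phi
        cases l with
        | zero => simp [shf]
        | succ k =>
          rw [Nat.add_sub_cancel, sum_q2_S1]
          simp only [shf, Pi.add_apply]
          have := hμ.ne'
          field_simp
          ring

end Pool.Agent.P.SM
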